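import Mathlib
import Pool.Agent.Lib.MP_f9aece_nt.LogSub
import Pool.Agent.Lib.MP_f9aece_nt_rt.Shift

/-!
S13, part 1: from the interval `[0, T]` to the randomly shifted moment, and the logarithm.
-/

set_option autoImplicit false

namespace Pool.Agent.Lib.MP_f9aece_nt_r3

open MeasureTheory Set Filter Topology Complex
open Pool.Agent.Lib.MP_f9aece_nt
open Pool.Agent.Lib.MP_f9aece_nt_rt (shift_integral)

/-- the statement of `lipschitz_zero` -/
def LZ : Prop := ∃ C c η T0 : ℝ, 0 ≤ C ∧ 0 < c ∧ 0 < η ∧ 16 ≤ T0 ∧ ∀ T : ℝ, T0 ≤ T →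
    ∀ a : ℝ, |a| ≤ η →
    |(∫ t in (0 : ℝ)..T, ‖riemannZeta (1 / 2 + I * t)‖ ^ (2 * (1 + a)))
        - T * Real.log T ^ ((1 + a) ^ 2)|
      ≤ C * (|a| + Real.log T ^ (-c)) * (T * Real.log T ^ ((1 + a) ^ 2))

/-- shifting the interval, uniformly in the exponent -/
lemma shift_unif (x : ℝ) : ∃ K : ℝ, 0 ≤ K ∧ ∀ β : ℝ, 1 ≤ β → β ≤ 3 → ∀ T : ℝ, 2 * |x| ≤ T →
    (∫ t in (0 : ℝ)..(T - |x|), ‖riemannZeta (1 / 2 + I * t)‖ ^ β) - K
      ≤ ∫ t in x..(x + T), ‖riemannZeta (1 / 2 + I * t)‖ ^ β ∧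
    ∫ t in x..(x + T), ‖riemannZeta (1 / 2 + I * t)‖ ^ β
      ≤ (∫ t in (0 : ℝ)..(T + |x|), ‖riemannZeta (1 / 2 + I * t)‖ ^ β) + K := by
  have hx := abs_nonneg x
  have hx1 := le_abs_self x
  have hx2 := neg_abs_le x
  obtain ⟨m, hm⟩ : ∃ m : ℝ → ℝ, m = fun t : ℝ => 1 + ‖riemannZeta (1 / 2 + I * t)‖ ^ 3 := ⟨_, rfl⟩
  have hmc : Continuous m := by rw [hm]; exact continuous_const.add (continuous_zeta.norm.pow 3)
  have hm0 : ∀ t, 0 ≤ m t := fun t => by rw [hm]; positivity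
  obtain ⟨K1, hK1⟩ : ∃ K1, K1 = ∫ t in (-|x|)..(0 : ℝ), m t := ⟨_, rfl⟩
  obtain ⟨K2, hK2⟩ : ∃ K2, K2 = ∫ t in (0 : ℝ)..|x|, m t := ⟨_, rfl⟩
  have hK10 : 0 ≤ K1 := by
    rw [hK1]; exact intervalIntegral.integral_nonneg (by linarith) fun t _ => hm0 t
  have hK20 : 0 ≤ K2 := by
    rw [hK2]; exact intervalIntegral.integral_nonneg hx fun t _ => hm0 t
  refine ⟨K1 + K2, by positivity, fun β hβ1 hβ3 T hT => ?_⟩
  obtain ⟨h, hh⟩ : ∃ h : ℝ → ℝ, h = fun t : ℝ => ‖riemannZeta (1 / 2 + I * t)‖ ^ β := ⟨_, rfl⟩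
  have hc : Continuous h := by
    rw [hh]; exact continuous_zeta.norm.rpow_const fun _ => Or.inr (by linarith)
  have hh0 : ∀ t, 0 ≤ h t := fun t => by rw [hh]; positivity
  have hhm : ∀ t, h t ≤ m t := by
    intro t
    rw [hh, hm]
    dsimp only
    rcases le_total (‖riemannZeta (1 / 2 + I * t)‖) 1 with h1 | h1
    · have h2 := Real.rpow_le_one (norm_nonneg _) h1 (by linarith : 0 ≤ β)
      have h3 : 0 ≤ ‖riemannZeta (1 / 2 + I * t)‖ ^ 3 := by positivity
      linarith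
    · have h2 := Real.rpow_le_rpow_of_exponent_le h1 hβ3
      have h3 : ‖riemannZeta (1 / 2 + I * t)‖ ^ (3 : ℝ) = ‖riemannZeta (1 / 2 + I * t)‖ ^ 3 := by
        rw [show (3 : ℝ) = ((3 : ℕ) : ℝ) by norm_num, Real.rpow_natCast]
      rw [h3] at h2
      linarith
  have hI : ∀ u v, IntervalIntegrable h volume u v := fun u v => hc.intervalIntegrable u v
  have hIm : ∀ u v, IntervalIntegrable m volume u v := fun u v => hmc.intervalIntegrable u v
  have hle1 : ∫ t in (-|x|)..(0 : ℝ), h t ≤ K1 := by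
    rw [hK1]
    exact intervalIntegral.integral_mono_on (by linarith) (hI _ _) (hIm _ _) fun t _ => hhm t
  have hle2 : ∫ t in (0 : ℝ)..|x|, h t ≤ K2 := by
    rw [hK2]
    exact intervalIntegral.integral_mono_on hx (hI _ _) (hIm _ _) fun t _ => hhm t
  have e : ∀ u v : ℝ, ∫ t in u..v, ‖riemannZeta (1 / 2 + I * t)‖ ^ β = ∫ t in u..v, h t := by
    intro u v
    rw [hh]
  rw [e, e, e]
  constructor
  · have h1 : ∫ t in |x|..(T - |x|), h t ≤ ∫ t in x..(x + T), h t :=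
      intervalIntegral.integral_mono_interval hx1 (by linarith) (by linarith)
        (Eventually.of_forall hh0) (hI _ _)
    have h2 : (∫ t in (0 : ℝ)..|x|, h t) + ∫ t in |x|..(T - |x|), h t
        = ∫ t in (0 : ℝ)..(T - |x|), h t :=
      intervalIntegral.integral_add_adjacent_intervals (hI _ _) (hI _ _)
    linarith
  · have h1 : ∫ t in x..(x + T), h t ≤ ∫ t in (-|x|)..(T + |x|), h t :=
      intervalIntegral.integral_mono_interval hx2 (by linarith) (by linarith)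
        (Eventually.of_forall hh0) (hI _ _)
    have h2 : (∫ t in (-|x|)..(0 : ℝ), h t) + ∫ t in (0 : ℝ)..(T + |x|), h t
        = ∫ t in (-|x|)..(T + |x|), h t :=
      intervalIntegral.integral_add_adjacent_intervals (hI _ _) (hI _ _)
    linarith

/-- comparison of the main terms -/
lemma main_ratio {T T' e : ℝ} (hT : 0 < T) (hTT : T ≤ T') (hl : 1 ≤ Real.log T) (he0 : 0 ≤ e)
    (he : e ≤ 2) : T' * Real.log T' ^ e ≤ (T' / T) ^ 3 * (T * Real.log T ^ e) := by
  have hT' : 0 < T' := by linarith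
  have hr1 : 1 ≤ T' / T := by rw [one_le_div hT]; exact hTT
  have hr0 : 0 < T' / T := by linarith
  have hL0 : 0 < Real.log T := by linarith
  have hLL : Real.log T' ≤ T' / T * Real.log T := by
    have h1 : Real.log T' = Real.log T + Real.log (T' / T) := by
      rw [Real.log_div hT'.ne' hT.ne']; ring
    have h2 := Real.log_le_sub_one_of_pos hr0
    have h3 : T' / T - 1 ≤ (T' / T - 1) * Real.log T := by
      exact le_mul_of_one_le_right (by linarith) hl
    rw [h1]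
    linarith
  have hL' : 0 ≤ Real.log T' := by
    have := Real.log_le_log hT hTT
    linarith
  have h4 : Real.log T' ^ e ≤ (T' / T) ^ 2 * Real.log T ^ e := by
    calc Real.log T' ^ e ≤ (T' / T * Real.log T) ^ e := Real.rpow_le_rpow hL' hLL he0
      _ = (T' / T) ^ e * Real.log T ^ e := Real.mul_rpow hr0.le hL0.le
      _ ≤ (T' / T) ^ (2 : ℝ) * Real.log T ^ e := by
          have := Real.rpow_le_rpow_of_exponent_le hr1 he
          have h5 : 0 ≤ Real.log T ^ e := Real.rpow_nonneg hL0.le _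
          exact mul_le_mul_of_nonneg_right this h5
      _ = _ := by rw [Real.rpow_two]
  calc T' * Real.log T' ^ e ≤ T' * ((T' / T) ^ 2 * Real.log T ^ e) := by gcongr
    _ = _ := by field_simp

lemma abs_log_le {r u : ℝ} (h : |r - 1| ≤ u) (hu : u ≤ 1 / 2) : |Real.log r| ≤ 2 * u := by
  have h1 := abs_le.mp h
  have hr : 0 < r := by linarith [h1.1]
  have hu0 : 0 ≤ u := (abs_nonneg _).trans h
  rw [abs_le]
  constructor
  · -- `log r ≥ 1 - 1 / r`
    have h2 := Real.one_sub_inv_le_log_of_pos hr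
    have h3 : r⁻¹ ≤ 1 + 2 * u := by
      rw [inv_le_comm₀ hr (by linarith)]
      have h4 : (1 + 2 * u)⁻¹ ≤ 1 - u := by
        rw [inv_le_comm₀ (by linarith) (by linarith)]
        rw [inv_eq_one_div, div_le_iff₀ (by linarith)]
        nlinarith
      linarith [h1.1]
    linarith
  · have h2 := Real.log_le_sub_one_of_pos hr
    linarith [h1.2]

lemma fo_cube_up {d : ℝ} (h0 : 0 ≤ d) (h1 : d ≤ 1) : (1 + d) ^ 3 ≤ 1 + 7 * d := by
  have h2 : d ^ 2 ≤ d := by
    have := mul_le_mul_of_nonneg_left h1 h0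
    rw [pow_two]; linarith
  have h3 : d ^ 3 ≤ d := by
    have := mul_le_mul_of_nonneg_left h2 h0
    have e : d ^ 3 = d * d ^ 2 := by ring
    rw [e]
    have := mul_le_mul_of_nonneg_left h1 h0
    linarith
  have e : (1 + d) ^ 3 = 1 + 3 * d + 3 * d ^ 2 + d ^ 3 := by ring
  rw [e]
  linarith

lemma fo_cube_low {d : ℝ} (h0 : 0 ≤ d) (h1 : d ≤ 1 / 2) : 1 - 3 * d ≤ (1 - d) ^ 3 := by
  have h2 : 0 ≤ d ^ 2 * (3 - d) := mul_nonneg (pow_nonneg h0 2) (by linarith)
  have e : (1 - d) ^ 3 = 1 - 3 * d + d ^ 2 * (3 - d) := by ring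
  rw [e]
  linarith

lemma fo_sq {b : ℝ} (h1 : -(1 / 4) ≤ b - 2) (h2 : b - 2 ≤ 1 / 4) : b ^ 2 / 4 ≤ 2 := by
  have h : b ^ 2 ≤ (9 / 4) ^ 2 := pow_le_pow_left₀ (by linarith) (by linarith) 2
  linarith

lemma fo_cc {C p q' : ℝ} (hC : 0 ≤ C) (hp : 1 ≤ p) (hq : q' = C * p + 1) : 1 ≤ q' ∧ C ≤ q' := by
  have h := le_mul_of_one_le_right hC hp
  constructor <;> linarith

/-- **the final statement** -/
theorem lipschitz_of (hz : LZ) : ∃ C c η : ℝ, 0 ≤ C ∧ 0 < c ∧ 0 < η ∧ ∀ x : ℝ, ∃ T0 : ℝ,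
    16 ≤ T0 ∧ ∀ T : ℝ, T0 ≤ T → ∀ β : ℝ, |β - 2| ≤ η →
    |Real.log (mom β x T / Real.log T ^ (β ^ 2 / 4))| ≤ C * (|β - 2| + Real.log T ^ (-c)) := by
  obtain ⟨C, c, η, T0, hC, hc, hη, hT0, hz⟩ := hz
  obtain ⟨C2, hC2⟩ : ∃ C2, C2 = C * 2 ^ c + 1 := ⟨_, rfl⟩
  have h2c : (1 : ℝ) ≤ 2 ^ c := Real.one_le_rpow (by norm_num) hc.le
  obtain ⟨hC20, hCC2⟩ := fo_cc hC h2c hC2
  refine ⟨2 * C2, c, min (1 / 4) (min η (1 / (4 * C2))), by positivity, hc, by positivity, ?_⟩
  intro x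
  obtain ⟨K, hK, hsh⟩ := shift_unif x
  have hx := abs_nonneg x
  -- the threshold
  have ev1 : ∀ᶠ T : ℝ in atTop, (14 * |x| + K) * Real.log T ^ c ≤ T := by
    have h := (isLittleO_log_rpow_rpow_atTop c (show (0 : ℝ) < 1 by norm_num)).bound
      (c := 1 / (14 * |x| + K + 1)) (by positivity)
    filter_upwards [h, eventually_ge_atTop 1] with T hT hT1
    have h3 : 0 ≤ Real.log T := Real.log_nonneg hT1
    rw [Real.norm_of_nonneg (Real.rpow_nonneg h3 _), Real.norm_of_nonneg (by positivity),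
      Real.rpow_one] at hT
    calc (14 * |x| + K) * Real.log T ^ c
        ≤ (14 * |x| + K) * (1 / (14 * |x| + K + 1) * T) := by gcongr
      _ = (14 * |x| + K) / (14 * |x| + K + 1) * T := by ring
      _ ≤ 1 * T := by
          have : (14 * |x| + K) / (14 * |x| + K + 1) ≤ 1 := by
            rw [div_le_one (by positivity)]; linarith
          gcongr
      _ = T := one_mul T
  have ev2 : ∀ᶠ T : ℝ in atTop, Real.log T ^ (-c) ≤ 1 / (4 * C2) := by
    have h := (tendsto_rpow_neg_atTop hc).comp Real.tendsto_log_atTop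
    exact (h.eventually (gt_mem_nhds (by positivity : (0 : ℝ) < 1 / (4 * C2)))).mono
      fun T hT => hT.le
  obtain ⟨T1, hT1⟩ := eventually_atTop.1 (ev1.and (ev2.and ((eventually_ge_atTop (2 * |x|)).and
    ((eventually_ge_atTop (T0 + |x|)).and (Real.tendsto_log_atTop.eventually_ge_atTop 2)))))
  refine ⟨max 16 T1, le_max_left _ _, ?_⟩
  intro T hT β hβ
  obtain ⟨g1, g2, g3, g4, g5⟩ := hT1 T ((le_max_right _ _).trans hT)
  have hT16 : 16 ≤ T := (le_max_left _ _).trans hT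
  have hTpos : 0 < T := by linarith
  obtain ⟨a, ha⟩ : ∃ a, a = (β - 2) / 2 := ⟨_, rfl⟩
  have hβa : 2 * (1 + a) = β := by rw [ha]; ring
  have hβ2 : (1 + a) ^ 2 = β ^ 2 / 4 := by rw [ha]; ring
  have habs : |a| = |β - 2| / 2 := by
    rw [ha, abs_div, abs_of_pos (by norm_num : (0 : ℝ) < 2)]
  have hβ1 : |β - 2| ≤ 1 / 4 := hβ.trans (min_le_left _ _)
  have hβη : |β - 2| ≤ η := hβ.trans ((min_le_right _ _).trans (min_le_left _ _))
  have hβC : |β - 2| ≤ 1 / (4 * C2) := hβ.trans ((min_le_right _ _).trans (min_le_right _ _))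
  have hβ0 : 0 ≤ |β - 2| := abs_nonneg _
  have haη : |a| ≤ η := by rw [habs]; linarith
  have hβ' := abs_le.mp hβ1
  obtain ⟨e, he⟩ : ∃ e, e = β ^ 2 / 4 := ⟨_, rfl⟩
  have he0 : 0 ≤ e := by rw [he]; positivity
  have he2 : e ≤ 2 := by rw [he]; exact fo_sq hβ'.1 hβ'.2
  obtain ⟨L, hL⟩ : ∃ L, L = Real.log T := ⟨_, rfl⟩
  rw [← hL] at g1 g2 g5 ⊢
  have hL0 : 0 < L := by linarith
  obtain ⟨q, hq⟩ : ∃ q, q = L ^ (-c) := ⟨_, rfl⟩
  have hq0 : 0 < q := by rw [hq]; positivity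
  have hqc : q * L ^ c = 1 := by
    rw [hq, ← Real.rpow_add hL0]; simp
  have hLc : 0 < L ^ c := by positivity
  rw [← hq] at g2 ⊢
  -- the remainder is small
  have hrem : (14 * |x| + K) / T ≤ q := by
    rw [div_le_iff₀ hTpos]
    have h1 := mul_le_mul_of_nonneg_left g1 hq0.le
    calc 14 * |x| + K = (14 * |x| + K) * (q * L ^ c) := by rw [hqc, mul_one]
      _ = q * ((14 * |x| + K) * L ^ c) := by ring
      _ ≤ q * T := h1
  obtain ⟨M, hM⟩ : ∃ M, M = T * L ^ e := ⟨_, rfl⟩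
  have hLe : 1 ≤ L ^ e := Real.one_le_rpow (by linarith) he0
  have hMT : T ≤ M := by rw [hM]; exact le_mul_of_one_le_right hTpos.le hLe
  have hM0 : 0 < M := by linarith
  obtain ⟨Sx, hSx⟩ : ∃ Sx, Sx = ∫ t in x..(x + T), ‖riemannZeta (1 / 2 + I * t)‖ ^ β := ⟨_, rfl⟩
  have hmom : mom β x T = Sx / T := by
    unfold mom
    rw [hSx]
    exact shift_integral (fun z => ‖z‖ ^ β) x hTpos
  have hratio : mom β x T / L ^ (β ^ 2 / 4) = Sx / M := by
    rw [hmom, ← he, hM, div_div]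
  obtain ⟨s1, s2⟩ := hsh β (by linarith [hβ'.1]) (by linarith [hβ'.2]) T g3
  rw [← hSx] at s1 s2
  -- upper bound
  have hub : Sx ≤ (1 + (C2 * (|β - 2| + q))) * M := by
    have z1 := (abs_le.mp (hz (T + |x|) (by linarith) a haη)).2
    rw [hβa, hβ2, ← he] at z1
    have hL' : L ≤ Real.log (T + |x|) := by
      rw [hL]; exact Real.log_le_log hTpos (by linarith)
    have hq' : Real.log (T + |x|) ^ (-c) ≤ q := by
      rw [hq]
      exact Real.rpow_le_rpow_of_nonpos hL0 hL' (by linarith)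
    have hr := main_ratio hTpos (show T ≤ T + |x| by linarith) (by rw [← hL]; linarith) he0 he2
    rw [← hL, ← hM] at hr
    obtain ⟨d, hd⟩ : ∃ d, d = |x| / T := ⟨_, rfl⟩
    have hd0 : 0 ≤ d := by rw [hd]; positivity
    have hd1 : d ≤ 1 := by
      rw [hd, div_le_one hTpos]; linarith
    have hdT : (T + |x|) / T = 1 + d := by
      rw [hd]; field_simp
    rw [hdT] at hr
    have hcube : (1 + d) ^ 3 ≤ 1 + 7 * d := fo_cube_up hd0 hd1
    have hE0 : 0 ≤ C * (|a| + Real.log (T + |x|) ^ (-c)) := by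
      have : 0 ≤ Real.log (T + |x|) ^ (-c) := Real.rpow_nonneg (by linarith) _
      positivity
    have hE : C * (|a| + Real.log (T + |x|) ^ (-c)) ≤ C * (|β - 2| + q) := by
      have : |a| ≤ |β - 2| := by rw [habs]; linarith
      gcongr
    have hE1 : C * (|β - 2| + q) ≤ 1 := by
      have h1 : |β - 2| + q ≤ 1 / (2 * C2) := by
        have : 1 / (2 * C2) = 1 / (4 * C2) + 1 / (4 * C2) := by field_simp; norm_num
        linarith
      calc C * (|β - 2| + q) ≤ C2 * (1 / (2 * C2)) := by gcongr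
        _ = 1 / 2 := by field_simp
        _ ≤ 1 := by norm_num
    have hM' : 0 ≤ (T + |x|) * Real.log (T + |x|) ^ e := by
      have : 0 ≤ Real.log (T + |x|) ^ e := Real.rpow_nonneg (by linarith) _
      positivity
    have h1 : ∫ t in (0 : ℝ)..(T + |x|), ‖riemannZeta (1 / 2 + I * t)‖ ^ β
        ≤ (1 + C * (|β - 2| + q)) * ((1 + 7 * d) * M) := by
      calc _ ≤ (1 + C * (|a| + Real.log (T + |x|) ^ (-c)))
            * ((T + |x|) * Real.log (T + |x|) ^ e) := by linarith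
        _ ≤ (1 + C * (|β - 2| + q)) * ((1 + 7 * d) * M) := by
            apply mul_le_mul (by linarith) _ hM' (by linarith)
            exact hr.trans (mul_le_mul_of_nonneg_right hcube hM0.le)
    have h2 : K ≤ K / T * M := by
      rw [div_mul_eq_mul_div, le_div_iff₀ hTpos]
      gcongr
    have h3 : (14 * |x| + K) / T = 14 * d + K / T := by rw [hd]; ring
    rw [h3] at hrem
    have h4 : (1 + C * (|β - 2| + q)) * (1 + 7 * d) + K / T ≤ 1 + C2 * (|β - 2| + q) := by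
      have h5 : C * (|β - 2| + q) * (7 * d) ≤ 7 * d := by
        exact mul_le_of_le_one_left (by positivity) hE1
      have h6 : C * (|β - 2| + q) + q ≤ C2 * (|β - 2| + q) := by
        have h7 : C ≤ C * 2 ^ c := le_mul_of_one_le_right hC h2c
        rw [hC2]
        have h8 : C * (|β - 2| + q) ≤ C * 2 ^ c * (|β - 2| + q) := by gcongr
        linarith
      linarith
    calc Sx ≤ (1 + C * (|β - 2| + q)) * ((1 + 7 * d) * M) + K / T * M := by linarith
      _ = ((1 + C * (|β - 2| + q)) * (1 + 7 * d) + K / T) * M := by ring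
      _ ≤ _ := mul_le_mul_of_nonneg_right h4 hM0.le
  -- lower bound
  have hlb : (1 - (C2 * (|β - 2| + q))) * M ≤ Sx := by
    have z1 := (abs_le.mp (hz (T - |x|) (by linarith) a haη)).1
    rw [hβa, hβ2, ← he] at z1
    have hT'0 : T / 2 ≤ T - |x| := by linarith
    have hT'pos : 0 < T - |x| := by linarith
    have hL' : L / 2 ≤ Real.log (T - |x|) := by
      have h1 : Real.log (T / 2) ≤ Real.log (T - |x|) := Real.log_le_log (by positivity) hT'0
      rw [Real.log_div hTpos.ne' (by norm_num), ← hL] at h1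
      have := Real.log_two_lt_d9
      linarith
    have hq' : Real.log (T - |x|) ^ (-c) ≤ 2 ^ c * q := by
      calc Real.log (T - |x|) ^ (-c) ≤ (L / 2) ^ (-c) :=
            Real.rpow_le_rpow_of_nonpos (by positivity) hL' (by linarith)
        _ = 2 ^ c * q := by
            rw [Real.div_rpow hL0.le (by norm_num), hq, Real.rpow_neg (by norm_num : (0:ℝ) ≤ 2)]
            field_simp
    have hr := main_ratio hT'pos (show T - |x| ≤ T by linarith) (by linarith) he0 he2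
    rw [← hL, ← hM] at hr
    obtain ⟨M', hM'⟩ : ∃ M', M' = (T - |x|) * Real.log (T - |x|) ^ e := ⟨_, rfl⟩
    rw [← hM'] at hr z1
    have hM'0 : 0 ≤ M' := by
      rw [hM']
      have : 0 ≤ Real.log (T - |x|) ^ e := Real.rpow_nonneg (by linarith) _
      positivity
    obtain ⟨d, hd⟩ : ∃ d, d = |x| / T := ⟨_, rfl⟩
    have hd0 : 0 ≤ d := by rw [hd]; positivity
    have hd1 : d ≤ 1 / 2 := by
      rw [hd, div_le_iff₀ hTpos]; linarith
    have hdT : T / (T - |x|) = (1 - d)⁻¹ := by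
      rw [hd]; field_simp
    rw [hdT] at hr
    -- `(1 - d)^3 M ≤ M' ≤ M`
    have h1d : 0 < 1 - d := by linarith
    have hMM' : (1 - 3 * d) * M ≤ M' := by
      have h1 : (1 - d) ^ 3 * M ≤ M' := by
        have h2 := mul_le_mul_of_nonneg_left hr (by positivity : 0 ≤ (1 - d) ^ 3)
        have h3 : (1 - d) ^ 3 * ((1 - d)⁻¹ ^ 3 * M') = M' := by
          field_simp
        rwa [h3] at h2
      have h2 : 1 - 3 * d ≤ (1 - d) ^ 3 := fo_cube_low hd0 hd1
      exact (mul_le_mul_of_nonneg_right h2 hM0.le).trans h1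
    have hM'M : M' ≤ M := by
      rw [hM', hM]
      have h1 : Real.log (T - |x|) ≤ L := by rw [hL]; exact Real.log_le_log hT'pos (by linarith)
      have h2 : Real.log (T - |x|) ^ e ≤ L ^ e := Real.rpow_le_rpow (by linarith) h1 he0
      have h3 : 0 ≤ Real.log (T - |x|) ^ e := Real.rpow_nonneg (by linarith) _
      apply mul_le_mul (by linarith) h2 h3 hTpos.le
    have hE : C * (|a| + Real.log (T - |x|) ^ (-c)) ≤ C * 2 ^ c * (|β - 2| + q) := by
      have h1 : |a| ≤ |β - 2| := by rw [habs]; linarith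
      have h2 : |β - 2| ≤ 2 ^ c * |β - 2| := le_mul_of_one_le_left hβ0 h2c
      calc C * (|a| + Real.log (T - |x|) ^ (-c)) ≤ C * (2 ^ c * |β - 2| + 2 ^ c * q) := by
            gcongr
            linarith
        _ = _ := by ring
    have h1 : M' - C * 2 ^ c * (|β - 2| + q) * M
        ≤ ∫ t in (0 : ℝ)..(T - |x|), ‖riemannZeta (1 / 2 + I * t)‖ ^ β := by
      have h2 : C * (|a| + Real.log (T - |x|) ^ (-c)) * M' ≤ C * 2 ^ c * (|β - 2| + q) * M := by
        apply mul_le_mul hE hM'M hM'0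
        positivity
      linarith
    have h2 : K ≤ K / T * M := by
      rw [div_mul_eq_mul_div, le_div_iff₀ hTpos]
      gcongr
    have h3 : (14 * |x| + K) / T = 14 * d + K / T := by rw [hd]; ring
    rw [h3] at hrem
    calc (1 - (C2 * (|β - 2| + q))) * M
        ≤ (1 - 3 * d - C * 2 ^ c * (|β - 2| + q) - K / T) * M := by
          refine mul_le_mul_of_nonneg_right ?_ hM0.le
          rw [hC2]
          linarith
      _ = (1 - 3 * d) * M - C * 2 ^ c * (|β - 2| + q) * M - K / T * M := by ring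
      _ ≤ M' - C * 2 ^ c * (|β - 2| + q) * M - K := by linarith
      _ ≤ Sx := by linarith
  rw [hratio]
  have hfin : |Sx / M - 1| ≤ C2 * (|β - 2| + q) := by
    have h1 : Sx / M - 1 = (Sx - M) / M := by field_simp
    rw [h1, abs_div, abs_of_pos hM0, div_le_iff₀ hM0, abs_le]
    constructor <;> linarith
  have hsmall : C2 * (|β - 2| + q) ≤ 1 / 2 := by
    have h1 : |β - 2| + q ≤ 1 / (2 * C2) := by
      have : 1 / (2 * C2) = 1 / (4 * C2) + 1 / (4 * C2) := by field_simp; norm_num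
      linarith
    calc C2 * (|β - 2| + q) ≤ C2 * (1 / (2 * C2)) := by gcongr
      _ = 1 / 2 := by field_simp
  have := abs_log_le hfin hsmall
  linarith

end Pool.Agent.Lib.MP_f9aece_nt_r3
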