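import Mathlib
import Pool.Agent.Lib.MP_f9aece_nt_h24.RightPoint
import Pool.Agent.Lib.MP_f9aece_nt_h40.RightSplit
import Pool.Agent.Lib.MP_f9aece_nt_rt.Defs
import Pool.Agent.Lib.MP_f9aece_nt_h24.Level

/-!
Stage 3 of the rate project (Lipschitz bound near the second moment): definitions.
-/

set_option autoImplicit false

namespace Pool.Agent.Lib.MP_f9aece_nt_r3

open MeasureTheory Set Filter Topology Complex
open Pool.Agent.Lib.MP_f9aece_nt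
open Pool.Agent.Lib.MP_f9aece_nt_h97
open Pool.Agent.Lib.MP_f9aece_nt_h40 (EI Wsc)
open Pool.Agent.Lib.MP_f9aece_nt_rt (XX)

/-- the block `j` with exponent `a` -/
noncomputable def qb (a : ℝ) (m p0 : ℕ) (Y : ℝ) (j : ℕ) : DP := expo a (Mm m j) (sc Y p0 j)

/-- the polynomial over the blocks `l ≤ j < J` with exponent `a` -/
noncomputable def NN (a : ℝ) (m p0 : ℕ) (Y : ℝ) (l J : ℕ) : DP := ∏ j ∈ Finset.Ico l J, qb a m p0 Y j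

/-- the sum of the reciprocals of the primes of the blocks `l ≤ j < J` -/
noncomputable def VI (p0 : ℕ) (Y : ℝ) (l J : ℕ) : ℝ := ∑ j ∈ Finset.Ico l J, VV (sc Y p0 j)

/-- the unit: the size of the twisted second moment -/
noncomputable def UU (a : ℝ) (p0 : ℕ) (Y : ℝ) (J : ℕ) (T : ℝ) : ℝ :=
  T * Real.log T * Real.exp ((2 * a + a ^ 2) * VI p0 Y 0 J)

/-- the differences -/
noncomputable def RR (a : ℝ) (m p0 : ℕ) (Y : ℝ) (J l j r : ℕ) : DP :=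
  NN a m p0 Y l J * ((qb a m p0 Y j - 1) * NN a m p0 Y 0 j) ^ r

/-- the forms at two consecutive levels, for exponents of both signs; `n = DD (2m) b` at level
`l`, `E = EI`, `D = DD m (-1)` at level `l - 1`, as in `h40.FS` -/
structure FSs (C : ℝ) (m p0 : ℕ) (b Y : ℝ) (J : ℕ) : Prop where
  s_ge : Real.exp ((2 * b + b ^ 2) * (∑ j ∈ Finset.range J, VV (sc (Y / 4) p0 j)) - C)
    ≤ BK K2 (DD (2 * m) p0 b (Y / 4) J) (DD (2 * m) p0 b (Y / 4) J)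
  s_le : BK K2 (DD (2 * m) p0 b (Y / 4) J) (DD (2 * m) p0 b (Y / 4) J)
    ≤ Real.exp ((2 * b + b ^ 2) * (∑ j ∈ Finset.range J, VV (sc (Y / 4) p0 j)) + C)
  kln : |BK KL (DD (2 * m) p0 b (Y / 4) J) (DD (2 * m) p0 b (Y / 4) J)|
    ≤ C * (1 + Y) * Real.exp ((2 * b + b ^ 2) * ∑ j ∈ Finset.range J, VV (sc (Y / 4) p0 j))
  e1 : (1 - C / 2 ^ m) * (Wsc p0 Y (J + 1) * BK K2 (DD (2 * m) p0 b (Y / 4) J) (DD (2 * m) p0 b (Y / 4) J))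
    ≤ 2 * BK (Kcs 1) (DD (2 * m) p0 b (Y / 4) J) (EI m p0 Y (J + 1) * DD (2 * m) p0 b (Y / 4) J)
      - BK K1 (EI m p0 Y (J + 1) * DD (2 * m) p0 b (Y / 4) J)
        (EI m p0 Y (J + 1) * DD (2 * m) p0 b (Y / 4) J)
  k2q : |BK K2 (EI m p0 Y (J + 1) * DD (2 * m) p0 b (Y / 4) J * DD m p0 (-1) Y (J + 1))
      (EI m p0 Y (J + 1) * DD (2 * m) p0 b (Y / 4) J * DD m p0 (-1) Y (J + 1))|
    ≤ C * Real.exp ((2 * b + b ^ 2) * ∑ j ∈ Finset.range J, VV (sc (Y / 4) p0 j))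
  klq : |BK KL (EI m p0 Y (J + 1) * DD (2 * m) p0 b (Y / 4) J * DD m p0 (-1) Y (J + 1))
      (EI m p0 Y (J + 1) * DD (2 * m) p0 b (Y / 4) J * DD m p0 (-1) Y (J + 1))|
    ≤ C * (1 + Y) * Real.exp ((2 * b + b ^ 2) * ∑ j ∈ Finset.range J, VV (sc (Y / 4) p0 j))
  supn : Sup (Smo (⋃ j ∈ Finset.range (J + 1), (sc Y p0 j : Set ℕ))) (DD (2 * m) p0 b (Y / 4) J)
  supE : Sup (Smo (⋃ j ∈ Finset.range (J + 1), (sc Y p0 j : Set ℕ))) (EI m p0 Y (J + 1))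
  supD : Sup (Smo (⋃ j ∈ Finset.range (J + 1), (sc Y p0 j : Set ℕ))) (DD m p0 (-1) Y (J + 1))

/-- the levels, for all exponents near the second moment -/
structure LV (C A : ℝ) (m p0 : ℕ) (T : ℝ) (J L : ℕ) (G : ℕ → Set ℝ) : Prop where
  meas : ∀ l, MeasurableSet (G l)
  sub : ∀ l, G l ⊆ Icc 0 T
  LJ : L ≤ J
  upper : ∀ l ≤ L, ∀ t ∈ G l,
    ‖riemannZeta (1 / 2 + I * t)‖ ≤ Real.exp (C * (l + 1) + XX p0 (Real.log T / A) J l t)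
  ge : ∀ l ≤ L, ∀ t ∈ G l, ∀ a : ℝ, |a| ≤ 1 →
    Real.exp (2 * a * XX p0 (Real.log T / A) J l t - C * |a|)
      ≤ ‖ev t (NN a m p0 (Real.log T / A) l J)‖ ^ 2
  le : ∀ l ≤ L, ∀ t ∈ G l, ∀ a : ℝ, |a| ≤ 1 → ‖ev t (NN a m p0 (Real.log T / A) l J)‖ ^ 2
    ≤ Real.exp (2 * a * XX p0 (Real.log T / A) J l t + C * |a|)
  piece : ∀ a : ℝ, |a| ≤ 1 / 8 → ∀ l < L, ∫ t in G (l + 1) \ G l,
      ‖riemannZeta (1 / 2 + I * t) * ev t (NN a m p0 (Real.log T / A) (l + 1) J)‖ ^ 2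
    ≤ C * (1 / 2) ^ l * Real.exp (C * |a| * l) * UU a p0 (Real.log T / A) J T
  last : ∫ t in Icc 0 T \ G L, ‖riemannZeta (1 / 2 + I * t)‖ ^ 2 ≤ T
  last' : ∫ t in Icc 0 T \ G L, ‖riemannZeta (1 / 2 + I * t)‖ ^ (5 / 2 : ℝ) ≤ T

end Pool.Agent.Lib.MP_f9aece_nt_r3
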