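import Mathlib
import Pool.Agent.Lib.MP_f9aece_nt_h40.FormsTwoC
import Pool.Agent.Lib.MP_f9aece_nt_rt.Decomp
import Pool.Agent.Lib.MP_f9aece_nt_r3.Defs

/-!
The sum over the levels of the difference between the polynomials `NN 0` and `NN l`.
-/

set_option autoImplicit false

namespace Pool.Agent.Lib.MP_f9aece_nt_r3

open MeasureTheory Set Filter Topology Complex
open Pool.Agent.Lib.MP_f9aece_nt
open Pool.Agent.Lib.MP_f9aece_nt_h97
open Pool.Agent.Lib.MP_f9aece_nt_h22 (VS J1 Psc Rsc)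
open Pool.Agent.Lib.MP_f9aece_nt_rt (disjointed_sub disjointed_succ_sub disjointed_meas)

lemma NN_sub_one (a : ℝ) (m p0 : ℕ) (Y : ℝ) (l : ℕ) :
    NN a m p0 Y 0 l - 1 = ∑ j ∈ Finset.range l, (qb a m p0 Y j - 1) * NN a m p0 Y 0 j := by
  induction l with
  | zero => simp [NN]
  | succ l ih =>
    rw [Finset.sum_range_succ, ← ih]
    unfold NN
    rw [Finset.prod_Ico_succ_top (Nat.zero_le l)]
    ring

lemma NN_split0 (a : ℝ) (m p0 : ℕ) (Y : ℝ) {l J : ℕ} (hl : l ≤ J) :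
    NN a m p0 Y 0 J = NN a m p0 Y 0 l * NN a m p0 Y l J := by
  unfold NN
  exact (Finset.prod_Ico_consecutive _ (Nat.zero_le l) hl).symm

lemma NN_exp_zero (m p0 : ℕ) (Y : ℝ) (l J : ℕ) : NN 0 m p0 Y l J = 1 := by
  unfold NN qb
  exact Finset.prod_eq_one fun j _ => Pool.Agent.Lib.MP_f9aece_nt_h40.expo_zero _ _

lemma cont_ze' (f : DP) : Continuous fun t : ℝ => ‖riemannZeta (1 / 2 + I * t) * ev t f‖ ^ 2 :=
  (continuous_zeta.mul (continuous_ev f)).norm.pow 2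

lemma norm_sq_sub_one (Q : ℂ) : |‖Q‖ ^ 2 - 1| ≤ 2 * ‖Q - 1‖ + ‖Q - 1‖ ^ 2 := by
  have h1 : |‖Q‖ - 1| ≤ ‖Q - 1‖ := by
    have := abs_norm_sub_norm_le Q 1
    rwa [norm_one] at this
  have h2 : ‖Q‖ ^ 2 - 1 = (‖Q‖ - 1) * (‖Q‖ + 1) := by ring
  have h3 : 0 ≤ ‖Q‖ := norm_nonneg _
  have h4 := norm_nonneg (Q - 1)
  rw [h2, abs_mul, abs_of_nonneg (by linarith : 0 ≤ ‖Q‖ + 1)]
  have h5 : ‖Q‖ + 1 ≤ 2 + ‖Q - 1‖ := by
    rw [abs_le] at h1
    linarith [h1.2]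
  calc |‖Q‖ - 1| * (‖Q‖ + 1) ≤ ‖Q - 1‖ * (2 + ‖Q - 1‖) := by gcongr
    _ = _ := by ring

lemma amgm {w x : ℝ} (hx : 0 < x) : 2 * w ≤ x + w ^ 2 / x := by
  have h : 0 ≤ (x - w) ^ 2 / x := by positivity
  have e : (x - w) ^ 2 / x = x - 2 * w + w ^ 2 / x := by
    field_simp
    ring
  rw [e] at h
  linarith

/-- pointwise inequality -/
lemma diff_point {α ρ : ℝ} (hα : 0 < α) (hα1 : α ≤ 1) (hρ : 0 < ρ) (l : ℕ) (r : ℕ → ℂ) (Q : ℂ)
    (hQ : Q - 1 = ∑ j ∈ Finset.range l, r j) :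
    |‖Q‖ ^ 2 - 1| ≤ 2 * α * ρ + l / (α * ρ) * (∑ j ∈ Finset.range l, ‖r j‖ ^ 2)
      + l ^ 3 / (α ^ 2 * ρ) * (∑ j ∈ Finset.range l, (‖r j‖ ^ 2) ^ 2) := by
  set w := ‖Q - 1‖ with hw
  have hw0 : 0 ≤ w := norm_nonneg _
  have hS : w ≤ ∑ j ∈ Finset.range l, ‖r j‖ := by
    rw [hw, hQ]; exact norm_sum_le _ _
  have h2 : w ^ 2 ≤ l * ∑ j ∈ Finset.range l, ‖r j‖ ^ 2 := by
    have := sq_sum_le_card_mul_sum_sq (s := Finset.range l) (f := fun j => ‖r j‖)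
    rw [Finset.card_range] at this
    exact (pow_le_pow_left₀ hw0 hS 2).trans this
  have h4 : (w ^ 2) ^ 2 ≤ l ^ 3 * ∑ j ∈ Finset.range l, (‖r j‖ ^ 2) ^ 2 := by
    have h5 := sq_sum_le_card_mul_sum_sq (s := Finset.range l) (f := fun j => ‖r j‖ ^ 2)
    rw [Finset.card_range] at h5
    calc (w ^ 2) ^ 2 ≤ (l * ∑ j ∈ Finset.range l, ‖r j‖ ^ 2) ^ 2 := pow_le_pow_left₀ (by positivity) h2 2
      _ = l ^ 2 * (∑ j ∈ Finset.range l, ‖r j‖ ^ 2) ^ 2 := by ring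
      _ ≤ l ^ 2 * (l * ∑ j ∈ Finset.range l, (‖r j‖ ^ 2) ^ 2) := by gcongr
      _ = _ := by ring
  have h5 := norm_sq_sub_one Q
  rw [← hw] at h5
  have h6 := amgm (w := w) (x := α * ρ) (by positivity)
  have h7 := amgm (w := w ^ 2) (x := α ^ 2 * ρ) (by positivity)
  have h8 : w ^ 2 / (α * ρ) ≤ l / (α * ρ) * (∑ j ∈ Finset.range l, ‖r j‖ ^ 2) := by
    rw [div_mul_eq_mul_div]
    gcongr
  have h9 : (w ^ 2) ^ 2 / (α ^ 2 * ρ)
      ≤ l ^ 3 / (α ^ 2 * ρ) * (∑ j ∈ Finset.range l, (‖r j‖ ^ 2) ^ 2) := by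
    rw [div_mul_eq_mul_div]
    gcongr
  have h10 : 0 ≤ l ^ 3 / (α ^ 2 * ρ) * (∑ j ∈ Finset.range l, (‖r j‖ ^ 2) ^ 2) := by positivity
  have h11 : α ^ 2 * ρ ≤ α * ρ := by
    have : α ^ 2 ≤ α := by nlinarith
    gcongr
  have h12 : 0 ≤ α * ρ := by positivity
  linarith

/-- the contribution of one level -/
lemma diff_level {C1 C2 a T U Y : ℝ} {m p0 J l : ℕ} (hC1 : 0 ≤ C1) (hC2 : 0 ≤ C2) (hU : 0 ≤ U)
    (hT : 0 ≤ T) (ha0 : a ≠ 0) (ha : |a| ≤ 1 / 8) (hlJ : l + 1 ≤ J) {E : Set ℝ}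
    (hE : MeasurableSet E) (hET : E ⊆ Icc 0 T)
    (h1 : ∫ t in E, ‖riemannZeta (1 / 2 + I * t) * ev t (NN a m p0 Y (l + 1) J)‖ ^ 2
      ≤ C1 * (1 / 2) ^ l * Real.exp (C1 * |a| * l) * U)
    (h2 : ∀ j r : ℕ, j < l + 1 → r = 1 ∨ r = 2 →
      ∫ t in (0 : ℝ)..T, ‖riemannZeta (1 / 2 + I * t) * ev t (RR a m p0 Y J (l + 1) j r)‖ ^ 2
        ≤ C2 * |a| ^ (2 * r) * Real.exp (C2 * |a| * (l + 1 : ℕ)) * U) :
    ∫ t in E, ‖riemannZeta (1 / 2 + I * t)‖ ^ 2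
        * |‖ev t (NN a m p0 Y 0 J)‖ ^ 2 - ‖ev t (NN a m p0 Y (l + 1) J)‖ ^ 2|
      ≤ |a| * U * ((4 * C1 + 2 * C2) * ((l + 1 : ℕ) ^ 4 * (3 / 4) ^ (l + 1)
        * Real.exp ((C1 + C2) * |a| * (l + 1 : ℕ)))) := by
  set L := l + 1 with hL
  set α := |a| with hα
  have hα0 : 0 < α := abs_pos.mpr ha0
  have hα1 : α ≤ 1 := by linarith
  set ρ : ℝ := (3 / 2) ^ L with hρ
  have hρ0 : 0 < ρ := by positivity
  set z : ℝ → ℂ := fun t => riemannZeta (1 / 2 + I * t) with hz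
  set R : ℕ → ℕ → ℝ → ℝ := fun j r t => ‖z t * ev t (RR a m p0 Y J L j r)‖ ^ 2 with hR
  have hRc : ∀ j r, Continuous (R j r) := fun j r => cont_ze' _
  have hR0 : ∀ j r t, 0 ≤ R j r t := fun j r t => by positivity
  have hRi : ∀ j r, IntegrableOn (R j r) E := fun j r => ((hRc j r).integrableOn_Icc).mono_set hET
  set N : ℝ → ℝ := fun t => ‖z t * ev t (NN a m p0 Y L J)‖ ^ 2 with hN
  have hNc : Continuous N := cont_ze' _
  have hNi : IntegrableOn N E := (hNc.integrableOn_Icc).mono_set hET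
  have hpt : ∀ t : ℝ, ‖z t‖ ^ 2 * |‖ev t (NN a m p0 Y 0 J)‖ ^ 2 - ‖ev t (NN a m p0 Y L J)‖ ^ 2|
      ≤ 2 * α * ρ * N t + L / (α * ρ) * (∑ j ∈ Finset.range L, R j 1 t)
        + L ^ 3 / (α ^ 2 * ρ) * (∑ j ∈ Finset.range L, R j 2 t) := by
    intro t
    have hQ : ev t (NN a m p0 Y 0 L) - 1
        = ∑ j ∈ Finset.range L, ev t ((qb a m p0 Y j - 1) * NN a m p0 Y 0 j) := by
      rw [← map_sum, ← NN_sub_one, map_sub, map_one]
    have h3 := diff_point hα0 hα1 hρ0 L _ _ hQ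
    have e1 : ‖ev t (NN a m p0 Y 0 J)‖ ^ 2 - ‖ev t (NN a m p0 Y L J)‖ ^ 2
        = ‖ev t (NN a m p0 Y L J)‖ ^ 2 * (‖ev t (NN a m p0 Y 0 L)‖ ^ 2 - 1) := by
      rw [NN_split0 a m p0 Y hlJ, map_mul, norm_mul]
      ring
    have e2 : ∀ j, R j 1 t = N t * ‖ev t ((qb a m p0 Y j - 1) * NN a m p0 Y 0 j)‖ ^ 2 := by
      intro j
      simp only [hR, hN]
      unfold RR
      rw [pow_one, map_mul, norm_mul, norm_mul, norm_mul]
      ring
    have e3 : ∀ j, R j 2 t = N t * (‖ev t ((qb a m p0 Y j - 1) * NN a m p0 Y 0 j)‖ ^ 2) ^ 2 := by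
      intro j
      simp only [hR, hN]
      unfold RR
      rw [map_mul, map_pow, norm_mul, norm_mul, norm_mul, norm_pow]
      ring
    have e4 : N t = ‖z t‖ ^ 2 * ‖ev t (NN a m p0 Y L J)‖ ^ 2 := by
      simp only [hN]
      rw [norm_mul]; ring
    have hN0 : 0 ≤ N t := by positivity
    rw [e1, abs_mul, abs_of_nonneg (by positivity : 0 ≤ ‖ev t (NN a m p0 Y L J)‖ ^ 2), ← mul_assoc,
      ← e4]
    calc N t * |‖ev t (NN a m p0 Y 0 L)‖ ^ 2 - 1|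
        ≤ N t * (2 * α * ρ + L / (α * ρ)
            * (∑ j ∈ Finset.range L, ‖ev t ((qb a m p0 Y j - 1) * NN a m p0 Y 0 j)‖ ^ 2)
          + L ^ 3 / (α ^ 2 * ρ)
            * (∑ j ∈ Finset.range L, (‖ev t ((qb a m p0 Y j - 1) * NN a m p0 Y 0 j)‖ ^ 2) ^ 2)) :=
          mul_le_mul_of_nonneg_left h3 hN0
      _ = _ := by
          simp_rw [e2, e3]
          rw [← Finset.mul_sum, ← Finset.mul_sum]
          ring
  have hRint : ∀ j r, j < L → r = 1 ∨ r = 2 → ∫ t in E, R j r t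
      ≤ C2 * α ^ (2 * r) * Real.exp (C2 * α * L) * U := by
    intro j r hj hr
    refine le_trans ?_ (h2 j r hj hr)
    rw [intervalIntegral.integral_of_le hT, ← integral_Icc_eq_integral_Ioc]
    exact setIntegral_mono_set ((hRc j r).integrableOn_Icc) (Filter.Eventually.of_forall fun t => hR0 j r t)
      (LE.le.eventuallyLE hET)
  have hsum : ∀ r, r = 1 ∨ r = 2 → ∫ t in E, (∑ j ∈ Finset.range L, R j r t)
      ≤ L * (C2 * α ^ (2 * r) * Real.exp (C2 * α * L) * U) := by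
    intro r hr
    rw [integral_finsetSum _ fun j _ => hRi j r]
    calc ∑ j ∈ Finset.range L, ∫ t in E, R j r t
        ≤ ∑ j ∈ Finset.range L, (C2 * α ^ (2 * r) * Real.exp (C2 * α * L) * U) :=
          Finset.sum_le_sum fun j hj => hRint j r (Finset.mem_range.mp hj) hr
      _ = _ := by rw [Finset.sum_const, Finset.card_range, nsmul_eq_mul]
  have hSi : ∀ r, IntegrableOn (fun t => ∑ j ∈ Finset.range L, R j r t) E := fun r =>
    integrable_finsetSum _ fun j _ => hRi j r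
  have hi1 : IntegrableOn (fun t : ℝ => ‖z t‖ ^ 2
      * |‖ev t (NN a m p0 Y 0 J)‖ ^ 2 - ‖ev t (NN a m p0 Y L J)‖ ^ 2|) E := by
    refine (Continuous.integrableOn_Icc ?_).mono_set hET
    exact (continuous_zeta.norm.pow 2).mul
      ((((continuous_ev _).norm.pow 2).sub ((continuous_ev _).norm.pow 2)).abs)
  have hi2 : IntegrableOn (fun t => 2 * α * ρ * N t + L / (α * ρ) * (∑ j ∈ Finset.range L, R j 1 t)
        + L ^ 3 / (α ^ 2 * ρ) * (∑ j ∈ Finset.range L, R j 2 t)) E :=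
    ((hNi.const_mul _).add ((hSi 1).const_mul _)).add ((hSi 2).const_mul _)
  have hmain : ∫ t in E, ‖z t‖ ^ 2
      * |‖ev t (NN a m p0 Y 0 J)‖ ^ 2 - ‖ev t (NN a m p0 Y L J)‖ ^ 2|
      ≤ 2 * α * ρ * (∫ t in E, N t) + L / (α * ρ) * (∫ t in E, ∑ j ∈ Finset.range L, R j 1 t)
        + L ^ 3 / (α ^ 2 * ρ) * (∫ t in E, ∑ j ∈ Finset.range L, R j 2 t) := by
    refine (setIntegral_mono_on hi1 hi2 hE fun t _ => hpt t).trans (le_of_eq ?_)
    have e1 := integral_add ((hNi.const_mul (2 * α * ρ)).add ((hSi 1).const_mul (L / (α * ρ))))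
      ((hSi 2).const_mul (L ^ 3 / (α ^ 2 * ρ)))
    have e2 := integral_add (hNi.const_mul (2 * α * ρ)) ((hSi 1).const_mul (L / (α * ρ)))
    simp only [Pi.add_apply] at e1
    rw [e1, e2, integral_const_mul, integral_const_mul, integral_const_mul]
  refine hmain.trans ?_
  have hs1 := hsum 1 (Or.inl rfl)
  have hs2 := hsum 2 (Or.inr rfl)
  have hL1 : (1 : ℝ) ≤ L := by rw [hL]; push_cast; linarith [Nat.cast_nonneg (α := ℝ) l]
  set X := Real.exp ((C1 + C2) * α * L) with hX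
  have hX1 : Real.exp (C1 * α * l) ≤ X := by
    rw [hX]
    apply Real.exp_le_exp.mpr
    have h3 : (l : ℝ) ≤ L := by rw [hL]; push_cast; linarith
    have h4 : 0 ≤ C2 * α * L := by positivity
    have h5 : C1 * α * l ≤ C1 * α * L := by gcongr
    linarith
  have hX2 : Real.exp (C2 * α * L) ≤ X := by
    rw [hX]
    apply Real.exp_le_exp.mpr
    have h4 : 0 ≤ C1 * α * L := by positivity
    linarith
  have hX0 : 0 < X := Real.exp_pos _
  have t1 : 2 * α * ρ * (∫ t in E, N t) ≤ α * U * (4 * C1 * (L ^ 4 * (3 / 4) ^ L * X)) := by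
    have e : ρ * (1 / 2) ^ l = 2 * (3 / 4) ^ L := by
      rw [hρ, hL, pow_succ (3 / 2 : ℝ) l, pow_succ (3 / 4 : ℝ) l, show (3 / 4 : ℝ) = 3 / 2 * (1 / 2) by norm_num,
        mul_pow]
      ring
    calc 2 * α * ρ * (∫ t in E, N t) ≤ 2 * α * ρ * (C1 * (1 / 2) ^ l * Real.exp (C1 * α * l) * U) := by
          gcongr
      _ = 2 * α * C1 * (ρ * (1 / 2) ^ l) * Real.exp (C1 * α * l) * U := by ring
      _ ≤ 2 * α * C1 * (2 * (3 / 4) ^ L) * X * U := by rw [e]; gcongr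
      _ = α * U * (4 * C1 * (1 * (3 / 4) ^ L * X)) := by ring
      _ ≤ _ := by
          gcongr
          exact one_le_pow₀ hL1
  have hρi : 1 / ρ ≤ (3 / 4) ^ L := by
    rw [hρ, ← one_div_pow]
    exact pow_le_pow_left₀ (by norm_num) (by norm_num) L
  have t2 : L / (α * ρ) * (∫ t in E, ∑ j ∈ Finset.range L, R j 1 t)
      ≤ α * U * (C2 * (L ^ 4 * (3 / 4) ^ L * X)) := by
    calc L / (α * ρ) * (∫ t in E, ∑ j ∈ Finset.range L, R j 1 t)
        ≤ L / (α * ρ) * (L * (C2 * α ^ (2 * 1) * Real.exp (C2 * α * L) * U)) := by gcongr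
      _ = α * U * (C2 * (L ^ 2 * (1 / ρ) * Real.exp (C2 * α * L))) := by
          field_simp
          ring
      _ ≤ _ := by
          gcongr
          norm_num
  have t3 : L ^ 3 / (α ^ 2 * ρ) * (∫ t in E, ∑ j ∈ Finset.range L, R j 2 t)
      ≤ α * U * (C2 * (L ^ 4 * (3 / 4) ^ L * X)) := by
    calc L ^ 3 / (α ^ 2 * ρ) * (∫ t in E, ∑ j ∈ Finset.range L, R j 2 t)
        ≤ L ^ 3 / (α ^ 2 * ρ) * (L * (C2 * α ^ (2 * 2) * Real.exp (C2 * α * L) * U)) := by gcongr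
      _ = (α * α) * U * (C2 * (L ^ 4 * (1 / ρ) * Real.exp (C2 * α * L))) := by
          field_simp
          ring
      _ ≤ (α * 1) * U * (C2 * (L ^ 4 * (3 / 4) ^ L * X)) := by
          gcongr
      _ = _ := by ring
  linarith

/-- the sum over the levels, from the energies of the differences -/
theorem diff_sum_of (hDE : ∃ m1 p1 : ℕ, ∀ m : ℕ, m1 ≤ m → ∀ p0 : ℕ, p1 ≤ p0 → ∀ A : ℝ, 2000 * m ≤ A →
    ∃ C T0 : ℝ, 0 ≤ C ∧ 16 ≤ T0 ∧ ∀ T : ℝ, T0 ≤ T → ∀ a : ℝ, |a| ≤ 1 / 8 → ∀ l j r : ℕ, j < l →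
    l ≤ J1 (Real.log T / A) → r = 1 ∨ r = 2 →
    ∫ t in (0 : ℝ)..T, ‖riemannZeta (1 / 2 + I * t)
        * ev t (RR a m p0 (Real.log T / A) (J1 (Real.log T / A)) l j r)‖ ^ 2
      ≤ C * |a| ^ (2 * r) * Real.exp (C * |a| * l)
        * UU a p0 (Real.log T / A) (J1 (Real.log T / A)) T) :
    ∃ m1 p1 : ℕ, ∀ m : ℕ, m1 ≤ m → ∀ p0 : ℕ, p1 ≤ p0 → ∀ A : ℝ, 2000 * m ≤ A → ∀ C1 : ℝ, 0 ≤ C1 →
    ∃ C η T0 : ℝ, 0 ≤ C ∧ 0 < η ∧ 16 ≤ T0 ∧ ∀ T : ℝ, T0 ≤ T → ∀ (L : ℕ) (G : ℕ → Set ℝ),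
    LV C1 A m p0 T (J1 (Real.log T / A)) L G → ∀ a : ℝ, |a| ≤ η →
    ∑ l ∈ Finset.range (L + 1), ∫ t in disjointed G l, ‖riemannZeta (1 / 2 + I * t)‖ ^ 2
        * |‖ev t (NN a m p0 (Real.log T / A) 0 (J1 (Real.log T / A)))‖ ^ 2
          - ‖ev t (NN a m p0 (Real.log T / A) l (J1 (Real.log T / A)))‖ ^ 2|
      ≤ C * |a| * UU a p0 (Real.log T / A) (J1 (Real.log T / A)) T := by
  obtain ⟨m1, p1, h⟩ := hDE
  refine ⟨m1, p1, fun m hm p0 hp0 A hA C1 hC1 => ?_⟩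
  obtain ⟨C2, T0, hC2, hT0, h2⟩ := h m hm p0 hp0 A hA
  have hsm : Summable fun n : ℕ => ((n : ℝ) ^ 4 * (5 / 6 : ℝ) ^ n : ℝ) :=
    summable_pow_mul_geometric_of_norm_lt_one 4 (by rw [Real.norm_eq_abs, abs_of_pos] <;> norm_num)
  set S : ℝ := ∑' n : ℕ, ((n : ℝ) ^ 4 * (5 / 6 : ℝ) ^ n : ℝ) with hS
  have hS0 : 0 ≤ S := tsum_nonneg fun n => by positivity
  have hlog : 0 < Real.log (10 / 9) := Real.log_pos (by norm_num)
  set η : ℝ := min (1 / 8) (Real.log (10 / 9) / (C1 + C2 + 1)) with hη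
  have hη0 : 0 < η := lt_min (by norm_num) (by positivity)
  refine ⟨(4 * C1 + 2 * C2) * S, η, T0, by positivity, hη0, hT0, ?_⟩
  intro T hT L G hLV a ha
  set Y := Real.log T / A with hY
  set J := J1 Y with hJ
  have hT16 : 16 ≤ T := hT0.trans hT
  have hTp : 0 ≤ T := by linarith
  have hUU : 0 ≤ UU a p0 Y J T := by
    unfold UU
    have : 0 ≤ Real.log T := Real.log_nonneg (by linarith)
    positivity
  have ha8 : |a| ≤ 1 / 8 := ha.trans (min_le_left _ _)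
  by_cases ha0 : a = 0
  · rw [ha0]
    simp only [NN_exp_zero, sub_self, abs_zero, mul_zero, integral_zero, Finset.sum_const_zero, zero_mul,
      le_refl]
  have hexp : Real.exp ((C1 + C2) * |a|) ≤ 10 / 9 := by
    rw [← Real.le_log_iff_exp_le (by norm_num)]
    have h3 : |a| ≤ Real.log (10 / 9) / (C1 + C2 + 1) := ha.trans (min_le_right _ _)
    rw [le_div_iff₀ (by positivity)] at h3
    have h4 := abs_nonneg a
    nlinarith
  have hterm : ∀ l ∈ Finset.range (L + 1), ∫ t in disjointed G l, ‖riemannZeta (1 / 2 + I * t)‖ ^ 2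
        * |‖ev t (NN a m p0 Y 0 J)‖ ^ 2 - ‖ev t (NN a m p0 Y l J)‖ ^ 2|
      ≤ |a| * UU a p0 Y J T * ((4 * C1 + 2 * C2) * ((l : ℝ) ^ 4 * (5 / 6 : ℝ) ^ l)) := by
    intro l hl
    rw [Finset.mem_range] at hl
    rcases Nat.eq_zero_or_pos l with h0 | h0
    · subst h0
      simp
    · obtain ⟨k, rfl⟩ : ∃ k, l = k + 1 := ⟨l - 1, by omega⟩
      have hkL : k < L := by omega
      have hLJ := hLV.LJ
      have hsub : disjointed G (k + 1) ⊆ Icc 0 T := (disjointed_sub G _).trans (hLV.sub _)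
      have hp := hLV.piece a ha8 k hkL
      have hp' : ∫ t in disjointed G (k + 1),
          ‖riemannZeta (1 / 2 + I * t) * ev t (NN a m p0 Y (k + 1) J)‖ ^ 2
          ≤ C1 * (1 / 2) ^ k * Real.exp (C1 * |a| * k) * UU a p0 Y J T := by
        refine le_trans ?_ hp
        refine setIntegral_mono_set ?_ (Filter.Eventually.of_forall fun t => by positivity)
          (LE.le.eventuallyLE (disjointed_succ_sub G k))
        exact ((cont_ze' _).integrableOn_Icc (a := 0) (b := T)).mono_set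
          (sdiff_subset.trans (hLV.sub _))
      have hkJ : k + 1 ≤ J := by omega
      have hq := diff_level hC1 hC2 hUU hTp ha0 ha8 hkJ
        (disjointed_meas hLV.meas (k + 1)) hsub hp' (fun j r hj hr =>
          h2 T hT a ha8 (k + 1) j r hj hkJ hr)
      refine hq.trans ?_
      have h5 : (3 / 4 : ℝ) ^ (k + 1) * Real.exp ((C1 + C2) * |a| * (k + 1 : ℕ)) ≤ (5 / 6) ^ (k + 1) := by
        have e : Real.exp ((C1 + C2) * |a| * (k + 1 : ℕ)) = Real.exp ((C1 + C2) * |a|) ^ (k + 1) := by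
          rw [← Real.exp_nat_mul]
          congr 1
          ring
        rw [e, ← mul_pow]
        refine pow_le_pow_left₀ (by positivity) ?_ _
        have := Real.exp_pos ((C1 + C2) * |a|)
        linarith
      have h6 : ((k + 1 : ℕ) : ℝ) ^ 4 * (3 / 4) ^ (k + 1) * Real.exp ((C1 + C2) * |a| * (k + 1 : ℕ))
          ≤ ((k + 1 : ℕ) : ℝ) ^ 4 * (5 / 6) ^ (k + 1) := by
        rw [mul_assoc]
        gcongr
      have h7 := abs_nonneg a
      gcongr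
  refine (Finset.sum_le_sum hterm).trans ?_
  rw [← Finset.mul_sum, ← Finset.mul_sum]
  have h8 : ∑ l ∈ Finset.range (L + 1), ((l : ℝ) ^ 4 * (5 / 6 : ℝ) ^ l) ≤ S :=
    hsm.sum_le_tsum _ fun n _ => by positivity
  calc |a| * UU a p0 Y J T * ((4 * C1 + 2 * C2) * ∑ l ∈ Finset.range (L + 1), ((l : ℝ) ^ 4 * (5 / 6 : ℝ) ^ l))
      ≤ |a| * UU a p0 Y J T * ((4 * C1 + 2 * C2) * S) := by gcongr
    _ = _ := by ring

end Pool.Agent.Lib.MP_f9aece_nt_r3
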