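import Mathlib
import Pool.Agent.Lib.MP_f9aece_nt_h40.FormsTwoC
import Pool.Agent.Lib.MP_f9aece_nt_r3.Defs

/-!
The forms of the differences `RR`: everything is dominated by the exponent one.
-/

set_option autoImplicit false

namespace Pool.Agent.Lib.MP_f9aece_nt_r3

open MeasureTheory Set Filter Topology Complex
open Pool.Agent.Lib.MP_f9aece_nt
open Pool.Agent.Lib.MP_f9aece_nt_h97
open Pool.Agent.Lib.MP_f9aece_nt_h40

section dom

variable {I : Finset ℕ} {a : ℝ} {M : ℕ}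

lemma one_dom_expo (hI : ∀ p ∈ I, p.Prime) (M : ℕ) : Dom 1 (expo 1 M I) := by
  have h := dom_expo hI (c := 0) (d := 1) (by norm_num) M
  rwa [expo_zero] at h

lemma Dom.trans2 {f g h : DP} (h1 : Dom f g) (h2 : Dom g h) : Dom f h := fun n =>
  (h1 n).trans ((le_abs_self _).trans (h2 n))

/-- `q_a - 1` is dominated by `|a| q_1` -/
lemma expo_sub_one_dom (hI : ∀ p ∈ I, p.Prime) (ha : |a| ≤ 1) (M : ℕ) :
    Dom (expo a M I - 1) (|a| • expo 1 M I) := by
  have e : expo a M I - 1 = ∑ r ∈ Finset.range (M + 1),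
      ((if r = 0 then 0 else a ^ r) / (r.factorial : ℝ)) • (PP I) ^ r := by
    unfold expo
    rw [Finset.sum_range_succ', Finset.sum_range_succ']
    simp
  rw [e]
  unfold expo
  rw [Finset.smul_sum]
  refine Dom.sum _ fun r _ => ?_
  rw [smul_smul]
  refine (dom_self (cone_PP_pow hI r)).smul ?_
  rw [abs_div, abs_of_pos (by positivity : (0 : ℝ) < (r.factorial : ℝ)), one_pow, mul_one_div]
  refine div_le_div_of_nonneg_right ?_ (by positivity)
  split_ifs with h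
  · rw [abs_zero]; exact abs_nonneg _
  · rw [abs_pow]
    calc |a| ^ r ≤ |a| ^ 1 := pow_le_pow_of_le_one (abs_nonneg _) ha (by omega)
      _ = |a| := pow_one _

/-- the dominating block -/
noncomputable def gg (M : ℕ) (I : Finset ℕ) : DP := E3 1 1 0 M I

lemma gg_eq (M : ℕ) (I : Finset ℕ) : gg M I = expo 1 M I * expo 1 M I := by
  unfold gg E3
  rw [expo_zero, mul_one]

lemma gg_nonneg (hI : ∀ p ∈ I, p.Prime) (M : ℕ) : ∀ n, 0 ≤ (gg M I).coeff n := by
  have h := (one_dom_expo hI M).mul (one_dom_expo hI M)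
  rw [← gg_eq] at h
  exact h.nonneg

lemma one_dom_gg (hI : ∀ p ∈ I, p.Prime) (M : ℕ) : Dom 1 (gg M I) := by
  have h := (one_dom_expo hI M).mul (one_dom_expo hI M)
  rw [← gg_eq, mul_one] at h
  exact h

lemma expo_dom_gg (hI : ∀ p ∈ I, p.Prime) (ha : |a| ≤ 1) (M : ℕ) : Dom (expo a M I) (gg M I) := by
  have h := (dom_expo hI ha M).mul (one_dom_expo hI M)
  rwa [← gg_eq, mul_one] at h

lemma sub_pow_dom (hI : ∀ p ∈ I, p.Prime) (ha : |a| ≤ 1) (M : ℕ) {r : ℕ} (hr : r = 1 ∨ r = 2) :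
    Dom ((expo a M I - 1) ^ r) (|a| ^ r • gg M I) := by
  have h := expo_sub_one_dom hI ha M
  rcases hr with rfl | rfl
  · rw [pow_one, pow_one]
    have h2 := h.mul (one_dom_expo hI M)
    rwa [mul_one, smul_mul_assoc, ← gg_eq] at h2
  · have h2 := h.mul h
    rwa [smul_mul_assoc, mul_smul_comm, smul_smul, ← gg_eq, ← pow_two, ← pow_two] at h2

lemma pow_dom (hI : ∀ p ∈ I, p.Prime) (ha : |a| ≤ 1) (M : ℕ) {r : ℕ} (hr : r = 1 ∨ r = 2) :
    Dom (expo a M I ^ r) (gg M I) := by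
  rcases hr with rfl | rfl
  · rw [pow_one]; exact expo_dom_gg hI ha M
  · have h := (dom_expo hI ha M).mul (dom_expo hI ha M)
    rwa [← gg_eq, ← pow_two] at h

lemma pow_sub_dom (hI : ∀ p ∈ I, p.Prime) (ha : |a| ≤ 1) (M : ℕ) {r : ℕ} (hr : r = 1 ∨ r = 2) :
    Dom (expo a M I ^ r - 1) ((2 * |a|) • gg M I) := by
  have h := expo_sub_one_dom hI ha M
  rcases hr with rfl | rfl
  · rw [pow_one]
    have h2 := h.mul (one_dom_expo hI M)
    rw [mul_one, smul_mul_assoc, ← gg_eq] at h2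
    exact h2.trans' (by linarith [abs_nonneg a]) (gg_nonneg hI M)
  · have h3 := h.mul ((dom_expo hI ha M).add (one_dom_expo hI M))
    have e : expo a M I ^ 2 - 1 = (expo a M I - 1) * (expo a M I + 1) := by ring
    have e2 : (2 * |a|) • gg M I = (|a| • expo 1 M I) * (expo 1 M I + expo 1 M I) := by
      rw [gg_eq, ← two_mul, smul_mul_assoc, mul_smul]
      rw [← mul_assoc, mul_comm (expo 1 M I) 2, mul_assoc, two_mul, two_smul, smul_add]
    rw [e, e2]
    exact h3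

end dom

/-- bound of the dominating block -/
noncomputable def W0 : ℝ := Real.exp (8 * 12 + E6 * 12 + 1)

lemma one_le_W0 : 1 ≤ W0 := by
  unfold W0
  have := E6_pos
  exact Real.one_le_exp (by positivity)

lemma gg_bounds {L : ℕ → ℕ → ℝ} (hL : LogKer L) {I : Finset ℕ} (hI : ∀ p ∈ I, p.Prime) {M : ℕ}
    (hV : VV I ≤ 12) (hM : 1 ≤ M) (hMt : ta M ≤ 1) :
    |BK K2 (gg M I) (gg M I)| ≤ W0 ∧ |BK L (gg M I) (gg M I)| ≤ CL * LL I * W0 := by
  obtain ⟨h1, h2⟩ := block_K2L hL hI (c1 := 1) (c2 := 1) (c3 := 0) (by norm_num) (by norm_num)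
    (by norm_num) (c := 2) (by norm_num) hV hM hMt
  have hVn := VV_nonneg I
  have hV2 := V2_nonneg I
  have hV2' := V2_le_VV hI
  have hLL := LL_nonneg I
  have h6 := E6_pos
  have hCL := CL_pos
  have h3 : Real.exp ((2 * 2 + 2 ^ 2) * VV I + E6 * V2 I + ta M) ≤ W0 := by
    unfold W0
    apply Real.exp_le_exp.mpr
    have e1 : (2 * 2 + 2 ^ 2 : ℝ) = 8 := by norm_num
    rw [e1]
    have e2 : E6 * V2 I ≤ E6 * 12 := by
      refine mul_le_mul_of_nonneg_left ?_ h6.le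
      linarith
    linarith
  unfold gg
  refine ⟨h1.trans h3, h2.trans ?_⟩
  gcongr

/-- forms of a perturbation of one -/
lemma BK_near_one {K : ℕ → ℕ → ℝ} (hK : ∀ a b, 0 ≤ K a b) {f g : DP} {δ : ℝ} (hδ0 : 0 ≤ δ)
    (hδ : δ ≤ 2) (h1 : Dom 1 g) (h : Dom (f - 1) (δ • g)) :
    |BK K f f - K 1 1| ≤ 4 * δ * |BK K g g| := by
  set u : DP := f - 1 with hu
  have e : f = 1 + u := by rw [hu]; abel
  have e1 : BK K (1 : DP) 1 = K 1 1 := by
    rw [MonoidAlgebra.one_def, BK_single]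
    ring
  have e2 : BK K f f - K 1 1 = BK K 1 u + BK K u 1 + BK K u u := by
    rw [e, BK_add_left, BK_add_right, BK_add_right, e1]
    ring
  have hg : BK K g g ≤ |BK K g g| := le_abs_self _
  have hg0 : 0 ≤ |BK K g g| := abs_nonneg _
  have a1 : |BK K 1 u| ≤ δ * |BK K g g| := by
    have := abs_BK_le_of_dom hK h1 h
    rw [BK_smul_right] at this
    exact this.trans (by gcongr)
  have a2 : |BK K u 1| ≤ δ * |BK K g g| := by
    have := abs_BK_le_of_dom hK h h1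
    rw [BK_smul_left] at this
    exact this.trans (by gcongr)
  have a3 : |BK K u u| ≤ 2 * δ * |BK K g g| := by
    have := abs_BK_le_of_dom hK h h
    rw [BK_smul_left, BK_smul_right] at this
    refine this.trans ?_
    calc δ * (δ * BK K g g) ≤ δ * (δ * |BK K g g|) := by gcongr
      _ ≤ δ * (2 * |BK K g g|) := by gcongr
      _ = _ := by ring
  rw [e2]
  calc |BK K 1 u + BK K u 1 + BK K u u| ≤ |BK K 1 u| + |BK K u 1| + |BK K u u| := abs_add_three _ _ _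
    _ ≤ _ := by linarith

section blocks

variable {I : Finset ℕ} {a : ℝ} {M : ℕ}

/-- the block `q ^ r` -/
lemma block_pow {L : ℕ → ℕ → ℝ} (hL : LogKer L) (hI : ∀ p ∈ I, p.Prime) (ha : |a| ≤ 1)
    (hV : VV I ≤ 12) (hM : 1 ≤ M) (hMt : ta M ≤ 1) {r : ℕ} (hr : r = 1 ∨ r = 2) :
    |BK K2 (expo a M I ^ r) (expo a M I ^ r)| ≤ Real.exp (8 * W0 * |a|) ∧
    |BK L (expo a M I ^ r) (expo a M I ^ r)| ≤ 8 * CL * W0 * LL I * Real.exp (8 * W0 * |a|) := by
  obtain ⟨g1, g2⟩ := gg_bounds hL hI hV hM hMt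
  have ha0 := abs_nonneg a
  have h1 := BK_near_one K2_nonneg (by positivity) (by linarith : 2 * |a| ≤ 2) (one_dom_gg hI M)
    (pow_sub_dom hI ha M hr)
  have h2 := BK_near_one hL.nonneg (by positivity) (by linarith : 2 * |a| ≤ 2) (one_dom_gg hI M)
    (pow_sub_dom hI ha M hr)
  have hW := one_le_W0
  have hLL := LL_nonneg I
  have hCL := CL_pos
  have hK : K2 1 1 = 1 := by simp [K2]
  rw [hK] at h1
  rw [hL.one, sub_zero] at h2
  constructor
  · have h3 := Real.add_one_le_exp (8 * W0 * |a|)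
    have h4 : 4 * (2 * |a|) * |BK K2 (gg M I) (gg M I)| ≤ 4 * (2 * |a|) * W0 := by gcongr
    have h5 := abs_sub_abs_le_abs_sub (BK K2 (expo a M I ^ r) (expo a M I ^ r)) 1
    rw [abs_one] at h5
    linarith
  · have h3 : 1 ≤ Real.exp (8 * W0 * |a|) := Real.one_le_exp (by positivity)
    calc |BK L (expo a M I ^ r) (expo a M I ^ r)| ≤ 4 * (2 * |a|) * |BK L (gg M I) (gg M I)| := h2
      _ ≤ 4 * (2 * 1) * (CL * LL I * W0) := by gcongr
      _ = 8 * CL * W0 * LL I * 1 := by ring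
      _ ≤ _ := by gcongr

/-- the block `(q - 1) ^ r` -/
lemma block_sub {L : ℕ → ℕ → ℝ} (hL : LogKer L) (hI : ∀ p ∈ I, p.Prime) (ha : |a| ≤ 1)
    (hV : VV I ≤ 12) (hM : 1 ≤ M) (hMt : ta M ≤ 1) {r : ℕ} (hr : r = 1 ∨ r = 2) :
    |BK K2 ((expo a M I - 1) ^ r) ((expo a M I - 1) ^ r)| ≤ |a| ^ (2 * r) * W0 ∧
    |BK L ((expo a M I - 1) ^ r) ((expo a M I - 1) ^ r)|
      ≤ 8 * CL * W0 * LL I * (|a| ^ (2 * r) * W0) := by
  obtain ⟨g1, g2⟩ := gg_bounds hL hI hV hM hMt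
  have ha0 := abs_nonneg a
  have hd := sub_pow_dom hI ha M hr
  have h1 := abs_BK_le_of_dom K2_nonneg hd hd
  have h2 := abs_BK_le_of_dom hL.nonneg hd hd
  rw [BK_smul_left, BK_smul_right] at h1 h2
  have hW := one_le_W0
  have hLL := LL_nonneg I
  have hCL := CL_pos
  have e : |a| ^ (2 * r) = |a| ^ r * |a| ^ r := by rw [two_mul, pow_add]
  rw [e]
  constructor
  · calc _ ≤ |a| ^ r * (|a| ^ r * BK K2 (gg M I) (gg M I)) := h1
      _ ≤ |a| ^ r * (|a| ^ r * W0) := by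
          have := (le_abs_self _).trans g1
          gcongr
      _ = _ := by ring
  · calc _ ≤ |a| ^ r * (|a| ^ r * BK L (gg M I) (gg M I)) := h2
      _ ≤ |a| ^ r * (|a| ^ r * (CL * LL I * W0)) := by
          have := (le_abs_self _).trans g2
          gcongr
      _ = 1 * 1 * (CL * LL I * (|a| ^ r * |a| ^ r * W0)) := by ring
      _ ≤ 8 * W0 * (CL * LL I * (|a| ^ r * |a| ^ r * W0)) := by
          gcongr
          norm_num
      _ = _ := by ring

/-- a block with exponent `a` -/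
lemma block_one {L : ℕ → ℕ → ℝ} (hL : LogKer L) (hI : ∀ p ∈ I, p.Prime) (ha : |a| ≤ 1)
    (hV : VV I ≤ 12) (hM : 1 ≤ M) (hMt : ta M ≤ 1) :
    |BK K2 (expo a M I) (expo a M I)|
      ≤ Real.exp ((2 * a + a ^ 2) * VV I + E6 * V2 I + ta M) ∧
    |BK L (expo a M I) (expo a M I)|
      ≤ 8 * CL * W0 * LL I * Real.exp ((2 * a + a ^ 2) * VV I + E6 * V2 I + ta M) := by
  obtain ⟨h1, h2⟩ := block_K2L hL hI (c1 := a) (c2 := 0) (c3 := 0) ha (by norm_num)
    (by norm_num) (c := a) (by ring) hV hM hMt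
  have e : E3 a 0 0 M I = expo a M I := by
    unfold E3
    rw [expo_zero, mul_one, mul_one]
  rw [e] at h1 h2
  refine ⟨h1, h2.trans ?_⟩
  have hW := one_le_W0
  have hLL := LL_nonneg I
  have hCL := CL_pos
  have h3 : CL * LL I ≤ 8 * CL * W0 * LL I := by
    have : 0 ≤ CL * LL I := by positivity
    nlinarith
  gcongr

end blocks

/-- the factors of `RR` -/
noncomputable def rf (a : ℝ) (m p0 : ℕ) (Y : ℝ) (l j r i : ℕ) : DP :=
  if l ≤ i then qb a m p0 Y i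
  else if i < j then qb a m p0 Y i ^ r
  else if i = j then (qb a m p0 Y i - 1) ^ r
  else 1

lemma prod_split {α : Type} [CommMonoid α] (F : ℕ → α) {j l J : ℕ} (hj : j < l) (hl : l ≤ J) :
    ∏ i ∈ Finset.range J, F i = (∏ i ∈ Finset.Ico 0 j, F i) * F j
      * (∏ i ∈ Finset.Ico (j + 1) l, F i) * ∏ i ∈ Finset.Ico l J, F i := by
  rw [Finset.range_eq_Ico, ← Finset.prod_Ico_consecutive F (Nat.zero_le l) hl,
    ← Finset.prod_Ico_consecutive F (Nat.zero_le (j + 1)) hj, Finset.prod_Ico_succ_top (Nat.zero_le j)]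

lemma RR_eq {a : ℝ} {m p0 : ℕ} {Y : ℝ} {J l j r : ℕ} (hj : j < l) (hl : l ≤ J) :
    RR a m p0 Y J l j r = ∏ i ∈ Finset.range J, rf a m p0 Y l j r i := by
  rw [prod_split _ hj hl]
  have e1 : ∏ i ∈ Finset.Ico 0 j, rf a m p0 Y l j r i = NN a m p0 Y 0 j ^ r := by
    unfold NN
    rw [← Finset.prod_pow]
    refine Finset.prod_congr rfl fun i hi => ?_
    rw [Finset.mem_Ico] at hi
    unfold rf
    rw [if_neg (by omega), if_pos hi.2]
  have e2 : rf a m p0 Y l j r j = (qb a m p0 Y j - 1) ^ r := by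
    unfold rf
    rw [if_neg (by omega), if_neg (by omega), if_pos rfl]
  have e3 : ∏ i ∈ Finset.Ico (j + 1) l, rf a m p0 Y l j r i = 1 := by
    refine Finset.prod_eq_one fun i hi => ?_
    rw [Finset.mem_Ico] at hi
    unfold rf
    rw [if_neg (by omega), if_neg (by omega), if_neg (by omega)]
  have e4 : ∏ i ∈ Finset.Ico l J, rf a m p0 Y l j r i = NN a m p0 Y l J := by
    unfold NN
    refine Finset.prod_congr rfl fun i hi => ?_
    rw [Finset.mem_Ico] at hi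
    unfold rf
    rw [if_pos hi.1]
  rw [e1, e2, e3, e4]
  unfold RR
  rw [mul_pow]
  ring

/-- the bounds of the factors of `RR` -/
noncomputable def ru (a : ℝ) (m p0 : ℕ) (Y : ℝ) (l j r i : ℕ) : ℝ :=
  if l ≤ i then Real.exp ((2 * a + a ^ 2) * VV (sc Y p0 i) + E6 * V2 (sc Y p0 i) + ta (Mm m i))
  else if i < j then Real.exp (8 * W0 * |a|)
  else if i = j then |a| ^ (2 * r) * W0
  else 1

lemma ru_nonneg (a : ℝ) (m p0 : ℕ) (Y : ℝ) (l j r i : ℕ) : 0 ≤ ru a m p0 Y l j r i := by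
  have := one_le_W0
  unfold ru
  split_ifs <;> positivity

lemma sum_Ico_le {F : ℕ → ℝ} (hF : ∀ i, 0 ≤ F i) (l J : ℕ) :
    ∑ i ∈ Finset.Ico l J, F i ≤ ∑ i ∈ Finset.range J, F i := by
  refine Finset.sum_le_sum_of_subset_of_nonneg ?_ fun i _ _ => hF i
  intro i hi
  rw [Finset.mem_Ico] at hi
  exact Finset.mem_range.mpr hi.2

/-- product of the bounds -/
lemma prod_ru_le {a : ℝ} (ha : |a| ≤ 1) {m p0 : ℕ} {Y : ℝ} (hY : 0 < Y) {J l j r : ℕ} (hj : j < l)
    (hl : l ≤ J) (hm : 1 ≤ m) (hm2 : 2 * C6 / 2 ^ m ≤ 1) (hp0 : 1 ≤ p0) :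
    ∏ i ∈ Finset.range J, ru a m p0 Y l j r i
      ≤ W0 * Real.exp (E6 + 1) * |a| ^ (2 * r) * Real.exp ((8 * W0 + 36) * |a| * l)
        * Real.exp ((2 * a + a ^ 2) * VI p0 Y 0 J) := by
  rw [prod_split _ hj hl]
  have hW := one_le_W0
  have h6 := E6_pos
  have ha0 := abs_nonneg a
  have e1 : ∏ i ∈ Finset.Ico 0 j, ru a m p0 Y l j r i = Real.exp (8 * W0 * |a| * j) := by
    have : ∀ i ∈ Finset.Ico 0 j, ru a m p0 Y l j r i = Real.exp (8 * W0 * |a|) := by
      intro i hi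
      rw [Finset.mem_Ico] at hi
      unfold ru
      rw [if_neg (by omega), if_pos hi.2]
    rw [Finset.prod_congr rfl this, Finset.prod_const, Nat.card_Ico, Nat.sub_zero, ← Real.exp_nat_mul]
    congr 1
    ring
  have e2 : ru a m p0 Y l j r j = |a| ^ (2 * r) * W0 := by
    unfold ru
    rw [if_neg (by omega), if_neg (by omega), if_pos rfl]
  have e3 : ∏ i ∈ Finset.Ico (j + 1) l, ru a m p0 Y l j r i = 1 := by
    refine Finset.prod_eq_one fun i hi => ?_
    rw [Finset.mem_Ico] at hi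
    unfold ru
    rw [if_neg (by omega), if_neg (by omega), if_neg (by omega)]
  have e4 : ∏ i ∈ Finset.Ico l J, ru a m p0 Y l j r i
      = Real.exp ((2 * a + a ^ 2) * VI p0 Y l J + E6 * (∑ i ∈ Finset.Ico l J, V2 (sc Y p0 i))
        + ∑ i ∈ Finset.Ico l J, ta (Mm m i)) := by
    have : ∀ i ∈ Finset.Ico l J, ru a m p0 Y l j r i = Real.exp ((2 * a + a ^ 2) * VV (sc Y p0 i)
        + E6 * V2 (sc Y p0 i) + ta (Mm m i)) := by
      intro i hi
      rw [Finset.mem_Ico] at hi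
      unfold ru
      rw [if_pos hi.1]
    rw [Finset.prod_congr rfl this, ← Real.exp_sum, Finset.sum_add_distrib, Finset.sum_add_distrib,
      ← Finset.mul_sum, ← Finset.mul_sum]
    rfl
  rw [e1, e2, e3, e4]
  have hV2 : ∑ i ∈ Finset.Ico l J, V2 (sc Y p0 i) ≤ 1 :=
    (sum_Ico_le (fun i => V2_nonneg _) l J).trans (sum_V2_sc_le hY hp0 J)
  have hta : ∑ i ∈ Finset.Ico l J, ta (Mm m i) ≤ 1 :=
    (sum_Ico_le (fun i => (ta_pos _).le) l J).trans ((sum_ta_le hm J).trans hm2)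
  have hVI : VI p0 Y 0 J = VI p0 Y 0 l + VI p0 Y l J := by
    unfold VI
    exact (Finset.sum_Ico_consecutive _ (Nat.zero_le l) hl).symm
  have hV0 : 0 ≤ VI p0 Y 0 l := Finset.sum_nonneg fun i _ => VV_nonneg _
  have hVl : VI p0 Y 0 l ≤ 12 * l := by
    unfold VI
    calc ∑ i ∈ Finset.Ico 0 l, VV (sc Y p0 i) ≤ ∑ i ∈ Finset.Ico 0 l, (12 : ℝ) :=
          Finset.sum_le_sum fun i _ => VV_sc_le hY p0 i
      _ = 12 * l := by
          rw [Finset.sum_const, Nat.card_Ico, Nat.sub_zero, nsmul_eq_mul]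
          ring
  have hab : |2 * a + a ^ 2| ≤ 3 * |a| := by
    have e : 2 * a + a ^ 2 = a * (2 + a) := by ring
    rw [e, abs_mul, mul_comm 3]
    refine mul_le_mul_of_nonneg_left ?_ ha0
    rw [abs_le] at ha ⊢
    constructor <;> linarith [ha.1, ha.2]
  have h7 : (2 * a + a ^ 2) * VI p0 Y l J
      ≤ (2 * a + a ^ 2) * VI p0 Y 0 J + 36 * |a| * l := by
    have h8 : -((2 * a + a ^ 2) * VI p0 Y 0 l) ≤ 3 * |a| * (12 * l) := by
      calc -((2 * a + a ^ 2) * VI p0 Y 0 l) ≤ |(2 * a + a ^ 2) * VI p0 Y 0 l| := neg_le_abs _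
        _ = |2 * a + a ^ 2| * VI p0 Y 0 l := by rw [abs_mul, abs_of_nonneg hV0]
        _ ≤ _ := by gcongr
    rw [hVI]
    linarith
  have h9 : Real.exp ((2 * a + a ^ 2) * VI p0 Y l J + E6 * (∑ i ∈ Finset.Ico l J, V2 (sc Y p0 i))
        + ∑ i ∈ Finset.Ico l J, ta (Mm m i))
      ≤ Real.exp (E6 + 1) * Real.exp (36 * |a| * l) * Real.exp ((2 * a + a ^ 2) * VI p0 Y 0 J) := by
    rw [← Real.exp_add, ← Real.exp_add]
    apply Real.exp_le_exp.mpr
    have h10 : E6 * (∑ i ∈ Finset.Ico l J, V2 (sc Y p0 i)) ≤ E6 * 1 := by gcongr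
    linarith
  have h11 : Real.exp (8 * W0 * |a| * j) ≤ Real.exp (8 * W0 * |a| * l) := by
    apply Real.exp_le_exp.mpr
    have : (j : ℝ) ≤ l := by exact_mod_cast hj.le
    gcongr
  calc Real.exp (8 * W0 * |a| * j) * (|a| ^ (2 * r) * W0) * 1
        * Real.exp ((2 * a + a ^ 2) * VI p0 Y l J + E6 * (∑ i ∈ Finset.Ico l J, V2 (sc Y p0 i))
        + ∑ i ∈ Finset.Ico l J, ta (Mm m i))
      ≤ Real.exp (8 * W0 * |a| * l) * (|a| ^ (2 * r) * W0) * 1
        * (Real.exp (E6 + 1) * Real.exp (36 * |a| * l) * Real.exp ((2 * a + a ^ 2) * VI p0 Y 0 J)) := by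
        gcongr
    _ = _ := by
        have : Real.exp ((8 * W0 + 36) * |a| * l)
            = Real.exp (8 * W0 * |a| * l) * Real.exp (36 * |a| * l) := by
          rw [← Real.exp_add]; congr 1; ring
        rw [this]
        ring

/-- supports of the factors -/
lemma sup_rf (a : ℝ) (m p0 : ℕ) (Y : ℝ) (l j r i : ℕ) :
    Sup (Smo (sc Y p0 i)) (rf a m p0 Y l j r i) := by
  have h1 : Sup (Smo (sc Y p0 i)) (qb a m p0 Y i) := sup_expo (fun p hp => sc_prime hp) _ _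
  have h0 : Sup (Smo (sc Y p0 i)) (1 : DP) := Sup.one (one_mem_Smo _)
  have hpow : ∀ f : DP, Sup (Smo (sc Y p0 i)) f → Sup (Smo (sc Y p0 i)) (f ^ r) := by
    intro f hf
    induction r with
    | zero => simpa using h0
    | succ r ih => rw [pow_succ]; exact ih.mul hf fun _ ha _ hb => mul_mem_Smo ha hb
  unfold rf
  split_ifs
  · exact h1
  · exact hpow _ h1
  · exact hpow _ (h1.sub h0)
  · exact h0

/-- bounds of the factors -/
lemma rf_bounds {L : ℕ → ℕ → ℝ} (hL : LogKer L) {a : ℝ} (ha : |a| ≤ 1) {m p0 : ℕ} {Y : ℝ}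
    (hY : 0 < Y) {l j r : ℕ} (hr : r = 1 ∨ r = 2) (hm : 1 ≤ m) (hm2 : 2 * C6 / 2 ^ m ≤ 1) (i : ℕ) :
    |BK K2 (rf a m p0 Y l j r i) (rf a m p0 Y l j r i)| ≤ ru a m p0 Y l j r i ∧
    |BK L (rf a m p0 Y l j r i) (rf a m p0 Y l j r i)|
      ≤ 8 * CL * W0 * LL (sc Y p0 i) * ru a m p0 Y l j r i := by
  have hI : ∀ p ∈ sc Y p0 i, p.Prime := fun p hp => sc_prime hp
  have hV := VV_sc_le hY p0 i
  have hM := Mm_pos' hm i
  have hMt := ta_Mm_le_one hm hm2 i
  have hW := one_le_W0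
  have hLL := LL_nonneg (sc Y p0 i)
  have hCL := CL_pos
  unfold rf ru qb
  split_ifs
  · exact block_one hL hI ha hV hM hMt
  · exact block_pow hL hI ha hV hM hMt hr
  · exact block_sub hL hI ha hV hM hMt hr
  · rw [MonoidAlgebra.one_def, BK_single, BK_single, hL.one]
    constructor
    · simp [K2]
    · rw [mul_zero, abs_zero]
      positivity

/-- domination of the whole product -/
lemma RR_dom {a : ℝ} (ha : |a| ≤ 1) {m p0 : ℕ} {Y : ℝ} {J l j r : ℕ} (hj : j < l) (hl : l ≤ J)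
    (hr : r = 1 ∨ r = 2) :
    Dom (RR a m p0 Y J l j r) (|a| ^ r • (DD m p0 1 Y J * DD m p0 1 Y J)) := by
  have hI : ∀ i, ∀ p ∈ sc Y p0 i, p.Prime := fun i p hp => sc_prime hp
  have e : |a| ^ r • (DD m p0 1 Y J * DD m p0 1 Y J)
      = ∏ i ∈ Finset.range J, ((if i = j then |a| ^ r else 1) • gg (Mm m i) (sc Y p0 i)) := by
    have e1 : DD m p0 1 Y J * DD m p0 1 Y J = ∏ i ∈ Finset.range J, gg (Mm m i) (sc Y p0 i) := by
      unfold DD
      rw [← Finset.prod_mul_distrib]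
      exact Finset.prod_congr rfl fun i _ => (gg_eq _ _).symm
    have e2 : ∏ i ∈ Finset.range J, (if i = j then |a| ^ r else (1 : ℝ)) = |a| ^ r := by
      rw [Finset.prod_ite_eq' (Finset.range J) j (fun _ => |a| ^ r),
        if_pos (Finset.mem_range.mpr (by omega))]
    rw [e1, Finset.prod_smul, e2]
  rw [RR_eq hj hl, e]
  refine Dom.prod _ fun i _ => ?_
  unfold rf
  split_ifs with h1 h2 h3 h4 h5
  · omega
  · rw [one_smul]; exact expo_dom_gg (hI i) ha _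
  · omega
  · rw [one_smul]; exact pow_dom (hI i) ha _ hr
  · exact sub_pow_dom (hI i) ha _ hr
  · rw [one_smul]; exact one_dom_gg (hI i) _

theorem rforms : ∃ C : ℝ, 0 ≤ C ∧ ∃ m1 p1 : ℕ, ∀ m : ℕ, m1 ≤ m → ∀ p0 : ℕ, p1 ≤ p0 → ∀ a : ℝ,
    |a| ≤ 1 / 8 → ∀ Y : ℝ, 0 < Y → ∀ J l j r : ℕ, j < l → l ≤ J → r = 1 ∨ r = 2 →
    |BK K2 (RR a m p0 Y J l j r) (RR a m p0 Y J l j r)|
      ≤ C * |a| ^ (2 * r) * Real.exp (C * |a| * l) * Real.exp ((2 * a + a ^ 2) * VI p0 Y 0 J) ∧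
    |BK KL (RR a m p0 Y J l j r) (RR a m p0 Y J l j r)|
      ≤ C * |a| ^ (2 * r) * Real.exp (C * |a| * l) * (Y + 1)
        * Real.exp ((2 * a + a ^ 2) * VI p0 Y 0 J) ∧
    (∀ n, (RR a m p0 Y J l j r).coeff n ≠ 0 → 1 ≤ n ∧ (n : ℝ) ≤ Real.exp (8 * m * Y)) ∧
    nrm (RR a m p0 Y J l j r) ≤ |a| ^ r * Real.exp (4 * J + 8 * m * Y) := by
  have hW := one_le_W0
  have h6 := E6_pos
  have hCL := CL_pos
  have hC6 := C6_pos
  obtain ⟨m1, hm1⟩ := pow_unbounded_of_one_lt (2 * C6) (one_lt_two (α := ℝ))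
  set A : ℝ := W0 * Real.exp (E6 + 1) with hA
  have hA1 : 1 ≤ A := by
    have : 1 ≤ Real.exp (E6 + 1) := Real.one_le_exp (by positivity)
    rw [hA]
    nlinarith
  set B : ℝ := 8 * CL * W0 with hB
  have hB0 : 0 < B := by positivity
  set C : ℝ := A + 2 * B * A + (8 * W0 + 36) with hC
  have hC1 : A ≤ C := by
    have : 0 ≤ B * A := by positivity
    rw [hC]; linarith
  have hC2 : 2 * B * A ≤ C := by rw [hC]; linarith
  have hC3 : 8 * W0 + 36 ≤ C := by
    have : 0 ≤ B * A := by positivity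
    rw [hC]; linarith
  refine ⟨C, by linarith, max m1 1, 1, ?_⟩
  intro m hm p0 hp0 a ha Y hY J l j r hj hl hr
  have hm' : 1 ≤ m := (le_max_right _ _).trans hm
  have hm2 : 2 * C6 / 2 ^ m ≤ 1 := by
    rw [div_le_one (by positivity)]
    exact hm1.le.trans (pow_le_pow_right₀ (by norm_num) ((le_max_left _ _).trans hm))
  have ha1 : |a| ≤ 1 := by linarith
  have ha0 := abs_nonneg a
  obtain ⟨b1, b2⟩ := prod_boundsL logKer_KL (Finset.range J) (sc Y p0)
    (fun _ _ _ _ h => sc_disjoint hY h) (rf a m p0 Y l j r) (fun i _ => sup_rf a m p0 Y l j r i)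
    (ru a m p0 Y l j r) (fun i => B * LL (sc Y p0 i)) (fun i _ => ru_nonneg a m p0 Y l j r i)
    (fun i _ => mul_nonneg hB0.le (LL_nonneg _))
    (fun i _ => (rf_bounds logKer_KL ha1 hY hr hm' hm2 i).1)
    (fun i _ => (rf_bounds logKer_KL ha1 hY hr hm' hm2 i).2)
  rw [← RR_eq hj hl] at b1 b2
  have hU := prod_ru_le (r := r) ha1 hY hj hl hm' hm2 hp0
  have hU0 : 0 ≤ ∏ i ∈ Finset.range J, ru a m p0 Y l j r i :=
    Finset.prod_nonneg fun i _ => ru_nonneg a m p0 Y l j r i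
  have hE : Real.exp ((8 * W0 + 36) * |a| * l) ≤ Real.exp (C * |a| * l) := by
    apply Real.exp_le_exp.mpr
    gcongr
  have hdom := RR_dom (m := m) (p0 := p0) (Y := Y) ha1 hj hl hr
  refine ⟨?_, ?_, ?_, ?_⟩
  · refine b1.trans (hU.trans ?_)
    gcongr
  · have hs : ∑ i ∈ Finset.range J, B * LL (sc Y p0 i) ≤ 2 * B * (Y + 1) := by
      rw [← Finset.mul_sum]
      have := sum_LL_sc_le hY p0 J
      nlinarith
    refine b2.trans ?_
    calc (∑ i ∈ Finset.range J, B * LL (sc Y p0 i)) * ∏ i ∈ Finset.range J, ru a m p0 Y l j r i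
        ≤ (2 * B * (Y + 1)) * (A * |a| ^ (2 * r) * Real.exp ((8 * W0 + 36) * |a| * l)
        * Real.exp ((2 * a + a ^ 2) * VI p0 Y 0 J)) := by
          gcongr
      _ = (2 * B * A) * |a| ^ (2 * r) * Real.exp ((8 * W0 + 36) * |a| * l) * (Y + 1)
        * Real.exp ((2 * a + a ^ 2) * VI p0 Y 0 J) := by ring
      _ ≤ _ := by gcongr
  · have hc : Cone (Len (8 * m * Y)) (|a| ^ r • (DD m p0 1 Y J * DD m p0 1 Y J)) := by
      have h1 := cone_DD1 m p0 hY J
      have h2 := h1.mul h1 fun x hx y hy => Len.mul hx hy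
      refine (h2.mono (Len.mono ?_)).smul (by positivity)
      have : 0 ≤ (m : ℝ) * Y := by positivity
      nlinarith
    exact sup_len_floor (hdom.sup hc)
  · refine (nrm_le_aug hdom).trans ?_
    have e : aug (|a| ^ r • (DD m p0 1 Y J * DD m p0 1 Y J))
        = |a| ^ r * (aug (DD m p0 1 Y J) * aug (DD m p0 1 Y J)) := by
      rw [← aug_mul]
      unfold aug
      rw [pair_smul]
    rw [e]
    have h1 := aug_DD1 m p0 hY J
    have h0 : 0 ≤ aug (DD m p0 1 Y J) := aug_nonneg' (cone_DD1 m p0 hY J)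
    refine mul_le_mul_of_nonneg_left ?_ (by positivity)
    calc aug (DD m p0 1 Y J) * aug (DD m p0 1 Y J)
        ≤ Real.exp (J + 2 * m * Y) * Real.exp (J + 2 * m * Y) := by gcongr
      _ = Real.exp (2 * J + 4 * m * Y) := by rw [← Real.exp_add]; congr 1; ring
      _ ≤ _ := by
          apply Real.exp_le_exp.mpr
          have : 0 ≤ (m : ℝ) * Y := by positivity
          have : (0 : ℝ) ≤ J := by positivity
          nlinarith

end Pool.Agent.Lib.MP_f9aece_nt_r3
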