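import Mathlib
import Pool.Agent.Lib.MP_f9aece_nt_r3.Defs

/-!
S4: the quadratic forms of the polynomials `NN`, with an error proportional to `|a|`.
-/

set_option autoImplicit false

namespace Pool.Agent.Lib.MP_f9aece_nt_r3

open MeasureTheory Set Filter Topology Complex
open Pool.Agent.Lib.MP_f9aece_nt
open Pool.Agent.Lib.MP_f9aece_nt_h97
open Pool.Agent.Lib.MP_f9aece_nt_h40

/-! ### local factors -/

lemma exp_two_le : Real.exp (|(1 : ℝ)| + |(1 : ℝ)|) ≤ 8 := by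
  have h1 : Real.exp 1 < 2.7182818286 := Real.exp_one_lt_d9
  have h2 : |(1 : ℝ)| + |(1 : ℝ)| = 1 + 1 := by norm_num
  rw [h2, Real.exp_add]
  have h3 := Real.exp_pos 1
  nlinarith

lemma local_a {p : ℕ} (hp : p.Prime) {a : ℝ} (ha : |a| ≤ 1) {M : ℕ} (hM : 1 ≤ M) :
    |BK K2 (loc p (TE a M)) (loc p (TE a M)) - (1 + (2 * a + a ^ 2) * (p : ℝ)⁻¹)|
      ≤ 8 * |a| * ((p : ℝ)⁻¹) ^ 2 := by
  have ha0 := abs_nonneg a
  obtain ⟨N, hN⟩ : ∃ N, N = max (TE a M).natDegree (TE 1 M).natDegree + 2 := ⟨_, rfl⟩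
  rw [BK_loc K2 p _ _ (N := N) (by omega) (by omega)]
  have h := local_genQ (cf_TE 1 hM) (cf_TE 1 hM) (N := N) (by omega)
    (fun i l => a ^ (i + l) * K2 (p ^ i) (p ^ l)) (S := |a| * ((p : ℝ)⁻¹) ^ 2) ?_ (by positivity)
  · have e1 : ∑ i ∈ Finset.range N, ∑ l ∈ Finset.range N,
        (TE 1 M).coeff i * (TE 1 M).coeff l * (a ^ (i + l) * K2 (p ^ i) (p ^ l))
        = ∑ i ∈ Finset.range N, ∑ l ∈ Finset.range N,
          (TE a M).coeff i * (TE a M).coeff l * K2 (p ^ i) (p ^ l) := by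
      refine Finset.sum_congr rfl fun i _ => Finset.sum_congr rfl fun l _ => ?_
      have e2 : ∀ i, (TE a M).coeff i = a ^ i * (TE 1 M).coeff i := by
        intro i
        rw [coeff_TE, coeff_TE]
        split_ifs
        · rw [one_pow]; ring
        · ring
      rw [e2, e2, pow_add]
      ring
    rw [e1] at h
    simp only [pow_zero, pow_one, add_zero, zero_add, one_mul] at h
    have e3 : K2 1 1 = 1 := by simp [K2]
    rw [e3, K2_p1 hp, K2_1p hp, K2_pp hp] at h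
    have e4 : 1 + a * (p : ℝ)⁻¹ + a * (p : ℝ)⁻¹ + a ^ (1 + 1) * (p : ℝ)⁻¹
        = 1 + (2 * a + a ^ 2) * (p : ℝ)⁻¹ := by ring
    rw [e4] at h
    refine h.trans ?_
    have h8 := exp_two_le
    calc |a| * ((p : ℝ)⁻¹) ^ 2 * Real.exp (|(1 : ℝ)| + |(1 : ℝ)|)
        ≤ |a| * ((p : ℝ)⁻¹) ^ 2 * 8 := by gcongr
      _ = _ := by ring
  · intro i l hil
    rw [abs_mul, abs_pow]
    have h1 : |a| ^ (i + l) ≤ |a| := pow_le_of_le_one ha0 ha (by omega)
    have h2 := K_pow_le mk_K2 hp hil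
    exact mul_le_mul h1 h2 (abs_nonneg _) ha0

lemma kappa_abs {a : ℝ} (ha : |a| ≤ 1 / 8) : |2 * a + a ^ 2| ≤ 17 / 8 * |a| := by
  have ha0 := abs_nonneg a
  have h1 : 2 * a + a ^ 2 = a * (2 + a) := by ring
  rw [h1, abs_mul]
  have h2 : |2 + a| ≤ 17 / 8 := by
    refine (abs_add_le _ _).trans ?_
    rw [abs_of_pos (by norm_num : (0 : ℝ) < 2)]
    linarith
  rw [mul_comm (17 / 8)]
  exact mul_le_mul_of_nonneg_left h2 ha0

lemma loc_two_a {q a x : ℝ} (hq0 : 0 < q) (hq : q ≤ 1 / 2) (ha : |a| ≤ 1 / 8)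
    (hx : |x - (1 + (2 * a + a ^ 2) * q)| ≤ 8 * |a| * q ^ 2) :
    Real.exp ((2 * a + a ^ 2) * q - 40 * |a| * q ^ 2) ≤ x ∧
      x ≤ Real.exp ((2 * a + a ^ 2) * q + 40 * |a| * q ^ 2) := by
  have hk := kappa_abs ha
  obtain ⟨κ, hκ⟩ : ∃ κ, κ = 2 * a + a ^ 2 := ⟨_, rfl⟩
  rw [← hκ] at hx hk ⊢
  obtain ⟨s, hs⟩ : ∃ s, s = |a| := ⟨_, rfl⟩
  have hs0 : 0 ≤ s := by rw [hs]; exact abs_nonneg a
  rw [← hs] at hx hk ha ⊢
  rw [abs_le] at hx
  obtain ⟨y, hy⟩ : ∃ y, y = κ * q - 8 * s * q ^ 2 := ⟨_, rfl⟩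
  have hsq : 0 ≤ s * q := by positivity
  have hsqq : s * q ^ 2 ≤ s * q / 2 := by
    have : s * q ^ 2 = s * q * q := by ring
    rw [this]
    have := mul_le_mul_of_nonneg_left hq hsq
    linarith
  have hsq2 : 0 ≤ s * q ^ 2 := by positivity
  have hκq : |κ * q| ≤ 17 / 8 * (s * q) := by
    rw [abs_mul, abs_of_pos hq0]
    have := mul_le_mul_of_nonneg_right hk hq0.le
    linarith
  have hκq' := abs_le.1 hκq
  have hyabs : |y| ≤ 49 / 8 * (s * q) := by
    rw [abs_le, hy]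
    constructor <;> linarith [hκq'.1, hκq'.2]
  have hsq8 : s * q ≤ 1 / 16 := by
    have := mul_le_mul ha hq hq0.le (by norm_num : (0 : ℝ) ≤ 1 / 8)
    linarith
  have hy' := abs_le.1 hyabs
  have hy2 : y ^ 2 ≤ 5 * (s * q ^ 2) := by
    have h1 : y ^ 2 ≤ (49 / 8 * (s * q)) ^ 2 := by
      rw [← sq_abs y]
      gcongr
    refine h1.trans ?_
    have h2 : (49 / 8 * (s * q)) ^ 2 = 2401 / 64 * s * (s * q ^ 2) := by ring
    rw [h2]
    have h3 : 2401 / 64 * s ≤ 5 := by linarith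
    exact mul_le_mul_of_nonneg_right h3 hsq2
  constructor
  · have h4 := exp_sub_two_sq_le (x := y) (by linarith [hy'.1])
    refine le_trans ?_ (h4.trans (by linarith [hx.1]))
    apply Real.exp_le_exp.mpr
    linarith
  · have h3 := Real.add_one_le_exp (κ * q + 40 * s * q ^ 2)
    linarith [hx.2]

lemma FF_a {I : Finset ℕ} (hI : ∀ p ∈ I, p.Prime) {a : ℝ} (ha : |a| ≤ 1 / 8) {M : ℕ} (hM : 1 ≤ M) :
    Real.exp ((2 * a + a ^ 2) * VV I - 40 * |a| * V2 I) ≤ BK K2 (FF a M I) (FF a M I) ∧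
    BK K2 (FF a M I) (FF a M I) ≤ Real.exp ((2 * a + a ^ 2) * VV I + 40 * |a| * V2 I) := by
  rw [← FQ_TE]
  unfold FQ
  rw [BK_prod_MK mk_K2 I (fun p => {p}) disj_single _ _ (fun p hp => sup_loc' (hI p hp) _)
    (fun p hp => sup_loc' (hI p hp) _)]
  have key : ∀ p ∈ I, Real.exp ((2 * a + a ^ 2) * (p : ℝ)⁻¹ - 40 * |a| * ((p : ℝ)⁻¹) ^ 2)
      ≤ BK K2 (loc p (TE a M)) (loc p (TE a M)) ∧
      BK K2 (loc p (TE a M)) (loc p (TE a M))
        ≤ Real.exp ((2 * a + a ^ 2) * (p : ℝ)⁻¹ + 40 * |a| * ((p : ℝ)⁻¹) ^ 2) := by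
    intro p hp
    have hpp := hI p hp
    exact loc_two_a (by have := hpp.pos; positivity) (inv_le_half hpp) ha
      (local_a hpp (by linarith) hM)
  unfold VV V2
  constructor
  · rw [Finset.mul_sum, Finset.mul_sum, ← Finset.sum_sub_distrib, Real.exp_sum]
    exact Finset.prod_le_prod (fun p _ => (Real.exp_pos _).le) fun p hp => (key p hp).1
  · rw [Finset.mul_sum, Finset.mul_sum, ← Finset.sum_add_distrib, Real.exp_sum]
    exact Finset.prod_le_prod (fun p hp => (Real.exp_pos _).le.trans (key p hp).1)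
      fun p hp => (key p hp).2

/-! ### the dominating polynomial of a block -/

/-- bound of the dominating form -/
noncomputable def EG : ℝ := Real.exp (8 * 12 + Real.exp 4 * 12)

lemma EG_pos : 0 < EG := Real.exp_pos _

lemma G_bound {L : ℕ → ℕ → ℝ} (hL : LogKer L) {I : Finset ℕ} (hI : ∀ p ∈ I, p.Prime) {M : ℕ}
    (hM : 1 ≤ M) (hV : VV I ≤ 12) :
    BK K2 (FF 2 M I) (FF 2 M I) ≤ EG ∧
    BK L (FF 2 M I) (FF 2 M I) ≤ 8 * Real.exp 4 * LL I * EG := by
  have hQ : Cf 2 2 (TE 2 M) := by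
    have := cf_TE 2 hM
    norm_num at this
    exact this
  obtain ⟨h1, h2⟩ := FQ_K2L hL hI hQ
  rw [FQ_TE] at h1 h2
  have hVn := VV_nonneg I
  have hV2 := V2_nonneg I
  have hV2' := V2_le_VV hI
  have hLL := LL_nonneg I
  have h3 : Real.exp ((2 * 2 + 2 ^ 2) * VV I + Real.exp (2 * 2) * V2 I) ≤ EG := by
    unfold EG
    apply Real.exp_le_exp.mpr
    have e : (2 : ℝ) * 2 = 4 := by norm_num
    rw [e]
    have hE := Real.exp_pos 4
    calc (4 + 2 ^ 2) * VV I + Real.exp 4 * V2 I ≤ (4 + 2 ^ 2) * 12 + Real.exp 4 * 12 := by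
          gcongr
          linarith
      _ = _ := by ring
  refine ⟨(le_abs_self _).trans (h1.trans h3), (le_abs_self _).trans (h2.trans ?_)⟩
  have e : (2 : ℝ) * 2 = 4 := by norm_num
  have e2 : (4 : ℝ) * 2 = 8 := by norm_num
  rw [e] at h3 ⊢
  rw [e2]
  gcongr

lemma FF_zero (M : ℕ) (I : Finset ℕ) : FF 0 M I = 1 := by
  unfold FF
  exact Finset.prod_eq_one fun p _ => expo_zero _ _

lemma dom_one {I : Finset ℕ} (hI : ∀ p ∈ I, p.Prime) (M : ℕ) : Dom 1 (FF 2 M I) := by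
  have := dom_FF hI (c := 0) (d := 2) (by norm_num) M
  rwa [FF_zero] at this

/-- the difference to one -/
lemma dom_h {I : Finset ℕ} (hI : ∀ p ∈ I, p.Prime) {a : ℝ} (ha : |a| ≤ 1) (M : ℕ) :
    Dom (expo a M I - 1) (|a| • expo 1 M I) := by
  have ha0 := abs_nonneg a
  have e1 : expo a M I - 1 = (∑ r ∈ Finset.range M,
      (a ^ (r + 1) / ((r + 1).factorial : ℝ)) • PP I ^ (r + 1)) + 0 := by
    unfold expo
    rw [Finset.sum_range_succ']
    simp
  have e2 : |a| • expo 1 M I = (∑ r ∈ Finset.range M,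
      (|a| / ((r + 1).factorial : ℝ)) • PP I ^ (r + 1)) + |a| • (1 : DP) := by
    unfold expo
    rw [Finset.sum_range_succ', smul_add, Finset.smul_sum]
    congr 1
    · refine Finset.sum_congr rfl fun r _ => ?_
      rw [smul_smul, one_pow, mul_one_div]
    · simp
  rw [e1, e2]
  refine Dom.add (Dom.sum _ fun r _ => ?_) ?_
  · refine (dom_self (cone_PP_pow hI (r + 1))).smul ?_
    rw [abs_div, abs_pow, abs_of_pos (by positivity : (0 : ℝ) < ((r + 1).factorial : ℝ))]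
    gcongr
    exact pow_le_of_le_one ha0 ha (by omega)
  · intro n
    have : 0 ≤ ((1 : DP).coeff n) := (Cone.one (A := {n | n = 1}) rfl n).1
    rw [MonoidAlgebra.coeff_smul, Finsupp.smul_apply, smul_eq_mul]
    simpa using mul_nonneg ha0 this

lemma dom_h' {I : Finset ℕ} (hI : ∀ p ∈ I, p.Prime) {a : ℝ} (ha : |a| ≤ 1) (M : ℕ) :
    Dom (expo a M I - 1) ((2 * |a|) • FF 2 M I) := by
  have ha0 := abs_nonneg a
  have h1 := dom_h hI ha M
  have h2 := dom_expo2 hI (c := 1) (by norm_num) M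
  intro n
  have a1 := h1 n
  have a2 := h2 n
  rw [MonoidAlgebra.coeff_smul, Finsupp.smul_apply, smul_eq_mul] at a1 a2 ⊢
  have a3 : (expo 1 M I).coeff n ≤ 2 * (FF 2 M I).coeff n := (le_abs_self _).trans a2
  calc |(expo a M I - 1).coeff n| ≤ |a| * (expo 1 M I).coeff n := a1
    _ ≤ |a| * (2 * (FF 2 M I).coeff n) := by gcongr
    _ = _ := by ring

/-- the derivation form at a block -/
lemma block_L {L : ℕ → ℕ → ℝ} (hL : LogKer L) {I : Finset ℕ} (hI : ∀ p ∈ I, p.Prime) {a : ℝ}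
    (ha : |a| ≤ 1 / 8) {M : ℕ} (hM : 1 ≤ M) (hV : VV I ≤ 12) :
    |BK L (expo a M I) (expo a M I)| ≤ 40 * Real.exp 4 * EG * (|a| * LL I) := by
  have ha0 := abs_nonneg a
  have hE := EG_pos
  have hLL := LL_nonneg I
  obtain ⟨h, hh⟩ : ∃ h, h = expo a M I - 1 := ⟨_, rfl⟩
  have e1 : expo a M I = 1 + h := by rw [hh]; abel
  have hG := (G_bound hL hI hM hV).2
  have d1 := dom_one hI M
  have d2 := dom_h' hI (a := a) (by linarith) M
  rw [← hh] at d2
  set G := FF 2 M I with hGd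
  set g := BK L G G with hg
  have hg0 : 0 ≤ g := (abs_nonneg _).trans (abs_BK_le_of_dom hL.nonneg d1 d1)
  have b1 : |BK L 1 h| ≤ 2 * |a| * g := by
    have := abs_BK_le_of_dom hL.nonneg d1 d2
    rwa [BK_smul_right] at this
  have b2 : |BK L h 1| ≤ 2 * |a| * g := by
    have := abs_BK_le_of_dom hL.nonneg d2 d1
    rwa [BK_smul_left] at this
  have b3 : |BK L h h| ≤ |a| * g := by
    have := abs_BK_le_of_dom hL.nonneg d2 d2
    rw [BK_smul_left, BK_smul_right] at this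
    refine this.trans ?_
    have h1 : 2 * |a| * (2 * |a| * g) = 4 * |a| * (|a| * g) := by ring
    rw [h1]
    have h2 : 4 * |a| ≤ 1 := by linarith
    exact (mul_le_mul_of_nonneg_right h2 (by positivity)).trans (le_of_eq (one_mul _))
  have b0 : BK L 1 1 = 0 := by
    rw [MonoidAlgebra.one_def, BK_single, hL.one]
    ring
  rw [e1, BK_add_left, BK_add_right, BK_add_right, b0]
  have h4 : |0 + BK L 1 h + (BK L h 1 + BK L h h)| ≤ |BK L 1 h| + (|BK L h 1| + |BK L h h|) := by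
    rw [zero_add]
    refine (abs_add_le _ _).trans ?_
    gcongr
    exact abs_add_le _ _
  refine h4.trans ?_
  calc |BK L 1 h| + (|BK L h 1| + |BK L h h|) ≤ 5 * |a| * g := by linarith
    _ ≤ 5 * |a| * (8 * Real.exp 4 * LL I * EG) := by gcongr
    _ = _ := by ring

/-- truncation constant -/
noncomputable def CB : ℝ := 6 * EG * Real.exp 64

lemma CB_pos : 0 < CB := by unfold CB; have := EG_pos; positivity

/-- truncation error of a block -/
noncomputable def tb (M : ℕ) : ℝ := CB / 2 ^ M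

lemma tb_pos (M : ℕ) : 0 < tb M := by unfold tb; have := CB_pos; positivity

lemma nforms_u_aux {u : ℝ} (h0 : 0 ≤ u) (h1 : u ≤ 1 / 8) :
    -u ≤ -(u / 2) - 2 * (-(u / 2)) ^ 2 := by
  have := mul_le_mul_of_nonneg_left h1 h0
  linarith

/-- the form `K2` at a block -/
lemma block_a {I : Finset ℕ} (hI : ∀ p ∈ I, p.Prime) {a : ℝ} (ha : |a| ≤ 1 / 8) {M : ℕ}
    (hM : 1 ≤ M) (hV : VV I ≤ 12) (hMt : tb M ≤ 1) :
    Real.exp ((2 * a + a ^ 2) * VV I - |a| * (40 * V2 I + tb M))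
      ≤ BK K2 (expo a M I) (expo a M I) ∧
    BK K2 (expo a M I) (expo a M I)
      ≤ Real.exp ((2 * a + a ^ 2) * VV I + |a| * (40 * V2 I + tb M)) := by
  obtain ⟨f1, f2⟩ := FF_a hI ha hM
  have hk := kappa_abs ha
  obtain ⟨κ, hκ⟩ : ∃ κ, κ = 2 * a + a ^ 2 := ⟨_, rfl⟩
  rw [← hκ] at f1 f2 hk ⊢
  have ha0 := abs_nonneg a
  have hE := EG_pos
  have hVn := VV_nonneg I
  have hV2 := V2_nonneg I
  have hV2' := V2_le_VV hI
  have htb := tb_pos M
  -- the difference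
  have d1 : Dom (FF a M I) (FF 2 M I) := dom_FF hI (by linarith) M
  have d2 := dom_diff hI (c := a) (by linarith) M M le_rfl
  obtain ⟨R, hR⟩ : ∃ R, R = FF a M I - expo a M I := ⟨_, rfl⟩
  rw [← hR] at d2
  have hg := (G_bound logKer_Kg hI hM hV).1
  have hg0 : 0 ≤ BK K2 (FF 2 M I) (FF 2 M I) :=
    (abs_nonneg _).trans (abs_BK_le_of_dom K2_nonneg d1 d1)
  obtain ⟨δ, hδ⟩ : ∃ δ : ℝ, δ = |a| / 2 ^ M := ⟨_, rfl⟩
  rw [← hδ] at d2
  have hδ0 : 0 ≤ δ := by rw [hδ]; positivity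
  have hδ1 : δ ≤ 1 := by
    rw [hδ, div_le_one (by positivity)]
    exact (by linarith : |a| ≤ 1).trans (one_le_pow₀ (by norm_num))
  have a1 : |BK K2 (FF a M I) R| ≤ δ * EG := by
    have := abs_BK_le_of_dom K2_nonneg d1 d2
    rw [BK_smul_right] at this
    exact this.trans (by gcongr)
  have a2 : |BK K2 R (FF a M I)| ≤ δ * EG := by
    have := abs_BK_le_of_dom K2_nonneg d2 d1
    rw [BK_smul_left] at this
    exact this.trans (by gcongr)
  have a3 : |BK K2 R R| ≤ δ * EG := by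
    have := abs_BK_le_of_dom K2_nonneg d2 d2
    rw [BK_smul_left, BK_smul_right] at this
    refine this.trans ?_
    calc δ * (δ * BK K2 (FF 2 M I) (FF 2 M I)) ≤ δ * (1 * EG) := by gcongr
      _ = δ * EG := by ring
  have e1 : expo a M I = FF a M I + (-1 : ℝ) • R := by rw [hR, neg_one_smul]; abel
  have e2 : BK K2 (expo a M I) (expo a M I) - BK K2 (FF a M I) (FF a M I)
      = - BK K2 (FF a M I) R - BK K2 R (FF a M I) + BK K2 R R := by
    rw [e1, BK_add_left, BK_add_right, BK_add_right, BK_smul_left, BK_smul_right, BK_smul_left,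
      BK_smul_right]
    ring
  have hdiff : |BK K2 (expo a M I) (expo a M I) - BK K2 (FF a M I) (FF a M I)| ≤ 3 * (δ * EG) := by
    rw [e2, abs_le]
    have b1 := abs_le.1 a1
    have b2 := abs_le.1 a2
    have b3 := abs_le.1 a3
    constructor <;> linarith [b1.1, b1.2, b2.1, b2.2, b3.1, b3.2]
  have h3δ : 3 * (δ * EG) = |a| * (tb M / 2) * Real.exp (-64) := by
    have h64 : Real.exp 64 * Real.exp (-64) = 1 := by rw [← Real.exp_add]; simp
    rw [hδ]
    unfold tb CB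
    calc 3 * (|a| / 2 ^ M * EG) = 3 * (|a| / 2 ^ M * EG) * 1 := by ring
      _ = 3 * (|a| / 2 ^ M * EG) * (Real.exp 64 * Real.exp (-64)) := by rw [h64]
      _ = _ := by ring
  rw [h3δ] at hdiff
  obtain ⟨u, hu⟩ : ∃ u, u = |a| * tb M := ⟨_, rfl⟩
  have hu0 : 0 ≤ u := by rw [hu]; positivity
  have hu1 : u ≤ 1 / 8 := by
    rw [hu]
    calc |a| * tb M ≤ 1 / 8 * 1 := by gcongr
      _ = 1 / 8 := by ring
  have hdiff' : |BK K2 (expo a M I) (expo a M I) - BK K2 (FF a M I) (FF a M I)|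
      ≤ u / 2 * Real.exp (-64) := by
    refine hdiff.trans (le_of_eq ?_)
    rw [hu]; ring
  have hd := abs_le.1 hdiff'
  have hκV : |κ * VV I| ≤ 4 := by
    rw [abs_mul, abs_of_nonneg hVn]
    calc |κ| * VV I ≤ (17 / 8 * |a|) * 12 := by gcongr
      _ ≤ 4 := by linarith
  have hκV' := abs_le.1 hκV
  have h40 : 40 * |a| * V2 I ≤ 60 := by
    calc 40 * |a| * V2 I ≤ 40 * (1 / 8) * 12 := by gcongr; linarith
      _ = 60 := by norm_num
  have h40' : 0 ≤ 40 * |a| * V2 I := by positivity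
  have ee : |a| * (40 * V2 I + tb M) = 40 * |a| * V2 I + u := by rw [hu]; ring
  rw [ee]
  constructor
  · obtain ⟨X, hX⟩ : ∃ X, X = Real.exp (κ * VV I - 40 * |a| * V2 I) := ⟨_, rfl⟩
    rw [← hX] at f1
    have hXp : 0 < X := by rw [hX]; exact Real.exp_pos _
    have hX64 : Real.exp (-64) ≤ X := by
      rw [hX]
      exact Real.exp_le_exp.mpr (by linarith [hκV'.1])
    have h5 : X * (1 - u / 2) ≤ BK K2 (expo a M I) (expo a M I) := by
      have : u / 2 * Real.exp (-64) ≤ u / 2 * X := by gcongr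
      linarith [hd.1]
    refine le_trans ?_ h5
    have h6 : κ * VV I - (40 * |a| * V2 I + u) = (κ * VV I - 40 * |a| * V2 I) + -u := by ring
    rw [h6, Real.exp_add, ← hX]
    refine mul_le_mul_of_nonneg_left ?_ hXp.le
    have h7 := exp_sub_two_sq_le (x := -(u / 2)) (by linarith)
    refine le_trans (Real.exp_le_exp.mpr ?_) (h7.trans (le_of_eq (by ring)))
    exact nforms_u_aux hu0 hu1
  · obtain ⟨X, hX⟩ : ∃ X, X = Real.exp (κ * VV I + 40 * |a| * V2 I) := ⟨_, rfl⟩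
    rw [← hX] at f2
    have hXp : 0 < X := by rw [hX]; exact Real.exp_pos _
    have hX64 : Real.exp (-64) ≤ X := by
      rw [hX]
      exact Real.exp_le_exp.mpr (by linarith [hκV'.1])
    have h6 : κ * VV I + (40 * |a| * V2 I + u) = (κ * VV I + 40 * |a| * V2 I) + u := by ring
    rw [h6, Real.exp_add, ← hX]
    have h4 := Real.add_one_le_exp u
    have h7 : u / 2 * Real.exp (-64) ≤ u / 2 * X := by gcongr
    have h8 : 0 ≤ u * X := by positivity
    calc BK K2 (expo a M I) (expo a M I) ≤ X + u / 2 * X := by linarith [hd.2]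
      _ ≤ X * (u + 1) := by linarith
      _ ≤ _ := by gcongr

/-! ### summation over the blocks -/

lemma tb_Mm_le {m : ℕ} (hm : 1 ≤ m) (j : ℕ) : tb (Mm m j) ≤ 2 * CB / 2 ^ m * (1 / 2) ^ (j + 1) := by
  have hC := CB_pos
  unfold tb Mm
  have h1 : m + j ≤ m * 2 ^ j := by
    have h2 : j + 1 ≤ 2 ^ j := Nat.lt_two_pow_self
    calc m + j ≤ m + m * j := by
          have : j ≤ m * j := Nat.le_mul_of_pos_left j hm
          omega
      _ = m * (j + 1) := by ring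
      _ ≤ _ := Nat.mul_le_mul_left m h2
  have h3 : (2 : ℝ) ^ (m + j) ≤ 2 ^ (m * 2 ^ j) := pow_le_pow_right₀ (by norm_num) h1
  calc CB / 2 ^ (m * 2 ^ j) ≤ CB / 2 ^ (m + j) := by gcongr
    _ = _ := by
        rw [pow_add 2 m j, one_div, inv_pow, pow_succ]
        field_simp

lemma sum_tb_le {m : ℕ} (hm : 1 ≤ m) (l J : ℕ) :
    ∑ j ∈ Finset.Ico l J, tb (Mm m j) ≤ 2 * CB / 2 ^ m := by
  have hC := CB_pos
  calc ∑ j ∈ Finset.Ico l J, tb (Mm m j)
      ≤ ∑ j ∈ Finset.range J, tb (Mm m j) := by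
        refine Finset.sum_le_sum_of_subset_of_nonneg ?_ fun j _ _ => (tb_pos _).le
        intro j hj
        rw [Finset.mem_Ico] at hj
        exact Finset.mem_range.mpr hj.2
    _ ≤ ∑ j ∈ Finset.range J, 2 * CB / 2 ^ m * (1 / 2) ^ (j + 1) :=
        Finset.sum_le_sum fun j _ => tb_Mm_le hm j
    _ = 2 * CB / 2 ^ m * ∑ j ∈ Finset.range J, (1 / 2 : ℝ) ^ (j + 1) := by rw [Finset.mul_sum]
    _ ≤ 2 * CB / 2 ^ m * 1 := by
        have := sum_half_le J
        gcongr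
    _ = _ := mul_one _

lemma tb_Mm_le_one {m : ℕ} (hm : 1 ≤ m) (hm2 : 2 * CB / 2 ^ m ≤ 1) (j : ℕ) : tb (Mm m j) ≤ 1 := by
  refine (tb_Mm_le hm j).trans ?_
  have hC := CB_pos
  have h2 : (1 / 2 : ℝ) ^ (j + 1) ≤ 1 := pow_le_one₀ (by norm_num) (by norm_num)
  calc 2 * CB / 2 ^ m * (1 / 2) ^ (j + 1) ≤ 1 * 1 := by gcongr
    _ = 1 := by ring

lemma sum_V2_Ico_le {Y : ℝ} (hY : 0 < Y) {p0 : ℕ} (hp0 : 1 ≤ p0) (l J : ℕ) :
    ∑ j ∈ Finset.Ico l J, V2 (sc Y p0 j) ≤ 1 := by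
  have hp0' : (1 : ℝ) ≤ p0 := by exact_mod_cast hp0
  calc ∑ j ∈ Finset.Ico l J, V2 (sc Y p0 j)
      ≤ ∑ j ∈ Finset.range J, V2 (sc Y p0 j) := by
        refine Finset.sum_le_sum_of_subset_of_nonneg ?_ fun j _ _ => V2_nonneg _
        intro j hj
        rw [Finset.mem_Ico] at hj
        exact Finset.mem_range.mpr hj.2
    _ ≤ 1 / p0 := sum_sq_sc_le hY hp0 J
    _ ≤ 1 := by rw [div_le_one (by linarith)]; exact hp0'

lemma sum_LL_Ico_le {Y : ℝ} (hY : 0 < Y) (p0 l J : ℕ) :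
    ∑ j ∈ Finset.Ico l J, LL (sc Y p0 j) ≤ Y / 4 ^ l + 2 := by
  rw [Finset.sum_Ico_eq_sum_range]
  have h1 := sum_LL_sc_le (Y := Y / 4 ^ l) (by positivity) p0 (J - l)
  refine le_trans (le_of_eq ?_) h1
  refine Finset.sum_congr rfl fun j _ => ?_
  rw [Pool.Agent.Lib.MP_f9aece_nt_h97.sc_level Y hY.le p0 l j]

/-- the forms of the polynomials `NN`, with an error proportional to `|a|` -/
theorem nforms : ∃ C : ℝ, 0 ≤ C ∧ ∃ m1 p1 : ℕ, ∀ m : ℕ, m1 ≤ m → ∀ p0 : ℕ, p1 ≤ p0 → ∀ a : ℝ,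
    |a| ≤ 1 / 8 → ∀ Y : ℝ, 0 < Y → ∀ l J : ℕ,
    Real.exp ((2 * a + a ^ 2) * VI p0 Y l J - C * |a|) ≤ BK K2 (NN a m p0 Y l J) (NN a m p0 Y l J) ∧
    BK K2 (NN a m p0 Y l J) (NN a m p0 Y l J) ≤ Real.exp ((2 * a + a ^ 2) * VI p0 Y l J + C * |a|) ∧
    |BK KL (NN a m p0 Y l J) (NN a m p0 Y l J)|
      ≤ C * |a| * (Y / 4 ^ l + 1) * Real.exp ((2 * a + a ^ 2) * VI p0 Y l J) := by
  have hCB := CB_pos
  have hEG := EG_pos
  obtain ⟨n, hn⟩ := pow_unbounded_of_one_lt (2 * CB) (one_lt_two : (1 : ℝ) < 2)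
  obtain ⟨CK, hCK⟩ : ∃ CK, CK = 40 * Real.exp 4 * EG * Real.exp 4 := ⟨_, rfl⟩
  have hCK0 : 0 < CK := by rw [hCK]; positivity
  refine ⟨41 + 2 * CK * Real.exp 6, by positivity, max n 1, 1, fun m hm p0 hp0 a ha Y hY l J => ?_⟩
  have hm1 : 1 ≤ m := (le_max_right _ _).trans hm
  have hmn : n ≤ m := (le_max_left _ _).trans hm
  have hm2 : 2 * CB / 2 ^ m ≤ 1 := by
    rw [div_le_one (by positivity)]
    exact hn.le.trans (pow_le_pow_right₀ (by norm_num) hmn)
  have ha0 := abs_nonneg a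
  have hdis : ∀ i ∈ Finset.Ico l J, ∀ j ∈ Finset.Ico l J, i ≠ j →
      Disjoint (sc Y p0 i) (sc Y p0 j) := fun i _ j _ h => sc_disjoint hY h
  have hsup : ∀ j ∈ Finset.Ico l J, Sup (Smo (sc Y p0 j)) (qb a m p0 Y j) :=
    fun j _ => sup_expo (fun p hp => sc_prime hp) _ _
  have key : ∀ j, Real.exp ((2 * a + a ^ 2) * VV (sc Y p0 j) - |a| * (40 * V2 (sc Y p0 j) + tb (Mm m j)))
      ≤ BK K2 (qb a m p0 Y j) (qb a m p0 Y j) ∧
      BK K2 (qb a m p0 Y j) (qb a m p0 Y j)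
      ≤ Real.exp ((2 * a + a ^ 2) * VV (sc Y p0 j) + |a| * (40 * V2 (sc Y p0 j) + tb (Mm m j))) :=
    fun j => block_a (fun p hp => sc_prime hp) ha (Mm_pos' hm1 j) (VV_sc_le hY p0 j)
      (tb_Mm_le_one hm1 hm2 j)
  have hV2 := sum_V2_Ico_le hY hp0 l J
  have htb := (sum_tb_le hm1 l J).trans hm2
  have herr : |a| * (40 * ∑ j ∈ Finset.Ico l J, V2 (sc Y p0 j) + ∑ j ∈ Finset.Ico l J, tb (Mm m j))
      ≤ 41 * |a| := by
    calc |a| * (40 * ∑ j ∈ Finset.Ico l J, V2 (sc Y p0 j) + ∑ j ∈ Finset.Ico l J, tb (Mm m j))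
        ≤ |a| * (40 * 1 + 1) := by gcongr
      _ = _ := by ring
  have hCa : 41 * |a| ≤ (41 + 2 * CK * Real.exp 6) * |a| := by
    have : 0 ≤ 2 * CK * Real.exp 6 := by positivity
    gcongr
    linarith
  -- the product of the upper bounds
  have hprod : ∏ j ∈ Finset.Ico l J, Real.exp ((2 * a + a ^ 2) * VV (sc Y p0 j)
      + |a| * (40 * V2 (sc Y p0 j) + tb (Mm m j)))
      ≤ Real.exp ((2 * a + a ^ 2) * VI p0 Y l J + 41 * |a|) := by
    rw [← Real.exp_sum, Finset.sum_add_distrib, ← Finset.mul_sum, ← Finset.mul_sum,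
      Finset.sum_add_distrib, ← Finset.mul_sum]
    apply Real.exp_le_exp.mpr
    unfold VI
    linarith
  have hNN : BK K2 (NN a m p0 Y l J) (NN a m p0 Y l J)
      = ∏ j ∈ Finset.Ico l J, BK K2 (qb a m p0 Y j) (qb a m p0 Y j) := by
    unfold NN
    exact BK_prod_MK mk_K2 _ (sc Y p0) hdis _ _ hsup hsup
  refine ⟨?_, ?_, ?_⟩
  · rw [hNN]
    refine le_trans ?_ (Finset.prod_le_prod (fun j _ => (Real.exp_pos _).le) fun j _ => (key j).1)
    rw [← Real.exp_sum, Finset.sum_sub_distrib, ← Finset.mul_sum, ← Finset.mul_sum,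
      Finset.sum_add_distrib, ← Finset.mul_sum]
    apply Real.exp_le_exp.mpr
    unfold VI
    linarith
  · rw [hNN]
    refine (Finset.prod_le_prod (fun j _ => (Real.exp_pos _).le.trans (key j).1)
      fun j _ => (key j).2).trans (hprod.trans ?_)
    apply Real.exp_le_exp.mpr
    linarith
  · obtain ⟨-, a2⟩ := prod_boundsL logKer_KL (Finset.Ico l J) (sc Y p0) hdis
      (fun j => qb a m p0 Y j) hsup
      (fun j => Real.exp ((2 * a + a ^ 2) * VV (sc Y p0 j)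
        + |a| * (40 * V2 (sc Y p0 j) + tb (Mm m j))))
      (fun j => CK * |a| * LL (sc Y p0 j)) (fun j _ => (Real.exp_pos _).le)
      (fun j _ => mul_nonneg (by positivity) (LL_nonneg _))
      (fun j _ => by
        rw [abs_of_nonneg ((Real.exp_pos _).le.trans (key j).1)]
        exact (key j).2)
      (fun j _ => by
        have h1 := block_L logKer_KL (I := sc Y p0 j) (fun p hp => sc_prime hp) ha (Mm_pos' hm1 j)
          (VV_sc_le hY p0 j)
        have hLL := LL_nonneg (sc Y p0 j)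
        have hV2n := V2_nonneg (sc Y p0 j)
        have htbn := tb_pos (Mm m j)
        have hVn := VV_nonneg (sc Y p0 j)
        have hV12 := VV_sc_le hY p0 j
        have hk := kappa_abs ha
        have h2 : |(2 * a + a ^ 2) * VV (sc Y p0 j)| ≤ 4 := by
          rw [abs_mul, abs_of_nonneg hVn]
          calc |2 * a + a ^ 2| * VV (sc Y p0 j) ≤ (17 / 8 * |a|) * 12 := by gcongr
            _ ≤ 4 := by linarith
        have h3 : (1 : ℝ) ≤ Real.exp 4 * Real.exp ((2 * a + a ^ 2) * VV (sc Y p0 j)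
            + |a| * (40 * V2 (sc Y p0 j) + tb (Mm m j))) := by
          rw [← Real.exp_add]
          apply Real.one_le_exp
          have h4 : 0 ≤ |a| * (40 * V2 (sc Y p0 j) + tb (Mm m j)) := by positivity
          linarith [(abs_le.1 h2).1]
        calc |BK KL (qb a m p0 Y j) (qb a m p0 Y j)|
            ≤ 40 * Real.exp 4 * EG * (|a| * LL (sc Y p0 j)) := h1
          _ = 40 * Real.exp 4 * EG * (|a| * LL (sc Y p0 j)) * 1 := by ring
          _ ≤ 40 * Real.exp 4 * EG * (|a| * LL (sc Y p0 j)) * (Real.exp 4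
              * Real.exp ((2 * a + a ^ 2) * VV (sc Y p0 j)
                + |a| * (40 * V2 (sc Y p0 j) + tb (Mm m j)))) := by gcongr
          _ = _ := by rw [hCK]; ring)
    have hNNd : NN a m p0 Y l J = ∏ j ∈ Finset.Ico l J, qb a m p0 Y j := rfl
    rw [hNNd]
    refine a2.trans ?_
    have hLL := sum_LL_Ico_le hY p0 l J
    have hs : ∑ j ∈ Finset.Ico l J, CK * |a| * LL (sc Y p0 j) ≤ CK * |a| * (2 * (Y / 4 ^ l + 1)) := by
      rw [← Finset.mul_sum]
      have hY4 : 0 ≤ Y / 4 ^ l := by positivity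
      gcongr
      linarith
    have hexp : Real.exp ((2 * a + a ^ 2) * VI p0 Y l J + 41 * |a|)
        ≤ Real.exp 6 * Real.exp ((2 * a + a ^ 2) * VI p0 Y l J) := by
      rw [← Real.exp_add]
      apply Real.exp_le_exp.mpr
      linarith
    have hP0 : 0 ≤ ∏ j ∈ Finset.Ico l J, Real.exp ((2 * a + a ^ 2) * VV (sc Y p0 j)
        + |a| * (40 * V2 (sc Y p0 j) + tb (Mm m j))) :=
      Finset.prod_nonneg fun j _ => (Real.exp_pos _).le
    have hY4 : 0 ≤ Y / 4 ^ l := by positivity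
    calc (∑ j ∈ Finset.Ico l J, CK * |a| * LL (sc Y p0 j))
          * ∏ j ∈ Finset.Ico l J, Real.exp ((2 * a + a ^ 2) * VV (sc Y p0 j)
            + |a| * (40 * V2 (sc Y p0 j) + tb (Mm m j)))
        ≤ (CK * |a| * (2 * (Y / 4 ^ l + 1)))
          * (Real.exp 6 * Real.exp ((2 * a + a ^ 2) * VI p0 Y l J)) := by
          have := hprod.trans hexp
          gcongr
      _ = (2 * CK * Real.exp 6) * (|a| * (Y / 4 ^ l + 1)
          * Real.exp ((2 * a + a ^ 2) * VI p0 Y l J)) := by ring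
      _ ≤ (41 + 2 * CK * Real.exp 6) * (|a| * (Y / 4 ^ l + 1)
          * Real.exp ((2 * a + a ^ 2) * VI p0 Y l J)) := by
          gcongr
          linarith
      _ = _ := by ring

end Pool.Agent.Lib.MP_f9aece_nt_r3
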