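import Mathlib
import Pool.Agent.Lib.MP_f9aece_nt_rt.Kernel

/-!
Kernels with explicit constants and a general base kernel; kernels with transform between `0`
and `1`.
-/

set_option autoImplicit false

namespace Pool.Agent.Lib.MP_f9aece_nt_r3

open MeasureTheory Set Filter Topology Complex FourierTransform
open scoped ENNReal ContDiff SchwartzMap Convolution
open Pool.Agent.Lib.MP_f9aece_nt_h97
open Pool.Agent.Lib.MP_f9aece_nt_rt (chi0 chi0_supp K0 DR DR_even abs_DR_le DR_smooth DR_continuous KR_G_cont KR_order)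

/-- the kernels -/
noncomputable def KB (K : Ker) (r R : ℝ) (hr : 0 ≤ r) (hR : 1 ≤ R) : Ker where
  g := fun v => K.g (v / R) * DR r v
  smooth := (K.smooth.comp (contDiff_id.div_const _)).mul (DR_smooth hr)
  L := K.L * R
  hL := by
    have := K.hL
    nlinarith
  supp := by
    intro v hv
    have h1 := K.supp _ (left_ne_zero_of_mul hv)
    have hR0 : 0 < R := by linarith
    rw [abs_div, abs_of_pos hR0, div_le_iff₀ hR0] at h1
    exact h1
  even := by
    intro v
    rw [neg_div, K.even, DR_even]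

lemma g_scale_int (K : Ker) {R : ℝ} (hR : 1 ≤ R) : Integrable (fun v : ℝ => K.g (v / R)) := by
  have := K.integrable.comp_mul_left' (R := R⁻¹) (by positivity)
  refine this.congr (Eventually.of_forall fun v => ?_)
  simp only
  rw [div_eq_inv_mul]

/-- the transform of the scaled cut-off -/
lemma scale_GB (K : Ker) {R : ℝ} (hR : 1 ≤ R) (s : ℝ) :
    ∫ v, K.g (v / R) * Real.cos (2 * Real.pi * v * s) = R * K.G (R * s) := by
  have hR0 : 0 < R := by linarith
  rw [K.G_eq_integral]
  have h := Measure.integral_comp_mul_left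
    (fun v => K.g v * Real.cos (2 * Real.pi * v * (R * s))) R⁻¹
  rw [inv_inv, abs_of_pos hR0, smul_eq_mul] at h
  change _ = R * ∫ v, K.g v * Real.cos (2 * Real.pi * v * (R * s))
  rw [← h]
  refine integral_congr_ae (Eventually.of_forall fun v => ?_)
  simp only
  rw [div_eq_inv_mul]
  congr 2
  field_simp

/-- the key formula -/
theorem KB_G (K : Ker) {r R : ℝ} (hr : 0 ≤ r) (hR : 1 ≤ R) (w : ℝ) :
    (KB K r R hr hR).G w = ∫ y in (R * (w - r))..(R * (w + r)), K.G y := by
  have hR0 : 0 < R := by linarith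
  rw [Ker.G_eq_integral]
  have e1 : ∀ v : ℝ, (KB K r R hr hR).g v * Real.cos (2 * Real.pi * v * w)
      = ∫ u in (-r)..r, K.g (v / R) * Real.cos (2 * Real.pi * v * u)
        * Real.cos (2 * Real.pi * v * w) := by
    intro v
    change K.g (v / R) * DR r v * Real.cos (2 * Real.pi * v * w) = _
    unfold DR
    rw [intervalIntegral.integral_mul_const, intervalIntegral.integral_const_mul]
  simp_rw [e1]
  rw [← intervalIntegral_integral_swap]
  swap
  · have hb : Integrable (fun z : ℝ × ℝ => |K.g (z.2 / R)|)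
        ((volume.restrict (uIoc (-r) r)).prod volume) := by
      have : IsFiniteMeasure (volume.restrict (uIoc (-r) r)) :=
        ⟨by rw [Measure.restrict_apply_univ, uIoc_of_le (by linarith)]; exact measure_Ioc_lt_top⟩
      exact (g_scale_int K hR).abs.comp_snd _
    refine hb.mono' ?_ (Eventually.of_forall fun z => ?_)
    · refine Continuous.aestronglyMeasurable ?_
      have hc : Continuous fun z : ℝ × ℝ => K.g (z.2 / R) :=
        K.cont.comp (by fun_prop)
      exact (hc.mul (by fun_prop)).mul (by fun_prop)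
    · simp only [Function.uncurry, Real.norm_eq_abs]
      rw [abs_mul, abs_mul, mul_assoc]
      refine mul_le_of_le_one_right (abs_nonneg _) ?_
      exact mul_le_one₀ (Real.abs_cos_le_one _) (abs_nonneg _) (Real.abs_cos_le_one _)
  have e2 : ∀ u : ℝ, ∫ v, K.g (v / R) * Real.cos (2 * Real.pi * v * u)
        * Real.cos (2 * Real.pi * v * w)
      = 1 / 2 * (R * K.G (R * (w + u)) + R * K.G (R * (w - u))) := by
    intro u
    have hcos : ∀ s : ℝ, Integrable (fun v => K.g (v / R) * Real.cos (2 * Real.pi * v * s)) := by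
      intro s
      refine (g_scale_int K hR).mul_bdd (c := 1) ?_ (Eventually.of_forall fun v => ?_)
      · exact (Real.continuous_cos.comp (by fun_prop)).aestronglyMeasurable
      · exact Real.abs_cos_le_one _
    rw [← scale_GB K hR, ← scale_GB K hR, ← integral_add (hcos _) (hcos _), ← integral_const_mul]
    refine integral_congr_ae (Eventually.of_forall fun v => ?_)
    simp only
    have h1 : 2 * Real.pi * v * (w + u) = 2 * Real.pi * v * w + 2 * Real.pi * v * u := by ring
    have h2 : 2 * Real.pi * v * (w - u) = 2 * Real.pi * v * w - 2 * Real.pi * v * u := by ring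
    rw [h1, h2, Real.cos_add, Real.cos_sub]
    ring
  simp_rw [e2]
  have hc := KR_G_cont K R
  have hc1 : Continuous fun u => R * K.G (R * (w + u)) :=
    hc.comp (by fun_prop : Continuous fun u : ℝ => w + u)
  have hc2 : Continuous fun u => R * K.G (R * (w - u)) :=
    hc.comp (by fun_prop : Continuous fun u : ℝ => w - u)
  rw [intervalIntegral.integral_const_mul, intervalIntegral.integral_add
    (hc1.intervalIntegrable _ _) (hc2.intervalIntegrable _ _)]
  have e3 : ∫ u in (-r)..r, R * K.G (R * (w + u)) = ∫ s in (w - r)..(w + r), R * K.G (R * s) := by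
    rw [intervalIntegral.integral_comp_add_left (fun s => R * K.G (R * s)) w, sub_eq_add_neg]
  have e4 : ∫ u in (-r)..r, R * K.G (R * (w - u)) = ∫ s in (w - r)..(w + r), R * K.G (R * s) := by
    rw [intervalIntegral.integral_comp_sub_left (fun s => R * K.G (R * s)) w, sub_neg_eq_add]
  rw [e3, e4, intervalIntegral.integral_const_mul]
  have e5 := intervalIntegral.mul_integral_comp_mul_left (a := w - r) (b := w + r)
    (f := fun y => K.G y) R
  rw [← e5]
  ring

/-! ### bounds -/

lemma integral_G_one (K : Ker) (h1 : K.g 0 = 1) : ∫ y, K.G y = 1 := by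
  have h := K.integral_G_cos 0
  simp only [mul_zero, Real.cos_zero, mul_one] at h
  rw [h, h1]

lemma tail_posB (K : Ker) {B : ℝ} (hB : ∀ y, |y| ^ 2 * |K.G y| ≤ B) {a : ℝ} (ha : 0 < a) :
    ∫ y in Ioi a, |K.G y| ≤ B / a := by
  have e4 : ∫ x in Ioi a, x ^ (-2 : ℝ) = 1 / a := by
    rw [integral_Ioi_rpow_of_lt (by norm_num) ha]
    have : (-2 : ℝ) + 1 = -1 := by norm_num
    rw [this, Real.rpow_neg_one]
    field_simp
  calc ∫ y in Ioi a, |K.G y| ≤ ∫ y in Ioi a, B * y ^ (-2 : ℝ) := by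
        refine setIntegral_mono_on K.G_integrable.abs.integrableOn
          ((integrableOn_Ioi_rpow_of_lt (by norm_num) ha).const_mul _) measurableSet_Ioi fun y hy => ?_
        have hy0 : 0 < y := ha.trans hy
        have h := hB y
        rw [abs_of_pos hy0] at h
        have e5 : y ^ (-2 : ℝ) = (y ^ 2)⁻¹ := by
          rw [Real.rpow_neg hy0.le]; norm_num
        rw [e5, ← div_eq_mul_inv, le_div_iff₀ (by positivity), mul_comm]
        exact h
    _ = B / a := by rw [integral_const_mul, e4]; ring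

lemma tail_negB (K : Ker) {B : ℝ} (hB : ∀ y, |y| ^ 2 * |K.G y| ≤ B) {a : ℝ} (ha : 0 < a) :
    ∫ y in Iic (-a), |K.G y| ≤ B / a := by
  have h := integral_comp_neg_Iic (-a) (fun y => |K.G y|)
  simp only [K.G_even, neg_neg] at h
  rw [h]
  exact tail_posB K hB ha

section bounds

variable (K : Ker) {r R : ℝ} (hr : 0 ≤ r) (hR : 1 ≤ R)

lemma KB_abs_le (w : ℝ) : |(KB K r R hr hR).G w| ≤ ∫ y, |K.G y| := by
  rw [KB_G K hr hR, intervalIntegral.integral_of_le (KR_order hr hR w)]
  refine (abs_integral_le_integral_abs).trans ?_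
  exact setIntegral_le_integral K.G_integrable.abs (Eventually.of_forall fun y => abs_nonneg _)

/-- beyond the interval -/
lemma KB_far {B : ℝ} (hB : ∀ y, |y| ^ 2 * |K.G y| ≤ B) {w : ℝ} (hw : r < w) :
    |(KB K r R hr hR).G w| ≤ B / (R * (w - r)) := by
  have hR0 : 0 < R := by linarith
  have ha : 0 < R * (w - r) := mul_pos hR0 (by linarith)
  rw [KB_G K hr hR, intervalIntegral.integral_of_le (KR_order hr hR w)]
  refine (abs_integral_le_integral_abs).trans (le_trans ?_ (tail_posB K hB ha))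
  exact setIntegral_mono_set K.G_integrable.abs.integrableOn
    (Eventually.of_forall fun y => abs_nonneg _) Ioc_subset_Ioi_self.eventuallyLE

/-- quadratic decay -/
lemma KB_decay {B : ℝ} (hB0 : 0 ≤ B) (hB : ∀ y, |y| ^ 2 * |K.G y| ≤ B) (hr1 : 2 * r ≤ 1) {w : ℝ}
    (hw : 0 < w) : |(KB K r R hr hR).G w| ≤ ((∫ y, |K.G y|) + 8 * B) / w ^ 2 := by
  have hR0 : 0 < R := by linarith
  have hM : 0 ≤ ∫ y, |K.G y| := integral_nonneg fun y => abs_nonneg _
  rw [le_div_iff₀ (by positivity)]
  rcases le_total w (2 * r) with h1 | h1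
  · have h2 := KB_abs_le K hr hR w
    have h3 : w ^ 2 ≤ 1 := by nlinarith
    have h4 : |(KB K r R hr hR).G w| * w ^ 2 ≤ (∫ y, |K.G y|) * 1 := by gcongr
    linarith
  · have hwr : w / 2 ≤ w - r := by linarith
    have h2 : |(KB K r R hr hR).G w| ≤ B / (R * (w / 2)) ^ 2 * |R * (w + r) - R * (w - r)| := by
      rw [KB_G K hr hR, ← Real.norm_eq_abs (∫ y in _.._, K.G y)]
      refine intervalIntegral.norm_integral_le_of_norm_le_const fun y hy => ?_
      rw [uIoc_of_le (KR_order hr hR w)] at hy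
      have hy1 : R * (w / 2) ≤ y := by
        have : R * (w / 2) ≤ R * (w - r) := by gcongr
        exact this.trans hy.1.le
      have hy2 : 0 < R * (w / 2) := by positivity
      have hy0 : 0 < y := by linarith
      have h := hB y
      rw [abs_of_pos hy0] at h
      rw [Real.norm_eq_abs, le_div_iff₀ (by positivity)]
      calc |K.G y| * (R * (w / 2)) ^ 2 ≤ |K.G y| * y ^ 2 := by gcongr
        _ = y ^ 2 * |K.G y| := by ring
        _ ≤ B := h
    have h3 : |R * (w + r) - R * (w - r)| = R * (2 * r) := by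
      rw [abs_of_nonneg] <;> nlinarith
    rw [h3] at h2
    have h4 : B / (R * (w / 2)) ^ 2 * (R * (2 * r)) * w ^ 2 = 4 * B * (2 * r) / R := by
      field_simp
      ring
    have h5 : 4 * B * (2 * r) / R ≤ 4 * B := by
      rw [div_le_iff₀ hR0]
      have : 4 * B * (2 * r) ≤ 4 * B * 1 := by gcongr
      nlinarith
    calc |(KB K r R hr hR).G w| * w ^ 2 ≤ B / (R * (w / 2)) ^ 2 * (R * (2 * r)) * w ^ 2 := by gcongr
      _ ≤ (∫ y, |K.G y|) + 8 * B := by rw [h4]; linarith

/-- inside the interval -/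
lemma KB_near (h1K : K.g 0 = 1) {B : ℝ} (hB : ∀ y, |y| ^ 2 * |K.G y| ≤ B) {w e : ℝ} (he : 0 < e)
    (hw : |w| ≤ r - e) : |(KB K r R hr hR).G w - 1| ≤ 2 * B / (R * e) := by
  have hR0 : 0 < R := by linarith
  have ha : 0 < R * e := mul_pos hR0 he
  obtain ⟨hw1, hw2⟩ := abs_le.mp hw
  have h1 : R * (w - r) ≤ -(R * e) := by nlinarith
  have h2 : R * e ≤ R * (w + r) := by nlinarith
  have hi := K.G_integrable
  have e1 : (1 : ℝ) = (∫ y in Iic (R * (w - r)), K.G y) + ((∫ y in Ioc (R * (w - r)) (R * (w + r)),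
      K.G y) + ∫ y in Ioi (R * (w + r)), K.G y) := by
    rw [← setIntegral_union (Ioc_disjoint_Ioi le_rfl) measurableSet_Ioi hi.integrableOn
      hi.integrableOn, Ioc_union_Ioi_eq_Ioi (KR_order hr hR w),
      ← setIntegral_union (Iic_disjoint_Ioi le_rfl) measurableSet_Ioi hi.integrableOn
      hi.integrableOn, Iic_union_Ioi, setIntegral_univ, integral_G_one K h1K]
  rw [KB_G K hr hR, intervalIntegral.integral_of_le (KR_order hr hR w)]
  have e2 : (∫ y in Ioc (R * (w - r)) (R * (w + r)), K.G y) - 1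
      = -((∫ y in Iic (R * (w - r)), K.G y) + ∫ y in Ioi (R * (w + r)), K.G y) := by
    linarith
  rw [e2, abs_neg]
  have h3 : |∫ y in Iic (R * (w - r)), K.G y| ≤ B / (R * e) := by
    refine (abs_integral_le_integral_abs).trans (le_trans ?_ (tail_negB K hB ha))
    exact setIntegral_mono_set hi.abs.integrableOn
      (Eventually.of_forall fun y => abs_nonneg _) (Iic_subset_Iic.mpr h1).eventuallyLE
  have h4 : |∫ y in Ioi (R * (w + r)), K.G y| ≤ B / (R * e) := by
    refine (abs_integral_le_integral_abs).trans (le_trans ?_ (tail_posB K hB ha))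
    exact setIntegral_mono_set hi.abs.integrableOn
      (Eventually.of_forall fun y => abs_nonneg _) (Ioi_subset_Ioi h2).eventuallyLE
  calc _ ≤ |∫ y in Iic (R * (w - r)), K.G y| + |∫ y in Ioi (R * (w + r)), K.G y| := abs_add_le _ _
    _ ≤ B / (R * e) + B / (R * e) := add_le_add h3 h4
    _ = _ := by ring

/-- the derivative -/
lemma KB_G' (w : ℝ) :
    (KB K r R hr hR).G' w = R * K.G (R * (w + r)) - R * K.G (R * (w - r)) := by
  refine ((KB K r R hr hR).G_hasDerivAt w).unique ?_
  have hf : (KB K r R hr hR).G = fun w => ∫ y in (R * (w - r))..(R * (w + r)), K.G y :=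
    funext fun w => KB_G K hr hR w
  rw [hf]
  have e1 : (fun w => ∫ y in (R * (w - r))..(R * (w + r)), K.G y)
      = fun w => (∫ y in (0 : ℝ)..(R * (w + r)), K.G y) - ∫ y in (0 : ℝ)..(R * (w - r)), K.G y := by
    funext w
    rw [intervalIntegral.integral_interval_sub_left (K.G_cont.intervalIntegrable _ _)
      (K.G_cont.intervalIntegrable _ _)]
  rw [e1]
  have hd : ∀ a : ℝ, HasDerivAt (fun b => ∫ y in (0 : ℝ)..b, K.G y) (K.G a) a := fun a =>
    intervalIntegral.integral_hasDerivAt_right (K.G_cont.intervalIntegrable _ _)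
      (K.G_cont.stronglyMeasurableAtFilter _ _) K.G_cont.continuousAt
  have h1 : HasDerivAt (fun w => R * (w + r)) R w := by
    simpa using ((hasDerivAt_id w).add_const r).const_mul R
  have h2 : HasDerivAt (fun w => R * (w - r)) R w := by
    simpa using ((hasDerivAt_id w).sub_const r).const_mul R
  have h3 := (hd (R * (w + r))).comp w h1
  have h4 := (hd (R * (w - r))).comp w h2
  have h5 := h3.sub h4
  refine h5.congr_deriv ?_
  ring

lemma KB_B1 : (KB K r R hr hR).B1 ≤ 2 * ∫ y, |K.G y| := by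
  have hR0 : 0 < R := by linarith
  have hs : ∀ b : ℝ, Integrable (fun w => R * |K.G (R * (w + b))|)
      ∧ ∫ w, R * |K.G (R * (w + b))| = ∫ y, |K.G y| := by
    intro b
    have hi : Integrable (fun w => |K.G (R * w)|) := K.G_integrable.abs.comp_mul_left' hR0.ne'
    refine ⟨(hi.comp_add_right b).const_mul R, ?_⟩
    rw [integral_const_mul, integral_add_right_eq_self (fun w => |K.G (R * w)|) b,
      Measure.integral_comp_mul_left (fun y => |K.G y|) R, abs_of_pos (inv_pos.mpr hR0),
      smul_eq_mul]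
    field_simp
  unfold Ker.B1
  obtain ⟨i1, j1⟩ := hs r
  obtain ⟨i2, j2⟩ := hs (-r)
  calc ∫ w, |(KB K r R hr hR).G' w| ≤ ∫ w, (R * |K.G (R * (w + r))| + R * |K.G (R * (w + -r))|) := by
        refine integral_mono (KB K r R hr hR).G'_integrable.abs (i1.add i2) fun w => ?_
        simp only
        rw [KB_G']
        refine (abs_sub _ _).trans (le_of_eq ?_)
        rw [abs_mul, abs_mul, abs_of_pos hR0, sub_eq_add_neg]
    _ = 2 * ∫ y, |K.G y| := by rw [integral_add i1 i2, j1, j2]; ring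

lemma abs_g_le (v : ℝ) : |K.g v| ≤ ∫ y, |K.G y| := by
  rw [← K.integral_G_cos v]
  refine (abs_integral_le_integral_abs).trans ?_
  refine integral_mono_of_nonneg (Eventually.of_forall fun y => abs_nonneg _)
    K.G_integrable.abs (Eventually.of_forall fun y => ?_)
  simp only
  rw [abs_mul]
  exact mul_le_of_le_one_right (abs_nonneg _) (Real.abs_cos_le_one _)

lemma KB_ml : (KB K r R hr hR).ml ≤ 4 * (K.L * R) * ((∫ y, |K.G y|) * r) := by
  have hR0 : 0 < R := by linarith
  have hL := K.hL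
  have hLR : 0 < K.L * R := by positivity
  have hM : 0 ≤ ∫ y, |K.G y| := integral_nonneg fun y => abs_nonneg _
  have h1 : (KB K r R hr hR).ml ≤ ∫ v, (Icc (-(K.L * R)) (K.L * R)).indicator
      (fun _ => (∫ y, |K.G y|) * (2 * r)) v := by
    unfold Ker.ml
    refine integral_mono (KB K r R hr hR).integrable.abs ?_ fun v => ?_
    · rw [integrable_indicator_iff measurableSet_Icc]
      exact integrableOn_const (by simp)
    · simp only
      by_cases hv : v ∈ Icc (-(K.L * R)) (K.L * R)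
      · rw [indicator_of_mem hv]
        change |K.g (v / R) * DR r v| ≤ (∫ y, |K.G y|) * (2 * r)
        rw [abs_mul]
        have h2 := abs_g_le K (v / R)
        have h3 := abs_DR_le hr v
        gcongr
      · rw [indicator_of_notMem hv]
        have : (KB K r R hr hR).g v = 0 := by
          refine (KB K r R hr hR).zero_of ?_
          change K.L * R < |v|
          by_contra hc
          push Not at hc
          exact hv (abs_le.mp hc)
        rw [this, abs_zero]
  refine h1.trans (le_of_eq ?_)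
  rw [integral_indicator measurableSet_Icc]
  simp only [integral_const, MeasurableSet.univ, measureReal_restrict_apply, univ_inter,
    Real.volume_real_Icc, smul_eq_mul]
  rw [max_eq_left (by linarith)]
  ring

lemma KB_int_abs {B : ℝ} (hB0 : 0 ≤ B) (hB : ∀ y, |y| ^ 2 * |K.G y| ≤ B) (hr1 : 2 * r ≤ 1) :
    ∫ w in Ioi (0 : ℝ), |(KB K r R hr hR).G w| ≤ 2 * (∫ y, |K.G y|) + 8 * B := by
  have hM : 0 ≤ ∫ y, |K.G y| := integral_nonneg fun y => abs_nonneg _
  have hi : Integrable fun w => |(KB K r R hr hR).G w| := (KB K r R hr hR).G_integrable.abs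
  rw [← Ioc_union_Ioi_eq_Ioi (zero_le_one (α := ℝ)), setIntegral_union (Ioc_disjoint_Ioi le_rfl)
    measurableSet_Ioi hi.integrableOn hi.integrableOn]
  have h1 : ∫ w in Ioc (0 : ℝ) 1, |(KB K r R hr hR).G w| ≤ ∫ w in Ioc (0 : ℝ) 1, ∫ y, |K.G y| := by
    refine setIntegral_mono_on hi.integrableOn ?_ measurableSet_Ioc fun w _ => KB_abs_le K hr hR w
    exact integrableOn_const (by simp)
  have h2 : ∫ w in Ioi (1 : ℝ), |(KB K r R hr hR).G w|
      ≤ ∫ w in Ioi (1 : ℝ), ((∫ y, |K.G y|) + 8 * B) * w ^ (-2 : ℝ) := by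
    refine setIntegral_mono_on hi.integrableOn
      ((integrableOn_Ioi_rpow_of_lt (by norm_num) zero_lt_one).const_mul _) measurableSet_Ioi
      fun w hw => ?_
    have hw0 : (0 : ℝ) < w := lt_trans zero_lt_one hw
    refine (KB_decay K hr hR hB0 hB hr1 hw0).trans (le_of_eq ?_)
    have e5 : w ^ (-2 : ℝ) = (w ^ 2)⁻¹ := by
      rw [Real.rpow_neg hw0.le]; norm_num
    rw [e5, div_eq_mul_inv]
  have e4 : ∫ x in Ioi (1 : ℝ), x ^ (-2 : ℝ) = 1 := by
    rw [integral_Ioi_rpow_of_lt (by norm_num) zero_lt_one]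
    norm_num
  rw [integral_const_mul, e4] at h2
  simp only [integral_const, MeasurableSet.univ, measureReal_restrict_apply, univ_inter,
    Real.volume_real_Ioc, smul_eq_mul] at h1
  norm_num at h1
  linarith

lemma KB_m2 (h1K : K.g 0 = 1) {B : ℝ} (hB0 : 0 ≤ B) (hB : ∀ y, |y| ^ 2 * |K.G y| ≤ B) (hr1 : 2 * r ≤ 1) {e : ℝ}
    (he : 0 < e) (hre : 0 ≤ r - e) :
    (KB K r R hr hR).m2 ≤ 2 * ((r - e) * (1 + 2 * B / (R * e)) ^ 2 + 2 * e * (∫ y, |K.G y|) ^ 2
      + B / (R * e) * (2 * (∫ y, |K.G y|) + 8 * B)) := by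
  have hR0 : 0 < R := by linarith
  have hM : 0 ≤ ∫ y, |K.G y| := integral_nonneg fun y => abs_nonneg _
  have hi : Integrable fun w => (KB K r R hr hR).G w ^ 2 := (KB K r R hr hR).G_sq_integrable
  have h0 := (KB K r R hr hR).integral_G_sq_Ioi
  have e1 : Ioi (0 : ℝ) = Ioc 0 (r - e) ∪ (Ioc (r - e) (r + e) ∪ Ioi (r + e)) := by
    rw [Ioc_union_Ioi_eq_Ioi (by linarith), Ioc_union_Ioi_eq_Ioi hre]
  have hd1 : Disjoint (Ioc (r - e) (r + e)) (Ioi (r + e)) := Ioc_disjoint_Ioi le_rfl
  have hd2 : Disjoint (Ioc 0 (r - e)) (Ioc (r - e) (r + e) ∪ Ioi (r + e)) := by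
    rw [Ioc_union_Ioi_eq_Ioi (by linarith)]
    exact Ioc_disjoint_Ioi le_rfl
  rw [e1, setIntegral_union hd2 (measurableSet_Ioc.union measurableSet_Ioi) hi.integrableOn
    hi.integrableOn, setIntegral_union hd1 measurableSet_Ioi hi.integrableOn hi.integrableOn] at h0
  have h1 : ∫ w in Ioc 0 (r - e), (KB K r R hr hR).G w ^ 2
      ≤ ∫ w in Ioc 0 (r - e), (1 + 2 * B / (R * e)) ^ 2 := by
    refine setIntegral_mono_on hi.integrableOn (integrableOn_const (by simp)) measurableSet_Ioc
      fun w hw => ?_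
    have hw1 : |w| ≤ r - e := by rw [abs_of_pos hw.1]; exact hw.2
    have h2 := KB_near K hr hR h1K hB he hw1
    have h3 : |(KB K r R hr hR).G w| ≤ 1 + 2 * B / (R * e) := by
      have h4 := abs_sub_abs_le_abs_sub ((KB K r R hr hR).G w) 1
      rw [abs_one] at h4
      linarith
    rw [← sq_abs]
    gcongr
  have h2 : ∫ w in Ioc (r - e) (r + e), (KB K r R hr hR).G w ^ 2
      ≤ ∫ w in Ioc (r - e) (r + e), (∫ y, |K.G y|) ^ 2 := by
    refine setIntegral_mono_on hi.integrableOn (integrableOn_const (by simp)) measurableSet_Ioc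
      fun w _ => ?_
    have h3 := KB_abs_le K hr hR w
    rw [← sq_abs]
    gcongr
  have h3 : ∫ w in Ioi (r + e), (KB K r R hr hR).G w ^ 2
      ≤ ∫ w in Ioi (r + e), B / (R * e) * |(KB K r R hr hR).G w| := by
    refine setIntegral_mono_on hi.integrableOn
      ((KB K r R hr hR).G_integrable.abs.const_mul _).integrableOn measurableSet_Ioi fun w hw => ?_
    have hw1 : r + e < w := hw
    have h4 := KB_far K hr hR hB (by linarith : r < w)
    have h5 : B / (R * (w - r)) ≤ B / (R * e) := by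
      gcongr
      linarith
    rw [← sq_abs, sq]
    gcongr
    exact h4.trans h5
  have h4 : ∫ w in Ioi (r + e), |(KB K r R hr hR).G w| ≤ ∫ w in Ioi (0 : ℝ), |(KB K r R hr hR).G w| :=
    setIntegral_mono_set (KB K r R hr hR).G_integrable.abs.integrableOn
      (Eventually.of_forall fun y => abs_nonneg _) (Ioi_subset_Ioi (by linarith)).eventuallyLE
  have h5 := KB_int_abs K hr hR hB0 hB hr1
  rw [integral_const_mul] at h3
  have h6 : B / (R * e) * ∫ w in Ioi (r + e), |(KB K r R hr hR).G w|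
      ≤ B / (R * e) * (2 * (∫ y, |K.G y|) + 8 * B) := by
    gcongr
    exact h4.trans h5
  simp only [integral_const, MeasurableSet.univ, measureReal_restrict_apply, univ_inter,
    Real.volume_real_Ioc, smul_eq_mul] at h1 h2
  rw [max_eq_left (by linarith)] at h1 h2
  have e2 : r + e - (r - e) = 2 * e := by ring
  rw [e2] at h2
  rw [sub_zero] at h1
  linarith

end bounds

/-! ### the positive base kernel -/

/-- the autocorrelation of the cut-off -/
noncomputable def cc : ℝ → ℝ := (chi0 ⋆[ContinuousLinearMap.lsmul ℝ ℝ, volume] chi0)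

lemma chi0_cs : HasCompactSupport (chi0 : ℝ → ℝ) := K0.cs

lemma cc_smooth : ContDiff ℝ ∞ cc := by
  have h : ContDiff ℝ ((⊤ : ℕ∞) : WithTop ℕ∞) cc :=
    chi0_cs.contDiff_convolution_right (ContinuousLinearMap.lsmul ℝ ℝ)
      K0.integrable.locallyIntegrable chi0.contDiff
  exact h

lemma cc_apply (v : ℝ) : cc v = ∫ u, chi0 u * chi0 (v - u) := rfl

lemma cc_supp {v : ℝ} (hv : cc v ≠ 0) : |v| ≤ 4 := by
  by_contra hc
  push Not at hc
  refine hv ?_
  rw [cc_apply]
  refine integral_eq_zero_of_ae (Eventually.of_forall fun u => ?_)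
  by_contra h
  have h1 := chi0_supp (left_ne_zero_of_mul h)
  have h2 := chi0_supp (right_ne_zero_of_mul h)
  have h3 := abs_add_le u (v - u)
  rw [add_sub_cancel] at h3
  linarith

lemma cc_even (v : ℝ) : cc (-v) = cc v := by
  rw [cc_apply, cc_apply, ← integral_neg_eq_self]
  refine integral_congr_ae (Eventually.of_forall fun u => ?_)
  simp only
  rw [chi0.neg]
  congr 1
  rw [← chi0.neg]
  congr 1
  ring

lemma integrable_sq_cs {f : ℝ → ℝ} (hc : Continuous f) (h : HasCompactSupport f) :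
    Integrable (fun u => f u ^ 2) := by
  have h1 : Continuous fun u => f u ^ 2 := hc.pow 2
  have h2 : HasCompactSupport fun u => f u ^ 2 :=
    HasCompactSupport.intro' h.isCompact (isClosed_tsupport f) fun x hx => by
      rw [image_eq_zero_of_notMem_tsupport hx]
      norm_num
  exact h1.integrable_of_hasCompactSupport h2

lemma cc_zero_pos : 0 < cc 0 := by
  rw [cc_apply]
  have e1 : ∀ u : ℝ, chi0 u * chi0 (0 - u) = K0.g u ^ 2 := by
    intro u
    rw [zero_sub, chi0.neg]
    change chi0 u * chi0 u = chi0 u ^ 2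
    ring
  simp_rw [e1]
  have hi : Integrable (fun u => K0.g u ^ 2) := integrable_sq_cs K0.cont K0.cs
  rw [integral_pos_iff_support_of_nonneg (fun u => by positivity) hi]
  have hs : Metric.ball (0 : ℝ) 1 ⊆ Function.support fun u => K0.g u ^ 2 := by
    intro u hu
    have h1 : chi0 u = 1 := by
      apply ContDiffBump.one_of_mem_closedBall
      exact Metric.ball_subset_closedBall hu
    change K0.g u ^ 2 ≠ 0
    change chi0 u ^ 2 ≠ 0
    rw [h1]; norm_num
  refine lt_of_lt_of_le ?_ (measure_mono hs)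
  rw [Real.volume_ball]
  norm_num

/-- the positive base kernel -/
noncomputable def K1 : Ker where
  g := fun v => cc v / cc 0
  smooth := cc_smooth.div_const _
  L := 4
  hL := by norm_num
  supp := fun v hv => cc_supp fun h => hv (by rw [h, zero_div])
  even := fun v => by rw [cc_even]

lemma K1_zero : K1.g 0 = 1 := div_self cc_zero_pos.ne'

lemma K1_G (w : ℝ) : K1.G w = K0.G w ^ 2 / cc 0 := by
  have h1 := K1.fourier_eq' w
  have h2 := K0.fourier_eq' w
  have hf : Integrable (fun v => (K0.g v : ℂ)) := K0.integrable.ofReal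
  have h3 := Real.fourier_mul_convolution_eq hf hf w
  have e1 : (fun v : ℝ => (K1.g v : ℂ))
      = fun v => ((cc 0 : ℝ) : ℂ)⁻¹ * ((fun v => (K0.g v : ℂ))
        ⋆[ContinuousLinearMap.mul ℂ ℂ, volume] fun v => (K0.g v : ℂ)) v := by
    funext v
    change ((cc v / cc 0 : ℝ) : ℂ) = _
    have e2 : ((fun v => (K0.g v : ℂ)) ⋆[ContinuousLinearMap.mul ℂ ℂ, volume]
        fun v => (K0.g v : ℂ)) v = ((cc v : ℝ) : ℂ) := by
      rw [cc_apply, ← integral_complex_ofReal]
      unfold convolution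
      refine integral_congr_ae (Eventually.of_forall fun u => ?_)
      simp only [ContinuousLinearMap.mul_apply', Complex.ofReal_mul]
      rfl
    rw [e2]
    push_cast
    rw [div_eq_inv_mul]
  rw [e1] at h1
  have e3 : 𝓕 (fun v : ℝ => ((cc 0 : ℝ) : ℂ)⁻¹ * ((fun v => (K0.g v : ℂ))
        ⋆[ContinuousLinearMap.mul ℂ ℂ, volume] fun v => (K0.g v : ℂ)) v) w
      = ((cc 0 : ℝ) : ℂ)⁻¹ * 𝓕 ((fun v => (K0.g v : ℂ))
        ⋆[ContinuousLinearMap.mul ℂ ℂ, volume] fun v => (K0.g v : ℂ)) w := by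
    rw [Real.fourier_real_eq_integral_exp_smul, Real.fourier_real_eq_integral_exp_smul,
      ← integral_const_mul]
    refine integral_congr_ae (Eventually.of_forall fun u => ?_)
    simp only [smul_eq_mul]
    ring
  rw [e3, h3, h2] at h1
  have h4 : ((K0.G w ^ 2 / cc 0 : ℝ) : ℂ) = (K1.G w : ℂ) := by
    rw [← h1]
    push_cast
    rw [div_eq_inv_mul]
    ring
  exact_mod_cast h4.symm

lemma K1_G_nonneg (w : ℝ) : 0 ≤ K1.G w := by
  rw [K1_G]
  have := cc_zero_pos
  positivity

lemma K1_M : ∫ y, |K1.G y| = 1 := by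
  have e1 : ∀ y, |K1.G y| = K1.G y := fun y => abs_of_nonneg (K1_G_nonneg y)
  simp_rw [e1]
  exact integral_G_one K1 K1_zero

/-- the transform of the kernels with the positive base lies between `0` and `1` -/
lemma KB1_nonneg {r R : ℝ} (hr : 0 ≤ r) (hR : 1 ≤ R) (w : ℝ) : 0 ≤ (KB K1 r R hr hR).G w := by
  rw [KB_G, intervalIntegral.integral_of_le (KR_order hr hR w)]
  exact integral_nonneg fun y => K1_G_nonneg y

lemma KB1_le_one {r R : ℝ} (hr : 0 ≤ r) (hR : 1 ≤ R) (w : ℝ) : (KB K1 r R hr hR).G w ≤ 1 := by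
  have h := KB_abs_le K1 hr hR w
  rw [K1_M] at h
  exact (le_abs_self _).trans h

lemma KB_m2_lower (K : Ker) (h1K : K.g 0 = 1) {r R : ℝ} (hr : 0 ≤ r) (hR : 1 ≤ R) {B : ℝ}
    (hB : ∀ y, |y| ^ 2 * |K.G y| ≤ B) {e : ℝ} (he : 0 < e) (hre : 0 ≤ r - e)
    (h1 : 2 * B / (R * e) ≤ 1) :
    2 * ((r - e) * (1 - 2 * B / (R * e)) ^ 2) ≤ (KB K r R hr hR).m2 := by
  have hi : Integrable fun w => (KB K r R hr hR).G w ^ 2 := (KB K r R hr hR).G_sq_integrable
  have h0 := (KB K r R hr hR).integral_G_sq_Ioi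
  have h2 : ∫ w in Ioc 0 (r - e), (KB K r R hr hR).G w ^ 2
      ≤ ∫ w in Ioi (0 : ℝ), (KB K r R hr hR).G w ^ 2 :=
    setIntegral_mono_set hi.integrableOn (Eventually.of_forall fun y => sq_nonneg _)
      Ioc_subset_Ioi_self.eventuallyLE
  have h3 : ∫ w in Ioc 0 (r - e), (1 - 2 * B / (R * e)) ^ 2
      ≤ ∫ w in Ioc 0 (r - e), (KB K r R hr hR).G w ^ 2 := by
    refine setIntegral_mono_on (integrableOn_const (by simp)) hi.integrableOn measurableSet_Ioc
      fun w hw => ?_
    have hw1 : |w| ≤ r - e := by rw [abs_of_pos hw.1]; exact hw.2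
    have h4 := (abs_le.mp (KB_near K hr hR h1K hB he hw1)).1
    have h5 : 1 - 2 * B / (R * e) ≤ (KB K r R hr hR).G w := by linarith
    have h6 : 0 ≤ 1 - 2 * B / (R * e) := by linarith
    gcongr
  simp only [integral_const, MeasurableSet.univ, measureReal_restrict_apply, univ_inter,
    Real.volume_real_Ioc, smul_eq_mul] at h3
  rw [max_eq_left (by linarith), sub_zero] at h3
  linarith

lemma KB1_m2_upper {r R : ℝ} (hr : 0 ≤ r) (hR : 1 ≤ R) {B : ℝ} (hB0 : 0 ≤ B)
    (hB : ∀ y, |y| ^ 2 * |K1.G y| ≤ B) (hr1 : 2 * r ≤ 1) {e : ℝ} (he : 0 < e) :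
    (KB K1 r R hr hR).m2 ≤ 2 * ((r + e) + B / (R * e) * (2 + 8 * B)) := by
  have hR0 : 0 < R := by linarith
  have hi : Integrable fun w => (KB K1 r R hr hR).G w ^ 2 := (KB K1 r R hr hR).G_sq_integrable
  have h0 := (KB K1 r R hr hR).integral_G_sq_Ioi
  rw [← Ioc_union_Ioi_eq_Ioi (by linarith : (0 : ℝ) ≤ r + e),
    setIntegral_union (Ioc_disjoint_Ioi le_rfl) measurableSet_Ioi hi.integrableOn
    hi.integrableOn] at h0
  have h1 : ∫ w in Ioc 0 (r + e), (KB K1 r R hr hR).G w ^ 2
      ≤ ∫ w in Ioc 0 (r + e), (1 : ℝ) := by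
    refine setIntegral_mono_on hi.integrableOn (integrableOn_const (by simp)) measurableSet_Ioc
      fun w _ => ?_
    have h2 := KB1_nonneg hr hR w
    have h3 := KB1_le_one hr hR w
    nlinarith
  have h3 : ∫ w in Ioi (r + e), (KB K1 r R hr hR).G w ^ 2
      ≤ ∫ w in Ioi (r + e), B / (R * e) * |(KB K1 r R hr hR).G w| := by
    refine setIntegral_mono_on hi.integrableOn
      ((KB K1 r R hr hR).G_integrable.abs.const_mul _).integrableOn measurableSet_Ioi fun w hw => ?_
    have hw1 : r + e < w := hw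
    have h4 := KB_far K1 hr hR hB (by linarith : r < w)
    have h5 : B / (R * (w - r)) ≤ B / (R * e) := by
      gcongr
      linarith
    rw [← sq_abs, sq]
    gcongr
    exact h4.trans h5
  have h4 : ∫ w in Ioi (r + e), |(KB K1 r R hr hR).G w|
      ≤ ∫ w in Ioi (0 : ℝ), |(KB K1 r R hr hR).G w| :=
    setIntegral_mono_set (KB K1 r R hr hR).G_integrable.abs.integrableOn
      (Eventually.of_forall fun y => abs_nonneg _) (Ioi_subset_Ioi (by linarith)).eventuallyLE
  have h5 := KB_int_abs K1 hr hR hB0 hB hr1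
  rw [K1_M, mul_one] at h5
  rw [integral_const_mul] at h3
  have h6 : B / (R * e) * ∫ w in Ioi (r + e), |(KB K1 r R hr hR).G w|
      ≤ B / (R * e) * (2 + 8 * B) := by
    gcongr
    exact h4.trans h5
  simp only [integral_const, MeasurableSet.univ, measureReal_restrict_apply, univ_inter,
    Real.volume_real_Ioc, smul_eq_mul, mul_one] at h1
  rw [max_eq_left (by linarith), sub_zero] at h1
  linarith

/-- Lipschitz bound for the transform of the indicator function -/
lemma DR_lip {r : ℝ} (hr : 0 ≤ r) (v w : ℝ) :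
    |DR r v - DR r w| ≤ 4 * Real.pi * r ^ 2 * |v - w| := by
  unfold DR
  have hc : ∀ v : ℝ, Continuous fun u : ℝ => Real.cos (2 * Real.pi * v * u) := fun v => by fun_prop
  rw [← intervalIntegral.integral_sub ((hc v).intervalIntegrable _ _)
    ((hc w).intervalIntegrable _ _)]
  have := intervalIntegral.norm_integral_le_of_norm_le_const (a := -r) (b := r)
    (C := 2 * Real.pi * r * |v - w|)
    (f := fun u => Real.cos (2 * Real.pi * v * u) - Real.cos (2 * Real.pi * w * u)) fun u hu => by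
      rw [uIoc_of_le (by linarith)] at hu
      have h1 : |u| ≤ r := abs_le.mpr ⟨hu.1.le, hu.2⟩
      rw [Real.norm_eq_abs]
      have h2 : |Real.cos (2 * Real.pi * v * u) - Real.cos (2 * Real.pi * w * u)|
          ≤ |2 * Real.pi * v * u - 2 * Real.pi * w * u| := by
        have := Real.lipschitzWith_cos.dist_le_mul (2 * Real.pi * v * u) (2 * Real.pi * w * u)
        rw [Real.dist_eq, Real.dist_eq] at this
        simpa using this
      refine h2.trans ?_
      have e1 : 2 * Real.pi * v * u - 2 * Real.pi * w * u = 2 * Real.pi * u * (v - w) := by ring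
      have hpi := Real.pi_pos
      rw [e1, abs_mul, abs_mul, abs_of_pos (by positivity : (0 : ℝ) < 2 * Real.pi)]
      gcongr
  rw [Real.norm_eq_abs] at this
  refine this.trans (le_of_eq ?_)
  have e2 : |r - -r| = 2 * r := by
    rw [sub_neg_eq_add, abs_of_nonneg (by linarith)]
    ring
  rw [e2]
  ring

/-- the derivative of the kernels -/
lemma KB1_deriv : ∃ C : ℝ, 0 ≤ C ∧ ∀ (r R : ℝ) (hr : 0 ≤ r) (hR : 1 ≤ R), 2 * r ≤ 1 →
    ∀ v, |deriv (KB K1 r R hr hR).g v| ≤ C := by
  obtain ⟨C, hC⟩ := K1.smooth.lipschitzWith_of_hasCompactSupport K1.cs (by simp)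
  refine ⟨C + 4, by positivity, fun r R hr hR hr1 v => ?_⟩
  have hC0 : (0 : ℝ) ≤ C := C.coe_nonneg
  have hR0 : 0 < R := by linarith
  have hlip : LipschitzWith (C + 4) (KB K1 r R hr hR).g := by
    refine LipschitzWith.of_dist_le_mul fun x y => ?_
    rw [Real.dist_eq, Real.dist_eq]
    change |K1.g (x / R) * DR r x - K1.g (y / R) * DR r y| ≤ _
    have e1 : K1.g (x / R) * DR r x - K1.g (y / R) * DR r y
        = (K1.g (x / R) - K1.g (y / R)) * DR r x + K1.g (y / R) * (DR r x - DR r y) := by ring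
    rw [e1]
    have h1 : |K1.g (x / R) - K1.g (y / R)| ≤ C * |x - y| := by
      have h2 := hC.dist_le_mul (x / R) (y / R)
      rw [Real.dist_eq, Real.dist_eq] at h2
      refine h2.trans ?_
      have e2 : x / R - y / R = (x - y) / R := by ring
      rw [e2, abs_div, abs_of_pos hR0]
      gcongr
      exact div_le_self (abs_nonneg _) hR
    have h3 := abs_DR_le hr x
    have h4 := DR_lip hr x y
    have h5 := abs_g_le K1 (y / R)
    rw [K1_M] at h5
    have h6 : 4 * Real.pi * r ^ 2 ≤ 4 := by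
      have hpi := Real.pi_lt_four
      have hpi0 := Real.pi_pos
      have : r ^ 2 ≤ 1 / 4 := by nlinarith
      calc 4 * Real.pi * r ^ 2 ≤ 4 * 4 * (1 / 4) := by gcongr
        _ = 4 := by norm_num
    calc |(K1.g (x / R) - K1.g (y / R)) * DR r x + K1.g (y / R) * (DR r x - DR r y)|
        ≤ |K1.g (x / R) - K1.g (y / R)| * |DR r x| + |K1.g (y / R)| * |DR r x - DR r y| := by
          rw [← abs_mul, ← abs_mul]; exact abs_add_le _ _
      _ ≤ (C * |x - y|) * 1 + 1 * (4 * |x - y|) := by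
          gcongr
          · linarith
          · exact h4.trans (by gcongr)
      _ = _ := by push_cast; ring
  have h := norm_deriv_le_of_lipschitz (x₀ := v) hlip
  rw [Real.norm_eq_abs] at h
  push_cast at h
  exact h

/-- kernels with transform bounded by one and polynomial constants -/
theorem exists_good_pos : ∃ C0 : ℝ, 1 ≤ C0 ∧ ∃ N : ℕ, ∀ ε : ℝ, 0 < ε → ε ≤ 1 → ∃ K : Ker,
    1 - ε ≤ Real.pi * K.m2 ∧ Real.pi * K.m2 ≤ 1 + 50 * ε ∧
    (∀ w, |K.G w| ≤ 1) ∧
    (∀ w, (1 + ε) / (2 * Real.pi) ≤ |w| → |K.G w| ≤ ε / |w|) ∧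
    K.L ≤ C0 * (1 / ε) ^ N ∧ K.ml ≤ C0 * (1 / ε) ^ N ∧ K.B1 ≤ C0 * (1 / ε) ^ N ∧
    (∀ v, |deriv K.g v| ≤ C0 * (1 / ε) ^ N) ∧
    (∀ w, 0 < w → |K.G w| ≤ C0 * (1 / ε) ^ N / w ^ 2) := by
  obtain ⟨B, hB0, hB⟩ := K1.G_decay 2
  obtain ⟨Cd, hCd, hd⟩ := KB1_deriv
  have hpi3 := Real.pi_gt_three
  have hpi4 := Real.pi_lt_four
  have hpi0 := Real.pi_pos
  set C3 := 1000 * (B + 1) ^ 2 with hC3
  have hB00 : 0 ≤ B := hB0.le
  have hC3e : C3 = 1000 * (B * B) + 2000 * B + 1000 := by rw [hC3]; ring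
  have hBB : 0 ≤ B * B := mul_nonneg hB00 hB00
  have hC31 : 1000 ≤ C3 := by linarith
  have hC3B : 1000 * B ≤ C3 := by linarith
  have hC3B2 : 1000 * (B * (B + 1)) ≤ C3 := by
    have e : B * (B + 1) = B * B + B := by ring
    rw [e]
    linarith
  have hC30 : 0 < C3 := by linarith
  refine ⟨4 * C3 + Cd + 8 * B + 2, by linarith, 2, fun ε hε hε1 => ?_⟩
  set r := 1 / (2 * Real.pi) with hrdef
  have hr0 : 0 < r := by positivity
  have hr : 0 ≤ r := hr0.le
  have hr16 : r ≤ 1 / 6 := by
    rw [hrdef, div_le_div_iff₀ (by positivity) (by norm_num)]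
    linarith
  have hr18 : 1 / 8 ≤ r := by
    rw [hrdef, div_le_div_iff₀ (by norm_num) (by positivity)]
    linarith
  have hr1 : 2 * r ≤ 1 := by linarith
  have hpr : Real.pi * (2 * r) = 1 := by rw [hrdef]; field_simp
  set q := 1 / ε with hq
  have hq1 : 1 ≤ q := by rw [hq, le_div_iff₀ hε]; linarith
  have hq2 : 1 ≤ q ^ 2 := one_le_pow₀ hq1
  have hqε : q * ε = 1 := by rw [hq]; field_simp
  set R := C3 * q ^ 2 with hRdef
  have hR : 1 ≤ R := one_le_mul_of_one_le_of_one_le (by linarith) hq2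
  have hR0 : 0 < R := by linarith
  have hRε : R * ε ^ 2 = C3 := by
    have : R * ε ^ 2 = C3 * (q * ε) ^ 2 := by rw [hRdef]; ring
    rw [this, hqε]; ring
  set e := ε / 16 with he
  have he0 : 0 < e := by positivity
  have hre : 0 ≤ r - e := by rw [he]; linarith
  -- the quotient `B / (R e)`
  have hBRe : B / (R * e) = 16 * B * ε / C3 := by
    rw [div_eq_div_iff (by positivity) (by positivity), ← hRε, he]
    ring
  have hη : B / (R * e) ≤ ε / 50 := by
    rw [hBRe, div_le_iff₀ hC30]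
    have h1 := mul_le_mul_of_nonneg_left hC3B hε.le
    have h2 : 0 ≤ B * ε := mul_nonneg hB00 hε.le
    linarith
  have hη0 : 0 ≤ B / (R * e) := by positivity
  have hq20 : 0 ≤ q ^ 2 := by positivity
  have hfin : ∀ c : ℝ, 0 ≤ c → c ≤ 4 * C3 + Cd + 8 * B + 2 →
      c ≤ (4 * C3 + Cd + 8 * B + 2) * q ^ 2 := by
    intro c hc0 hc
    exact hc.trans (le_mul_of_one_le_right (hc0.trans hc) hq2)
  have hfin2 : ∀ c : ℝ, 0 ≤ c → c ≤ 4 * C3 + Cd + 8 * B + 2 →
      c * q ^ 2 ≤ (4 * C3 + Cd + 8 * B + 2) * q ^ 2 := by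
    intro c hc0 hc
    gcongr
  refine ⟨KB K1 r R hr hR, ?_, ?_, ?_, ?_, ?_, ?_, ?_, ?_, ?_⟩
  · have e1 : 2 * B / (R * e) = 2 * (B / (R * e)) := by ring
    have h1 := KB_m2_lower K1 K1_zero hr hR hB he0 hre (by rw [e1]; linarith)
    rw [e1] at h1
    set η := B / (R * e) with hηdef
    have h2 : (r - e) * (1 - 4 * η) ≤ (r - e) * (1 - 2 * η) ^ 2 := by
      have : 1 - 4 * η ≤ (1 - 2 * η) ^ 2 := by
        have h1 := sq_nonneg η
        linarith
      gcongr
    have h3 : Real.pi * (2 * ((r - e) * (1 - 4 * η))) ≤ Real.pi * (KB K1 r R hr hR).m2 := by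
      gcongr
      linarith
    have h4 : Real.pi * (2 * ((r - e) * (1 - 4 * η)))
        = (Real.pi * (2 * r) - 2 * Real.pi * e) * (1 - 4 * η) := by ring
    rw [h4, hpr] at h3
    have hpe := mul_le_mul_of_nonneg_right hpi4.le hε.le
    have h5 : 2 * Real.pi * e ≤ ε / 2 := by rw [he]; linarith
    have h6 : (1 - ε / 2) * (1 - 4 * η) ≤ (1 - 2 * Real.pi * e) * (1 - 4 * η) := by
      have : 0 ≤ 1 - 4 * η := by linarith
      gcongr
    have h7 : 1 - ε ≤ (1 - ε / 2) * (1 - 4 * η) := by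
      have h8 : (1 - ε / 2) * (1 - 4 * (ε / 50)) ≤ (1 - ε / 2) * (1 - 4 * η) :=
        mul_le_mul_of_nonneg_left (by linarith) (by linarith)
      have h9 : (1 - ε / 2) * (1 - 4 * (ε / 50)) = 1 - ε / 2 - 2 * ε / 25 + ε * ε / 25 := by ring
      have h10 := mul_nonneg hε.le hε.le
      linarith
    linarith
  · have h1 := KB1_m2_upper hr hR hB0.le hB hr1 he0
    have h2 : Real.pi * (KB K1 r R hr hR).m2
        ≤ Real.pi * (2 * ((r + e) + B / (R * e) * (2 + 8 * B))) := by gcongr
    have h3 : Real.pi * (2 * ((r + e) + B / (R * e) * (2 + 8 * B)))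
        = Real.pi * (2 * r) + Real.pi * (2 * e) + Real.pi * (2 * (B / (R * e) * (2 + 8 * B))) := by
      ring
    rw [h3, hpr] at h2
    have hpe := mul_le_mul_of_nonneg_right hpi4.le hε.le
    have h4 : Real.pi * (2 * e) ≤ ε := by rw [he]; linarith
    have h5 : B / (R * e) * (2 + 8 * B) ≤ ε := by
      rw [hBRe, div_mul_eq_mul_div, div_le_iff₀ hC30]
      have : 16 * B * ε * (2 + 8 * B) ≤ ε * (1000 * (B * (B + 1))) := by
        have h6 : 0 ≤ B * ε := mul_nonneg hB00 hε.le
        have h7 : 0 ≤ B * (B * ε) := mul_nonneg hB00 h6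
        linarith
      exact this.trans (mul_le_mul_of_nonneg_left hC3B2 hε.le)
    have h6 : Real.pi * (2 * (B / (R * e) * (2 + 8 * B))) ≤ 4 * (2 * ε) := by gcongr
    linarith
  · intro w
    rw [abs_of_nonneg (KB1_nonneg hr hR w)]
    exact KB1_le_one hr hR w
  · intro w hw
    have h1 : (KB K1 r R hr hR).G w = (KB K1 r R hr hR).G |w| := by
      rcases abs_choice w with h | h
      · rw [h]
      · rw [h, Ker.G_even]
    rw [h1]
    have e1 : (1 + ε) / (2 * Real.pi) = (1 + ε) * r := by rw [hrdef]; ring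
    rw [e1] at hw
    have hw0 : r < |w| := by
      have h1 := mul_pos hε hr0
      linarith
    have h2 := KB_far K1 hr hR hB hw0
    refine h2.trans ?_
    have h3 : |w| * ε / 2 ≤ |w| - r := by
      have h1 : (1 + ε) * (|w| - r) ≤ 2 * (|w| - r) :=
        mul_le_mul_of_nonneg_right (by linarith) (by linarith)
      linarith
    have hwp : 0 < |w| := by linarith
    rw [div_le_div_iff₀ (mul_pos hR0 (by linarith)) hwp]
    have h4 : ε * (R * (|w| * ε / 2)) ≤ ε * (R * (|w| - r)) := by gcongr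
    have h5 : ε * (R * (|w| * ε / 2)) = C3 * |w| / 2 := by rw [← hRε]; ring
    rw [h5] at h4
    have h6 := mul_le_mul_of_nonneg_right hC3B hwp.le
    have h7 := mul_nonneg hB00 hwp.le
    linarith
  · change 4 * R ≤ _
    rw [hRdef, ← mul_assoc]
    exact hfin2 _ (by positivity) (by linarith)
  · refine (KB_ml K1 hr hR).trans ?_
    rw [K1_M, one_mul]
    change 4 * (4 * R) * r ≤ _
    have h1 : 4 * (4 * R) * r ≤ 4 * C3 * q ^ 2 := by
      have : 4 * (4 * R) * r ≤ 4 * (4 * R) * (1 / 6) := by gcongr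
      rw [mul_assoc 4 C3, ← hRdef]
      linarith
    exact h1.trans (hfin2 _ (by positivity) (by linarith))
  · refine (KB_B1 K1 hr hR).trans ?_
    rw [K1_M, mul_one]
    exact hfin _ (by norm_num) (by linarith)
  · intro v
    exact (hd r R hr hR hr1 v).trans (hfin _ hCd (by linarith))
  · intro w hw
    refine (KB_decay K1 hr hR hB0.le hB hr1 hw).trans ?_
    rw [K1_M]
    have := hfin (1 + 8 * B) (by positivity) (by linarith)
    gcongr

end Pool.Agent.Lib.MP_f9aece_nt_r3
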