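import Mathlib
import Pool.Agent.Lib.MP_f9aece_nt_h85.Kernel2

/-!
Tools for the lower bound of the twisted second moment: Plancherel with equality on the half line,
explicit bounds for the Mellin transform of the bump, and a dyadic tail bound.
-/

set_option autoImplicit false

namespace Pool.Agent.Lib.MP_f9aece_nt_r3

open MeasureTheory Set Filter Topology Complex FourierTransform
open scoped ENNReal ContDiff SchwartzMap ComplexConjugate
open Pool.Agent.Lib.MP_f9aece_nt_h97
open Pool.Agent.Lib.MP_f9aece_nt_h97.Ker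
open Pool.Agent.Lib.MP_f9aece_nt_h85 (cexp_sub_bound2)

/-- Plancherel with equality on the half line -/
theorem mellin_plancherel_eq {f : ℝ → ℝ}
    (h1 : IntegrableOn (fun x => x ^ (-(1 / 2) : ℝ) * f x) (Ioi 0))
    (h2 : IntegrableOn (fun x => f x ^ 2) (Ioi 0)) :
    IntegrableOn (fun t : ℝ => ‖mellin (fun x => (f x : ℂ)) (1 / 2 + I * t)‖ ^ 2) (Ioi 0) ∧
    ∫ t in Ioi (0 : ℝ), ‖mellin (fun x => (f x : ℂ)) (1 / 2 + I * t)‖ ^ 2
      = Real.pi * ∫ x in Ioi (0 : ℝ), f x ^ 2 := by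
  set g : ℝ → ℝ := fun u => Real.exp (-(1 / 2) * u) * f (Real.exp (-u)) with hg
  have e1 : ∀ u : ℝ, Real.exp (-u) • ((Real.exp (-u)) ^ (-(1 / 2) : ℝ) * f (Real.exp (-u))) = g u := by
    intro u
    rw [smul_eq_mul, ← Real.exp_mul, ← mul_assoc, ← Real.exp_add, hg]
    congr 2
    ring
  have e2 : ∀ u : ℝ, Real.exp (-u) • (f (Real.exp (-u)) ^ 2) = g u ^ 2 := by
    intro u
    rw [smul_eq_mul, hg]
    simp only
    rw [mul_pow, ← Real.exp_nat_mul]
    congr 2
    push_cast
    ring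
  have hgi : Integrable g := by
    have := (integrableOn_exp_iff _).mp h1
    simp_rw [e1] at this
    exact this
  have hg2 : Integrable (fun u => g u ^ 2) := by
    have := (integrableOn_exp_iff _).mp h2
    simp_rw [e2] at this
    exact this
  have hgc : Integrable (fun u => (g u : ℂ)) := hgi.ofReal
  have hgm : MemLp (fun u => (g u : ℂ)) 2 := by
    rw [memLp_two_iff_integrable_sq_norm hgc.aestronglyMeasurable]
    simpa using hg2
  obtain ⟨hm, hp⟩ := plancherel_integral hgc hgm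
  set F : ℝ → ℂ := 𝓕 (fun u => (g u : ℂ)) with hF
  have e3 : ∀ t : ℝ, mellin (fun x => (f x : ℂ)) (1 / 2 + I * t) = F (t / (2 * Real.pi)) := by
    intro t
    rw [mellin_eq_fourier]
    have r1 : (1 / 2 + I * t : ℂ).re = 1 / 2 := by simp
    have r2 : (1 / 2 + I * t : ℂ).im = t := by simp
    rw [r1, r2, hF]
    have e4 : (fun u : ℝ => Real.exp (-(1 / 2) * u) • ((f (Real.exp (-u)) : ℝ) : ℂ))
        = fun u => (g u : ℂ) := by
      funext u
      rw [hg]
      simp only [Complex.real_smul]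
      push_cast
      ring
    rw [e4]
  have hsq : Integrable (fun v => ‖F v‖ ^ 2) := by
    have := (memLp_two_iff_integrable_sq_norm hm.1).mp hm
    exact this
  simp_rw [e3]
  have h2pi : (0 : ℝ) < 2 * Real.pi := by positivity
  refine ⟨?_, ?_⟩
  · exact (hsq.comp_div h2pi.ne').integrableOn
  have s1 : ∫ t in Ioi (0 : ℝ), ‖F (t / (2 * Real.pi))‖ ^ 2
      = (2 * Real.pi) * ∫ v in Ioi (0 : ℝ), ‖F v‖ ^ 2 := by
    have h := integral_comp_mul_left_Ioi (fun v => ‖F v‖ ^ 2) 0 (inv_pos.mpr h2pi)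
    rw [mul_zero, inv_inv, smul_eq_mul] at h
    rw [← h]
    refine setIntegral_congr_fun measurableSet_Ioi fun t _ => ?_
    rw [div_eq_inv_mul]
  have hsym : ∀ v, ‖F (-v)‖ ^ 2 = ‖F v‖ ^ 2 := by
    intro v
    rw [hF, fourier_conj_neg, RCLike.norm_conj]
  have s3 : ∫ v : ℝ, ‖F v‖ ^ 2 = 2 * ∫ v in Ioi (0 : ℝ), ‖F v‖ ^ 2 := by
    have h5 := integral_comp_abs (f := fun v => ‖F v‖ ^ 2)
    rw [← h5]
    refine integral_congr_ae (Eventually.of_forall fun v => ?_)
    simp only
    rcases abs_cases v with ⟨h, _⟩ | ⟨h, _⟩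
    · rw [h]
    · rw [h, hsym]
  have s4 : ∫ x in Ioi (0 : ℝ), f x ^ 2 = ∫ u, ‖(g u : ℂ)‖ ^ 2 := by
    rw [integral_exp_eq]
    simp_rw [e2]
    refine integral_congr_ae (Eventually.of_forall fun v => ?_)
    simp
  rw [s1, s4, ← hp, s3]
  ring

lemma norm_int_E' (K : Ker) (u : ℝ) :
    ‖∫ v : ℝ, cexp (I * (u * v : ℝ)) * (K.g v : ℂ)‖ = |K.G (u / (2 * Real.pi))| := by
  have hpi := Real.pi_pos
  have h1 := K.fourier_eq' (-(u / (2 * Real.pi)))
  rw [Real.fourier_real_eq_integral_exp_smul] at h1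
  have h2 : ∀ v : ℝ, cexp (↑(-2 * Real.pi * v * -(u / (2 * Real.pi))) * I) • (K.g v : ℂ)
      = cexp (I * (u * v : ℝ)) * (K.g v : ℂ) := by
    intro v
    rw [smul_eq_mul]
    congr 2
    rw [mul_comm I]
    congr 2
    field_simp
  simp_rw [h2] at h1
  rw [h1, Complex.norm_real, Real.norm_eq_abs, K.G_even]

/-- upper bound in the range `0 ≤ t ≤ U T`, with the transform itself -/
lemma mellin_upper_mid (K : Ker) {T t U : ℝ} (hU : 1 ≤ U) (hT : 4 * U * K.L ^ 2 ≤ T) (ht0 : 0 ≤ t)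
    (htT : t ≤ U * T) :
    T * ‖mellin (fun x => (K.phi T x : ℂ)) (1 / 2 + I * t)‖
      ≤ |K.G (t / T / (2 * Real.pi))| + 4 * U * K.L ^ 2 / T * K.ml := by
  have hL := K.hL
  have hL2 : 1 ≤ K.L ^ 2 := by nlinarith
  have hT0 : 0 < T := by nlinarith
  have hT2 : 2 * K.L ≤ T := by nlinarith
  have h1 := K.mellin_phi hT2 (1 / 2 + I * t)
  set F : ℝ → ℂ := fun v => ((1 + v / T : ℝ) : ℂ) ^ (1 / 2 + I * t - 1 : ℂ) * (K.g v : ℂ) with hF
  set E : ℝ → ℂ := fun v => cexp (I * (t / T * v : ℝ)) * (K.g v : ℂ) with hE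
  have hEi : Integrable E := by
    have hc : Continuous E := by
      rw [hE]
      exact (by fun_prop : Continuous fun v : ℝ => cexp (I * (t / T * v : ℝ))).mul
        (Complex.continuous_ofReal.comp K.cont)
    refine hc.integrable_of_hasCompactSupport ?_
    refine HasCompactSupport.mul_left ?_
    exact K.csC
  have hdb : ∀ v, ‖F v - E v‖ ≤ 4 * U * K.L ^ 2 / T * |K.g v| := by
    intro v
    by_cases hv : K.g v = 0
    · simp [hF, hE, hv]
    · have hv2 := K.supp v hv
      have := cexp_sub_bound2 hL hU hT hv2 ht0 htT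
      have e1 : F v - E v = (((1 + v / T : ℝ) : ℂ) ^ (1 / 2 + I * t - 1 : ℂ)
          - cexp (I * (t / T * v : ℝ))) * (K.g v : ℂ) := by
        rw [hF, hE]; ring
      rw [e1, norm_mul, Complex.norm_real, Real.norm_eq_abs]
      gcongr
  have hdi : Integrable (fun v => 4 * U * K.L ^ 2 / T * |K.g v|) := K.integrable.abs.const_mul _
  have hFm : AEStronglyMeasurable F volume := by
    rw [hF]
    refine AEStronglyMeasurable.mul ?_ (Complex.continuous_ofReal.comp K.cont).aestronglyMeasurable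
    refine Measurable.aestronglyMeasurable ?_
    refine Measurable.pow_const ?_ _
    fun_prop
  have hFE : Integrable (fun v => F v - E v) :=
    Integrable.mono' hdi (hFm.sub hEi.1) (Eventually.of_forall hdb)
  have hFi : Integrable F := by
    have := hFE.add hEi
    refine this.congr (Eventually.of_forall fun v => ?_)
    simp
  have h3 : ‖(∫ v, F v) - ∫ v, E v‖ ≤ 4 * U * K.L ^ 2 / T * K.ml := by
    rw [← integral_sub hFi hEi]
    refine (norm_integral_le_of_norm_le hdi (Eventually.of_forall hdb)).trans (le_of_eq ?_)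
    rw [integral_const_mul]
    rfl
  have h4 : ‖∫ v, E v‖ = |K.G (t / T / (2 * Real.pi))| := norm_int_E' K (t / T)
  have h5 : ‖∫ v, F v‖ ≤ |K.G (t / T / (2 * Real.pi))| + 4 * U * K.L ^ 2 / T * K.ml := by
    have := norm_sub_norm_le (∫ v, F v) (∫ v, E v)
    linarith
  rw [← h1, norm_mul, Complex.norm_real, Real.norm_eq_abs, abs_of_pos hT0] at h5
  exact h5

/-- decay of the transform, explicit constant -/
lemma mellin_upper_far (K : Ker) {D : ℝ} (hD' : ∀ v, |deriv K.g v| ≤ D) {T : ℝ}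
    (hT : 2 * (K.L + 1) ≤ T) {t : ℝ} (ht : 0 < t) :
    T * ‖mellin (fun x => (K.phi T x : ℂ)) (1 / 2 + I * t)‖ ≤ 4 * D * (K.L + 1) * (T / t) := by
  have hL := K.hL
  set R := K.L + 1 with hR
  have hdc : Continuous (deriv K.g) := K.smooth.continuous_deriv (by simp)
  have hD0 : 0 ≤ D := (abs_nonneg _).trans (hD' 0)
  have hT0 : 0 < T := by linarith
  have h1 := K.mellin_phi (by linarith : 2 * K.L ≤ T) (1 / 2 + I * t)
  set r : ℂ := 1 / 2 + I * t - 1 with hr
  have hr1 : r + 1 = 1 / 2 + I * t := by rw [hr]; ring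
  have hrre : (r + 1).re = 1 / 2 := by rw [hr1]; simp
  have hrim : (r + 1).im = t := by rw [hr1]; simp
  have hr0 : r + 1 ≠ 0 := by
    intro h
    rw [h] at hrre
    norm_num at hrre
  have hrn : r ≠ -1 := by
    intro h
    apply hr0
    rw [h]; ring
  have hpos : ∀ v ∈ uIcc (-R) R, 0 < 1 + v / T ∧ 1 + v / T ≤ 2 := by
    intro v hv
    rw [uIcc_of_le (by linarith)] at hv
    have h2 : v / T ≤ 1 / 2 := by rw [div_le_iff₀ hT0]; linarith [hv.2]
    have h3 : -(1 / 2) ≤ v / T := by rw [le_div_iff₀ hT0]; linarith [hv.1]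
    constructor <;> linarith
  set P : ℝ → ℂ := fun v => (T : ℂ) * ((((1 + v / T : ℝ) : ℂ)) ^ (r + 1) / (r + 1)) with hP
  have hPd : ∀ v ∈ uIcc (-R) R, HasDerivAt P (((1 + v / T : ℝ) : ℂ) ^ r) v := by
    intro v hv
    have h2 := hasDerivAt_ofReal_cpow_const' (hpos v hv).1.ne' hrn
    have h3 : HasDerivAt (fun v : ℝ => 1 + v / T) (1 / T) v := by
      have := ((hasDerivAt_id v).div_const T).const_add 1
      simpa using this
    have h4 := (h2.scomp v h3).const_mul (T : ℂ)
    have hTne : (T : ℂ) ≠ 0 := by exact_mod_cast hT0.ne'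
    refine h4.congr_deriv ?_
    rw [Complex.real_smul]
    push_cast
    field_simp
  have hgd : ∀ v ∈ uIcc (-R) R, HasDerivAt (fun v => (K.g v : ℂ)) ((deriv K.g v : ℝ) : ℂ) v := by
    intro v _
    have : DifferentiableAt ℝ K.g v := (K.smooth.differentiable (by simp)) v
    exact this.hasDerivAt.ofReal_comp
  have hPc : ContinuousOn (fun v : ℝ => ((1 + v / T : ℝ) : ℂ) ^ r) (uIcc (-R) R) := by
    intro v hv
    have h2 : ContinuousAt (fun v : ℝ => ((1 + v / T : ℝ) : ℂ) ^ r) v := by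
      refine ContinuousAt.cpow (by fun_prop) continuousAt_const ?_
      left
      rw [Complex.ofReal_re]
      exact (hpos v hv).1
    exact h2.continuousWithinAt
  have hibp := intervalIntegral.integral_mul_deriv_eq_deriv_mul (a := -R) (b := R) hgd hPd
    ((Complex.continuous_ofReal.comp hdc).intervalIntegrable _ _) hPc.intervalIntegrable
  have hgR : K.g R = 0 := K.zero_of (by rw [abs_of_pos (by linarith)]; linarith)
  have hgR' : K.g (-R) = 0 := by rw [K.even]; exact hgR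
  simp only [hgR, hgR', Complex.ofReal_zero, zero_mul, sub_zero, zero_sub] at hibp
  have h5 : ∫ v : ℝ, ((1 + v / T : ℝ) : ℂ) ^ r * (K.g v : ℂ)
      = ∫ v in (-R)..R, (K.g v : ℂ) * ((1 + v / T : ℝ) : ℂ) ^ r := by
    rw [← intervalIntegral.integral_eq_integral_of_support_subset (a := -R) (b := R)]
    · refine intervalIntegral.integral_congr fun v _ => ?_
      ring
    · intro v hv
      rw [Function.mem_support] at hv
      have h6 : K.g v ≠ 0 := by
        intro h0
        apply hv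
        rw [h0]; simp
      have := abs_le.mp (K.supp v h6)
      constructor <;> linarith
  rw [h5, hibp] at h1
  have h7 : ‖∫ v in (-R)..R, ((deriv K.g v : ℝ) : ℂ) * P v‖ ≤ (D * (2 * (T / t))) * |R - -R| := by
    refine intervalIntegral.norm_integral_le_of_norm_le_const fun v hv => ?_
    have hv' : v ∈ uIcc (-R) R := uIoc_subset_uIcc hv
    have hv2 := hpos v hv'
    rw [norm_mul, Complex.norm_real]
    have h8 : ‖deriv K.g v‖ ≤ D := hD' v
    have h9 : ‖P v‖ ≤ 2 * (T / t) := by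
      rw [hP]
      simp only
      rw [norm_mul, norm_div, Complex.norm_real, Real.norm_eq_abs, abs_of_pos hT0,
        Complex.norm_cpow_eq_rpow_re_of_pos hv2.1, hrre]
      have h10 : (1 + v / T) ^ (1 / 2 : ℝ) ≤ 2 := by
        calc (1 + v / T) ^ (1 / 2 : ℝ) ≤ 2 ^ (1 / 2 : ℝ) :=
              Real.rpow_le_rpow hv2.1.le hv2.2 (by norm_num)
          _ ≤ 2 ^ (1 : ℝ) := Real.rpow_le_rpow_of_exponent_le (by norm_num) (by norm_num)
          _ = 2 := by norm_num
      have h11 : t ≤ ‖r + 1‖ := by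
        have := Complex.abs_im_le_norm (r + 1)
        rw [hrim, abs_of_pos ht] at this
        exact this
      calc T * ((1 + v / T) ^ (1 / 2 : ℝ) / ‖r + 1‖) ≤ T * (2 / t) := by gcongr
        _ = _ := by ring
    gcongr
  have h12 := congrArg norm h1
  rw [norm_mul, Complex.norm_real, Real.norm_eq_abs, abs_of_pos hT0, norm_neg] at h12
  rw [h12]
  refine h7.trans (le_of_eq ?_)
  have : R - -R = 2 * R := by ring
  rw [this, abs_of_pos (by linarith : (0 : ℝ) < 2 * R)]
  ring

lemma sum_half_le (n : ℕ) : ∑ k ∈ Finset.range n, ((k : ℝ) + 1) / 2 ^ k ≤ 4 := by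
  have h : ∑ k ∈ Finset.range n, ((k : ℝ) + 1) / 2 ^ k = 4 - (2 * n + 4) / 2 ^ n := by
    induction n with
    | zero => norm_num
    | succ n ih =>
      rw [Finset.sum_range_succ, ih]
      push_cast
      field_simp
      ring
  rw [h]
  have : (0 : ℝ) ≤ (2 * n + 4) / 2 ^ n := by positivity
  linarith

/-- dyadic bound of a weighted tail -/
lemma tail_bound {F W : ℝ → ℝ} {T κ M : ℝ} (hT : 0 < T) (hκ : 0 ≤ κ) (hM : 0 ≤ M)
    (hF0 : ∀ t, 0 ≤ F t) (hFc : Continuous F)
    (hint : IntegrableOn (fun t => F t * W t) (Ioi T))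
    (hJ : ∀ k : ℕ, ∫ t in (0 : ℝ)..(4 ^ (k + 1) * T), F t ≤ 4 ^ (k + 1) * T * ((k + 1) * M))
    (hW : ∀ k : ℕ, ∀ t ∈ Ioc (4 ^ k * T) (4 ^ (k + 1) * T), W t ≤ κ / 8 ^ k) :
    ∫ t in Ioi T, F t * W t ≤ 16 * κ * T * M := by
  have hmono : ∀ k : ℕ, 4 ^ k * T ≤ 4 ^ (k + 1) * T := fun k => by
    gcongr
    · norm_num
    · omega
  have h1 : ∀ k : ℕ, T ≤ 4 ^ k * T := fun k => by
    have : (1 : ℝ) ≤ 4 ^ k := one_le_pow₀ (by norm_num)
    nlinarith
  have hii : ∀ k : ℕ, IntervalIntegrable (fun t => F t * W t) volume (4 ^ k * T) (4 ^ (k + 1) * T) := by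
    intro k
    rw [intervalIntegrable_iff_integrableOn_Ioc_of_le (hmono k)]
    exact hint.mono_set fun t ht => lt_of_le_of_lt (h1 k) ht.1
  have hblock : ∀ k : ℕ, ∫ t in (4 ^ k * T)..(4 ^ (k + 1) * T), F t * W t
      ≤ 4 * κ * T * M * (((k : ℝ) + 1) / 2 ^ k) := by
    intro k
    have s1 : ∫ t in (4 ^ k * T)..(4 ^ (k + 1) * T), F t * W t
        ≤ ∫ t in (4 ^ k * T)..(4 ^ (k + 1) * T), F t * (κ / 8 ^ k) := by
      rw [intervalIntegral.integral_of_le (hmono k), intervalIntegral.integral_of_le (hmono k)]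
      refine setIntegral_mono_on ?_ ?_ measurableSet_Ioc fun t ht => ?_
      · exact hint.mono_set fun t ht => lt_of_le_of_lt (h1 k) ht.1
      · exact ((hFc.mul continuous_const).integrableOn_Icc).mono_set Ioc_subset_Icc_self
      · exact mul_le_mul_of_nonneg_left (hW k t ht) (hF0 t)
    rw [intervalIntegral.integral_mul_const] at s1
    have s2 : ∫ t in (4 ^ k * T)..(4 ^ (k + 1) * T), F t ≤ ∫ t in (0 : ℝ)..(4 ^ (k + 1) * T), F t := by
      refine intervalIntegral.integral_mono_interval (by positivity) (hmono k) le_rfl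
        (Eventually.of_forall fun t => hF0 t) (hFc.intervalIntegrable _ _)
    have s3 := s2.trans (hJ k)
    have s4 : (∫ t in (4 ^ k * T)..(4 ^ (k + 1) * T), F t) * (κ / 8 ^ k)
        ≤ 4 ^ (k + 1) * T * ((k + 1) * M) * (κ / 8 ^ k) := by
      gcongr
    refine (s1.trans s4).trans (le_of_eq ?_)
    have e8 : (8 : ℝ) ^ k = 4 ^ k * 2 ^ k := by rw [← mul_pow]; norm_num
    rw [e8, pow_succ]
    field_simp
  have hfin : ∀ n : ℕ, ∫ t in T..(4 ^ n * T), F t * W t ≤ 16 * κ * T * M := by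
    intro n
    have h := intervalIntegral.sum_integral_adjacent_intervals (f := fun t => F t * W t)
      (a := fun k : ℕ => 4 ^ k * T) (n := n) (μ := volume) fun k _ => hii k
    simp only [pow_zero, one_mul] at h
    rw [← h]
    calc ∑ k ∈ Finset.range n, ∫ t in (4 ^ k * T)..(4 ^ (k + 1) * T), F t * W t
        ≤ ∑ k ∈ Finset.range n, 4 * κ * T * M * (((k : ℝ) + 1) / 2 ^ k) :=
          Finset.sum_le_sum fun k _ => hblock k
      _ = 4 * κ * T * M * ∑ k ∈ Finset.range n, ((k : ℝ) + 1) / 2 ^ k := by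
          rw [Finset.mul_sum]
      _ ≤ 4 * κ * T * M * 4 := by
          gcongr
          exact sum_half_le n
      _ = _ := by ring
  have hlim := intervalIntegral_tendsto_integral_Ioi (f := fun t => F t * W t) (μ := volume)
    (b := fun n : ℕ => 4 ^ n * T) (l := atTop) T hint ?_
  · exact le_of_tendsto' hlim hfin
  · exact (tendsto_pow_atTop_atTop_of_one_lt (by norm_num : (1 : ℝ) < 4)).atTop_mul_const hT

end Pool.Agent.Lib.MP_f9aece_nt_r3
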