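import Mathlib
import Pool.Agent.Lib.MP_f9aece_nt_rt.TsmRate
import Pool.Agent.Lib.MP_f9aece_nt_rt.ExplicitLower
import Pool.Agent.Lib.MP_f9aece_nt_r3.LowerTools
import Pool.Agent.Lib.MP_f9aece_nt_r3.KernelPos

/-!
The twisted second moment of zeta: a lower bound with the sharp leading constant and polynomial
dependence on `ε`.
-/

set_option autoImplicit false

namespace Pool.Agent.Lib.MP_f9aece_nt_r3

open MeasureTheory Set Filter Topology Complex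
open Pool.Agent.Lib.MP_f9aece_nt
open Pool.Agent.Lib.MP_f9aece_nt_h97
open Pool.Agent.Lib.MP_f9aece_nt_rt (CT CT_nonneg CT_le tsm_rate)

lemma tl_le_sq {U : ℝ} (h : 1 ≤ U) : U ≤ U ^ 2 := by
  rw [pow_two]
  exact le_mul_of_one_le_left (by linarith) h

lemma tl_pos {a T e : ℝ} (ha : 0 < a) (he : 0 < e) (h : a ≤ T * e) : 0 < T := by
  by_contra hc
  have : T * e ≤ 0 := mul_nonpos_of_nonpos_of_nonneg (not_lt.mp hc) he.le
  linarith

lemma tl_b {B U : ℝ} (hB : 1 ≤ B) (hU : 1 ≤ U) : 4 * B ≤ 4 * U * B ^ 2 := by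
  have h1 := tl_le_sq hB
  have h2 := le_mul_of_one_le_left (sq_nonneg B) hU
  have e : 4 * U * B ^ 2 = 4 * (U * B ^ 2) := by ring
  rw [e]
  linarith

lemma tl_u {B U : ℝ} (hU : 1 ≤ U) (hB : 1 ≤ B) : 4 * U ≤ 4 * U ^ 2 * B := by
  have h1 := tl_le_sq hU
  have h2 := le_mul_of_one_le_right (sq_nonneg U) hB
  have e : 4 * U ^ 2 * B = 4 * (U ^ 2 * B) := by ring
  rw [e]
  linarith

lemma tl_one {a b : ℝ} (ha : 1 ≤ a) (hb : 1 ≤ b) : 1 ≤ a * b := by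
  have := mul_le_mul ha hb zero_le_one (by linarith)
  linarith

lemma tl_bl {B L : ℝ} (hB : 0 ≤ B) (h : L + 1 ≤ 2 * B) : 4 * B * (L + 1) ≤ 8 * B ^ 2 := by
  have h1 := mul_le_mul_of_nonneg_left h (by linarith : 0 ≤ 4 * B)
  have e : 4 * B * (2 * B) = 8 * B ^ 2 := by ring
  rwa [e] at h1

lemma tl_e {e : ℝ} (he : 0 ≤ e) (he1 : e ≤ 1 / 1000) :
    (1 + e) ^ 3 - 1 ≤ 4 * e ∧ 0 ≤ (1 + e) ^ 3 - 1 ∧ e * (1024 * e * (1 + e)) ≤ 4 * e := by
  have h2 : e ^ 2 ≤ e / 1000 := by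
    have := mul_le_mul_of_nonneg_right he1 he
    rw [pow_two]; linarith
  have h20 : 0 ≤ e ^ 2 := sq_nonneg e
  have h3 : e ^ 3 ≤ e / 1000 := by
    have := mul_le_mul_of_nonneg_right he1 h20
    have e3 : e ^ 3 = e * e ^ 2 := by ring
    rw [e3]; linarith
  have h30 : 0 ≤ e ^ 3 := pow_nonneg he 3
  have e1 : (1 + e) ^ 3 - 1 = 3 * e + 3 * e ^ 2 + e ^ 3 := by ring
  have e2 : e * (1024 * e * (1 + e)) = 1024 * e ^ 2 + 1024 * e ^ 3 := by ring
  rw [e1, e2]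
  refine ⟨by linarith, by linarith, by linarith⟩

lemma tl_pe {P e : ℝ} (he : 0 ≤ e) (he1 : e ≤ 1 / 1000) (h : P ≤ 1 + 50 * e) : P * e ≤ 1 := by
  have h1 := mul_le_mul_of_nonneg_right (show P ≤ 2 by linarith) he
  linarith

lemma weighted_eq (K : Ker) {T : ℝ} (hT : 2 * K.L ≤ T) {D : DP} (hD : ∀ n, D.coeff n ≠ 0 → 1 ≤ n) :
    IntegrableOn (fun t : ℝ => ‖riemannZeta (1 / 2 + I * t) * ev t D‖ ^ 2
        * ‖mellin (fun x => (K.phi T x : ℂ)) (1 / 2 + I * t)‖ ^ 2) (Ioi 0) ∧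
    ∫ t in Ioi (0 : ℝ), ‖riemannZeta (1 / 2 + I * t) * ev t D‖ ^ 2
        * ‖mellin (fun x => (K.phi T x : ℂ)) (1 / 2 + I * t)‖ ^ 2
      = Real.pi * ∫ x in Ioi (0 : ℝ), QQ (K.phi T) D x ^ 2 := by
  obtain ⟨h1, h2⟩ := mellin_plancherel_eq (K.QQ_int1 hT hD) (K.QQ_int2 hT hD)
  have e : ∀ t ∈ Ioi (0 : ℝ), ‖mellin (fun x => (QQ (K.phi T) D x : ℂ)) (1 / 2 + I * t)‖ ^ 2
      = ‖riemannZeta (1 / 2 + I * t) * ev t D‖ ^ 2
        * ‖mellin (fun x => (K.phi T x : ℂ)) (1 / 2 + I * t)‖ ^ 2 := by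
    intro t ht
    rw [K.mellin_QQ hT hD ht, norm_mul, norm_mul, norm_mul]
    ring
  refine ⟨IntegrableOn.congr_fun h1 e measurableSet_Ioi, ?_⟩
  rw [← h2]
  exact setIntegral_congr_fun measurableSet_Ioi fun t ht => (e t ht).symm

/-- the weight beyond `T` -/
lemma weight_far {e B U T1 : ℝ} (he : 0 < e) (he1 : e ≤ 1) (K : Ker)
    (k4 : ∀ w, (1 + e) / (2 * Real.pi) ≤ |w| → |K.G w| ≤ e / |w|)
    (hB : 1 ≤ B) (hL : K.L ≤ B) (hml : K.ml ≤ B) (hd : ∀ v, |deriv K.g v| ≤ B)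
    (hU : U = (8 * B ^ 2 / e) ^ 4) (hT1 : 4 * U ^ 2 * B ^ 3 / e ≤ T1) (k : ℕ) {t : ℝ}
    (ht : 4 ^ k * ((1 + e) * T1) ≤ t) :
    ‖mellin (fun x => (K.phi T1 x : ℂ)) (1 / 2 + I * t)‖ ^ 2 ≤ 64 * e ^ 2 / T1 ^ 2 / 8 ^ k := by
  have hpi := Real.pi_pos
  have hpi4 : Real.pi ≤ 3.15 := Real.pi_lt_d2.le
  have hKL := K.hL
  have hml0 := K.ml_nonneg
  have hB0 : 0 < B := by linarith
  have hBB : 1 ≤ B ^ 2 := one_le_pow₀ hB
  have hq : 1 ≤ 8 * B ^ 2 / e := by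
    rw [le_div_iff₀ he]; linarith
  have hU1 : 1 ≤ U := by rw [hU]; exact one_le_pow₀ hq
  have hU0 : 0 < U := by linarith
  have hUU : U ≤ U ^ 2 := tl_le_sq hU1
  have hB3 : B ^ 2 ≤ B ^ 3 := pow_le_pow_right₀ hB (by norm_num)
  have hT1' : 4 * U ^ 2 * B ^ 3 ≤ T1 * e := by
    rwa [div_le_iff₀ he] at hT1
  have hT0 : 0 < T1 := by
    have : 0 < 4 * U ^ 2 * B ^ 3 := by positivity
    exact tl_pos this he hT1'
  have hT1e : T1 * e ≤ T1 := mul_le_of_le_one_right hT0.le he1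
  have hTu : 4 * U * K.L ^ 2 ≤ T1 := by
    calc 4 * U * K.L ^ 2 ≤ 4 * U ^ 2 * B ^ 2 := by gcongr
      _ ≤ 4 * U ^ 2 * B ^ 3 := by gcongr
      _ ≤ T1 := hT1'.trans hT1e
  have hTL : 2 * (K.L + 1) ≤ T1 := by
    calc 2 * (K.L + 1) ≤ 4 * B := by linarith
      _ ≤ 4 * U * B ^ 2 := tl_b hB hU1
      _ ≤ 4 * U ^ 2 * B ^ 3 := by gcongr
      _ ≤ T1 := hT1'.trans hT1e
  have h4k : (1 : ℝ) ≤ 4 ^ k := one_le_pow₀ (by norm_num)
  have htT : 4 ^ k * T1 ≤ t := by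
    refine le_trans ?_ ht
    gcongr
    exact le_mul_of_one_le_left hT0.le (by linarith)
  have ht0 : 0 < t := by
    have : 0 < 4 ^ k * T1 := by positivity
    linarith
  set m := ‖mellin (fun x => (K.phi T1 x : ℂ)) (1 / 2 + I * t)‖ with hm
  have hm0 : 0 ≤ m := norm_nonneg _
  set x := T1 / t with hx
  have hx0 : 0 < x := by positivity
  have hxk : x ≤ 1 / 4 ^ k := by
    rw [hx, div_le_div_iff₀ ht0 (by positivity)]
    linarith
  have key : (T1 * m) ^ 2 ≤ 64 * e ^ 2 / 8 ^ k := by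
    rcases le_or_gt t (U * T1) with h | h
    · have h1 := mellin_upper_mid K hU1 hTu ht0.le h
      rw [← hm] at h1
      have hw : (1 + e) / (2 * Real.pi) ≤ |t / T1 / (2 * Real.pi)| := by
        rw [abs_of_pos (by positivity)]
        gcongr
        rw [le_div_iff₀ hT0]
        refine le_trans ?_ ht
        exact le_mul_of_one_le_left (mul_nonneg (by linarith) hT0.le) h4k
      have h2 := k4 _ hw
      rw [abs_of_pos (by positivity : 0 < t / T1 / (2 * Real.pi))] at h2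
      have e2 : e / (t / T1 / (2 * Real.pi)) = 2 * Real.pi * (e * x) := by
        rw [hx]; field_simp
      rw [e2] at h2
      have h3 : 4 * U * K.L ^ 2 / T1 * K.ml ≤ e * x := by
        have a1 : 4 * U * K.L ^ 2 / T1 * K.ml ≤ 4 * U * B ^ 2 / T1 * B := by gcongr
        have a2 : 4 * U * B ^ 2 / T1 * B ≤ e / U := by
          rw [div_mul_eq_mul_div, div_le_div_iff₀ hT0 hU0]
          calc 4 * U * B ^ 2 * B * U = 4 * U ^ 2 * B ^ 3 := by ring
            _ ≤ e * T1 := by linarith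
        have a3 : e / U ≤ e * x := by
          rw [hx, div_eq_mul_inv]
          gcongr
          rw [inv_le_iff_one_le_mul₀ hU0, div_mul_eq_mul_div, le_div_iff₀ ht0]
          linarith
        linarith
      have h4 : T1 * m ≤ 8 * (e * x) := by
        have h0 : 0 ≤ e * x := by positivity
        have h9 := mul_le_mul_of_nonneg_right hpi4 h0
        have h10 : 2 * Real.pi * (e * x) = 2 * (Real.pi * (e * x)) := by ring
        rw [h10] at h2
        linarith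
      have h5 : (T1 * m) ^ 2 ≤ (8 * (e * (1 / 4 ^ k))) ^ 2 :=
        pow_le_pow_left₀ (by positivity) (h4.trans (by gcongr)) 2
      refine h5.trans ?_
      have e3 : (8 * (e * (1 / 4 ^ k))) ^ 2 = 64 * e ^ 2 / 8 ^ k * (1 / 2 ^ k) := by
        have e16 : ((4 : ℝ) ^ k) ^ 2 = 8 ^ k * 2 ^ k := by
          rw [← mul_pow, ← pow_mul, mul_comm k 2, pow_mul]; norm_num
        rw [mul_pow, mul_pow, div_pow, e16, one_pow]
        field_simp
        norm_num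
      rw [e3]
      have h6 : (1 : ℝ) / 2 ^ k ≤ 1 := by
        rw [div_le_one (by positivity)]
        exact one_le_pow₀ (by norm_num)
      exact mul_le_of_le_one_right (by positivity) h6
    · have h1 := mellin_upper_far K hd hTL ht0
      rw [← hm, ← hx] at h1
      have h2 : T1 * m ≤ 8 * B ^ 2 * x := by
        refine h1.trans ?_
        have : 4 * B * (K.L + 1) ≤ 8 * B ^ 2 := tl_bl hB0.le (by linarith)
        gcongr
      -- `y = sqrt x`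
      set y := √x with hy
      have hy0 : 0 ≤ y := Real.sqrt_nonneg _
      have hyx : y ^ 2 = x := Real.sq_sqrt hx0.le
      have hy1 : y ≤ 1 / 2 ^ k := by
        rw [hy, Real.sqrt_le_iff]
        refine ⟨by positivity, ?_⟩
        have : ((1 : ℝ) / 2 ^ k) ^ 2 = 1 / 4 ^ k := by
          rw [div_pow, one_pow, ← pow_mul, mul_comm k 2, pow_mul]; norm_num
        rw [this]; exact hxk
      have hy2 : y ≤ (e / (8 * B ^ 2)) ^ 2 := by
        rw [hy, Real.sqrt_le_iff]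
        refine ⟨by positivity, ?_⟩
        have e4 : ((e / (8 * B ^ 2)) ^ 2) ^ 2 = 1 / U := by
          rw [hU]; field_simp
        rw [e4, hx, div_le_div_iff₀ ht0 hU0]
        linarith
      have h3 : (T1 * m) ^ 2 ≤ (8 * B ^ 2 * x) ^ 2 :=
        pow_le_pow_left₀ (by positivity) h2 2
      refine h3.trans ?_
      have e5 : (8 * B ^ 2 * x) ^ 2 = (8 * B ^ 2) ^ 2 * (y * y ^ 3) := by
        rw [← hyx]; ring
      rw [e5]
      calc (8 * B ^ 2) ^ 2 * (y * y ^ 3)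
          ≤ (8 * B ^ 2) ^ 2 * ((e / (8 * B ^ 2)) ^ 2 * (1 / 2 ^ k) ^ 3) := by gcongr
        _ = e ^ 2 / 8 ^ k := by
            have e8 : ((1 : ℝ) / 2 ^ k) ^ 3 = 1 / 8 ^ k := by
              rw [div_pow, one_pow, ← pow_mul, mul_comm k 3, pow_mul]; norm_num
            rw [e8]; field_simp
        _ ≤ 64 * e ^ 2 / 8 ^ k := by
            have : e ^ 2 ≤ 64 * e ^ 2 := by linarith [sq_nonneg e]
            exact div_le_div_of_nonneg_right this (by positivity)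
  rw [mul_pow] at key
  have e6 : 64 * e ^ 2 / T1 ^ 2 / 8 ^ k = 64 * e ^ 2 / 8 ^ k / T1 ^ 2 := by
    rw [div_right_comm]
  rw [e6, le_div_iff₀ (by positivity), mul_comm]
  exact key

/-- the weight up to `T` -/
lemma weight_near {e B U T1 : ℝ} (he : 0 < e) (he1 : e ≤ 1) (K : Ker) (k3 : ∀ w, |K.G w| ≤ 1)
    (hB : 1 ≤ B) (hL : K.L ≤ B) (hml : K.ml ≤ B)
    (hU : U = (8 * B ^ 2 / e) ^ 4) (hT1 : 4 * U ^ 2 * B ^ 3 / e ≤ T1) {t : ℝ} (ht0 : 0 ≤ t)
    (ht : t ≤ (1 + e) * T1) :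
    ‖mellin (fun x => (K.phi T1 x : ℂ)) (1 / 2 + I * t)‖ ^ 2 ≤ ((1 + e) / T1) ^ 2 := by
  have hKL := K.hL
  have hml0 := K.ml_nonneg
  have hB0 : 0 < B := by linarith
  have hBB : 1 ≤ B ^ 2 := one_le_pow₀ hB
  have hq : 8 ≤ 8 * B ^ 2 / e := by
    rw [le_div_iff₀ he]; linarith
  have hU2 : 2 ≤ U := by
    rw [hU]
    calc (2 : ℝ) ≤ 8 ^ 4 := by norm_num
      _ ≤ _ := by gcongr
  have hU1 : 1 ≤ U := by linarith
  have hU0 : 0 < U := by linarith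
  have hUU : U ≤ U ^ 2 := tl_le_sq hU1
  have hB3 : B ^ 2 ≤ B ^ 3 := pow_le_pow_right₀ hB (by norm_num)
  have hT1' : 4 * U ^ 2 * B ^ 3 ≤ T1 * e := by
    rwa [div_le_iff₀ he] at hT1
  have hT0 : 0 < T1 := by
    have : 0 < 4 * U ^ 2 * B ^ 3 := by positivity
    exact tl_pos this he hT1'
  have hT1e : T1 * e ≤ T1 := mul_le_of_le_one_right hT0.le he1
  have hTu : 4 * U * K.L ^ 2 ≤ T1 := by
    calc 4 * U * K.L ^ 2 ≤ 4 * U ^ 2 * B ^ 2 := by gcongr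
      _ ≤ 4 * U ^ 2 * B ^ 3 := by gcongr
      _ ≤ T1 := hT1'.trans hT1e
  have htU : t ≤ U * T1 := ht.trans (by gcongr; linarith)
  have h1 := mellin_upper_mid K hU1 hTu ht0 htU
  have h2 := k3 (t / T1 / (2 * Real.pi))
  have h3 : 4 * U * K.L ^ 2 / T1 * K.ml ≤ e := by
    have a1 : 4 * U * K.L ^ 2 / T1 * K.ml ≤ 4 * U * B ^ 2 / T1 * B := by gcongr
    have a2 : 4 * U * B ^ 2 / T1 * B ≤ e := by
      rw [div_mul_eq_mul_div, div_le_iff₀ hT0]
      calc 4 * U * B ^ 2 * B = 4 * U * B ^ 3 := by ring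
        _ ≤ 4 * U ^ 2 * B ^ 3 := by gcongr
        _ ≤ e * T1 := by linarith
    linarith
  have h4 : ‖mellin (fun x => (K.phi T1 x : ℂ)) (1 / 2 + I * t)‖ ≤ (1 + e) / T1 := by
    rw [le_div_iff₀ hT0]
    linarith
  gcongr

/-- the bound for the long moments -/
lemma long_moment {C2 T S G E : ℝ} (hC2 : 0 ≤ C2) (hT : 1 ≤ T) (hS : 0 ≤ S) (hG : 0 ≤ G)
    (hE : 0 ≤ E) (k : ℕ) {I0 : ℝ}
    (h : I0 ≤ 4 ^ (k + 1) * T * (2 * (Real.log (4 ^ (k + 1) * T) * S + G)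
      + C2 * S + C2 * E / (4 ^ (k + 1) * T) ^ (1 / 16 : ℝ))) :
    I0 ≤ 4 ^ (k + 1) * T * ((k + 1) * (2 * (Real.log T * S + G) + (C2 + 3) * S
      + C2 * E / T ^ (1 / 16 : ℝ))) := by
  refine h.trans ?_
  have hT0 : 0 < T := by linarith
  have hlogT : 0 ≤ Real.log T := Real.log_nonneg hT
  have e1 : Real.log (4 ^ (k + 1) * T) = (k + 1) * Real.log 4 + Real.log T := by
    rw [Real.log_mul (by positivity) hT0.ne', Real.log_pow]
    push_cast
    ring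
  have hlog4 : Real.log 4 ≤ 3 / 2 := by
    have : Real.log 4 = 2 * Real.log 2 := by
      rw [← Real.log_rpow (by norm_num)]; norm_num
    rw [this]
    linarith [Real.log_two_lt_d9]
  have hk : (0 : ℝ) ≤ k := Nat.cast_nonneg k
  have h4 : T ≤ 4 ^ (k + 1) * T := by
    have : (1 : ℝ) ≤ 4 ^ (k + 1) := one_le_pow₀ (by norm_num)
    exact le_mul_of_one_le_left hT0.le this
  have e2 : C2 * E / (4 ^ (k + 1) * T) ^ (1 / 16 : ℝ) ≤ C2 * E / T ^ (1 / 16 : ℝ) := by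
    have : T ^ (1 / 16 : ℝ) ≤ (4 ^ (k + 1) * T) ^ (1 / 16 : ℝ) :=
      Real.rpow_le_rpow hT0.le h4 (by norm_num)
    gcongr
  have hX : 0 ≤ C2 * E / T ^ (1 / 16 : ℝ) := by positivity
  set X := C2 * E / T ^ (1 / 16 : ℝ) with hXdef
  refine mul_le_mul_of_nonneg_left ?_ (by positivity)
  rw [e1]
  have h5 : ((k : ℝ) + 1) * Real.log 4 * S ≤ (k + 1) * (3 / 2) * S := by gcongr
  have h6 : 0 ≤ (k : ℝ) * (2 * (Real.log T * S + G) + C2 * S + X) := by positivity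
  linarith

/-- the elementary end of the proof -/
lemma end_aux {e T J S G cT E E1 P M C2 logT logT1 : ℝ} (he : 0 < e) (he1 : e ≤ 1 / 1000)
    (hT : 1 ≤ T) (hJ : J ≤ T * M) (hC2 : 0 ≤ C2) (hE : 0 ≤ E)
    (hM : M = 2 * (logT * |S| + |G|) + (C2 + 3) * |S| + C2 * E) (hlog : 0 ≤ logT)
    (hl1 : logT - e ≤ logT1) (hl2 : logT1 ≤ logT) (hP1 : 1 - e ≤ P) (hP2 : P ≤ 1 + 50 * e)
    (hcT : 0 ≤ cT) (hE1 : E1 ≤ 2 * E)
    (h : T / (1 + e) * (P * (logT1 * S - G) - cT * |S| - cT * E1)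
      ≤ (1 + e) ^ 2 * J + 1024 * e ^ 2 * (T * M)) :
    T * (logT * S - 66 * e * logT * |S| - 2 * |G| - (2 + cT + C2) * |S| - (2 * cT + C2) * E) ≤ J := by
  have hS : 0 ≤ |S| := abs_nonneg S
  have hG : 0 ≤ |G| := abs_nonneg G
  have hM0 : 0 ≤ M := by rw [hM]; positivity
  have hTM : 0 ≤ T * M := by positivity
  have h1e : 0 < 1 + e := by linarith
  -- multiply by `1 + e`
  have h1 : T * (P * (logT1 * S - G) - cT * |S| - cT * E1)
      ≤ (1 + e) ^ 3 * J + 1024 * e ^ 2 * (1 + e) * (T * M) := by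
    have := mul_le_mul_of_nonneg_left h h1e.le
    have e1 : (1 + e) * (T / (1 + e) * (P * (logT1 * S - G) - cT * |S| - cT * E1))
        = T * (P * (logT1 * S - G) - cT * |S| - cT * E1) := by
      field_simp
    rw [e1] at this
    refine this.trans (le_of_eq ?_)
    ring
  have h2 : (1 + e) ^ 3 * J ≤ J + 4 * e * (T * M) := by
    obtain ⟨a1, a2, -⟩ := tl_e he.le he1
    have a3 : ((1 + e) ^ 3 - 1) * J ≤ ((1 + e) ^ 3 - 1) * (T * M) :=
      mul_le_mul_of_nonneg_left hJ a2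
    have a4 : ((1 + e) ^ 3 - 1) * (T * M) ≤ 4 * e * (T * M) :=
      mul_le_mul_of_nonneg_right a1 hTM
    linarith
  have h3 : 1024 * e ^ 2 * (1 + e) * (T * M) ≤ 4 * e * (T * M) := by
    refine mul_le_mul_of_nonneg_right ?_ hTM
    have : 1024 * e ^ 2 * (1 + e) = e * (1024 * e * (1 + e)) := by ring
    rw [this]
    exact (tl_e he.le he1).2.2
  have h4 : T * (P * (logT1 * S - G) - cT * |S| - cT * E1) - 8 * e * (T * M) ≤ J := by linarith
  refine le_trans ?_ h4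
  have e2 : T * (P * (logT1 * S - G) - cT * |S| - cT * E1) - 8 * e * (T * M)
      = T * ((P * (logT1 * S - G) - cT * |S| - cT * E1) - 8 * e * M) := by ring
  rw [e2]
  refine mul_le_mul_of_nonneg_left ?_ (by linarith)
  -- `P logT1 S`
  have b1 : logT * S - (50 * e * logT + 1) * |S| ≤ P * (logT1 * S) := by
    have c1 : |P * logT1 - logT| ≤ 50 * e * logT + 1 := by
      have hP0 : 0 ≤ P := by linarith
      rw [abs_le]
      constructor
      · have d1 : P * (logT - e) ≤ P * logT1 := mul_le_mul_of_nonneg_left hl1 hP0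
        have d2 : (1 - e) * logT ≤ P * logT := mul_le_mul_of_nonneg_right hP1 hlog
        have d3 : P * e ≤ 1 := tl_pe he.le he1 hP2
        have d4 := mul_nonneg he.le hlog
        linarith
      · have d1 : P * logT1 ≤ P * logT := mul_le_mul_of_nonneg_left hl2 hP0
        have d2 : P * logT ≤ (1 + 50 * e) * logT := mul_le_mul_of_nonneg_right hP2 hlog
        linarith
    have c2 : |(P * logT1 - logT) * S| ≤ (50 * e * logT + 1) * |S| := by
      rw [abs_mul]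
      exact mul_le_mul_of_nonneg_right c1 hS
    have c3 := neg_abs_le ((P * logT1 - logT) * S)
    linarith
  have b2 : P * G ≤ (1 + 50 * e) * |G| := by
    have hP0 : 0 ≤ P := by linarith
    calc P * G ≤ P * |G| := mul_le_mul_of_nonneg_left (le_abs_self G) hP0
      _ ≤ _ := mul_le_mul_of_nonneg_right hP2 hG
  have b3 : cT * E1 ≤ cT * (2 * E) := mul_le_mul_of_nonneg_left hE1 hcT
  have b4 : 66 * e * |G| ≤ 1 * |G| := by
    refine mul_le_mul_of_nonneg_right ?_ hG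
    linarith
  have b5 : 8 * e * ((C2 + 3) * |S|) ≤ 1 * ((C2 + 1) * |S|) := by
    have : 8 * e * (C2 + 3) ≤ 1 * (C2 + 1) := by
      have := mul_le_mul_of_nonneg_right he1 (by linarith : 0 ≤ C2 + 3)
      linarith
    calc 8 * e * ((C2 + 3) * |S|) = (8 * e * (C2 + 3)) * |S| := by ring
      _ ≤ (1 * (C2 + 1)) * |S| := mul_le_mul_of_nonneg_right this hS
      _ = _ := by ring
  have b6 : 8 * e * (C2 * E) ≤ 1 * (C2 * E) := by
    refine mul_le_mul_of_nonneg_right (by linarith) (by positivity)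
  rw [hM]
  have e3 : 8 * e * (2 * (logT * |S| + |G|) + (C2 + 3) * |S| + C2 * E)
      = 16 * e * (logT * |S|) + 16 * e * |G| + 8 * e * ((C2 + 3) * |S|) + 8 * e * (C2 * E) := by ring
  rw [e3]
  linarith

/-- the lower bound with explicit conditions -/
theorem tsm_lower_explicit {e : ℝ} (he : 0 < e) (he1 : e ≤ 1 / 1000) (K : Ker)
    (k1 : 1 - e ≤ Real.pi * K.m2) (k2 : Real.pi * K.m2 ≤ 1 + 50 * e) (k3 : ∀ w, |K.G w| ≤ 1)
    (k4 : ∀ w, (1 + e) / (2 * Real.pi) ≤ |w| → |K.G w| ≤ e / |w|)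
    {B : ℝ} (hB : 1 ≤ B) (hL : K.L ≤ B) (hml : K.ml ≤ B) (hd : ∀ v, |deriv K.g v| ≤ B)
    (h2 : ∀ w, 0 < w → |K.G w| ≤ B / w ^ 2)
    {C2 : ℝ} (hC2 : 1 ≤ C2) (hts : ∀ T : ℝ, C2 ≤ T → ∀ (D : DP) (H : ℝ), 1 ≤ H →
      (∀ n, D.coeff n ≠ 0 → 1 ≤ n ∧ (n : ℝ) ≤ H) →
      ∫ t in (0 : ℝ)..T, ‖riemannZeta (1 / 2 + I * t) * ev t D‖ ^ 2
        ≤ T * (2 * (Real.log T * |BK K2 D D| + |BK KL D D|)
          + C2 * |BK K2 D D| + C2 * (nrm D * H) ^ 2 / T ^ (1 / 16 : ℝ)))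
    {U T : ℝ} (hU : U = (8 * B ^ 2 / e) ^ 4) (hTB : 2 * (4 * U ^ 2 * B ^ 3 / e) ≤ T)
    (hTC : C2 ≤ T) (D : DP) (H : ℝ) (hH : 1 ≤ H)
    (hD : ∀ n, D.coeff n ≠ 0 → 1 ≤ n ∧ (n : ℝ) ≤ H) :
    T * (Real.log T * BK K2 D D - 66 * e * Real.log T * |BK K2 D D| - 2 * |BK KL D D|
        - (2 + Real.pi * CT K B B + C2) * |BK K2 D D|
        - (2 * (Real.pi * CT K B B) + C2) * ((nrm D * H) ^ 2 / T ^ (1 / 16 : ℝ)))
      ≤ ∫ t in (0 : ℝ)..T, ‖riemannZeta (1 / 2 + I * t) * ev t D‖ ^ 2 := by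
  have hKL := K.hL
  have hpi := Real.pi_pos
  have hml0 := K.ml_nonneg
  have hB0 : 0 < B := by linarith
  have hBB : 1 ≤ B ^ 2 := one_le_pow₀ hB
  have h1e : 0 < 1 + e := by linarith
  have hq : 8 * B ^ 2 ≤ 8 * B ^ 2 / e := by
    rw [le_div_iff₀ he]
    exact mul_le_of_le_one_right (by positivity) (by linarith)
  have hU1 : 1 ≤ U := by
    rw [hU]; exact one_le_pow₀ (by linarith)
  have hUB : (8 * B ^ 2) ^ 4 ≤ U := by
    rw [hU]; gcongr
  have hU2B : 4 * U ^ 2 * B ^ 3 ≤ 4 * U ^ 2 * B ^ 3 / e := by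
    rw [le_div_iff₀ he]
    have : 0 < 4 * U ^ 2 * B ^ 3 := by positivity
    exact mul_le_of_le_one_right this.le (by linarith)
  obtain ⟨T1, hT1def⟩ : ∃ T1, T1 = T / (1 + e) := ⟨_, rfl⟩
  have hTT1 : T = (1 + e) * T1 := by rw [hT1def]; field_simp
  have hT1B : 4 * U ^ 2 * B ^ 3 / e ≤ T1 := by
    rw [hT1def, le_div_iff₀ h1e]
    have h0 : 0 ≤ 4 * U ^ 2 * B ^ 3 / e := by positivity
    have h1 := mul_le_mul_of_nonneg_left (show 1 + e ≤ 2 by linarith) h0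
    linarith
  have hT1U : 4 * U ^ 2 * B ^ 3 ≤ T1 := hU2B.trans hT1B
  have hB3 : 1 ≤ B ^ 3 := one_le_pow₀ hB
  have hT14 : 4 * U ≤ T1 := by
    refine le_trans ?_ hT1U
    exact tl_u hU1 hB3
  have hT18 : (2 * K.L + 1) ^ 8 < T1 := by
    have a1 : (2 * K.L + 1) ^ 8 ≤ (3 * B) ^ 8 := by
      gcongr
      linarith
    have a2 : (3 * B) ^ 8 < 4 * (8 * B ^ 2) ^ 4 := by
      have h0 : (0 : ℝ) < B ^ 8 := by positivity
      have e1 : (3 * B) ^ 8 = 6561 * B ^ 8 := by ring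
      have e2 : 4 * (8 * B ^ 2) ^ 4 = 16384 * B ^ 8 := by ring
      rw [e1, e2]
      linarith
    calc (2 * K.L + 1) ^ 8 ≤ (3 * B) ^ 8 := a1
      _ < 4 * (8 * B ^ 2) ^ 4 := a2
      _ ≤ 4 * U := by gcongr
      _ ≤ T1 := hT14
  have hT10 : 0 < T1 := by linarith
  have hT11 : 1 ≤ T1 := by linarith
  have hT1T : T1 ≤ T := by rw [hTT1]; exact le_mul_of_one_le_left hT10.le (by linarith)
  have hT0 : 0 < T := by linarith
  have hT1' : 1 ≤ T := by linarith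
  have hTL : 2 * K.L ≤ T1 := by
    have : 2 * K.L + 1 ≤ (2 * K.L + 1) ^ 8 := le_self_pow₀ (by linarith) (by norm_num)
    linarith
  have hD1 : ∀ n, D.coeff n ≠ 0 → 1 ≤ n := fun n hn => (hD n hn).1
  -- the total
  set τ := T1 ^ (1 / 16 : ℝ) with hτ
  have hτ16 : τ ^ 16 = T1 := by
    rw [hτ, ← Real.rpow_natCast, ← Real.rpow_mul hT10.le]; norm_num
  have hτ1 : 1 ≤ τ := Real.one_le_rpow hT11 (by norm_num)
  have hτ0 : 0 < τ := by linarith
  have hτ2 : 2 * K.L < τ ^ 2 := by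
    by_contra hc
    push Not at hc
    have : τ ^ 16 ≤ (2 * K.L) ^ 8 := by
      have : τ ^ 16 = (τ ^ 2) ^ 8 := by ring
      rw [this]
      gcongr
    rw [hτ16] at this
    have h9 : (2 * K.L) ^ 8 ≤ (2 * K.L + 1) ^ 8 := by gcongr; linarith
    linarith
  have hk3' : ∀ w, |K.G w| ≤ B := fun w => (k3 w).trans hB
  have htot := Pool.Agent.Lib.MP_f9aece_nt_rt.total_lower K (B0 := B) (B2 := B) hB0 hB0 hk3' h2
    τ hτ1 hτ2 D H hH hD
  rw [hτ16] at htot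
  have hCT0 : 0 ≤ CT K B B := CT_nonneg K hB0.le
  obtain ⟨hwi, hwe⟩ := weighted_eq K hTL hD1
  set F : ℝ → ℝ := fun t => ‖riemannZeta (1 / 2 + I * t) * ev t D‖ ^ 2 with hF
  set W : ℝ → ℝ := fun t => ‖mellin (fun x => (K.phi T1 x : ℂ)) (1 / 2 + I * t)‖ ^ 2 with hW
  have hFc : Continuous F := (continuous_zeta.mul (continuous_ev D)).norm.pow 2
  have hF0 : ∀ t, 0 ≤ F t := fun t => by positivity
  set S := BK K2 D D with hS
  set G := BK KL D D with hG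
  set C := CT K B B with hCdef
  set J := ∫ t in (0 : ℝ)..T, F t with hJ
  set E := (nrm D * H) ^ 2 / T ^ (1 / 16 : ℝ) with hE
  have hE0 : 0 ≤ E := by positivity
  set M := 2 * (Real.log T * |S| + |G|) + (C2 + 3) * |S| + C2 * E with hM
  have hlogT : 0 ≤ Real.log T := Real.log_nonneg hT1'
  have hM0 : 0 ≤ M := by positivity
  have hlong : ∀ k : ℕ, ∫ t in (0 : ℝ)..(4 ^ (k + 1) * T), F t ≤ 4 ^ (k + 1) * T * ((k + 1) * M) := by
    intro k
    have h4 : T ≤ 4 ^ (k + 1) * T := by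
      have : (1 : ℝ) ≤ 4 ^ (k + 1) := one_le_pow₀ (by norm_num)
      exact le_mul_of_one_le_left hT0.le this
    have h5 := hts (4 ^ (k + 1) * T) (hTC.trans h4) D H hH hD
    have h6 := long_moment (E := (nrm D * H) ^ 2) (by linarith : 0 ≤ C2) hT1' (abs_nonneg S)
      (abs_nonneg G) (by positivity) k h5
    refine h6.trans (le_of_eq ?_)
    rw [hM, hE]
    ring
  have hJM : J ≤ T * M := by
    have h5 := hts T hTC D H hH hD
    refine h5.trans ?_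
    refine mul_le_mul_of_nonneg_left ?_ hT0.le
    rw [hM, hE]
    have : 0 ≤ 3 * |S| := by positivity
    have e1 : C2 * (nrm D * H) ^ 2 / T ^ (1 / 16 : ℝ) = C2 * ((nrm D * H) ^ 2 / T ^ (1 / 16 : ℝ)) := by
      ring
    rw [e1]
    linarith
  -- split
  have hsplit : ∫ t in Ioi (0 : ℝ), F t * W t = (∫ t in Ioc (0 : ℝ) T, F t * W t)
      + ∫ t in Ioi T, F t * W t := by
    rw [← setIntegral_union (Ioc_disjoint_Ioi le_rfl) measurableSet_Ioi
      (hwi.mono_set Ioc_subset_Ioi_self) (hwi.mono_set (Ioi_subset_Ioi hT0.le)),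
      Ioc_union_Ioi_eq_Ioi hT0.le]
  have hnear : ∫ t in Ioc (0 : ℝ) T, F t * W t ≤ ((1 + e) / T1) ^ 2 * J := by
    rw [hJ, intervalIntegral.integral_of_le hT0.le, ← integral_const_mul]
    refine setIntegral_mono_on (hwi.mono_set Ioc_subset_Ioi_self)
      ((continuous_const.mul hFc).integrableOn_Icc.mono_set Ioc_subset_Icc_self)
      measurableSet_Ioc fun t ht => ?_
    have := weight_near he (by linarith) K k3 hB hL hml hU hT1B ht.1.le (ht.2.trans (le_of_eq hTT1))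
    rw [mul_comm]
    exact mul_le_mul_of_nonneg_right this (hF0 t)
  have hfar : ∫ t in Ioi T, F t * W t ≤ 16 * (64 * e ^ 2 / T1 ^ 2) * T * M := by
    refine tail_bound hT0 (by positivity) hM0 hF0 hFc (hwi.mono_set (Ioi_subset_Ioi hT0.le)) hlong ?_
    intro k t ht
    refine weight_far he (by linarith) K k4 hB hL hml hd hU hT1B k ?_
    rw [← hTT1]
    exact ht.1.le
  -- the total
  have hall : Real.pi * (1 / T1 * (K.m2 * (Real.log T1 * S - G) - C * |S|)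
      - C * (nrm D * H) ^ 2 / τ ^ 17) ≤ ((1 + e) / T1) ^ 2 * J + 16 * (64 * e ^ 2 / T1 ^ 2) * T * M := by
    calc Real.pi * (1 / T1 * (K.m2 * (Real.log T1 * S - G) - C * |S|)
          - C * (nrm D * H) ^ 2 / τ ^ 17)
        ≤ Real.pi * ∫ x in Ioi (0 : ℝ), QQ (K.phi T1) D x ^ 2 := by gcongr
      _ = ∫ t in Ioi (0 : ℝ), F t * W t := hwe.symm
      _ ≤ _ := by rw [hsplit]; exact add_le_add hnear hfar
  have hτ17 : τ ^ 17 = T1 * τ := by rw [← hτ16]; ring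
  rw [hτ17] at hall
  have hmul : T / (1 + e) * ((Real.pi * K.m2) * (Real.log T1 * S - G) - (Real.pi * C) * |S|
      - (Real.pi * C) * ((nrm D * H) ^ 2 / τ)) ≤ (1 + e) ^ 2 * J + 1024 * e ^ 2 * (T * M) := by
    rw [← hT1def]
    have h7 := mul_le_mul_of_nonneg_left hall (sq_nonneg T1)
    have e1 : T1 ^ 2 * (Real.pi * (1 / T1 * (K.m2 * (Real.log T1 * S - G) - C * |S|)
        - C * (nrm D * H) ^ 2 / (T1 * τ)))
        = T1 * ((Real.pi * K.m2) * (Real.log T1 * S - G) - (Real.pi * C) * |S|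
          - (Real.pi * C) * ((nrm D * H) ^ 2 / τ)) := by
      field_simp
    have e2 : T1 ^ 2 * (((1 + e) / T1) ^ 2 * J + 16 * (64 * e ^ 2 / T1 ^ 2) * T * M)
        = (1 + e) ^ 2 * J + 1024 * e ^ 2 * (T * M) := by
      field_simp
      ring
    rw [e1, e2] at h7
    exact h7
  have hl1 : Real.log T - e ≤ Real.log T1 := by
    have : Real.log T = Real.log (1 + e) + Real.log T1 := by
      rw [hTT1, Real.log_mul h1e.ne' hT10.ne']
    have h8 : Real.log (1 + e) ≤ e := by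
      have := Real.log_le_sub_one_of_pos h1e
      linarith
    linarith
  have hl2 : Real.log T1 ≤ Real.log T := Real.log_le_log hT10 hT1T
  have hE1 : (nrm D * H) ^ 2 / τ ≤ 2 * E := by
    have h9 : T ^ (1 / 16 : ℝ) ≤ 2 * τ := by
      rw [hTT1, Real.mul_rpow h1e.le hT10.le]
      have : (1 + e) ^ (1 / 16 : ℝ) ≤ 2 := by
        calc (1 + e) ^ (1 / 16 : ℝ) ≤ (2 : ℝ) ^ (1 / 16 : ℝ) :=
              Real.rpow_le_rpow h1e.le (by linarith) (by norm_num)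
          _ ≤ (2 : ℝ) ^ (1 : ℝ) := Real.rpow_le_rpow_of_exponent_le (by norm_num) (by norm_num)
          _ = 2 := by norm_num
      exact mul_le_mul_of_nonneg_right this hτ0.le
    have h10 : 0 < T ^ (1 / 16 : ℝ) := by positivity
    rw [hE, mul_div_assoc', div_le_div_iff₀ hτ0 h10]
    have h11 : 0 ≤ (nrm D * H) ^ 2 := sq_nonneg _
    have h12 := mul_le_mul_of_nonneg_left h9 h11
    refine h12.trans (le_of_eq ?_)
    ring
  exact end_aux he he1 hT1' hJM (by linarith) hE0 hM hlogT hl1 hl2 k1 k2 (by positivity) hE1 hmul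

/-- the twisted second moment, lower bound -/
theorem tsm_lower : ∃ C0 : ℝ, 1 ≤ C0 ∧ ∃ N : ℕ, ∀ ε : ℝ, 0 < ε → ε ≤ 1 → ∀ T : ℝ,
    C0 * (1 / ε) ^ N ≤ T → ∀ (D : DP) (H : ℝ), 1 ≤ H →
    (∀ n, D.coeff n ≠ 0 → 1 ≤ n ∧ (n : ℝ) ≤ H) →
    T * (Real.log T * BK K2 D D - ε * Real.log T * |BK K2 D D| - 2 * |BK KL D D|
        - C0 * (1 / ε) ^ N * |BK K2 D D|
        - C0 * (1 / ε) ^ N * (nrm D * H) ^ 2 / T ^ (1 / 16 : ℝ))
      ≤ ∫ t in (0 : ℝ)..T, ‖riemannZeta (1 / 2 + I * t) * ev t D‖ ^ 2 := by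
  obtain ⟨C1, hC1, N1, hK⟩ := exists_good_pos
  obtain ⟨C2, hC2, N2, hts0⟩ := tsm_rate
  have hts : ∀ T : ℝ, C2 ≤ T → ∀ (D : DP) (H : ℝ), 1 ≤ H →
      (∀ n, D.coeff n ≠ 0 → 1 ≤ n ∧ (n : ℝ) ≤ H) →
      ∫ t in (0 : ℝ)..T, ‖riemannZeta (1 / 2 + I * t) * ev t D‖ ^ 2
        ≤ T * (2 * (Real.log T * |BK K2 D D| + |BK KL D D|)
          + C2 * |BK K2 D D| + C2 * (nrm D * H) ^ 2 / T ^ (1 / 16 : ℝ)) := by
    intro T hT D H hH hD
    have := hts0 1 one_pos le_rfl T (by simpa using hT) D H hH hD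
    norm_num at this ⊢
    exact this
  clear hts0
  obtain ⟨g, hg⟩ : ∃ g, g = |γE| := ⟨_, rfl⟩
  have hg0 : 0 ≤ g := by rw [hg]; exact abs_nonneg _
  obtain ⟨P, hP⟩ : ∃ P, P = C1 * 1000 ^ N1 := ⟨_, rfl⟩
  have hP1 : 1 ≤ P := by
    rw [hP]
    have : (1 : ℝ) ≤ 1000 ^ N1 := one_le_pow₀ (by norm_num)
    exact tl_one hC1 this
  obtain ⟨A, hA⟩ : ∃ A : ℝ, A = 8 ^ 9 + 8000 + 800 * g + 2 * C2 := ⟨_, rfl⟩
  have hA1 : 1 ≤ A := by rw [hA]; norm_num; linarith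
  have hP19 : 1 ≤ P ^ 19 := one_le_pow₀ hP1
  refine ⟨A * (P ^ 19 * 1000 ^ 9), ?_, 19 * N1 + 9, ?_⟩
  · exact tl_one hA1 (tl_one hP19 (one_le_pow₀ (by norm_num)))
  intro ε hε hε1 T hT D H hH hD
  obtain ⟨e, he⟩ : ∃ e, e = ε / 1000 := ⟨_, rfl⟩
  have he0 : 0 < e := by rw [he]; positivity
  have he1 : e ≤ 1 / 1000 := by rw [he]; linarith
  obtain ⟨K, k1, k2, k3, k4, k5, k6, k7, k8, k9⟩ := hK e he0 (by linarith)
  obtain ⟨q, hq⟩ : ∃ q, q = 1 / ε := ⟨_, rfl⟩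
  have hq1 : 1 ≤ q := by rw [hq, le_div_iff₀ hε]; linarith
  have hB' : C1 * (1 / e) ^ N1 = P * q ^ N1 := by
    have : 1 / e = 1000 * q := by rw [hq, he]; field_simp
    rw [this, mul_pow, hP]; ring
  rw [hB'] at k5 k6 k7
  simp only [hB'] at k8 k9
  obtain ⟨B, hBdef⟩ : ∃ B, B = P * q ^ N1 := ⟨_, rfl⟩
  rw [← hBdef] at k5 k6 k7
  simp only [← hBdef] at k8 k9
  have hqN : 1 ≤ q ^ N1 := one_le_pow₀ hq1
  have hB1 : 1 ≤ B := by rw [hBdef]; exact tl_one hP1 hqN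
  have hB0 : 0 < B := by linarith
  rw [← hq] at hT ⊢
  -- `Z = B ^ 19 / e ^ 9`
  obtain ⟨Z, hZ⟩ : ∃ Z, Z = B ^ 19 / e ^ 9 := ⟨_, rfl⟩
  have hZ' : P ^ 19 * 1000 ^ 9 * q ^ (19 * N1 + 9) = Z := by
    have e1 : q ^ (19 * N1 + 9) = (q ^ N1) ^ 19 * q ^ 9 := by rw [pow_add, mul_comm 19 N1, pow_mul]
    have e2 : 1 / e = 1000 * q := by rw [hq, he]; field_simp
    have e3 : Z = B ^ 19 * (1 / e) ^ 9 := by rw [hZ]; field_simp
    rw [e3, e2, hBdef, e1]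
    ring
  have hCZ : A * (P ^ 19 * 1000 ^ 9) * q ^ (19 * N1 + 9) = A * Z := by
    rw [← hZ']; ring
  rw [hCZ] at hT ⊢
  have he9 : e ^ 9 ≤ 1 := pow_le_one₀ he0.le (by linarith)
  have hZB : B ^ 19 ≤ Z := by
    rw [hZ, le_div_iff₀ (by positivity)]
    have : 0 < B ^ 19 := by positivity
    exact mul_le_of_le_one_right this.le he9
  have hB2 : B ^ 2 ≤ Z := (pow_le_pow_right₀ hB1 (by norm_num)).trans hZB
  have hZ1 : 1 ≤ Z := (one_le_pow₀ hB1).trans hB2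
  have hZ0 : 0 < Z := by linarith
  have hUB : 2 * (4 * ((8 * B ^ 2 / e) ^ 4) ^ 2 * B ^ 3 / e) = 8 ^ 9 * Z := by
    rw [hZ]
    field_simp
    norm_num
  have hTZ : 8 ^ 9 * Z ≤ T := by
    refine le_trans ?_ hT
    have : (8 : ℝ) ^ 9 ≤ A := by rw [hA]; linarith
    gcongr
  have hTC : C2 ≤ T := by
    refine le_trans ?_ hT
    have : C2 ≤ A := by rw [hA]; norm_num; linarith
    exact this.trans (le_mul_of_one_le_right (by linarith) hZ1)
  have key := tsm_lower_explicit he0 he1 K k1 k2 k3 k4 hB1 k5 k6 k8 k9 hC2 hts rfl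
    (by rw [hUB]; exact hTZ) hTC D H hH hD
  refine le_trans ?_ key
  have hT0 : 0 < T := by
    have : 0 < (8 : ℝ) ^ 9 * Z := by positivity
    linarith
  have hT1 : 1 ≤ T := hC2.trans hTC
  have hlogT : 0 ≤ Real.log T := Real.log_nonneg hT1
  have hCT := CT_le K hB1 (fun w => (k3 w).trans hB1) k9 k6 k7
  rw [← hg] at hCT
  have hCT0 : 0 ≤ CT K B B := CT_nonneg K hB0.le
  have hCT2 : Real.pi * CT K B B ≤ (4000 + 400 * g) * Z := by
    have hpi := Real.pi_lt_four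
    have hpi0 := Real.pi_pos
    calc Real.pi * CT K B B ≤ 4 * ((1000 + 100 * g) * B ^ 2) := by gcongr
      _ ≤ 4 * ((1000 + 100 * g) * Z) := by gcongr
      _ = _ := by ring
  have c1 : 2 + Real.pi * CT K B B + C2 ≤ A * Z := by
    have a1 : C2 ≤ C2 * Z := le_mul_of_one_le_right (by linarith) hZ1
    have a2 : 0 ≤ g * Z := by positivity
    have a3 : 0 ≤ C2 * Z := by positivity
    have e9 : A * Z = 134225728 * Z + 800 * (g * Z) + 2 * (C2 * Z) := by rw [hA]; norm_num; ring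
    rw [e9]
    have e8 : (4000 + 400 * g) * Z = 4000 * Z + 400 * (g * Z) := by ring
    rw [e8] at hCT2
    linarith only [hCT2, a1, a2, a3, hZ1]
  have c2 : 2 * (Real.pi * CT K B B) + C2 ≤ A * Z := by
    have a1 : C2 ≤ C2 * Z := le_mul_of_one_le_right (by linarith) hZ1
    have a2 : 0 ≤ g * Z := by positivity
    have a3 : 0 ≤ C2 * Z := by positivity
    have e9 : A * Z = 134225728 * Z + 800 * (g * Z) + 2 * (C2 * Z) := by rw [hA]; norm_num; ring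
    rw [e9]
    have e8 : (4000 + 400 * g) * Z = 4000 * Z + 400 * (g * Z) := by ring
    rw [e8] at hCT2
    linarith only [hCT2, a1, a2, a3, hZ1]
  refine mul_le_mul_of_nonneg_left ?_ hT0.le
  have hS : 0 ≤ |BK K2 D D| := abs_nonneg _
  have hE : 0 ≤ (nrm D * H) ^ 2 / T ^ (1 / 16 : ℝ) := by positivity
  have d1 : 66 * e * Real.log T * |BK K2 D D| ≤ ε * Real.log T * |BK K2 D D| := by
    have : 66 * e ≤ ε := by rw [he]; linarith
    gcongr
  have d2 := mul_le_mul_of_nonneg_right c1 hS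
  have d3 := mul_le_mul_of_nonneg_right c2 hE
  have e4 : A * Z * (nrm D * H) ^ 2 / T ^ (1 / 16 : ℝ)
      = A * Z * ((nrm D * H) ^ 2 / T ^ (1 / 16 : ℝ)) := by ring
  rw [e4]
  linarith

end Pool.Agent.Lib.MP_f9aece_nt_r3
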