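import Mathlib
import Pool.Agent.Lib.MP_f9aece_nt_h40.RightForms
import Pool.Agent.Lib.MP_f9aece_nt_h85.BadForms
import Pool.Agent.Lib.MP_f9aece_nt_rt.TsmRate
import Pool.Agent.Lib.MP_f9aece_nt_rt.PrimeMainOf
import Pool.Agent.Lib.MP_f9aece_nt_r3.TsmLower
import Pool.Agent.Lib.MP_f9aece_nt_r3.NForms
import Pool.Agent.Lib.MP_f9aece_nt_r3.DiffForms

/-!
S9: the energies of stage 3.
-/

set_option autoImplicit false

namespace Pool.Agent.Lib.MP_f9aece_nt_r3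

namespace Energies

open MeasureTheory Set Filter Topology Complex
open Pool.Agent.Lib.MP_f9aece_nt
open Pool.Agent.Lib.MP_f9aece_nt_h97
open Pool.Agent.Lib.MP_f9aece_nt_h22 (J1 J1_le)
open Pool.Agent.Lib.MP_f9aece_nt_h85 (DLB)
open Pool.Agent.Lib.MP_f9aece_nt_h40 (C6 C6_pos er CL CL_pos DD3_K2L logKer_KL DD_zero)
open Pool.Agent.Lib.MP_f9aece_nt_rt (log_pow_le tsm_rate)

lemma NN_zero (a : ℝ) (m p0 : ℕ) (Y : ℝ) (J : ℕ) : NN a m p0 Y 0 J = DD m p0 a Y J := by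
  unfold NN DD qb
  rw [Finset.range_eq_Ico]

lemma VI_zero (p0 : ℕ) (Y : ℝ) (J : ℕ) :
    VI p0 Y 0 J = ∑ j ∈ Finset.range J, VV (sc Y p0 j) := by
  unfold VI
  rw [Finset.range_eq_Ico]

lemma VV_nonneg (I : Finset ℕ) : 0 ≤ VV I := Finset.sum_nonneg fun p _ => by positivity

lemma VI_nonneg (p0 : ℕ) (Y : ℝ) (l J : ℕ) : 0 ≤ VI p0 Y l J :=
  Finset.sum_nonneg fun _ _ => VV_nonneg _

lemma VI_le {Y : ℝ} (hY : 0 < Y) (p0 J : ℕ) : VI p0 Y 0 J ≤ 1 + Y := by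
  rw [VI_zero]
  exact sum_VV_le hY p0 J

/-- two sided bound for the twisted second moment -/
lemma tsm_two : ∃ C0 : ℝ, 1 ≤ C0 ∧ ∃ N : ℕ, ∀ ε : ℝ, 0 < ε → ε ≤ 1 → ∀ T : ℝ,
    C0 * (1 / ε) ^ N ≤ T → ∀ (D : DP) (H : ℝ), 1 ≤ H →
    (∀ n, D.coeff n ≠ 0 → 1 ≤ n ∧ (n : ℝ) ≤ H) → 0 ≤ BK K2 D D →
    |(∫ t in (0 : ℝ)..T, ‖riemannZeta (1 / 2 + I * t) * ev t D‖ ^ 2)
        - T * (Real.log T * BK K2 D D)|
      ≤ T * (ε * Real.log T * BK K2 D D + 2 * |BK KL D D| + C0 * (1 / ε) ^ N * BK K2 D D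
        + C0 * (1 / ε) ^ N * (nrm D * H) ^ 2 / T ^ (1 / 16 : ℝ)) := by
  obtain ⟨C1, hC1, N1, h1⟩ := tsm_rate
  obtain ⟨C2, hC2, N2, h2⟩ := tsm_lower
  refine ⟨max C1 C2, hC1.trans (le_max_left _ _), max N1 N2, ?_⟩
  intro ε hε hε1 T hT D H hH hD hK
  have hi1 : 1 ≤ 1 / ε := by rw [le_div_iff₀ hε]; linarith
  obtain ⟨Z, hZ⟩ : ∃ Z, Z = max C1 C2 * (1 / ε) ^ max N1 N2 := ⟨_, rfl⟩
  have hM0 : 1 ≤ max C1 C2 := hC1.trans (le_max_left _ _)
  have z1 : C1 * (1 / ε) ^ N1 ≤ Z := by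
    rw [hZ]
    have a1 : (1 / ε) ^ N1 ≤ (1 / ε) ^ max N1 N2 := pow_le_pow_right₀ hi1 (le_max_left _ _)
    have a2 : C1 ≤ max C1 C2 := le_max_left _ _
    gcongr
  have z2 : C2 * (1 / ε) ^ N2 ≤ Z := by
    rw [hZ]
    have a1 : (1 / ε) ^ N2 ≤ (1 / ε) ^ max N1 N2 := pow_le_pow_right₀ hi1 (le_max_right _ _)
    have a2 : C2 ≤ max C1 C2 := le_max_right _ _
    gcongr
  rw [← hZ] at hT ⊢
  have hZ1 : 1 ≤ Z := by
    rw [hZ]
    have a1 : (1 : ℝ) ≤ (1 / ε) ^ max N1 N2 := one_le_pow₀ hi1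
    exact one_le_mul_of_one_le_of_one_le hM0 a1
  have hT1 : 1 ≤ T := hZ1.trans hT
  have hT0 : 0 < T := by linarith
  have hx : 0 ≤ Real.log T := Real.log_nonneg hT1
  have k1 := h1 ε hε hε1 T (z1.trans hT) D H hH hD
  have k2 := h2 ε hε hε1 T (z2.trans hT) D H hH hD
  rw [abs_of_nonneg hK] at k1 k2
  have hE : 0 ≤ (nrm D * H) ^ 2 / T ^ (1 / 16 : ℝ) := by positivity
  have hL : 0 ≤ |BK KL D D| := abs_nonneg _
  rw [mul_div_assoc] at k1 k2 ⊢
  rw [abs_le]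
  constructor
  · have e1 : C2 * (1 / ε) ^ N2 * BK K2 D D ≤ Z * BK K2 D D := by gcongr
    have e2 : C2 * (1 / ε) ^ N2 * ((nrm D * H) ^ 2 / T ^ (1 / 16 : ℝ))
        ≤ Z * ((nrm D * H) ^ 2 / T ^ (1 / 16 : ℝ)) := by gcongr
    have e3 : T * (Real.log T * BK K2 D D - ε * Real.log T * BK K2 D D - 2 * |BK KL D D|
        - Z * BK K2 D D - Z * ((nrm D * H) ^ 2 / T ^ (1 / 16 : ℝ)))
        ≤ T * (Real.log T * BK K2 D D - ε * Real.log T * BK K2 D D - 2 * |BK KL D D|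
        - C2 * (1 / ε) ^ N2 * BK K2 D D
        - C2 * (1 / ε) ^ N2 * ((nrm D * H) ^ 2 / T ^ (1 / 16 : ℝ))) := by
      apply mul_le_mul_of_nonneg_left _ hT0.le
      linarith
    linarith
  · have e1 : C1 * (1 / ε) ^ N1 * BK K2 D D ≤ Z * BK K2 D D := by gcongr
    have e2 : C1 * (1 / ε) ^ N1 * ((nrm D * H) ^ 2 / T ^ (1 / 16 : ℝ))
        ≤ Z * ((nrm D * H) ^ 2 / T ^ (1 / 16 : ℝ)) := by gcongr
    have e4 : (1 + ε) * |BK KL D D| ≤ 2 * |BK KL D D| := by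
      apply mul_le_mul_of_nonneg_right _ hL
      linarith
    have e3 : T * ((1 + ε) * (Real.log T * BK K2 D D + |BK KL D D|)
        + C1 * (1 / ε) ^ N1 * BK K2 D D
        + C1 * (1 / ε) ^ N1 * ((nrm D * H) ^ 2 / T ^ (1 / 16 : ℝ)))
        ≤ T * (Real.log T * BK K2 D D + ε * Real.log T * BK K2 D D + 2 * |BK KL D D|
        + Z * BK K2 D D + Z * ((nrm D * H) ^ 2 / T ^ (1 / 16 : ℝ))) := by
      apply mul_le_mul_of_nonneg_left _ hT0.le
      linarith
    linarith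

/-- upper bound for the twisted second moment -/
lemma tsm_up : ∃ C0 : ℝ, 1 ≤ C0 ∧ ∀ T : ℝ,
    C0 ≤ T → ∀ (D : DP) (H : ℝ), 1 ≤ H →
    (∀ n, D.coeff n ≠ 0 → 1 ≤ n ∧ (n : ℝ) ≤ H) →
    (∫ t in (0 : ℝ)..T, ‖riemannZeta (1 / 2 + I * t) * ev t D‖ ^ 2)
      ≤ C0 * T * ((Real.log T + 1) * |BK K2 D D| + |BK KL D D|
        + (nrm D * H) ^ 2 / T ^ (1 / 16 : ℝ)) := by
  obtain ⟨C1, hC1, N1, h1⟩ := tsm_rate
  refine ⟨2 * C1 , by linarith, ?_⟩
  intro T hT D H hH hD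
  have hT1 : 1 ≤ T := by linarith
  have hT0 : 0 < T := by linarith
  have hx : 0 ≤ Real.log T := Real.log_nonneg hT1
  have k1 := h1 1 one_pos le_rfl T (by rw [div_one, one_pow, mul_one]; linarith) D H hH hD
  rw [div_one, one_pow, mul_one, mul_div_assoc] at k1
  refine k1.trans ?_
  have hE : 0 ≤ (nrm D * H) ^ 2 / T ^ (1 / 16 : ℝ) := by positivity
  have hL : 0 ≤ |BK KL D D| := abs_nonneg _
  have hS : 0 ≤ |BK K2 D D| := abs_nonneg _
  have hxS : 0 ≤ Real.log T * |BK K2 D D| := mul_nonneg hx hS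
  have e : T * ((1 + 1) * (Real.log T * |BK K2 D D| + |BK KL D D|)
        + C1 * |BK K2 D D| + C1 * ((nrm D * H) ^ 2 / T ^ (1 / 16 : ℝ)))
      ≤ T * (2 * C1 * ((Real.log T + 1) * |BK K2 D D| + |BK KL D D|
        + (nrm D * H) ^ 2 / T ^ (1 / 16 : ℝ))) := by
    apply mul_le_mul_of_nonneg_left _ hT0.le
    nlinarith only [hC1, hE, hL, hS, hxS]
  linarith

/-- the lengths are negligible -/
lemma err_le {m : ℕ} {A : ℝ} (hA0 : 2000 ≤ A) (hA : 2000 * m ≤ A) : ∃ T0 : ℝ, 16 ≤ T0 ∧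
    ∀ T : ℝ, T0 ≤ T → 1 ≤ Real.log T / A ∧ 16 ≤ Real.log T ∧ ∀ (p0 : ℕ) (q : ℝ), -(3 / 4) ≤ q →
    Real.exp (8 * J1 (Real.log T / A) + 32 * m * (Real.log T / A)) / T ^ (1 / 16 : ℝ)
      ≤ (Real.log T)⁻¹ * Real.exp (q * VI p0 (Real.log T / A) 0 (J1 (Real.log T / A))) := by
  obtain ⟨x0, hx16, hx0⟩ := log_pow_le 450 1
  refine ⟨Real.exp (max (max x0 A) 500), ?_, ?_⟩
  · have h1 : (500 : ℝ) ≤ max (max x0 A) 500 := le_max_right _ _
    have h2 := Real.add_one_le_exp (max (max x0 A) 500)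
    linarith
  intro T hT
  have hT0 : 0 < T := (Real.exp_pos _).trans_le hT
  have hx : max (max x0 A) 500 ≤ Real.log T := by rwa [Real.le_log_iff_exp_le hT0]
  obtain ⟨x, hxd⟩ : ∃ x, x = Real.log T := ⟨_, rfl⟩
  rw [← hxd] at hx ⊢
  have h1 : x0 ≤ x := (le_max_left _ _).trans ((le_max_left _ _).trans hx)
  have h2 : A ≤ x := (le_max_right _ _).trans ((le_max_left _ _).trans hx)
  have h3 : 500 ≤ x := (le_max_right _ _).trans hx
  have hx0' : 0 < x := by linarith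
  have hA00 : 0 < A := by linarith
  have hY1 : 1 ≤ x / A := by rwa [one_le_div hA00]
  refine ⟨hY1, by linarith, ?_⟩
  intro p0 q hq
  have hlog := hx0 x h1
  rw [pow_one] at hlog
  have hJ := J1_le hY1
  have hJ2 : Real.log (x / A) ≤ Real.log x :=
    Real.log_le_log (by positivity) (div_le_self hx0'.le (by linarith))
  have hmY : 32 * m * (x / A) ≤ 32 / 2000 * x := by
    have h5 : (m : ℝ) * (x / A) ≤ x / 2000 := by
      rw [mul_div_assoc', div_le_div_iff₀ hA00 (by norm_num)]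
      nlinarith only [hA, hx0']
    linarith
  have hYx : x / A ≤ x / 2000 := div_le_div_of_nonneg_left hx0'.le (by norm_num) hA0
  have hV1 := VI_le (by positivity : 0 < x / A) p0 (J1 (x / A))
  have hV0 := VI_nonneg p0 (x / A) 0 (J1 (x / A))
  have hqV : -(3 / 4) * (1 + x / 2000) ≤ q * VI p0 (x / A) 0 (J1 (x / A)) := by
    have e1 : -(3 / 4) * VI p0 (x / A) 0 (J1 (x / A)) ≤ q * VI p0 (x / A) 0 (J1 (x / A)) :=
      mul_le_mul_of_nonneg_right hq hV0
    linarith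
  have eT : T ^ (1 / 16 : ℝ) = Real.exp (x / 16) := by
    rw [Real.rpow_def_of_pos hT0, ← hxd]
    congr 1
    ring
  have exi : (x)⁻¹ = Real.exp (-Real.log x) := by
    rw [Real.exp_neg, Real.exp_log hx0']
  rw [eT, exi, ← Real.exp_sub, ← Real.exp_add]
  apply Real.exp_le_exp.mpr
  linarith

lemma exp_sub_one_le {C a : ℝ} (hC : 0 ≤ C) (ha : |a| ≤ 1) :
    Real.exp (C * |a|) - 1 ≤ C * Real.exp C * |a| := by
  have h0 : 0 ≤ C * |a| := by positivity
  have h1 : C * |a| ≤ C := mul_le_of_le_one_right hC ha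
  have h2 := Real.add_one_le_exp (-(C * |a|))
  have h3 : Real.exp (C * |a|) * Real.exp (-(C * |a|)) = 1 := by
    rw [← Real.exp_add, add_neg_cancel, Real.exp_zero]
  have h4 : Real.exp (C * |a|) ≤ Real.exp C := Real.exp_le_exp.mpr h1
  have h5 : 0 < Real.exp (C * |a|) := Real.exp_pos _
  have h6 := mul_le_mul_of_nonneg_left h2 h5.le
  rw [h3] at h6
  have h7 := mul_le_mul_of_nonneg_left h4 h0
  linarith

lemma q_bounds {a : ℝ} (ha : |a| ≤ 1 / 8) : -(17 / 64) ≤ 2 * a + a ^ 2 ∧ 2 * a + a ^ 2 ≤ 17 / 64 := by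
  rw [abs_le] at ha
  constructor <;> nlinarith

theorem diff_energy : ∃ m1 p1 : ℕ, ∀ m : ℕ, m1 ≤ m → ∀ p0 : ℕ, p1 ≤ p0 → ∀ A : ℝ, 2000 * m ≤ A →
    ∃ C T0 : ℝ, 0 ≤ C ∧ 16 ≤ T0 ∧ ∀ T : ℝ, T0 ≤ T → ∀ a : ℝ, |a| ≤ 1 / 8 → ∀ l j r : ℕ, j < l →
    l ≤ J1 (Real.log T / A) → r = 1 ∨ r = 2 →
    ∫ t in (0 : ℝ)..T, ‖riemannZeta (1 / 2 + I * t)
        * ev t (RR a m p0 (Real.log T / A) (J1 (Real.log T / A)) l j r)‖ ^ 2
      ≤ C * |a| ^ (2 * r) * Real.exp (C * |a| * l) * UU a p0 (Real.log T / A) (J1 (Real.log T / A)) T := by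
  obtain ⟨C, hC, m1, p1, h⟩ := rforms
  obtain ⟨C0, hC0, hup⟩ := tsm_up
  refine ⟨max m1 1, p1, fun m hm p0 hp0 A hA => ?_⟩
  have hm1 : 1 ≤ m := (le_max_right _ _).trans hm
  have hA0 : 2000 ≤ A := by
    have : (1 : ℝ) ≤ m := by exact_mod_cast hm1
    linarith
  obtain ⟨T1, hT16, hT1⟩ := err_le hA0 hA
  refine ⟨C + C0 * (4 * C + 1), max T1 C0, by positivity, hT16.trans (le_max_left _ _), ?_⟩
  intro T hT a ha l j r hjl hlJ hr
  obtain ⟨hY1, hx16, herr⟩ := hT1 T ((le_max_left _ _).trans hT)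
  obtain ⟨x, hx⟩ : ∃ x, x = Real.log T := ⟨_, rfl⟩
  have hT00 : 0 < T := by linarith [(le_max_right T1 C0).trans hT]
  rw [← hx] at hlJ hY1 hx16 herr ⊢
  have hA00 : 0 < A := by linarith
  have hY0 : 0 < x / A := by linarith
  obtain ⟨k1, k2, k3, k4⟩ := h m ((le_max_left _ _).trans hm) p0 hp0 a ha (x / A) hY0 (J1 (x / A)) l j r
    hjl hlJ hr
  have k5 := hup T ((le_max_right _ _).trans hT) (RR a m p0 (x / A) (J1 (x / A)) l j r)
    (Real.exp (8 * m * (x / A))) (Real.one_le_exp (by positivity)) k3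
  rw [← hx] at k5
  obtain ⟨E, hE⟩ : ∃ E, E = Real.exp ((2 * a + a ^ 2) * VI p0 (x / A) 0 (J1 (x / A))) := ⟨_, rfl⟩
  have hE0 : 0 < E := by rw [hE]; exact Real.exp_pos _
  have ke := herr p0 (2 * a + a ^ 2) (by linarith [(q_bounds ha).1])
  rw [← hE] at k1 k2 ke
  obtain ⟨R, hR⟩ : ∃ R, R = Real.exp (C * |a| * l) := ⟨_, rfl⟩
  rw [← hR] at k1 k2
  have hR1 : 1 ≤ R := by rw [hR]; exact Real.one_le_exp (by positivity)
  obtain ⟨P, hP⟩ : ∃ P, P = |a| ^ (2 * r) := ⟨_, rfl⟩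
  have hP0 : 0 ≤ P := by rw [hP]; positivity
  rw [← hP] at k1 k2
  -- the error
  have herr2 : (nrm (RR a m p0 (x / A) (J1 (x / A)) l j r) * Real.exp (8 * m * (x / A))) ^ 2
      / T ^ (1 / 16 : ℝ) ≤ P * E := by
    have hn0 : 0 ≤ nrm (RR a m p0 (x / A) (J1 (x / A)) l j r) :=
      Finset.sum_nonneg fun _ _ => abs_nonneg _
    have e1 : (nrm (RR a m p0 (x / A) (J1 (x / A)) l j r) * Real.exp (8 * m * (x / A))) ^ 2
        ≤ P * Real.exp (8 * J1 (x / A) + 32 * m * (x / A)) := by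
      calc (nrm (RR a m p0 (x / A) (J1 (x / A)) l j r) * Real.exp (8 * m * (x / A))) ^ 2
          ≤ (|a| ^ r * Real.exp (4 * J1 (x / A) + 8 * m * (x / A))
              * Real.exp (8 * m * (x / A))) ^ 2 := by gcongr
        _ = (|a| ^ r) ^ 2 * Real.exp (4 * J1 (x / A) + 8 * m * (x / A) + 8 * m * (x / A)) ^ 2 := by
            rw [mul_assoc, ← Real.exp_add, mul_pow]
        _ = P * Real.exp (8 * J1 (x / A) + 32 * m * (x / A)) := by
            have e3 : Real.exp (4 * J1 (x / A) + 8 * m * (x / A) + 8 * m * (x / A)) ^ 2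
                = Real.exp (8 * J1 (x / A) + 32 * m * (x / A)) := by
              rw [← Real.exp_nat_mul]
              congr 1
              push_cast
              ring
            rw [e3, hP, ← pow_mul, mul_comm r 2]
    calc _ ≤ P * Real.exp (8 * J1 (x / A) + 32 * m * (x / A)) / T ^ (1 / 16 : ℝ) := by gcongr
      _ = P * (Real.exp (8 * J1 (x / A) + 32 * m * (x / A)) / T ^ (1 / 16 : ℝ)) := by ring
      _ ≤ P * (x⁻¹ * E) := by gcongr
      _ ≤ P * (1 * E) := by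
          have : x⁻¹ ≤ 1 := inv_le_one_of_one_le₀ (by linarith)
          gcongr
      _ = P * E := by ring
  have hYx : x / A + 1 ≤ x := by
    have h1 : x / A ≤ x / 2000 := div_le_div_of_nonneg_left (by linarith) (by norm_num) hA0
    linarith
  have hUU : UU a p0 (x / A) (J1 (x / A)) T = T * x * E := by
    unfold UU
    rw [← hx, ← hE]
  have hRR : R ≤ Real.exp ((C + C0 * (4 * C + 1)) * |a| * l) := by
    rw [hR]
    apply Real.exp_le_exp.mpr
    have : 0 ≤ C0 * (4 * C + 1) := by positivity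
    gcongr
    linarith
  rw [hUU, ← hP]
  refine k5.trans ?_
  have hb : (x + 1) * |BK K2 (RR a m p0 (x / A) (J1 (x / A)) l j r)
        (RR a m p0 (x / A) (J1 (x / A)) l j r)|
      + |BK KL (RR a m p0 (x / A) (J1 (x / A)) l j r) (RR a m p0 (x / A) (J1 (x / A)) l j r)|
      + (nrm (RR a m p0 (x / A) (J1 (x / A)) l j r) * Real.exp (8 * m * (x / A))) ^ 2
      / T ^ (1 / 16 : ℝ) ≤ (4 * C + 1) * (P * R * (x * E)) := by
    have hx0 : 0 < x := by linarith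
    have c1 : (x + 1) * |BK K2 (RR a m p0 (x / A) (J1 (x / A)) l j r)
        (RR a m p0 (x / A) (J1 (x / A)) l j r)| ≤ 2 * x * (C * P * R * E) := by
      gcongr
      linarith
    have c2 : C * P * R * (x / A + 1) * E ≤ C * P * R * x * E := by gcongr
    have c3 : P * E ≤ P * R * (x * E) := by
      calc P * E = P * 1 * (1 * E) := by ring
        _ ≤ P * R * (x * E) := by
            gcongr
            linarith
    have c4 : 0 ≤ C * P * R * x * E := by positivity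
    calc _ ≤ 2 * x * (C * P * R * E) + C * P * R * x * E + P * R * (x * E) :=
          add_le_add (add_le_add c1 (k2.trans c2)) (herr2.trans c3)
      _ ≤ _ := by linarith
  have hC00 : 0 ≤ C0 * T := by positivity
  calc C0 * T * ((x + 1) * |BK K2 (RR a m p0 (x / A) (J1 (x / A)) l j r)
        (RR a m p0 (x / A) (J1 (x / A)) l j r)|
      + |BK KL (RR a m p0 (x / A) (J1 (x / A)) l j r) (RR a m p0 (x / A) (J1 (x / A)) l j r)|
      + (nrm (RR a m p0 (x / A) (J1 (x / A)) l j r) * Real.exp (8 * m * (x / A))) ^ 2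
      / T ^ (1 / 16 : ℝ)) ≤ C0 * T * ((4 * C + 1) * (P * R * (x * E))) :=
        mul_le_mul_of_nonneg_left hb hC00
    _ = (C0 * (4 * C + 1)) * P * R * (T * x * E) := by ring
    _ ≤ (C + C0 * (4 * C + 1)) * P * Real.exp ((C + C0 * (4 * C + 1)) * |a| * l) * (T * x * E) := by
        have hx0 : 0 < x := by linarith
        gcongr
        linarith

theorem main_energy : ∃ m1 p1 : ℕ, ∀ m : ℕ, m1 ≤ m → ∀ p0 : ℕ, p1 ≤ p0 → ∀ A : ℝ, 2000 * m ≤ A →
    ∃ C c T0 : ℝ, 0 ≤ C ∧ 0 < c ∧ 16 ≤ T0 ∧ ∀ T : ℝ, T0 ≤ T → ∀ a : ℝ, |a| ≤ 1 / 8 →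
    |(∫ t in (0 : ℝ)..T, ‖riemannZeta (1 / 2 + I * t)
        * ev t (NN a m p0 (Real.log T / A) 0 (J1 (Real.log T / A)))‖ ^ 2)
        - UU a p0 (Real.log T / A) (J1 (Real.log T / A)) T|
      ≤ C * (|a| + Real.log T ^ (-c)) * UU a p0 (Real.log T / A) (J1 (Real.log T / A)) T := by
  obtain ⟨C, hC, m1, p1, h⟩ := nforms
  obtain ⟨C0, hC0, N, htwo⟩ := tsm_two
  refine ⟨max m1 1, p1, fun m hm p0 hp0 A hA => ?_⟩
  have hm1 : 1 ≤ m := (le_max_right _ _).trans hm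
  have hA0 : 2000 ≤ A := by
    have : (1 : ℝ) ≤ m := by exact_mod_cast hm1
    linarith
  have hA00 : 0 < A := by linarith
  obtain ⟨T1, hT16, hT1⟩ := err_le hA0 hA
  obtain ⟨c, hc⟩ : ∃ c : ℝ, c = 1 / (2 * (N + 1)) := ⟨_, rfl⟩
  have hc0 : 0 < c := by rw [hc]; positivity
  have hc2 : c ≤ 1 / 2 := by
    rw [hc]
    apply one_div_le_one_div_of_le (by norm_num)
    have : (0 : ℝ) ≤ N := Nat.cast_nonneg _
    linarith
  have hcN : c * N ≤ 1 / 2 := by
    rw [hc, div_mul_eq_mul_div, one_mul, div_le_div_iff₀ (by positivity) (by norm_num)]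
    linarith
  obtain ⟨K, hK⟩ : ∃ K, K = (C * Real.exp C + 2 * C) + (Real.exp C + C0 * Real.exp C + C0) :=
    ⟨_, rfl⟩
  have hK0 : 0 ≤ K := by rw [hK]; positivity
  refine ⟨K, c, max T1 (Real.exp (C0 + 1)), hK0, hc0, hT16.trans (le_max_left _ _), ?_⟩
  intro T hT a ha
  obtain ⟨hY1, hx16, herr⟩ := hT1 T ((le_max_left _ _).trans hT)
  have hT00 : 0 < T := (Real.exp_pos _).trans_le ((le_max_right _ _).trans hT)
  have hxC : C0 + 1 ≤ Real.log T := by
    rw [Real.le_log_iff_exp_le hT00]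
    exact (le_max_right _ _).trans hT
  have hxT : Real.exp (Real.log T) = T := Real.exp_log hT00
  obtain ⟨x, hx⟩ : ∃ x, x = Real.log T := ⟨_, rfl⟩
  rw [← hx] at hxT hxC hY1 hx16 herr ⊢
  have hx0 : 0 < x := by linarith
  have hY0 : 0 < x / A := by linarith
  obtain ⟨k1, k2, k3⟩ := h m ((le_max_left _ _).trans hm) p0 hp0 a ha (x / A) hY0 0 (J1 (x / A))
  obtain ⟨E, hE⟩ : ∃ E, E = Real.exp ((2 * a + a ^ 2) * VI p0 (x / A) 0 (J1 (x / A))) := ⟨_, rfl⟩
  have hE0 : 0 < E := by rw [hE]; exact Real.exp_pos _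
  have ke := herr p0 (2 * a + a ^ 2) (by linarith [(q_bounds ha).1])
  rw [pow_zero, div_one, ← hE] at k3
  rw [Real.exp_sub, ← hE] at k1
  rw [Real.exp_add, ← hE] at k2
  rw [← hE] at ke
  have ha1 : |a| ≤ 1 := by linarith
  have ha0 : 0 ≤ |a| := abs_nonneg a
  obtain ⟨D, hD⟩ : ∃ D, D = NN a m p0 (x / A) 0 (J1 (x / A)) := ⟨_, rfl⟩
  rw [← hD] at k1 k2 k3 ⊢
  have hdl : DLB D (2 * m * (x / A)) (J1 (x / A) + 2 * m * (x / A)) := by
    rw [hD, NN_zero]
    exact DLB.DD hY0 m p0 ha1 (J1 (x / A))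
  have hK20 : 0 ≤ BK K2 D D := le_trans (by positivity) k1
  -- the parameter
  obtain ⟨ε, hε⟩ : ∃ ε, ε = x ^ (-c) := ⟨_, rfl⟩
  have hε0 : 0 < ε := by rw [hε]; positivity
  have hε1 : ε ≤ 1 := by
    rw [hε]
    exact Real.rpow_le_one_of_one_le_of_nonpos (by linarith) (by linarith)
  have hεN : (1 / ε) ^ N = x ^ (c * N) := by
    rw [hε, Real.rpow_neg hx0.le, one_div, inv_inv, ← Real.rpow_natCast, ← Real.rpow_mul hx0.le]
  have hεN1 : (1 / ε) ^ N ≤ x ^ (1 / 2 : ℝ) := by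
    rw [hεN]
    exact Real.rpow_le_rpow_of_exponent_le (by linarith) hcN
  have hεN2 : (1 / ε) ^ N ≤ x * ε := by
    refine hεN1.trans ?_
    rw [hε]
    have e1 : x * x ^ (-c) = x ^ (1 + -c) := by rw [Real.rpow_add hx0, Real.rpow_one]
    rw [e1]
    exact Real.rpow_le_rpow_of_exponent_le (by linarith) (by linarith)
  have hεN0 : 0 ≤ (1 / ε) ^ N := by positivity
  have hTbig : C0 * (1 / ε) ^ N ≤ T := by
    have e1 : (1 / ε) ^ N ≤ x := hεN2.trans (mul_le_of_le_one_right hx0.le hε1)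
    have e2 : C0 * (1 / ε) ^ N ≤ x * x := by
      calc C0 * (1 / ε) ^ N ≤ (C0 + 1) * (1 / ε) ^ N := by gcongr; linarith
        _ ≤ x * x := by gcongr
    have e3 : x * x ≤ T := by
      have h3 := Real.quadratic_le_exp_of_nonneg hx0.le
      have h4 := Real.add_one_le_exp (x / 4)
      have h5 : Real.exp x = Real.exp (x / 4) ^ 4 := by
        rw [← Real.exp_nat_mul]
        congr 1
        push_cast
        ring
      rw [hxT] at h5
      rw [h5]
      have h6 : x / 4 ≤ Real.exp (x / 4) := by linarith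
      have h7 : (x / 4) ^ 4 ≤ Real.exp (x / 4) ^ 4 := by gcongr
      refine le_trans ?_ h7
      have h8 : x * x ≤ x * x * (x ^ 2 / 256) := by
        apply le_mul_of_one_le_right (by positivity)
        rw [one_le_div (by norm_num)]
        nlinarith only [hx16]
      calc x * x ≤ x * x * (x ^ 2 / 256) := h8
        _ = _ := by ring
    exact e2.trans e3
  have hH1 : 1 ≤ Real.exp (2 * m * (x / A)) := Real.one_le_exp (by positivity)
  have key := htwo ε hε0 hε1 T hTbig D (Real.exp (2 * m * (x / A))) hH1 hdl.supp hK20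
  rw [← hx] at key
  -- the error
  have herr2 : (nrm D * Real.exp (2 * m * (x / A))) ^ 2 / T ^ (1 / 16 : ℝ) ≤ x⁻¹ * E := by
    refine le_trans ?_ ke
    have e1 : (nrm D * Real.exp (2 * m * (x / A))) ^ 2
        ≤ Real.exp (8 * J1 (x / A) + 32 * m * (x / A)) := by
      have hn0 : 0 ≤ nrm D := Finset.sum_nonneg fun _ _ => abs_nonneg _
      have hmY : 0 ≤ (m : ℝ) * (x / A) := by positivity
      have hJ0 : (0 : ℝ) ≤ J1 (x / A) := Nat.cast_nonneg _
      calc (nrm D * Real.exp (2 * m * (x / A))) ^ 2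
          ≤ (Real.exp (J1 (x / A) + 2 * m * (x / A)) * Real.exp (2 * m * (x / A))) ^ 2 := by
            have := hdl.nrm_le
            gcongr
        _ = Real.exp (2 * (J1 (x / A) + 2 * m * (x / A) + 2 * m * (x / A))) := by
            rw [← Real.exp_add, ← Real.exp_nat_mul]
            congr 1
        _ ≤ _ := by
            apply Real.exp_le_exp.mpr
            linarith
    gcongr
  have hUU : UU a p0 (x / A) (J1 (x / A)) T = T * x * E := by
    unfold UU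
    rw [← hx, ← hE]
  rw [hUU]
  -- the form
  obtain ⟨S, hS⟩ : ∃ S, S = BK K2 D D := ⟨_, rfl⟩
  rw [← hS] at k1 k2 key hK20
  have hSle : S ≤ E * Real.exp C := by
    refine k2.trans ?_
    have : C * |a| ≤ C := mul_le_of_le_one_right hC ha1
    gcongr
  have hSd : |S - E| ≤ C * Real.exp C * |a| * E := by
    have e1 := exp_sub_one_le hC ha1
    have e2 : 0 < Real.exp (C * |a|) := Real.exp_pos _
    rw [abs_le]
    constructor
    · have e3 : E - E / Real.exp (C * |a|) ≤ E * (Real.exp (C * |a|) - 1) := by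
        have e4 : E / Real.exp (C * |a|) = E * Real.exp (-(C * |a|)) := by
          rw [Real.exp_neg]; rfl
        rw [e4]
        have e5 := Real.add_one_le_exp (-(C * |a|))
        have e6 := Real.add_one_le_exp (C * |a|)
        have e7 : 1 - Real.exp (-(C * |a|)) ≤ Real.exp (C * |a|) - 1 := by linarith only [e5, e6]
        calc E - E * Real.exp (-(C * |a|)) = E * (1 - Real.exp (-(C * |a|))) := by ring
          _ ≤ _ := mul_le_mul_of_nonneg_left e7 hE0.le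
      have e4 : E * (Real.exp (C * |a|) - 1) ≤ E * (C * Real.exp C * |a|) := by gcongr
      linarith
    · have e4 : E * (Real.exp (C * |a|) - 1) ≤ E * (C * Real.exp C * |a|) := by gcongr
      linarith
  have hYx : x / A + 1 ≤ x := by
    have h1 : x / A ≤ x / 2000 := div_le_div_of_nonneg_left (by linarith) (by norm_num) hA0
    linarith
  -- collect
  have c1 : ε * x * S ≤ ε * x * (E * Real.exp C) := by gcongr
  have c2 : 2 * |BK KL D D| ≤ 2 * (C * |a| * x * E) := by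
    have : C * |a| * (x / A + 1) * E ≤ C * |a| * x * E := by gcongr
    linarith
  have c3 : C0 * (1 / ε) ^ N * S ≤ C0 * (x * ε) * (E * Real.exp C) := by gcongr
  have c4 : C0 * (1 / ε) ^ N * (nrm D * Real.exp (2 * m * (x / A))) ^ 2 / T ^ (1 / 16 : ℝ)
      ≤ C0 * (x * ε) * E := by
    rw [mul_div_assoc]
    have : x⁻¹ * E ≤ 1 * E := by
      have : x⁻¹ ≤ 1 := inv_le_one_of_one_le₀ (by linarith)
      gcongr
    calc _ ≤ C0 * (x * ε) * (x⁻¹ * E) := by gcongr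
      _ ≤ C0 * (x * ε) * (1 * E) := by gcongr
      _ = _ := by ring
  have key2 : |(∫ t in (0 : ℝ)..T, ‖riemannZeta (1 / 2 + I * t) * ev t D‖ ^ 2) - T * (x * S)|
      ≤ T * (ε * x * (E * Real.exp C) + 2 * (C * |a| * x * E) + C0 * (x * ε) * (E * Real.exp C)
        + C0 * (x * ε) * E) := by
    refine key.trans (mul_le_mul_of_nonneg_left ?_ hT00.le)
    linarith
  have key3 : |T * (x * S) - T * x * E| ≤ T * x * (C * Real.exp C * |a| * E) := by
    have e1 : T * (x * S) - T * x * E = T * x * (S - E) := by ring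
    rw [e1, abs_mul, abs_of_pos (by positivity : 0 < T * x)]
    gcongr
  have key4 := abs_sub_le (∫ t in (0 : ℝ)..T, ‖riemannZeta (1 / 2 + I * t) * ev t D‖ ^ 2)
    (T * (x * S)) (T * x * E)
  refine key4.trans ((add_le_add key2 key3).trans ?_)
  rw [← hε, hK]
  have hTxE : 0 ≤ T * x * E := by positivity
  have r1 : 0 ≤ C * Real.exp C * ε * (T * x * E) := by positivity
  have r2 : 0 ≤ 2 * C * ε * (T * x * E) := by positivity
  have r3 : 0 ≤ (Real.exp C + C0 * Real.exp C + C0) * |a| * (T * x * E) := by positivity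
  have r4 : T * (ε * x * (E * Real.exp C) + 2 * (C * |a| * x * E) + C0 * (x * ε) * (E * Real.exp C)
        + C0 * (x * ε) * E) + T * x * (C * Real.exp C * |a| * E)
      = (C * Real.exp C + 2 * C) * |a| * (T * x * E)
        + (Real.exp C + C0 * Real.exp C + C0) * ε * (T * x * E) := by ring
  rw [r4]
  have r5 : ((C * Real.exp C + 2 * C) + (Real.exp C + C0 * Real.exp C + C0)) * (|a| + ε)
      * (T * x * E) = (C * Real.exp C + 2 * C) * |a| * (T * x * E)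
        + (Real.exp C + C0 * Real.exp C + C0) * ε * (T * x * E)
        + (C * Real.exp C * ε * (T * x * E) + 2 * C * ε * (T * x * E)
          + (Real.exp C + C0 * Real.exp C + C0) * |a| * (T * x * E)) := by ring
  rw [r5]
  linarith

theorem quad_energy : ∃ m1 p1 : ℕ, ∀ m : ℕ, m1 ≤ m → ∀ p0 : ℕ, p1 ≤ p0 → ∀ A : ℝ, 2000 * m ≤ A →
    ∃ C T0 : ℝ, 0 ≤ C ∧ 16 ≤ T0 ∧ ∀ T : ℝ, T0 ≤ T → ∀ a : ℝ, |a| ≤ 1 / 8 →
    ∫ t in (0 : ℝ)..T, ‖riemannZeta (1 / 2 + I * t)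
        * ev t (NN a m p0 (Real.log T / A) 0 (J1 (Real.log T / A))
          * NN a m p0 (Real.log T / A) 0 (J1 (Real.log T / A)))‖ ^ 2
      ≤ C * (T * Real.log T
        * Real.exp ((4 * a + 4 * a ^ 2) * VI p0 (Real.log T / A) 0 (J1 (Real.log T / A)))) := by
  obtain ⟨C0, hC0, hup⟩ := tsm_up
  obtain ⟨m1, hm1⟩ := exists_pow_lt_of_lt_one (K := ℝ) (show 0 < 1 / (2 * C6) by
    have := C6_pos; positivity) (show (1 / 2 : ℝ) < 1 by norm_num)
  refine ⟨max m1 1, 1, fun m hm p0 hp0 A hA => ?_⟩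
  have hm1' : 1 ≤ m := (le_max_right _ _).trans hm
  have hA0 : 2000 ≤ A := by
    have : (1 : ℝ) ≤ m := by exact_mod_cast hm1'
    linarith
  have hA00 : 0 < A := by linarith
  have hC6 := C6_pos
  have hm2 : 2 * C6 / 2 ^ m ≤ 1 := by
    have h1 : (1 / 2 : ℝ) ^ m ≤ 1 / (2 * C6) := by
      refine le_trans ?_ hm1.le
      exact pow_le_pow_of_le_one (by norm_num) (by norm_num) (le_trans (le_max_left _ _) hm)
    rw [le_div_iff₀ (by positivity), one_div, inv_pow] at h1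
    rw [div_eq_mul_inv]
    linarith
  obtain ⟨T1, hT16, hT1⟩ := err_le hA0 hA
  obtain ⟨e, he⟩ : ∃ e, e = Real.exp (er m p0) := ⟨_, rfl⟩
  have he0 : 0 < e := by rw [he]; exact Real.exp_pos _
  have hCL := CL_pos
  refine ⟨C0 * (2 * e + 2 * CL * e + 1), max T1 C0, by positivity, hT16.trans (le_max_left _ _), ?_⟩
  intro T hT a ha
  obtain ⟨hY1, hx16, herr⟩ := hT1 T ((le_max_left _ _).trans hT)
  have hT00 : 0 < T := by linarith [(le_max_right T1 C0).trans hT]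
  obtain ⟨x, hx⟩ : ∃ x, x = Real.log T := ⟨_, rfl⟩
  rw [← hx] at hY1 hx16 herr ⊢
  have hx0 : 0 < x := by linarith
  have hY0 : 0 < x / A := by linarith
  have ha1 : |a| ≤ 1 := by linarith
  obtain ⟨k1, k2⟩ := DD3_K2L (m := m) (p0 := p0) (J := J1 (x / A)) logKer_KL hY0 (c1 := a) (c2 := a)
    (c3 := 0) ha1 ha1 (by simp) (c := 2 * a) (by ring) hm1' hm2 hp0
  rw [DD_zero, mul_one, ← NN_zero] at k1 k2
  rw [Real.exp_add, ← he, ← VI_zero] at k1 k2
  have eq : 2 * (2 * a) + (2 * a) ^ 2 = 4 * a + 4 * a ^ 2 := by ring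
  rw [eq] at k1 k2
  obtain ⟨E, hE⟩ : ∃ E, E = Real.exp ((4 * a + 4 * a ^ 2) * VI p0 (x / A) 0 (J1 (x / A))) :=
    ⟨_, rfl⟩
  have hE0 : 0 < E := by rw [hE]; exact Real.exp_pos _
  have hq : -(3 / 4) ≤ 4 * a + 4 * a ^ 2 := by
    rw [abs_le] at ha
    linarith [sq_nonneg a, ha.1]
  have ke := herr p0 (4 * a + 4 * a ^ 2) hq
  rw [← hE] at k1 k2 ke ⊢
  have hdl : DLB (NN a m p0 (x / A) 0 (J1 (x / A)) * NN a m p0 (x / A) 0 (J1 (x / A)))
      (2 * m * (x / A) + 2 * m * (x / A))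
      ((J1 (x / A) + 2 * m * (x / A)) + (J1 (x / A) + 2 * m * (x / A))) := by
    rw [NN_zero]
    exact (DLB.DD hY0 m p0 ha1 (J1 (x / A))).mul (DLB.DD hY0 m p0 ha1 (J1 (x / A)))
  obtain ⟨D, hD⟩ : ∃ D, D = NN a m p0 (x / A) 0 (J1 (x / A)) * NN a m p0 (x / A) 0 (J1 (x / A)) :=
    ⟨_, rfl⟩
  rw [← hD] at k1 k2 hdl ⊢
  have k5 := hup T ((le_max_right _ _).trans hT) D (Real.exp (2 * m * (x / A) + 2 * m * (x / A)))
    (Real.one_le_exp (by positivity)) hdl.supp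
  rw [← hx] at k5
  have herr2 : (nrm D * Real.exp (2 * m * (x / A) + 2 * m * (x / A))) ^ 2 / T ^ (1 / 16 : ℝ)
      ≤ x⁻¹ * E := by
    refine le_trans ?_ ke
    have e1 : (nrm D * Real.exp (2 * m * (x / A) + 2 * m * (x / A))) ^ 2
        ≤ Real.exp (8 * J1 (x / A) + 32 * m * (x / A)) := by
      have hn0 : 0 ≤ nrm D := Finset.sum_nonneg fun _ _ => abs_nonneg _
      have hmY : 0 ≤ (m : ℝ) * (x / A) := by positivity
      have hJ0 : (0 : ℝ) ≤ J1 (x / A) := Nat.cast_nonneg _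
      calc (nrm D * Real.exp (2 * m * (x / A) + 2 * m * (x / A))) ^ 2
          ≤ (Real.exp ((J1 (x / A) + 2 * m * (x / A)) + (J1 (x / A) + 2 * m * (x / A)))
            * Real.exp (2 * m * (x / A) + 2 * m * (x / A))) ^ 2 := by
            have := hdl.nrm_le
            gcongr
        _ = Real.exp (2 * ((J1 (x / A) + 2 * m * (x / A)) + (J1 (x / A) + 2 * m * (x / A))
            + (2 * m * (x / A) + 2 * m * (x / A)))) := by
            rw [← Real.exp_add, ← Real.exp_nat_mul]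
            congr 1
        _ ≤ _ := by
            apply Real.exp_le_exp.mpr
            linarith
    gcongr
  have hYx : x / A + 2 ≤ x := by
    have h1 : x / A ≤ x / 2000 := div_le_div_of_nonneg_left (by linarith) (by norm_num) hA0
    linarith
  refine k5.trans ?_
  have hb : (x + 1) * |BK K2 D D| + |BK KL D D|
      + (nrm D * Real.exp (2 * m * (x / A) + 2 * m * (x / A))) ^ 2 / T ^ (1 / 16 : ℝ)
      ≤ (2 * e + 2 * CL * e + 1) * (x * E) := by
    have c1 : (x + 1) * |BK K2 D D| ≤ (2 * x) * (E * e) := by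
      gcongr
      linarith
    have c2 : |BK KL D D| ≤ CL * x * (E * e) := by
      refine k2.trans ?_
      gcongr
    have c3 : x⁻¹ * E ≤ x * E := by
      have h1 : x⁻¹ ≤ 1 := inv_le_one_of_one_le₀ (by linarith)
      have h2 : x⁻¹ ≤ x := by linarith
      gcongr
    have c4 : 0 ≤ CL * x * (E * e) := by positivity
    calc _ ≤ (2 * x) * (E * e) + CL * x * (E * e) + x * E :=
          add_le_add (add_le_add c1 c2) (herr2.trans c3)
      _ ≤ _ := by linarith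
  have hC00 : 0 ≤ C0 * T := by positivity
  calc _ ≤ C0 * T * ((2 * e + 2 * CL * e + 1) * (x * E)) := mul_le_mul_of_nonneg_left hb hC00
    _ = _ := by ring

end Energies

end Pool.Agent.Lib.MP_f9aece_nt_r3
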