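import Mathlib
import Pool.Agent.Lib.MP_f9aece_nt_h24.UpperTwoPlus
import Pool.Agent.Lib.MP_f9aece_nt_rt.Levels
import Pool.Agent.Lib.MP_f9aece_nt_r3.Defs

/-!
S11, part 1: the levels for all exponents near the second moment, from the two energy bounds of a
level.
-/

set_option autoImplicit false

namespace Pool.Agent.Lib.MP_f9aece_nt_r3

open MeasureTheory Set Filter Topology Complex
open Pool.Agent.Lib.MP_f9aece_nt
open Pool.Agent.Lib.MP_f9aece_nt_h97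
open Pool.Agent.Lib.MP_f9aece_nt_h22 (VS J1 J1_le J1_lt Psc Rsc Rsc_pos norm_DD_ge norm_DD_le)
open Pool.Agent.Lib.MP_f9aece_nt_rt (XX XX_level bracket_le)

/-- the statement of `level_part_signed` -/
def LPS : Prop := ∃ C4 : ℝ, 0 ≤ C4 ∧ ∃ m1 p1 : ℕ, 4000 ≤ m1 ∧ 144 ≤ p1 ∧ ∃ T4 : ℝ,
    ∀ T : ℝ, T4 ≤ T → ∀ m : ℕ, m1 ≤ m → ∀ p0 : ℕ, p1 ≤ p0 → ∀ b : ℝ, |b| ≤ 1 / 8 →
    ∀ (J μ : ℕ) (Y ε' V : ℝ), 4 ≤ Y → 43 * Y ≤ Real.log T → Y / 4 ^ (J + 1) < Real.log 2 →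
    0 < ε' → ε' ≤ 1 / 4 → 480 * Real.log (Real.log T) ≤ ε' * Real.log T →
    48 * (2 * J + 1 + 6 * m * Y) ≤ ε' * Real.log T → 1 ≤ μ → Real.log T ≤ 160 * μ * Y → 0 < V →
    ∫ t in {t | t ∈ Icc 0 T ∧ V ≤ ‖riemannZeta (1 / 2 + I * t) * ev t (DD m p0 (-1) Y (J + 1))‖},
        ‖riemannZeta (1 / 2 + I * t) * ev t (DD (2 * m) p0 b (Y / 4) J)‖ ^ 2
      ≤ C4 * (T * Real.log T
            * Real.exp ((2 * b + b ^ 2) * ∑ j ∈ Finset.range J, VV (sc (Y / 4) p0 j)))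
        * (ε' + ((2 : ℝ) ^ m)⁻¹ + Y / Real.log T + (Real.log T)⁻¹
          + (2 ^ p0 * (640 * (μ : ℝ)) ^ 24) ^ 3 / V ^ 2)

/-- the statement of `pow_part_signed` -/
def PPS : Prop := ∃ C5 : ℝ, 0 ≤ C5 ∧ ∃ m1 p1 : ℕ, ∃ T5 : ℝ, ∀ T : ℝ, T5 ≤ T → ∀ m : ℕ,
    m1 ≤ m → ∀ p0 : ℕ, p1 ≤ p0 → ∀ (J : ℕ) (b Y : ℝ), |b| ≤ 1 / 8 → 4 ≤ Y → 43 * Y ≤ Real.log T →
    2000 * m * Y ≤ Real.log T → 64 * (J + 1) ≤ Real.log T → Y / 4 ^ (J + 1) < Real.log 2 →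
    (Rsc m 0 ^ (2 * m))⁻¹ * ∫ t in Icc 0 T,
        ‖riemannZeta (1 / 2 + I * t) * ev t (DD (2 * m) p0 b (Y / 4) J * Psc p0 Y 0 ^ m)‖ ^ 2
      ≤ C5 * ((2 : ℝ) ^ m)⁻¹ * (T * Real.log T
          * Real.exp ((2 * b + b ^ 2) * ∑ j ∈ Finset.range J, VV (sc (Y / 4) p0 j)))

/-- a point of level `l + 1` which is not of level `l` -/
theorem diff_energy_le {b T V V' : ℝ} {m p0 J : ℕ} (hm : 1 ≤ m)
    {Y : ℝ} (hsc : ∀ j < J, sc Y p0 (j + 1) = sc (Y / 4) p0 j) (M : ℕ) :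
    ∫ t in GdS T V' (2 * m) p0 (Y / 4) J \ GdS T V m p0 Y (J + 1),
        ‖riemannZeta (1 / 2 + I * t) * ev t (DD (2 * m) p0 b (Y / 4) J)‖ ^ 2
      ≤ (∫ t in {t | t ∈ Icc 0 T ∧ V ≤ ‖riemannZeta (1 / 2 + I * t) * ev t (DD m p0 (-1) Y (J + 1))‖},
              ‖riemannZeta (1 / 2 + I * t) * ev t (DD (2 * m) p0 b (Y / 4) J)‖ ^ 2)
          + (Rsc m 0 ^ (2 * M))⁻¹ * ∫ t in Icc 0 T,
              ‖riemannZeta (1 / 2 + I * t) * ev t (DD (2 * m) p0 b (Y / 4) J * Psc p0 Y 0 ^ M)‖ ^ 2 := by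
  obtain ⟨n, hn⟩ : ∃ n : DP, n = DD (2 * m) p0 b (Y / 4) J := ⟨_, rfl⟩
  obtain ⟨f, hf⟩ : ∃ f : ℝ → ℝ, f = fun t : ℝ => ‖riemannZeta (1 / 2 + I * t) * ev t n‖ ^ 2 := ⟨_, rfl⟩
  have hfc : Continuous f := by rw [hf]; exact cont_ze n
  have hf0 : ∀ t, 0 ≤ f t := fun t => by rw [hf]; positivity
  obtain ⟨B1, hB1⟩ : ∃ B1 : Set ℝ, B1 = {t | t ∈ Icc 0 T ∧
      V ≤ ‖riemannZeta (1 / 2 + I * t) * ev t (DD m p0 (-1) Y (J + 1))‖} := ⟨_, rfl⟩
  obtain ⟨B2, hB2⟩ : ∃ B2 : Set ℝ, B2 = {t | t ∈ Icc 0 T ∧ Rsc m 0 ≤ ‖ev t (Psc p0 Y 0)‖} := ⟨_, rfl⟩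
  have mB1 : MeasurableSet B1 := by
    rw [hB1]
    exact (isClosed_Icc.inter (isClosed_le continuous_const
      (continuous_zeta.mul (continuous_ev _)).norm)).measurableSet
  have mB2 : MeasurableSet B2 := by
    rw [hB2]
    exact (isClosed_Icc.inter (isClosed_le continuous_const (continuous_ev _).norm)).measurableSet
  have sB1 : B1 ⊆ Icc 0 T := by rw [hB1]; exact fun t ht => ht.1
  have sB2 : B2 ⊆ Icc 0 T := by rw [hB2]; exact fun t ht => ht.1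
  have hsub : GdS T V' (2 * m) p0 (Y / 4) J \ GdS T V m p0 Y (J + 1) ⊆ B1 ∪ B2 := by
    intro t ht
    obtain ⟨⟨h1, -, h3⟩, h4⟩ := ht
    by_contra hcon
    rw [mem_union, not_or] at hcon
    apply h4
    refine ⟨h1, ?_, ?_⟩
    · by_contra h5
      apply hcon.1
      rw [hB1]
      exact ⟨h1, (not_le.mp h5).le⟩
    · intro j hj
      rcases Nat.eq_zero_or_pos j with h0 | h0
      · rw [h0]
        by_contra h5
        apply hcon.2
        rw [hB2]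
        exact ⟨h1, (not_le.mp h5).le⟩
      · obtain ⟨i, rfl⟩ : ∃ i, j = i + 1 := ⟨j - 1, by omega⟩
        have h6 := h3 i (by omega)
        have e1 : Psc p0 Y (i + 1) = Psc p0 (Y / 4) i := by
          unfold Psc
          rw [hsc i (by omega)]
        have e2 : Rsc m (i + 1) = Rsc (2 * m) i := by
          unfold Rsc Mm
          rw [pow_succ]
          push_cast
          ring
        rw [e1, e2]
        exact h6
  have h1 : ∫ t in GdS T V' (2 * m) p0 (Y / 4) J \ GdS T V m p0 Y (J + 1), f t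
      ≤ (∫ t in B1, f t) + ∫ t in B2, f t := by
    have h2 : ∫ t in GdS T V' (2 * m) p0 (Y / 4) J \ GdS T V m p0 Y (J + 1), f t
        ≤ ∫ t in B1 ∪ B2, f t :=
      setIntegral_mono_set ((hfc.integrableOn_Icc).mono_set (union_subset sB1 sB2))
        (Eventually.of_forall hf0) (LE.le.eventuallyLE hsub)
    refine h2.trans ?_
    have h3 : ∫ t in B1 ∪ B2, f t = (∫ t in B1, f t) + ∫ t in B2 \ B1, f t := by
      rw [← union_sdiff_self, setIntegral_union disjoint_sdiff_self_right (mB2.diff mB1)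
        ((hfc.integrableOn_Icc).mono_set sB1)
        ((hfc.integrableOn_Icc).mono_set (sdiff_subset.trans sB2))]
    rw [h3]
    have h4 : ∫ t in B2 \ B1, f t ≤ ∫ t in B2, f t :=
      setIntegral_mono_set ((hfc.integrableOn_Icc).mono_set sB2) (Eventually.of_forall hf0)
        (LE.le.eventuallyLE sdiff_subset)
    linarith
  have h2 : ∫ t in B2, f t ≤ (Rsc m 0 ^ (2 * M))⁻¹ * ∫ t in Icc 0 T,
      ‖riemannZeta (1 / 2 + I * t) * ev t (n * Psc p0 Y 0 ^ M)‖ ^ 2 := by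
    have hR := Rsc_pos hm 0
    have i2 := (cont_ze (n * Psc p0 Y 0 ^ M)).integrableOn_Icc (μ := volume) (a := 0) (b := T)
    calc ∫ t in B2, f t ≤ ∫ t in B2, (Rsc m 0 ^ (2 * M))⁻¹
          * ‖riemannZeta (1 / 2 + I * t) * ev t (n * Psc p0 Y 0 ^ M)‖ ^ 2 := by
          refine setIntegral_mono_on ((hfc.integrableOn_Icc).mono_set sB2)
            ((i2.mono_set sB2).const_mul _) mB2 fun t ht => ?_
          rw [hB2] at ht
          rw [hf]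
          simp only
          rw [le_inv_mul_iff₀ (by positivity), map_mul, map_pow, ← mul_assoc, norm_mul _ (ev t _ ^ M),
            mul_pow _ _ 2, mul_comm]
          have h5 : Rsc m 0 ^ (2 * M) ≤ ‖ev t (Psc p0 Y 0) ^ M‖ ^ 2 := by
            rw [norm_pow, ← pow_mul, mul_comm M 2]
            have := ht.2
            gcongr
          gcongr
      _ = (Rsc m 0 ^ (2 * M))⁻¹ * ∫ t in B2,
          ‖riemannZeta (1 / 2 + I * t) * ev t (n * Psc p0 Y 0 ^ M)‖ ^ 2 := integral_const_mul _ _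
      _ ≤ _ := by
          refine mul_le_mul_of_nonneg_left ?_ (by positivity)
          exact setIntegral_mono_set i2 (Eventually.of_forall fun t => by positivity)
            (LE.le.eventuallyLE sB2)
  rw [← hn, ← hB1]
  have e1 : ∀ B : Set ℝ, ∫ t in B, ‖riemannZeta (1 / 2 + I * t) * ev t n‖ ^ 2 = ∫ t in B, f t := by
    intro B
    rw [hf]
  rw [e1, e1]
  exact h1.trans (add_le_add le_rfl h2)

/-- one level -/
theorem level_step_signed (h6 : LPS) (h7 : PPS) : ∃ C7 : ℝ, 0 ≤ C7 ∧ ∃ m1 p1 : ℕ, 1 ≤ m1 ∧ 1 ≤ p1 ∧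
    ∃ T7 : ℝ,
    ∀ T : ℝ, T7 ≤ T → ∀ m : ℕ, m1 ≤ m → ∀ p0 : ℕ, p1 ≤ p0 → ∀ b : ℝ, |b| ≤ 1 / 8 →
    ∀ (J μ : ℕ) (Y ε' V V' : ℝ), 4 ≤ Y → 43 * Y ≤ Real.log T → Y / 4 ^ (J + 1) < Real.log 2 →
    0 < ε' → ε' ≤ 1 / 4 → 480 * Real.log (Real.log T) ≤ ε' * Real.log T →
    48 * (2 * J + 1 + 6 * m * Y) ≤ ε' * Real.log T → 1 ≤ μ → Real.log T ≤ 160 * μ * Y →
    2000 * m * Y ≤ Real.log T → 64 * (J + 1) ≤ Real.log T → 0 < V →
    ∫ t in GdS T V' (2 * m) p0 (Y / 4) J \ GdS T V m p0 Y (J + 1),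
        ‖riemannZeta (1 / 2 + I * t) * ev t (DD (2 * m) p0 b (Y / 4) J)‖ ^ 2
      ≤ C7 * (ε' + ((2 : ℝ) ^ m)⁻¹ + Y / Real.log T + (Real.log T)⁻¹
          + (2 ^ p0 * (640 * (μ : ℝ)) ^ 24) ^ 3 / V ^ 2) * (T * Real.log T
          * Real.exp ((2 * b + b ^ 2) * ∑ j ∈ Finset.range J, VV (sc (Y / 4) p0 j))) := by
  obtain ⟨C4, hC4, ma, pa, hma, hpa, T4, h4⟩ := h6
  obtain ⟨C5, hC5, mb, pb, T5, h5⟩ := h7
  refine ⟨C4 + C5, by positivity, max ma mb, max pa pb, by omega, by omega,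
    max (Real.exp 1) (max T4 T5), ?_⟩
  intro T hT m hm p0 hp0 b hb J μ Y ε' V V' hY hYT hJ hε0 hε1 hll hlen hμ hμT hmY hJT hV
  have hTe : Real.exp 1 ≤ T := (le_max_left _ _).trans hT
  have hT4 : T4 ≤ T := ((le_max_left _ _).trans (le_max_right _ _)).trans hT
  have hT5 : T5 ≤ T := ((le_max_right _ _).trans (le_max_right _ _)).trans hT
  have hT0 : 0 < T := (Real.exp_pos 1).trans_le hTe
  have hl1 : 1 ≤ Real.log T := by rw [Real.le_log_iff_exp_le hT0]; exact hTe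
  have hma' : ma ≤ m := (le_max_left _ _).trans hm
  have hmb' : mb ≤ m := (le_max_right _ _).trans hm
  have hpa' : pa ≤ p0 := (le_max_left _ _).trans hp0
  have hpb' : pb ≤ p0 := (le_max_right _ _).trans hp0
  have k1 := h4 T hT4 m hma' p0 hpa' b hb J μ Y ε' V hY hYT hJ hε0 hε1 hll hlen hμ hμT hV
  have k2 := h5 T hT5 m hmb' p0 hpb' J b Y hb hY hYT hmY hJT hJ
  have hsc : ∀ j < J, sc Y p0 (j + 1) = sc (Y / 4) p0 j := fun j _ =>
    Pool.Agent.Lib.MP_f9aece_nt_h40.sc_succ (by linarith) p0 j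
  have k3 := diff_energy_le (b := b) (T := T) (V := V) (V' := V') (by omega : 1 ≤ m) hsc m
  refine k3.trans ?_
  obtain ⟨U, hU⟩ : ∃ U, U = T * Real.log T
      * Real.exp ((2 * b + b ^ 2) * ∑ j ∈ Finset.range J, VV (sc (Y / 4) p0 j)) := ⟨_, rfl⟩
  rw [← hU] at k1 k2 ⊢
  have hU0 : 0 ≤ U := by rw [hU]; positivity
  obtain ⟨κ, hκ⟩ : ∃ κ, κ = (2 ^ p0 * (640 * (μ : ℝ)) ^ 24) ^ 3 / V ^ 2 := ⟨_, rfl⟩
  have hκ0 : 0 ≤ κ := by rw [hκ]; positivity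
  rw [← hκ] at k1 ⊢
  obtain ⟨q, hq⟩ : ∃ q, q = ((2 : ℝ) ^ m)⁻¹ := ⟨_, rfl⟩
  have hq0 : 0 ≤ q := by rw [hq]; positivity
  rw [← hq] at k1 k2 ⊢
  have hli : 0 ≤ (Real.log T)⁻¹ := by positivity
  have hYl : 0 ≤ Y / Real.log T := by positivity
  have k4 := add_le_add k1 k2
  refine k4.trans ?_
  have h1 : C5 * q * U ≤ C5 * (ε' + q + Y / Real.log T + (Real.log T)⁻¹ + κ) * U := by
    gcongr
    linarith
  linarith only [h1]

lemma NN_eq_DD {Y : ℝ} (hY : 0 ≤ Y) (a : ℝ) (m p0 l J : ℕ) :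
    DD (m * 2 ^ l) p0 a (Y / 4 ^ l) (J - l) = NN a m p0 Y l J := by
  rw [DD_level m p0 a Y hY l (J - l)]
  unfold NN qb
  rw [Finset.prod_Ico_eq_prod_range]

lemma VI_eq {Y : ℝ} (hY : 0 ≤ Y) (p0 l J : ℕ) :
    ∑ j ∈ Finset.range (J - l), VV (sc (Y / 4 ^ l) p0 j) = VI p0 Y l J := by
  unfold VI
  rw [Finset.sum_Ico_eq_sum_range]
  exact Finset.sum_congr rfl fun j _ => by rw [sc_level Y hY]

lemma VI_split {Y : ℝ} (p0 : ℕ) {l J : ℕ} (hl : l ≤ J) :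
    VI p0 Y 0 J = VI p0 Y 0 l + VI p0 Y l J := by
  unfold VI
  rw [Finset.sum_Ico_consecutive _ (Nat.zero_le l) hl]

lemma VI_zero_le {Y : ℝ} (hY : 0 < Y) (p0 l : ℕ) : VI p0 Y 0 l ≤ 12 * l := by
  unfold VI
  calc ∑ j ∈ Finset.Ico 0 l, VV (sc Y p0 j) ≤ ∑ _j ∈ Finset.Ico 0 l, (12 : ℝ) :=
        Finset.sum_le_sum fun j _ => VV_sc_le hY p0 j
    _ = 12 * l := by
        rw [Finset.sum_const, Nat.card_Ico, Nat.sub_zero, nsmul_eq_mul, mul_comm]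

lemma VI_nonneg (p0 : ℕ) (Y : ℝ) (l J : ℕ) : 0 ≤ VI p0 Y l J :=
  Finset.sum_nonneg fun _ _ => VV_nonneg _

/-- the unit of a level against the unit -/
lemma unit_level {Y T : ℝ} (hY : 0 < Y) (hT : 0 ≤ T * Real.log T) {a : ℝ} (ha : |a| ≤ 1 / 8)
    (p0 : ℕ) {l J : ℕ} (hl : l ≤ J) :
    T * Real.log T * Real.exp ((2 * a + a ^ 2) * VI p0 Y l J)
      ≤ Real.exp (36 * |a| * l) * UU a p0 Y J T := by
  unfold UU
  rw [mul_left_comm]
  refine mul_le_mul_of_nonneg_left ?_ hT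
  rw [← Real.exp_add]
  apply Real.exp_le_exp.mpr
  rw [VI_split p0 hl]
  have h1 := VI_zero_le hY p0 l
  have h2 := VI_nonneg p0 Y 0 l
  have h3 : |2 * a + a ^ 2| ≤ 3 * |a| := by
    have : 2 * a + a ^ 2 = a * (2 + a) := by ring
    rw [this, abs_mul, mul_comm]
    refine mul_le_mul_of_nonneg_right ?_ (abs_nonneg a)
    have := abs_le.mp ha
    rw [abs_le]
    constructor <;> linarith
  have h4 : |(2 * a + a ^ 2) * VI p0 Y 0 l| ≤ 36 * |a| * l := by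
    rw [abs_mul, abs_of_nonneg h2]
    calc |2 * a + a ^ 2| * VI p0 Y 0 l ≤ (3 * |a|) * (12 * l) := by gcongr
      _ = _ := by ring
  have h5 := (abs_le.mp h4).1
  linarith

/-- **the levels** -/
theorem levels3_of (h6 : LPS) (h7 : PPS) : ∃ m1 p1 : ℕ, ∀ m : ℕ, m1 ≤ m → ∀ p0 : ℕ, p1 ≤ p0 →
    ∃ A1 : ℝ, ∀ A : ℝ, A1 ≤ A →
    ∃ C T0 : ℝ, 0 ≤ C ∧ 16 ≤ T0 ∧ ∀ T : ℝ, T0 ≤ T → ∃ (L : ℕ) (G : ℕ → Set ℝ),
    LV C A m p0 T (J1 (Real.log T / A)) L G := by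
  obtain ⟨C7, hC7, ma, pa, hma, hpa, T7, hstep⟩ := level_step_signed h6 h7
  obtain ⟨C6, mb, pb, hlast⟩ := h4d h4z
  obtain ⟨T6, hlast⟩ := hlast 1 one_pos
  refine ⟨max ma (max mb 2), max pa (max pb 1), ?_⟩
  intro m0 hm0 p0 hp0
  have hm1 : ma ≤ m0 := by omega
  have hm2 : mb ≤ m0 := by omega
  have hm4 : 2 ≤ m0 := by omega
  have hp1 : pa ≤ p0 := by omega
  have hp2 : pb ≤ p0 := by omega
  refine ⟨2304 * m0 + 2000, ?_⟩
  intro A hA
  -- the constants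
  have hm0r : (0 : ℝ) ≤ m0 := Nat.cast_nonneg _
  have hA0 : 2000 ≤ A := by linarith
  have hA00 : 0 < A := by linarith
  obtain ⟨κ, hκ⟩ : ∃ κ, κ = (2 ^ p0 * (640 * ((⌈A⌉₊ : ℕ) : ℝ)) ^ 24) ^ 3 := ⟨_, rfl⟩
  have hκ0 : 0 ≤ κ := by rw [hκ]; positivity
  obtain ⟨Γ, hΓ⟩ : ∃ Γ : ℝ, Γ = 2 ^ (20 * (C6 + 5)) := ⟨_, rfl⟩
  have hΓ100 : (2 : ℝ) ^ 100 ≤ Γ := by
    rw [hΓ]
    exact pow_le_pow_right₀ (by norm_num) (by omega)
  have hΓ1 : 1 ≤ Γ := le_trans (by norm_num) hΓ100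
  have hΓ0 : 0 < Γ := by linarith
  have hlΓ : 0 ≤ Real.log Γ := Real.log_nonneg hΓ1
  -- the threshold
  obtain ⟨y0, hy01, hy02, hy03⟩ : ∃ y0 : ℝ, 4 ≤ y0 ∧ 4 * A ≤ y0 ∧ 4800 ≤ 1 / 4 * y0 :=
    ⟨4 * A + 19200, by linarith, by linarith, by linarith⟩
  obtain ⟨C, hC⟩ : ∃ C : ℝ, C = Real.exp 5 * (C7 * (4 + κ)) + (Real.log Γ + 2) + 36 := ⟨_, rfl⟩
  have hC10 : 0 ≤ Real.exp 5 * (C7 * (4 + κ)) := by positivity
  have hC1 : Real.exp 5 * (C7 * (4 + κ)) ≤ C := by rw [hC]; linarith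
  have hC2 : Real.log Γ + 2 ≤ C := by rw [hC]; linarith
  have hC3 : 36 ≤ C := by rw [hC]; linarith
  have hC0 : 0 ≤ C := by linarith
  refine ⟨C, max 16 (max (max T6 T7) (Real.exp (y0 ^ 10))), hC0, le_max_left _ _, ?_⟩
  intro T hT'
  have hT : max (max T6 T7) (Real.exp (y0 ^ 10)) ≤ T := (le_max_right _ _).trans hT'
  have hT6 : T6 ≤ T := ((le_max_left _ _).trans (le_max_left _ _)).trans hT
  have hT7 : T7 ≤ T := ((le_max_right _ _).trans (le_max_left _ _)).trans hT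
  have hTy : Real.exp (y0 ^ 10) ≤ T := (le_max_right _ _).trans hT
  have hT0 : 0 < T := (Real.exp_pos _).trans_le hTy
  obtain ⟨x, hx⟩ : ∃ x, x = Real.log T := ⟨_, rfl⟩
  have hx1 : y0 ^ 10 ≤ x := by rw [hx, Real.le_log_iff_exp_le hT0]; exact hTy
  have hy0pos : 0 < y0 := by linarith
  have hx0 : 0 < x := lt_of_lt_of_le (by positivity) hx1
  obtain ⟨y, hy⟩ : ∃ y, y = x ^ (1 / 10 : ℝ) := ⟨_, rfl⟩
  have hxy : x = y ^ 10 := by
    rw [hy, ← Real.rpow_natCast, ← Real.rpow_mul hx0.le]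
    norm_num
  have hypos : 0 < y := by rw [hy]; positivity
  have hyy0 : y0 ≤ y := by
    rw [hxy] at hx1
    exact (pow_le_pow_iff_left₀ hy0pos.le hypos.le (by norm_num)).mp hx1
  have hy4 : 4 ≤ y := hy01.trans hyy0
  have hx1' : 1 ≤ x := by rw [hxy]; exact one_le_pow₀ (by linarith)
  have hlogx : Real.log x ≤ 10 * y := by
    have := Real.log_le_rpow_div hx0.le (show (0 : ℝ) < 1 / 10 by norm_num)
    rw [← hy] at this
    linarith
  obtain ⟨L, hL1, hL2⟩ := exists_level (y := y) (by linarith)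
  have hY0 : 1 ≤ x / A := by
    rw [one_le_div hA00]
    have h1 : y ≤ y ^ 10 := le_self_pow₀ (by linarith) (by norm_num)
    rw [hxy]
    linarith
  have hJ1 : (J1 (x / A) : ℝ) ≤ 11 * y := by
    have h1 := J1_le hY0
    have h2 : Real.log (x / A) ≤ Real.log x :=
      Real.log_le_log (by positivity) (div_le_self hx0.le (by linarith))
    linarith
  have par : Par A (1 / 4) x y m0 L (J1 (x / A)) :=
    ⟨by linarith, by linarith, by linarith, by norm_num, le_rfl, hy4,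
      hy02.trans hyy0, hy03.trans (by gcongr), hxy, hlogx, hL1, hJ1, J1_lt (by linarith)⟩
  obtain ⟨J, hJdef⟩ : ∃ J, J = J1 (x / A) := ⟨_, rfl⟩
  rw [← hJdef] at par
  have hJL := par.J_gt
  have hxA0 : 0 ≤ x / A := by positivity
  have hxA1 : 0 < x / A := by positivity
  -- the good sets
  obtain ⟨G, hG⟩ : ∃ G : ℕ → Set ℝ, G = fun l =>
      GdS T (Γ ^ l) (m0 * 2 ^ l) p0 (x / A / 4 ^ l) (J - l) := ⟨_, rfl⟩
  have hGm : ∀ l, MeasurableSet (G l) := fun l => by rw [hG]; exact gds_meas _ _ _ _ _ _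
  have hGs : ∀ l, G l ⊆ Icc 0 T := fun l => by rw [hG]; exact gds_sub _ _ _ _ _ _
  have hml1 : ∀ l : ℕ, 1 ≤ m0 * 2 ^ l := fun l => by
    have : 0 < m0 * 2 ^ l := by positivity
    omega
  have h64 := par.J64
  -- the last level, both exponents
  have hlst : ∀ b : ℝ, 0 ≤ b → b ≤ 1 / 4 →
      ∫ t in Icc 0 T \ G L, ‖riemannZeta (1 / 2 + I * t)‖ ^ (2 * (1 + b)) ≤ 1 * T := by
    intro b hb0 hb4
    have hmL : mb ≤ m0 * 2 ^ L := hm2.trans (Nat.le_mul_of_pos_right _ (by positivity))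
    have e1 : G L = GdS T (Γ ^ L) (m0 * 2 ^ L) p0 (x / A / 4 ^ L) (J - L) := by rw [hG]
    rw [e1]
    refine hlast T hT6 (m0 * 2 ^ L) hmL p0 hp2 (J - L) b (x / A / 4 ^ L) (Γ ^ L) hb0 hb4
      (par.Y4 le_rfl) ?_ ?_ ?_ (par.JJ le_rfl) ?_ ?_
    · rw [← hx]; exact par.Y43 L
    · rw [← hx]; exact par.mY L
    · rw [← hx]
      have h1 : ((J - L : ℕ) : ℝ) + 1 ≤ J + 1 := by
        have : J - L + 1 ≤ J + 1 := by omega
        exact_mod_cast this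
      have h2 : 64 * ((J : ℝ) + 1) ≤ x := by
        have h3 : 64 * (12 * y) ≤ y ^ 10 := by
          have h3 : (4 : ℝ) ^ 9 ≤ y ^ 9 := by gcongr
          have h4 : y ^ 10 = y ^ 9 * y := by ring
          rw [h4]
          nlinarith only [h3, hypos]
        have h4 := par.hJ
        rw [hxy]
        linarith only [h3, h4, hy4]
      linarith only [h1, h2]
    · rw [← hx]
      have := thr_last (C6 := C6) hy4 hxy hL2 le_rfl
      rwa [one_mul, ← hΓ] at this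
    · rw [← hx, ← hy]
      push_cast
      have h1 : (2 : ℝ) ≤ m0 := by exact_mod_cast hm4
      have h2 : (0 : ℝ) < 2 ^ L := by positivity
      rw [pow_succ] at hL2
      nlinarith only [h1, h2, hL2]
  have hpw : ∀ l : ℕ, (1 / 3 : ℝ) ^ (m0 * 2 ^ l) ≤ 1 := fun l =>
    pow_le_one₀ (by norm_num) (by norm_num)
  refine ⟨L, G, hGm, hGs, ?_, ?_, ?_, ?_, ?_, ?_, ?_⟩
  · rw [← hx, ← hJdef]; exact hJL.le
  · -- upper
    intro l _ t ht
    rw [← hx, ← hJdef]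
    have ht' : t ∈ GdS T (Γ ^ l) (m0 * 2 ^ l) p0 (x / A / 4 ^ l) (J - l) := by rw [hG] at ht; exact ht
    rcases eq_or_ne (riemannZeta (1 / 2 + I * t)) 0 with hz | hz
    · rw [hz, norm_zero]
      exact (Real.exp_pos _).le
    · have h1 := Pool.Agent.Lib.MP_f9aece_nt_rt.gds_upper (hml1 l) ht' hz
      rw [XX_level hxA0, Real.log_pow] at h1
      have hl0 : (0 : ℝ) ≤ l := Nat.cast_nonneg l
      have h2 : l * Real.log Γ + 2 ≤ C * (l + 1) := by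
        calc l * Real.log Γ + 2 ≤ (Real.log Γ + 2) * (l + 1) := by linarith
          _ ≤ C * (l + 1) := by gcongr
      rw [← Real.log_le_iff_le_exp (norm_pos_iff.mpr hz)]
      linarith
  · -- ge
    intro l _ t ht a ha
    rw [← hx, ← hJdef]
    have ht' : t ∈ GdS T (Γ ^ l) (m0 * 2 ^ l) p0 (x / A / 4 ^ l) (J - l) := by rw [hG] at ht; exact ht
    obtain ⟨-, -, h2⟩ := ht'
    have h3 := norm_DD_ge (c := a) (hml1 l) ha h2
    rw [XX_level hxA0, NN_eq_DD hxA0] at h3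
    refine le_trans ?_ (pow_le_pow_left₀ (Real.exp_pos _).le h3 2)
    rw [← Real.exp_nat_mul]
    apply Real.exp_le_exp.mpr
    push_cast
    have h4 : |a| * (1 / 3 : ℝ) ^ (m0 * 2 ^ l) ≤ |a| * 1 :=
      mul_le_mul_of_nonneg_left (hpw l) (abs_nonneg a)
    have h5 : 36 * |a| ≤ C * |a| := mul_le_mul_of_nonneg_right hC3 (abs_nonneg a)
    linarith [abs_nonneg a]
  · -- le
    intro l _ t ht a ha
    rw [← hx, ← hJdef]
    have ht' : t ∈ GdS T (Γ ^ l) (m0 * 2 ^ l) p0 (x / A / 4 ^ l) (J - l) := by rw [hG] at ht; exact ht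
    obtain ⟨-, -, h2⟩ := ht'
    have h3 := norm_DD_le (c := a) (hml1 l) ha h2
    rw [XX_level hxA0, NN_eq_DD hxA0] at h3
    refine le_trans (pow_le_pow_left₀ (norm_nonneg _) h3 2) ?_
    rw [← Real.exp_nat_mul]
    apply Real.exp_le_exp.mpr
    push_cast
    have h4 : |a| * (1 / 3 : ℝ) ^ (m0 * 2 ^ l) ≤ |a| * 1 :=
      mul_le_mul_of_nonneg_left (hpw l) (abs_nonneg a)
    have h5 : 36 * |a| ≤ C * |a| := mul_le_mul_of_nonneg_right hC3 (abs_nonneg a)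
    linarith [abs_nonneg a]
  · -- piece
    intro a ha l hl
    rw [← hx, ← hJdef]
    have hJl : J - (l + 1) + 1 = J - l := by omega
    have e1 : G (l + 1) = GdS T (Γ ^ (l + 1)) (2 * (m0 * 2 ^ l)) p0 (x / A / 4 ^ l / 4)
        (J - (l + 1)) := by
      rw [hG]
      simp only
      rw [div_div (x / A) (4 ^ l) 4, ← pow_succ]
      congr 1
      ring
    have e2 : G l = GdS T (Γ ^ l) (m0 * 2 ^ l) p0 (x / A / 4 ^ l) (J - (l + 1) + 1) := by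
      rw [hG, hJl]
    have e3 : DD (2 * (m0 * 2 ^ l)) p0 a (x / A / 4 ^ l / 4) (J - (l + 1))
        = NN a m0 p0 (x / A) (l + 1) J := by
      rw [← NN_eq_DD hxA0 a m0 p0 (l + 1) J, div_div (x / A) (4 ^ l) 4, ← pow_succ]
      congr 1
      ring
    have e4 : ∑ j ∈ Finset.range (J - (l + 1)), VV (sc (x / A / 4 ^ l / 4) p0 j)
        = VI p0 (x / A) (l + 1) J := by
      rw [← VI_eq hxA0 p0 (l + 1) J, div_div (x / A) (4 ^ l) 4, ← pow_succ]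
    have hml : ma ≤ m0 * 2 ^ l := hm1.trans (Nat.le_mul_of_pos_right _ (by positivity))
    have h2l : (1 : ℝ) ≤ 2 ^ l := one_le_pow₀ (by norm_num)
    have k := hstep T hT7 (m0 * 2 ^ l) hml p0 hp1 a ha (J - (l + 1))
      (⌈A⌉₊ * 4 ^ l) (x / A / 4 ^ l) (1 / 4 / 2 ^ l) (Γ ^ l) (Γ ^ (l + 1)) (par.Y4 hl.le)
    rw [← hx] at k
    have k' := k (par.Y43 l) (by rw [hJl]; exact par.JJ hl.le) (by positivity)
      (div_le_self (by norm_num) h2l) (par.loglog hl.le) (by rw [← Nat.sub_sub]; exact par.len hl)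
      (by
        have h1 : 1 ≤ ⌈A⌉₊ := Nat.one_le_ceil_iff.mpr hA00
        have h2 : 1 ≤ 4 ^ l := Nat.one_le_pow _ _ (by norm_num)
        nlinarith only [h1, h2]) (par.mu l) (par.mY l)
      (by
        have h1 : ((J - (l + 1) : ℕ) : ℝ) + 1 ≤ J := by
          have : J - (l + 1) + 1 ≤ J := by omega
          exact_mod_cast this
        linarith only [h64, h1]) (by positivity)
    rw [← e1, ← e2, e3, e4] at k'
    refine k'.trans ?_
    have hbr := bracket_le (p0 := p0) (a := ⌈A⌉₊) (m0 := m0) (by omega) hy4 hxy hL1 hΓ100 hl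
    rw [← hκ] at hbr
    have hYx : x / A / 4 ^ l / x ≤ (1 / 2) ^ l := by
      have h1 : x / A / 4 ^ l / x = (1 / 4) ^ l / A := by
        rw [one_div, inv_pow]
        field_simp
      rw [h1]
      calc (1 / 4 : ℝ) ^ l / A ≤ (1 / 4) ^ l := div_le_self (by positivity) (by linarith)
        _ ≤ (1 / 2) ^ l := pow_le_pow_left₀ (by norm_num) (by norm_num) l
    have hbr2 : 1 / 4 / 2 ^ l + ((2 : ℝ) ^ (m0 * 2 ^ l))⁻¹ + x / A / 4 ^ l / x + x⁻¹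
        + (2 ^ p0 * (640 * ((⌈A⌉₊ * 4 ^ l : ℕ) : ℝ)) ^ 24) ^ 3 / (Γ ^ l) ^ 2
        ≤ (4 + κ) * (1 / 2) ^ l := by
      have : (4 + κ) * (1 / 2) ^ l = (1 / 2) ^ l + (3 + κ) * (1 / 2) ^ l := by ring
      rw [this]
      linarith only [hbr, hYx]
    have hTx : 0 ≤ T * Real.log T := by rw [← hx]; positivity
    have hu := unit_level (Y := x / A) hxA1 hTx ha p0 (l := l + 1) (J := J) (by omega)
    rw [← hx] at hu
    have hUU0 : 0 ≤ UU a p0 (x / A) J T := by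
      unfold UU
      rw [← hx]
      positivity
    have he5 : Real.exp (36 * |a| * ((l + 1 : ℕ) : ℝ))
        ≤ Real.exp 5 * Real.exp (C * |a| * l) := by
      rw [← Real.exp_add]
      apply Real.exp_le_exp.mpr
      push_cast
      have hl0 : (0 : ℝ) ≤ l := Nat.cast_nonneg l
      have h1 : 36 * (|a| * l) ≤ C * (|a| * l) := by gcongr
      linarith
    have hleft : C7 * (1 / 4 / 2 ^ l + ((2 : ℝ) ^ (m0 * 2 ^ l))⁻¹ + x / A / 4 ^ l / x + x⁻¹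
        + (2 ^ p0 * (640 * ((⌈A⌉₊ * 4 ^ l : ℕ) : ℝ)) ^ 24) ^ 3 / (Γ ^ l) ^ 2)
        ≤ C7 * ((4 + κ) * (1 / 2) ^ l) := mul_le_mul_of_nonneg_left hbr2 hC7
    have hr0 : 0 ≤ T * x * Real.exp ((2 * a + a ^ 2) * VI p0 (x / A) (l + 1) J) := by positivity
    have hC70 : 0 ≤ C7 * ((4 + κ) * (1 / 2) ^ l) := by positivity
    calc _ ≤ C7 * ((4 + κ) * (1 / 2) ^ l)
          * (T * x * Real.exp ((2 * a + a ^ 2) * VI p0 (x / A) (l + 1) J)) :=
          mul_le_mul_of_nonneg_right hleft hr0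
      _ ≤ C7 * ((4 + κ) * (1 / 2) ^ l)
          * (Real.exp (36 * |a| * ((l + 1 : ℕ) : ℝ)) * UU a p0 (x / A) J T) :=
          mul_le_mul_of_nonneg_left hu hC70
      _ ≤ C7 * ((4 + κ) * (1 / 2) ^ l)
          * (Real.exp 5 * Real.exp (C * |a| * l) * UU a p0 (x / A) J T) := by gcongr
      _ = (Real.exp 5 * (C7 * (4 + κ))) * ((1 / 2) ^ l * Real.exp (C * |a| * l)
          * UU a p0 (x / A) J T) := by ring
      _ ≤ C * ((1 / 2) ^ l * Real.exp (C * |a| * l) * UU a p0 (x / A) J T) := by gcongr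
      _ = _ := by ring
  · -- last
    have h := hlst 0 le_rfl (by norm_num)
    have e3 : (2 * (1 + 0) : ℝ) = 2 := by norm_num
    rw [e3, one_mul] at h
    simp only [Real.rpow_two] at h
    exact h
  · have h := hlst (1 / 4) (by norm_num) le_rfl
    have e3 : (2 * (1 + 1 / 4) : ℝ) = 5 / 2 := by norm_num
    rw [e3, one_mul] at h
    exact h

end Pool.Agent.Lib.MP_f9aece_nt_r3
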