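import Mathlib
import Pool.Agent.Lib.MP_f9aece_nt_r3.LevelsOf

/-!
S10: the unit of the problem and the energy of the tilting polynomials.
-/

set_option autoImplicit false

namespace Pool.Agent.Lib.MP_f9aece_nt_r3

open MeasureTheory Set Filter Topology Complex
open Pool.Agent.Lib.MP_f9aece_nt
open Pool.Agent.Lib.MP_f9aece_nt_h97
open Pool.Agent.Lib.MP_f9aece_nt_h5 (prime_sc)
open Pool.Agent.Lib.MP_f9aece_nt_h22 (VS J1 J1_le J1_lt VS_le_loglog Y_le_exp_VS sum_VV_eq_VS)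
open Pool.Agent.Lib.MP_f9aece_nt_h85 (wgt energy_interval)

/-! ### the sums over the scales -/

lemma VI_eq_VS {Y : ℝ} (hY : 0 < Y) (p0 : ℕ) {l J : ℕ} (hJ : Y / 4 ^ l / 4 ^ (J - l) < Real.log 2) :
    VI p0 Y l J = VS p0 (Y / 4 ^ l) := by
  rw [← VI_eq hY.le p0 l J]
  exact sum_VV_eq_VS (by positivity) p0 hJ

lemma J1_tail {Y : ℝ} (hY : 0 < Y) {l : ℕ} (hl : l ≤ J1 Y) :
    Y / 4 ^ l / 4 ^ (J1 Y - l) < Real.log 2 := by
  rw [div_div, ← pow_add, Nat.add_sub_cancel' hl]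
  exact J1_lt hY

lemma VI_le {Y : ℝ} (hY : 0 < Y) (p0 : ℕ) {l : ℕ} (hl : l ≤ J1 Y) (hYl : 1 ≤ Y / 4 ^ l) :
    VI p0 Y l (J1 Y) ≤ Real.log (43 * (Y / 4 ^ l)) := by
  rw [VI_eq_VS hY p0 (J1_tail hY hl)]
  exact VS_le_loglog le_rfl hYl p0

lemma VI_ge {Y : ℝ} (hY : 1 ≤ Y) {p0 : ℕ} (hp0 : 1 ≤ p0) :
    Real.log Y - (2 + Real.log p0) ≤ VI p0 Y 0 (J1 Y) := by
  have hY0 : 0 < Y := by linarith
  have h1 := Y_le_exp_VS hY hp0
  have h2 := VI_eq_VS hY0 p0 (J1_tail hY0 (Nat.zero_le (J1 Y)))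
  rw [pow_zero, div_one] at h2
  rw [h2]
  have hp : (0 : ℝ) < p0 := by exact_mod_cast hp0
  have h3 := Real.log_le_log hY0 h1
  rw [Real.log_mul (by positivity) (Real.exp_pos _).ne', Real.log_mul (Real.exp_pos _).ne' hp.ne',
    Real.log_exp, Real.log_exp] at h3
  linarith

lemma abs_kappa {a : ℝ} (ha : |a| ≤ 1) : |2 * a + a ^ 2| ≤ 3 * |a| := by
  have : 2 * a + a ^ 2 = a * (2 + a) := by ring
  rw [this, abs_mul, mul_comm]
  refine mul_le_mul_of_nonneg_right ?_ (abs_nonneg a)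
  have := abs_le.mp ha
  rw [abs_le]
  constructor <;> linarith

/-- the unit against the conjectured size -/
theorem unit_size : ∀ (p0 : ℕ), 1 ≤ p0 → ∀ A : ℝ, 43 ≤ A →
    ∃ C T0 : ℝ, 0 ≤ C ∧ 16 ≤ T0 ∧ ∀ T : ℝ, T0 ≤ T → ∀ a : ℝ, |a| ≤ 1 →
    Real.exp (-(C * |a|)) * UU a p0 (Real.log T / A) (J1 (Real.log T / A)) T
      ≤ T * Real.log T ^ ((1 + a) ^ 2) ∧
    T * Real.log T ^ ((1 + a) ^ 2)
      ≤ Real.exp (C * |a|) * UU a p0 (Real.log T / A) (J1 (Real.log T / A)) T := by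
  intro p0 hp0 A hA
  have hA0 : 0 < A := by linarith
  have hlA : 0 ≤ Real.log A := Real.log_nonneg (by linarith)
  have hlp : 0 ≤ Real.log p0 := Real.log_nonneg (by exact_mod_cast hp0)
  obtain ⟨D, hD⟩ : ∃ D, D = Real.log A + 2 + Real.log p0 := ⟨_, rfl⟩
  have hD0 : 0 ≤ D := by rw [hD]; linarith
  refine ⟨3 * D, max 16 (Real.exp A), by positivity, le_max_left _ _, ?_⟩
  intro T hT a ha
  have hT1 : Real.exp A ≤ T := (le_max_right _ _).trans hT
  have hT0 : 0 < T := (Real.exp_pos _).trans_le hT1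
  obtain ⟨x, hx⟩ : ∃ x, x = Real.log T := ⟨_, rfl⟩
  have hxA : A ≤ x := by rw [hx, Real.le_log_iff_exp_le hT0]; exact hT1
  have hx0 : 0 < x := by linarith
  have hY1 : 1 ≤ x / A := by rw [one_le_div hA0]; exact hxA
  have hY0 : 0 < x / A := by linarith
  obtain ⟨V, hV⟩ : ∃ V, V = VI p0 (x / A) 0 (J1 (x / A)) := ⟨_, rfl⟩
  have hVle : V ≤ Real.log x := by
    rw [hV]
    have h1 := VI_le hY0 p0 (Nat.zero_le (J1 (x / A))) (by rwa [pow_zero, div_one])
    rw [pow_zero, div_one] at h1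
    refine h1.trans (Real.log_le_log (by positivity) ?_)
    rw [mul_div_assoc', div_le_iff₀ hA0]
    nlinarith only [hA, hx0]
  have hVge : Real.log x - D ≤ V := by
    have h1 := VI_ge hY1 hp0
    rw [← hV, Real.log_div hx0.ne' hA0.ne'] at h1
    rw [hD]
    linarith
  have hk := abs_kappa ha
  have hdiff : |(2 * a + a ^ 2) * (Real.log x - V)| ≤ 3 * D * |a| := by
    rw [abs_mul, abs_of_nonneg (by linarith : 0 ≤ Real.log x - V)]
    calc |2 * a + a ^ 2| * (Real.log x - V) ≤ (3 * |a|) * D := by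
          apply mul_le_mul hk (by linarith) (by linarith) (by positivity)
      _ = _ := by ring
  obtain ⟨h1, h2⟩ := abs_le.mp hdiff
  have e1 : T * x ^ ((1 + a) ^ 2) = T * x * Real.exp ((2 * a + a ^ 2) * Real.log x) := by
    have e2 : (1 + a) ^ 2 = 1 + (2 * a + a ^ 2) := by ring
    rw [e2, Real.rpow_add hx0, Real.rpow_one, Real.rpow_def_of_pos hx0, mul_comm (Real.log x),
      mul_assoc]
  unfold UU
  rw [← hx, ← hV, e1]
  have hTx : 0 ≤ T * x := by positivity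
  constructor
  · rw [mul_left_comm]
    refine mul_le_mul_of_nonneg_left ?_ hTx
    rw [← Real.exp_add]
    apply Real.exp_le_exp.mpr
    linarith
  · rw [mul_left_comm]
    refine mul_le_mul_of_nonneg_left ?_ hTx
    rw [← Real.exp_add]
    apply Real.exp_le_exp.mpr
    linarith

/-! ### the diagonal form of a product of two blocks -/

/-- the diagonal form of a power sum -/
lemma BK_power_sum {I : Finset ℕ} (hI : ∀ p ∈ I, p.Prime) (c : ℕ → ℝ) (s : Finset ℕ) :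
    BK K1 (∑ k ∈ s, c k • (PP I) ^ k) (∑ k ∈ s, c k • (PP I) ^ k)
      ≤ ∑ k ∈ s, c k ^ 2 * (k.factorial * (VV I) ^ k) := by
  rw [BK_sum_left]
  refine Finset.sum_le_sum fun r hr => ?_
  rw [BK_sum_right, Finset.sum_eq_single r]
  · rw [BK_smul_left, BK_smul_right]
    calc c r * (c r * BK K1 ((PP I) ^ r) ((PP I) ^ r))
        = c r ^ 2 * BK K1 ((PP I) ^ r) ((PP I) ^ r) := by ring
      _ ≤ _ := by
          have := BK_PP_pow_self hI r
          gcongr
  · intro s _ hs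
    rw [BK_smul_left, BK_smul_right, BK_PP_pow_ne hI hs.symm]
    simp
  · intro h; exact absurd hr h

/-- the coefficients of the product -/
noncomputable def cf (a : ℝ) (M k : ℕ) : ℝ :=
  ∑ ij ∈ (Finset.range (M + 1) ×ˢ Finset.range (M + 1)).filter (fun ij => ij.1 + ij.2 = k),
    (1 / (ij.1.factorial : ℝ)) * (a ^ ij.2 / (ij.2.factorial : ℝ))

lemma expo_mul_expo (a : ℝ) (M : ℕ) (I : Finset ℕ) :
    expo 1 M I * expo a M I = ∑ k ∈ Finset.range (2 * M + 1), cf a M k • (PP I) ^ k := by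
  unfold expo cf
  rw [Finset.sum_mul_sum, ← Finset.sum_product']
  rw [← Finset.sum_fiberwise_of_maps_to (s := Finset.range (M + 1) ×ˢ Finset.range (M + 1))
    (t := Finset.range (2 * M + 1)) (g := fun ij => ij.1 + ij.2)]
  · refine Finset.sum_congr rfl fun k _ => ?_
    rw [Finset.sum_smul]
    refine Finset.sum_congr rfl fun ij hij => ?_
    rw [Finset.mem_filter] at hij
    rw [one_pow, smul_mul_smul_comm, ← pow_add, hij.2]
  · intro ij hij
    rw [Finset.mem_product, Finset.mem_range, Finset.mem_range] at hij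
    rw [Finset.mem_range]
    omega

lemma cf_le (a : ℝ) (M k : ℕ) : |cf a M k| ≤ (1 + |a|) ^ k / k.factorial := by
  have h1 : (1 + |a|) ^ k / (k.factorial : ℝ)
      = ∑ ij ∈ Finset.HasAntidiagonal.antidiagonal k, (1 / (ij.1.factorial : ℝ)) * (|a| ^ ij.2 / (ij.2.factorial : ℝ)) := by
    rw [(Commute.all (1 : ℝ) |a|).add_pow', Finset.sum_div]
    refine Finset.sum_congr rfl fun ij hij => ?_
    rw [Finset.HasAntidiagonal.mem_antidiagonal] at hij
    rw [← hij, nsmul_eq_mul, Nat.cast_choose ℝ (Nat.le_add_right _ _), Nat.add_sub_cancel_left, one_pow]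
    have e1 : ((ij.1 + ij.2).factorial : ℝ) ≠ 0 := by positivity
    field_simp
  rw [h1]
  unfold cf
  refine (Finset.abs_sum_le_sum_abs _ _).trans ?_
  have h2 : ∀ ij : ℕ × ℕ, |(1 / (ij.1.factorial : ℝ)) * (a ^ ij.2 / (ij.2.factorial : ℝ))|
      = (1 / (ij.1.factorial : ℝ)) * (|a| ^ ij.2 / (ij.2.factorial : ℝ)) := by
    intro ij
    rw [abs_mul, abs_div, abs_div, abs_pow, abs_one, abs_of_nonneg (by positivity : (0:ℝ) ≤ (ij.1.factorial : ℝ)),
      abs_of_nonneg (by positivity : (0:ℝ) ≤ (ij.2.factorial : ℝ))]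
  rw [Finset.sum_congr rfl fun ij _ => h2 ij]
  refine Finset.sum_le_sum_of_subset_of_nonneg ?_ fun ij _ _ => by positivity
  intro ij hij
  rw [Finset.mem_filter] at hij
  rw [Finset.HasAntidiagonal.mem_antidiagonal]
  exact hij.2

lemma cf_eq (a : ℝ) {M k : ℕ} (hk : k ≤ M) : cf a M k = (1 + a) ^ k / k.factorial := by
  have h1 : (1 + a) ^ k / (k.factorial : ℝ)
      = ∑ ij ∈ Finset.HasAntidiagonal.antidiagonal k, (1 / (ij.1.factorial : ℝ)) * (a ^ ij.2 / (ij.2.factorial : ℝ)) := by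
    rw [(Commute.all (1 : ℝ) a).add_pow', Finset.sum_div]
    refine Finset.sum_congr rfl fun ij hij => ?_
    rw [Finset.HasAntidiagonal.mem_antidiagonal] at hij
    rw [← hij, nsmul_eq_mul, Nat.cast_choose ℝ (Nat.le_add_right _ _), Nat.add_sub_cancel_left, one_pow]
    have e1 : ((ij.1 + ij.2).factorial : ℝ) ≠ 0 := by positivity
    field_simp
  rw [h1]
  unfold cf
  refine Finset.sum_congr ?_ fun _ _ => rfl
  ext ij
  rw [Finset.mem_filter, Finset.mem_product, Finset.mem_range, Finset.mem_range,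
    Finset.HasAntidiagonal.mem_antidiagonal]
  constructor
  · exact fun h => h.2
  · intro h
    exact ⟨by omega, h⟩

/-- the diagonal form of a product of two blocks -/
lemma BK_two {I : Finset ℕ} (hI : ∀ p ∈ I, p.Prime) {a : ℝ} (ha : |a| ≤ 1 / 8) {M : ℕ}
    (hV : VV I ≤ 12) :
    BK K1 (expo 1 M I * expo a M I) (expo 1 M I * expo a M I)
      ≤ Real.exp ((1 + a) ^ 2 * VV I) * (1 + Real.exp 96 * (1 / 4) ^ M) := by
  rw [expo_mul_expo]
  refine (BK_power_sum hI _ _).trans ?_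
  have hV0 := VV_nonneg I
  have hsplit : Finset.range (2 * M + 1) = Finset.range (M + 1) ∪ Finset.Ico (M + 1) (2 * M + 1) := by
    ext k
    simp only [Finset.mem_range, Finset.mem_union, Finset.mem_Ico]
    omega
  have hdisj : Disjoint (Finset.range (M + 1)) (Finset.Ico (M + 1) (2 * M + 1)) := by
    rw [Finset.disjoint_left]
    intro k h1 h2
    rw [Finset.mem_range] at h1
    rw [Finset.mem_Ico] at h2
    omega
  rw [hsplit, Finset.sum_union hdisj]
  have h1 : ∑ k ∈ Finset.range (M + 1), cf a M k ^ 2 * (k.factorial * (VV I) ^ k)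
      ≤ Real.exp ((1 + a) ^ 2 * VV I) := by
    have e : ∀ k ∈ Finset.range (M + 1), cf a M k ^ 2 * (k.factorial * (VV I) ^ k)
        = ((1 + a) ^ 2 * VV I) ^ k / k.factorial := by
      intro k hk
      rw [Finset.mem_range] at hk
      rw [cf_eq a (by omega), div_pow, mul_pow, ← pow_mul, mul_comm k 2, pow_mul]
      field_simp
    rw [Finset.sum_congr rfl e]
    exact Real.sum_le_exp_of_nonneg (by positivity) _
  have h2 : ∑ k ∈ Finset.Ico (M + 1) (2 * M + 1), cf a M k ^ 2 * (k.factorial * (VV I) ^ k)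
      ≤ Real.exp 96 * (1 / 4) ^ M := by
    have hb : ∀ k ∈ Finset.Ico (M + 1) (2 * M + 1), cf a M k ^ 2 * (k.factorial * (VV I) ^ k)
        ≤ Real.exp 96 * (1 / 4) ^ (M + 1) * (1 / 4) ^ (k - (M + 1)) := by
      intro k hk
      rw [Finset.mem_Ico] at hk
      have h3 : cf a M k ^ 2 ≤ ((1 + |a|) ^ k / k.factorial) ^ 2 := by
        rw [← sq_abs (cf a M k)]
        exact pow_le_pow_left₀ (abs_nonneg _) (cf_le a M k) 2
      have h4 : (1 + |a|) ^ 2 * VV I ≤ 24 := by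
        have h5 : (1 + |a|) ^ 2 ≤ 2 := by nlinarith only [abs_nonneg a, ha]
        calc (1 + |a|) ^ 2 * VV I ≤ 2 * 12 := by gcongr
          _ = 24 := by norm_num
      have h6 : (96 : ℝ) ^ k / k.factorial ≤ Real.exp 96 :=
        Real.pow_div_factorial_le_exp 96 (by norm_num) k
      calc cf a M k ^ 2 * (k.factorial * (VV I) ^ k)
          ≤ ((1 + |a|) ^ k / k.factorial) ^ 2 * (k.factorial * (VV I) ^ k) := by gcongr
        _ = ((1 + |a|) ^ 2 * VV I) ^ k / k.factorial := by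
            rw [div_pow, mul_pow, ← pow_mul, mul_comm k 2, pow_mul]
            field_simp
        _ ≤ 24 ^ k / k.factorial := by gcongr
        _ = (96 ^ k / k.factorial) * (1 / 4) ^ k := by
            have : (24 : ℝ) = 96 * (1 / 4) := by norm_num
            rw [this, mul_pow]
            ring
        _ ≤ Real.exp 96 * (1 / 4) ^ k := by gcongr
        _ = Real.exp 96 * (1 / 4) ^ (M + 1) * (1 / 4) ^ (k - (M + 1)) := by
            rw [mul_assoc, ← pow_add]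
            congr 2
            omega
    refine (Finset.sum_le_sum hb).trans ?_
    rw [← Finset.mul_sum, Finset.sum_Ico_eq_sum_range]
    have h3 : ∑ k ∈ Finset.range (2 * M + 1 - (M + 1)), (1 / 4 : ℝ) ^ (M + 1 + k - (M + 1)) ≤ 4 := by
      have e : ∀ k ∈ Finset.range (2 * M + 1 - (M + 1)), (1 / 4 : ℝ) ^ (M + 1 + k - (M + 1))
          = (1 / 4) ^ k := fun k _ => by rw [Nat.add_sub_cancel_left]
      rw [Finset.sum_congr rfl e]
      have h4 : (∑ j ∈ Finset.range (2 * M + 1 - (M + 1)), (1 / 4 : ℝ) ^ j) * (1 - 1 / 4)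
          = 1 - (1 / 4) ^ (2 * M + 1 - (M + 1)) := geom_sum_mul_neg _ _
      have h5 : (0 : ℝ) ≤ (1 / 4) ^ (2 * M + 1 - (M + 1)) := by positivity
      linarith
    calc Real.exp 96 * (1 / 4) ^ (M + 1) * _ ≤ Real.exp 96 * (1 / 4) ^ (M + 1) * 4 := by gcongr
      _ = _ := by rw [pow_succ]; ring
  have h3 : 1 ≤ Real.exp ((1 + a) ^ 2 * VV I) := Real.one_le_exp (by positivity)
  have h4 : Real.exp 96 * (1 / 4) ^ M ≤ Real.exp ((1 + a) ^ 2 * VV I) * (Real.exp 96 * (1 / 4) ^ M) :=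
    le_mul_of_one_le_left (by positivity) h3
  rw [mul_add, mul_one]
  exact add_le_add h1 (h2.trans h4)

lemma NN_mul_NN (a : ℝ) (m p0 : ℕ) (Y : ℝ) (l J : ℕ) :
    NN 1 m p0 Y l J * NN a m p0 Y l J
      = ∏ j ∈ Finset.Ico l J, (expo 1 (Mm m j) (sc Y p0 j) * expo a (Mm m j) (sc Y p0 j)) := by
  unfold NN qb
  rw [← Finset.prod_mul_distrib]

lemma K1s_one'' : K1s 1 = K1 := by
  funext a b
  unfold K1s K1
  rw [Real.rpow_neg_one]

lemma BK_K1_self_nonneg (f : DP) : 0 ≤ BK K1 f f := by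
  rw [BK_K1_eq, pair_def]
  refine Finset.sum_nonneg fun a _ => ?_
  have : f.coeff a * (f.coeff a * (a : ℝ)⁻¹) = f.coeff a ^ 2 * (a : ℝ)⁻¹ := by ring
  rw [this]
  positivity

/-- the diagonal form of the product of the tilting polynomials -/
lemma BK_NN {Y : ℝ} (hY : 0 < Y) {a : ℝ} (ha : |a| ≤ 1 / 8) {m : ℕ} (hm : 1 ≤ m) (p0 l J : ℕ) :
    BK K1 (NN 1 m p0 Y l J * NN a m p0 Y l J) (NN 1 m p0 Y l J * NN a m p0 Y l J)
      ≤ Real.exp ((1 + a) ^ 2 * VI p0 Y l J) * Real.exp (Real.exp 96 * 2) := by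
  have hsup : ∀ j ∈ Finset.Ico l J, Sup (Smo (sc Y p0 j))
      (expo 1 (Mm m j) (sc Y p0 j) * expo a (Mm m j) (sc Y p0 j)) := fun j _ =>
    (sup_expo (prime_sc j) _ _).mul (sup_expo (prime_sc j) _ _) fun _ hx _ hy => mul_mem_Smo hx hy
  rw [NN_mul_NN, ← K1s_one'', BK_prod_MK (mk_K1s le_rfl) (Finset.Ico l J) (sc Y p0)
    (fun _ _ _ _ h => sc_disjoint hY h) _ _ hsup hsup, K1s_one'']
  have h1 : ∀ j ∈ Finset.Ico l J,
      BK K1 (expo 1 (Mm m j) (sc Y p0 j) * expo a (Mm m j) (sc Y p0 j))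
        (expo 1 (Mm m j) (sc Y p0 j) * expo a (Mm m j) (sc Y p0 j))
      ≤ Real.exp ((1 + a) ^ 2 * VV (sc Y p0 j) + Real.exp 96 * (1 / 4) ^ j) := by
    intro j _
    refine (BK_two (prime_sc j) ha (VV_sc_le hY p0 j)).trans ?_
    rw [Real.exp_add]
    refine mul_le_mul_of_nonneg_left ?_ (Real.exp_pos _).le
    have h2 := Real.add_one_le_exp (Real.exp 96 * (1 / 4) ^ j)
    have h3 : (1 / 4 : ℝ) ^ (Mm m j) ≤ (1 / 4) ^ j := by
      apply pow_le_pow_of_le_one (by norm_num) (by norm_num)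
      unfold Mm
      have h4 : j < 2 ^ j := Nat.lt_two_pow_self
      nlinarith
    have h4 : Real.exp 96 * (1 / 4) ^ (Mm m j) ≤ Real.exp 96 * (1 / 4) ^ j := by gcongr
    linarith
  refine (Finset.prod_le_prod (fun j _ => BK_K1_self_nonneg _) h1).trans ?_
  rw [← Real.exp_sum, Finset.sum_add_distrib, ← Finset.mul_sum, ← Finset.mul_sum, Real.exp_add]
  refine mul_le_mul_of_nonneg_left ?_ (Real.exp_pos _).le
  apply Real.exp_le_exp.mpr
  refine mul_le_mul_of_nonneg_left ?_ (Real.exp_pos _).le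
  have h5 : ∑ j ∈ Finset.Ico l J, (1 / 4 : ℝ) ^ j ≤ ∑ j ∈ Finset.range J, (1 / 4 : ℝ) ^ j := by
    refine Finset.sum_le_sum_of_subset_of_nonneg ?_ fun j _ _ => by positivity
    intro j hj
    rw [Finset.mem_Ico] at hj
    exact Finset.mem_range.mpr hj.2
  have h6 : (∑ j ∈ Finset.range J, (1 / 4 : ℝ) ^ j) * (1 - 1 / 4) = 1 - (1 / 4) ^ J :=
    geom_sum_mul_neg _ _
  have h7 : (0 : ℝ) ≤ (1 / 4) ^ J := by positivity
  linarith

/-- lengths -/
lemma NN_len {Y : ℝ} (hY : 0 < Y) {c : ℝ} (hc : |c| ≤ 1) (m p0 l J : ℕ) :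
    Pool.Agent.Lib.MP_f9aece_nt_h85.DLB (NN c m p0 Y l J) (2 * m * Y) (J + 2 * m * Y) := by
  have h := Pool.Agent.Lib.MP_f9aece_nt_h85.DLB.DD (Y := Y / 4 ^ l) (by positivity) (m * 2 ^ l) p0
    hc (J - l)
  rw [NN_eq_DD hY.le] at h
  have h1 : 2 * ((m * 2 ^ l : ℕ) : ℝ) * (Y / 4 ^ l) ≤ 2 * m * Y := by
    have e : 2 * ((m * 2 ^ l : ℕ) : ℝ) * (Y / 4 ^ l) = 2 * m * Y / 2 ^ l := by
      rw [Par.four]
      push_cast
      field_simp
    rw [e]
    exact div_le_self (by positivity) (one_le_pow₀ (by norm_num))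
  have h2 : ((J - l : ℕ) : ℝ) ≤ J := by
    have : J - l ≤ J := by omega
    exact_mod_cast this
  exact h.mono h1 (by linarith)

/-- mean value of the product of the tilting polynomials -/
lemma mean_NN : ∃ C T0 : ℝ, 0 ≤ C ∧ 16 ≤ T0 ∧ ∀ T : ℝ, T0 ≤ T → ∀ (a Y : ℝ) (m p0 l J : ℕ),
    |a| ≤ 1 / 8 → 0 < Y → 1 ≤ m → 8 * m * Y ≤ Real.log T →
    ∫ t in (0 : ℝ)..T, ‖ev t (NN 1 m p0 Y l J) * ev t (NN a m p0 Y l J)‖ ^ 2
      ≤ C * (T * Real.exp ((1 + a) ^ 2 * VI p0 Y l J)) := by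
  obtain ⟨K, hK1, hK2⟩ := Ker.exists_good (ε := 1 / 4) (by norm_num) (by norm_num)
  have hL := K.hL
  have hml := K.ml_nonneg
  have hm2 := K.m2_nonneg
  have hpi := Real.pi_pos
  refine ⟨4 * (Real.pi * K.m2) * Real.exp (Real.exp 96 * 2),
    max 16 (16 * K.L ^ 2 * K.ml + 64 * K.L ^ 2), by positivity, le_max_left _ _, ?_⟩
  intro T hT a Y m p0 l J ha hY hm hmY
  have hT16 : 16 ≤ T := (le_max_left _ _).trans hT
  have hTK : 16 * K.L ^ 2 * K.ml + 64 * K.L ^ 2 ≤ T := (le_max_right _ _).trans hT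
  have hT0 : 0 < T := by linarith
  have hp1 : 0 ≤ 16 * K.L ^ 2 * K.ml := by positivity
  obtain ⟨f, hf⟩ : ∃ f : DP, f = NN 1 m p0 Y l J * NN a m p0 Y l J := ⟨_, rfl⟩
  have hbd := ((NN_len hY (c := 1) (by norm_num) m p0 l J).mul
    (NN_len hY (c := a) (by linarith) m p0 l J)).bd
  rw [← hf] at hbd
  obtain ⟨H, hH⟩ : ∃ H, H = Real.exp (2 * m * Y + 2 * m * Y) := ⟨_, rfl⟩
  rw [← hH] at hbd
  have hH1 : 1 ≤ H := by rw [hH]; exact Real.one_le_exp (by positivity)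
  have h4H : 4 * K.L * H < T := by
    refine len_small (τ := 1) (by linarith only [hL]) (by linarith only [hp1, hTK]) le_rfl hH1 ?_
    rw [one_pow, mul_one, Real.rpow_def_of_pos hT0, hH]
    apply Real.exp_le_exp.mpr
    linarith
  have hTL : 2 * K.L ≤ T := by nlinarith only [hp1, hTK, hL]
  obtain ⟨hi, he⟩ := energy_interval hTL hH1 h4H hbd.1 hT0.le
  have hwt : ∀ t ∈ Icc (0 : ℝ) T, 1 / (2 * T) ≤ wgt K T t := by
    intro t ht
    have h1 := K.mellin_lower hK2 (T := T) (t := t) (by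
      have : 0 ≤ K.L ^ 2 := by positivity
      linarith) ht.1 ht.2
    refine le_trans ?_ h1
    have h2 : 4 * K.L ^ 2 * K.ml / T ≤ 1 / 4 := by
      rw [div_le_iff₀ hT0]
      have : 0 ≤ 64 * K.L ^ 2 := by positivity
      linarith only [this, hTK]
    rw [div_le_div_iff₀ (by positivity) hT0]
    nlinarith only [h2, hT0]
  have h1 : ∫ t in (0 : ℝ)..T, ‖ev t f‖ ^ 2
      ≤ ∫ t in (0 : ℝ)..T, 4 * T ^ 2 * (‖ev t f‖ * wgt K T t) ^ 2 := by
    refine intervalIntegral.integral_mono_on hT0.le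
      (((continuous_ev f).norm.pow 2).intervalIntegrable _ _) (hi.const_mul _) fun t ht => ?_
    have h2 := hwt t ht
    have h3 : 1 ≤ 2 * T * wgt K T t := by
      have := mul_le_mul_of_nonneg_left h2 (by positivity : 0 ≤ 2 * T)
      refine le_trans (le_of_eq ?_) this
      field_simp
    have h4 : 1 ≤ (2 * T * wgt K T t) ^ 2 := one_le_pow₀ h3
    calc ‖ev t f‖ ^ 2 ≤ ‖ev t f‖ ^ 2 * (2 * T * wgt K T t) ^ 2 :=
          le_mul_of_one_le_right (by positivity) h4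
      _ = _ := by ring
  rw [intervalIntegral.integral_const_mul] at h1
  have hBK := BK_NN hY ha hm p0 l J
  rw [← hf] at hBK
  have e1 : ∀ t : ℝ, ev t (NN 1 m p0 Y l J) * ev t (NN a m p0 Y l J) = ev t f := fun t => by
    rw [hf, map_mul]
  simp_rw [e1]
  calc ∫ t in (0 : ℝ)..T, ‖ev t f‖ ^ 2 ≤ 4 * T ^ 2 * (Real.pi * K.m2 / T * BK K1 f f) :=
        h1.trans (mul_le_mul_of_nonneg_left he (by positivity))
    _ = 4 * (Real.pi * K.m2) * T * BK K1 f f := by field_simp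
    _ ≤ 4 * (Real.pi * K.m2) * T * (Real.exp ((1 + a) ^ 2 * VI p0 Y l J)
          * Real.exp (Real.exp 96 * 2)) := mul_le_mul_of_nonneg_left hBK (by positivity)
    _ = _ := by ring

/-- the energy of the tilting polynomials of a level against the unit -/
theorem energy_up : ∃ m1 p1 : ℕ, ∀ m : ℕ, m1 ≤ m → ∀ p0 : ℕ, p1 ≤ p0 → ∀ A : ℝ, 2000 * m ≤ A →
    ∃ C T0 : ℝ, 0 ≤ C ∧ 16 ≤ T0 ∧ ∀ T : ℝ, T0 ≤ T → ∀ a : ℝ, |a| ≤ 1 / 8 → ∀ l : ℕ,
    l ≤ J1 (Real.log T / A) →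
    ∫ t in (0 : ℝ)..T, ‖ev t (NN 1 m p0 (Real.log T / A) l (J1 (Real.log T / A)))
        * ev t (NN a m p0 (Real.log T / A) l (J1 (Real.log T / A)))‖ ^ 2
      ≤ C * (1 / 2) ^ l * UU a p0 (Real.log T / A) (J1 (Real.log T / A)) T := by
  obtain ⟨C1, T1, hC1, hT1, hmean⟩ := mean_NN
  refine ⟨1, 1, ?_⟩
  intro m hm p0 hp0 A hA
  have hm1 : (1 : ℝ) ≤ m := by exact_mod_cast hm
  have hA0 : 2000 ≤ A := by linarith
  have hA00 : 0 < A := by linarith
  have hlp : 0 ≤ Real.log p0 := Real.log_nonneg (by exact_mod_cast hp0)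
  -- `V_l - V_0 ≤ D - l log 4`
  obtain ⟨D, hD⟩ : ∃ D, D = Real.log 43 + 2 + Real.log p0 + Real.log 4 + 1 := ⟨_, rfl⟩
  have hl43 : 0 ≤ Real.log 43 := Real.log_nonneg (by norm_num)
  have hl4 : 0 ≤ Real.log 4 := Real.log_nonneg (by norm_num)
  have hD0 : 0 ≤ D := by rw [hD]; linarith
  refine ⟨C1 * Real.exp (2 * D), max T1 (Real.exp A), by positivity, hT1.trans (le_max_left _ _), ?_⟩
  intro T hT a ha l hl
  have hTT1 : T1 ≤ T := (le_max_left _ _).trans hT
  have hTA : Real.exp A ≤ T := (le_max_right _ _).trans hT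
  have hT0 : 0 < T := (Real.exp_pos _).trans_le hTA
  obtain ⟨x, hx⟩ : ∃ x, x = Real.log T := ⟨_, rfl⟩
  have hxA : A ≤ x := by rw [hx, Real.le_log_iff_exp_le hT0]; exact hTA
  have hx0 : 0 < x := by linarith
  rw [← hx] at hl
  obtain ⟨Y, hY⟩ : ∃ Y, Y = x / A := ⟨_, rfl⟩
  rw [← hY] at hl
  have hY1 : 1 ≤ Y := by rw [hY, one_le_div hA00]; exact hxA
  have hY0 : 0 < Y := by linarith
  have hYx : Y ≤ x := by rw [hY]; exact div_le_self hx0.le (by linarith)
  have h1 := hmean T hTT1 a Y m p0 l (J1 Y) ha hY0 hm (by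
    rw [← hx, hY, mul_div_assoc', div_le_iff₀ hA00]
    nlinarith only [hA, hx0])
  rw [← hx, ← hY]
  refine h1.trans ?_
  obtain ⟨V0, hV0⟩ : ∃ V0, V0 = VI p0 Y 0 (J1 Y) := ⟨_, rfl⟩
  obtain ⟨V, hV⟩ : ∃ V, V = VI p0 Y l (J1 Y) := ⟨_, rfl⟩
  have hV0ge : Real.log Y - (2 + Real.log p0) ≤ V0 := by rw [hV0]; exact VI_ge hY1 hp0
  have hV00 : 0 ≤ V0 := by rw [hV0]; exact VI_nonneg _ _ _ _
  have hV00' : 0 ≤ V := by rw [hV]; exact VI_nonneg _ _ _ _
  have hVV0 : V ≤ V0 := by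
    rw [hV, hV0, VI_split p0 hl]
    have := VI_nonneg p0 Y 0 l
    linarith
  have hV0le : V0 ≤ Real.log x := by
    rw [hV0]
    have h1 := VI_le hY0 p0 (Nat.zero_le (J1 Y)) (by rwa [pow_zero, div_one])
    rw [pow_zero, div_one] at h1
    refine h1.trans (Real.log_le_log (by positivity) ?_)
    rw [hY, mul_div_assoc', div_le_iff₀ hA00]
    nlinarith only [hA0, hx0]
  have ha' := abs_le.mp ha
  have hsq1 : 49 / 64 ≤ (1 + a) ^ 2 := by nlinarith
  have hsq2 : (1 + a) ^ 2 ≤ 2 := by nlinarith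
  have hl0 : (0 : ℝ) ≤ l := Nat.cast_nonneg l
  have hlog4 : Real.log 4 = 2 * Real.log 2 := by
    rw [show (4 : ℝ) = 2 ^ 2 by norm_num, Real.log_pow]
    norm_num
  have hl2a := Real.log_two_gt_d9
  have hl2b := Real.log_two_lt_d9
  -- the main comparison
  have key : (1 + a) ^ 2 * V ≤ (1 + a) ^ 2 * V0 - l * Real.log 2 + 2 * D := by
    rcases le_or_gt 1 (Y / 4 ^ l) with h | h
    · have h2 := VI_le hY0 p0 hl h
      rw [← hV, Real.log_mul (by norm_num) (by positivity), Real.log_div hY0.ne' (by positivity),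
        Real.log_pow] at h2
      have h3 : V - V0 ≤ D - l * Real.log 4 := by rw [hD]; linarith
      have h4 : (1 + a) ^ 2 * (V - V0) ≤ (1 + a) ^ 2 * (D - l * Real.log 4) :=
        mul_le_mul_of_nonneg_left h3 (by positivity)
      have h5 : (1 + a) ^ 2 * D ≤ 2 * D := mul_le_mul_of_nonneg_right hsq2 hD0
      have h6 : 49 / 64 * (l * Real.log 4) ≤ (1 + a) ^ 2 * (l * Real.log 4) :=
        mul_le_mul_of_nonneg_right hsq1 (by positivity)
      have h7 : l * Real.log 2 ≤ 49 / 64 * (l * Real.log 4) := by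
        rw [hlog4]
        have : 0 ≤ l * Real.log 2 := by positivity
        linarith
      linarith
    · -- small scales: `V ≤ log 43`, `l ≤ log Y + 1`
      have h2 : V ≤ Real.log 43 := by
        rw [hV, VI_eq_VS hY0 p0 (J1_tail hY0 hl)]
        have h3 : VS p0 (Y / 4 ^ l) ≤ VS p0 1 := by
          unfold Pool.Agent.Lib.MP_f9aece_nt_h22.VS
          refine Finset.sum_le_sum_of_subset_of_nonneg ?_ fun p _ _ => by positivity
          unfold Pool.Agent.Lib.MP_f9aece_nt_h85.Pst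
          refine Finset.filter_subset_filter _ (Finset.Ioc_subset_Ioc_right ?_)
          exact Nat.floor_le_floor (Real.exp_le_exp.mpr h.le)
        refine h3.trans ?_
        have h4 := VS_le_loglog (A := 43) le_rfl (le_refl (1 : ℝ)) p0
        rwa [mul_one] at h4
      have h3 : (l : ℝ) ≤ Real.log Y + 1 := by
        have h4 : (l : ℝ) ≤ J1 Y := by exact_mod_cast hl
        exact h4.trans (J1_le hY1)
      have h4 : (1 + a) ^ 2 * V ≤ 2 * Real.log 43 := by
        calc (1 + a) ^ 2 * V ≤ 2 * V := mul_le_mul_of_nonneg_right hsq2 hV00'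
          _ ≤ 2 * Real.log 43 := by linarith
      have h5 : 49 / 64 * V0 ≤ (1 + a) ^ 2 * V0 := mul_le_mul_of_nonneg_right hsq1 hV00
      have h6 : l * Real.log 2 ≤ (Real.log Y + 1) * 0.6931471808 := by
        have hlY : 0 ≤ Real.log Y := Real.log_nonneg hY1
        exact mul_le_mul h3 hl2b.le (by linarith) (by linarith)
      have hlY : 0 ≤ Real.log Y := Real.log_nonneg hY1
      rw [hD]
      linarith
  unfold UU
  rw [← hx, ← hV0, ← hV]
  have hhalf : (1 / 2 : ℝ) ^ l = Real.exp (-(l * Real.log 2)) := by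
    rw [Real.exp_neg, Real.exp_nat_mul, Real.exp_log (by norm_num), one_div, inv_pow]
  have hxV : Real.exp V0 ≤ x := by rw [← Real.le_log_iff_exp_le hx0]; exact hV0le
  calc C1 * (T * Real.exp ((1 + a) ^ 2 * V))
      ≤ C1 * (T * Real.exp ((1 + a) ^ 2 * V0 - l * Real.log 2 + 2 * D)) := by gcongr
    _ = C1 * Real.exp (2 * D) * (1 / 2) ^ l * (T * Real.exp V0
          * Real.exp ((2 * a + a ^ 2) * V0)) := by
        rw [hhalf]
        have e : (1 + a) ^ 2 * V0 - l * Real.log 2 + 2 * D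
            = 2 * D + -(l * Real.log 2) + V0 + (2 * a + a ^ 2) * V0 := by ring
        rw [e, Real.exp_add, Real.exp_add, Real.exp_add]
        ring
    _ ≤ C1 * Real.exp (2 * D) * (1 / 2) ^ l * (T * x * Real.exp ((2 * a + a ^ 2) * V0)) := by
        gcongr

end Pool.Agent.Lib.MP_f9aece_nt_r3
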