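import Mathlib
import Pool.Agent.Lib.MP_f9aece_nt_h22.H4c
import Pool.Agent.Lib.MP_f9aece_nt_r3.NForms

/-!
S7: the part of a level where the first prime polynomial of the previous level is large, for
exponents of both signs.
-/

set_option autoImplicit false

namespace Pool.Agent.Lib.MP_f9aece_nt_r3

open MeasureTheory Set Filter Topology Complex
open Pool.Agent.Lib.MP_f9aece_nt
open Pool.Agent.Lib.MP_f9aece_nt_h97
open Pool.Agent.Lib.MP_f9aece_nt_h22 (VS Psc Rsc Rsc_pos sum_VV_eq_VS cone_P0 aug_P0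
  pow_ratio R_inv_le VS_le_loglog VS_nonneg)
open Pool.Agent.Lib.MP_f9aece_nt_h40 (len_nrm_dom dom_DD cone_DD1 aug_DD1 aug_nonneg' sup_DD)

lemma DD_eq_NN (m p0 : ℕ) (b Y : ℝ) (J : ℕ) : DD m p0 b Y J = NN b m p0 Y 0 J := by
  unfold DD NN qb
  rw [Finset.range_eq_Ico]

lemma VI_zero (p0 : ℕ) (Y : ℝ) (J : ℕ) : VI p0 Y 0 J = ∑ j ∈ Finset.range J, VV (sc Y p0 j) := by
  unfold VI
  rw [Finset.range_eq_Ico]

/-- the forms of `DD (2m) p0 b (Y/4) J * P ^ m` -/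
lemma forms_cs {C X : ℝ} {m p0 J : ℕ} {b Y : ℝ} (hb : |b| ≤ 1 / 8) (hY : 4 ≤ Y)
    (hm : 12 ≤ m) (hC : 0 ≤ C) (hX : 0 < X)
    (f0 : 0 ≤ BK K2 (DD (2 * m) p0 b (Y / 4) J) (DD (2 * m) p0 b (Y / 4) J))
    (f1 : BK K2 (DD (2 * m) p0 b (Y / 4) J) (DD (2 * m) p0 b (Y / 4) J) ≤ X * Real.exp C)
    (f3 : |BK KL (DD (2 * m) p0 b (Y / 4) J) (DD (2 * m) p0 b (Y / 4) J)| ≤ C * (1 + Y / 4) * X) :
    |BK K2 (DD (2 * m) p0 b (Y / 4) J * Psc p0 Y 0 ^ m) (DD (2 * m) p0 b (Y / 4) J * Psc p0 Y 0 ^ m)|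
      ≤ X * Real.exp C * (24 * m : ℝ) ^ m ∧
    |BK KL (DD (2 * m) p0 b (Y / 4) J * Psc p0 Y 0 ^ m) (DD (2 * m) p0 b (Y / 4) J * Psc p0 Y 0 ^ m)|
      ≤ (C * (1 + Y / 4) * X + 2 * m * Y * (X * Real.exp C)) * (24 * m : ℝ) ^ m ∧
    (∀ k, (DD (2 * m) p0 b (Y / 4) J * Psc p0 Y 0 ^ m).coeff k ≠ 0 →
      1 ≤ k ∧ (k : ℝ) ≤ Real.exp (2 * m * Y)) ∧
    nrm (DD (2 * m) p0 b (Y / 4) J * Psc p0 Y 0 ^ m) ≤ Real.exp (J + 2 * m * Y) := by
  have hY0 : 0 < Y := by linarith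
  have hm' : (12 : ℝ) ≤ m := by exact_mod_cast hm
  obtain ⟨D, hD⟩ : ∃ D, D = DD (2 * m) p0 b (Y / 4) J := ⟨_, rfl⟩
  obtain ⟨P, hP⟩ : ∃ P : DP, P = Psc p0 Y 0 ^ m := ⟨_, rfl⟩
  have hpb := pow_bounds (I := sc Y p0 0) (fun p hp => sc_prime hp) hm (VV_sc_le hY0 p0 0) hY0.le
    (fun p hp => by simpa using sc_log_le hp)
  have hcP := cone_P0 hY0 m p0
  have haP := aug_P0 (Y := Y) m p0
  have supP : Sup (Smo (sc Y p0 0 : Set ℕ)) P := by
    intro n hn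
    rw [hP] at hn
    exact ((cone_PP_pow (fun p hp => sc_prime hp) m n).2 hn).1
  have supD : Sup (Smo (⋃ j ∈ Finset.range J, (sc (Y / 4) p0 j : Set ℕ))) D := by
    rw [hD]
    exact sup_DD _ _ _ _ _
  have hdis : Disjoint (⋃ j ∈ Finset.range J, (sc (Y / 4) p0 j : Set ℕ)) (sc Y p0 0 : Set ℕ) := by
    rw [Set.disjoint_iUnion₂_left]
    intro j _
    have e := sc_level Y hY0.le p0 1 j
    rw [pow_one] at e
    rw [e, Finset.disjoint_coe]
    exact sc_disjoint hY0 (by omega)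
  have e2 : BK K2 (D * P) (D * P) = BK K2 D D * BK K2 P P :=
    BK_mul_sup K2 supD supD supP supP fun x hx x' hx' y hy y' hy' => K2_mul hdis hx hx' hy hy'
  have eL : BK KL (D * P) (D * P) = BK KL D D * BK K2 P P + BK K2 D D * BK KL P P :=
    BK_mul_der K2 KL supD supD supP supP fun x hx x' hx' y hy y' hy' => KL_mul hdis hx hx' hy hy'
  obtain ⟨b1, b2⟩ := hpb
  have hPd : PP (sc Y p0 0) ^ m = P := by rw [hP]; rfl
  rw [hPd] at b1 b2 hcP haP
  rw [← hD] at f0 f1 f3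
  rw [← hP, ← hD]
  have a1 : |BK K2 D D| ≤ X * Real.exp C := by rw [abs_of_nonneg f0]; exact f1
  refine ⟨?_, ?_, ?_⟩
  · rw [e2, abs_mul]
    gcongr
  · rw [eL]
    refine (abs_add_le _ _).trans ?_
    rw [abs_mul, abs_mul]
    calc |BK KL D D| * |BK K2 P P| + |BK K2 D D| * |BK KL P P|
        ≤ (C * (1 + Y / 4) * X) * (24 * m : ℝ) ^ m
          + (X * Real.exp C) * ((2 * m * Y) * (24 * m : ℝ) ^ m) := by
          gcongr
      _ = _ := by ring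
  · have dD := dom_DD (2 * m) p0 (c := b) (by linarith) (Y / 4) J
    have c1 := cone_DD1 (2 * m) p0 (by linarith : 0 < Y / 4) J
    have g1 := aug_DD1 (2 * m) p0 (by linarith : 0 < Y / 4) J
    have dP : Dom P P := dom_self hcP
    rw [← hD] at dD
    refine len_nrm_dom (dD.mul dP) (c1.mul hcP fun x hx y hy => Len.mul hx hy) (mu := J + 2 * m * Y)
      ?_ ?_ le_rfl
    · rw [aug_mul]
      calc aug (DD (2 * m) p0 1 (Y / 4) J) * aug P
          ≤ Real.exp (J + 2 * (2 * m : ℕ) * (Y / 4)) * Real.exp (m * Y) := by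
            have := aug_nonneg' hcP
            gcongr
        _ = _ := by
            rw [← Real.exp_add]
            congr 1
            push_cast
            ring
    · push_cast
      linarith

theorem pow_part_signed : ∃ C5 : ℝ, 0 ≤ C5 ∧ ∃ m1 p1 : ℕ, ∃ T5 : ℝ, ∀ T : ℝ, T5 ≤ T → ∀ m : ℕ,
    m1 ≤ m → ∀ p0 : ℕ, p1 ≤ p0 → ∀ (J : ℕ) (b Y : ℝ), |b| ≤ 1 / 8 → 4 ≤ Y → 43 * Y ≤ Real.log T →
    2000 * m * Y ≤ Real.log T → 64 * (J + 1) ≤ Real.log T → Y / 4 ^ (J + 1) < Real.log 2 →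
    (Rsc m 0 ^ (2 * m))⁻¹ * ∫ t in Icc 0 T,
        ‖riemannZeta (1 / 2 + I * t) * ev t (DD (2 * m) p0 b (Y / 4) J * Psc p0 Y 0 ^ m)‖ ^ 2
      ≤ C5 * ((2 : ℝ) ^ m)⁻¹ * (T * Real.log T
          * Real.exp ((2 * b + b ^ 2) * ∑ j ∈ Finset.range J, VV (sc (Y / 4) p0 j))) := by
  obtain ⟨Cf, hCf, m1, p1, hF⟩ := nforms
  obtain ⟨C, T0, hC, hT0, htsm⟩ := tsm (ε := 1) one_pos le_rfl
  obtain ⟨E, hE⟩ : ∃ E, E = Real.exp Cf := ⟨_, rfl⟩
  have hE0 : 0 < E := by rw [hE]; exact Real.exp_pos _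
  refine ⟨2 * (E + Cf + E) + C * E + C, by positivity, m1 + 4800, p1, T0 + Real.exp 1, ?_⟩
  intro T hT m hm p0 hp0 J b Y hb hY hYl hmY hJl hJ
  have hT0' : T0 ≤ T := by linarith [Real.exp_pos 1]
  have hTe : Real.exp 1 ≤ T := by linarith
  have hT00 : 0 < T := lt_of_lt_of_le (Real.exp_pos 1) hTe
  have hl1 : 1 ≤ Real.log T := by rw [Real.le_log_iff_exp_le hT00]; exact hTe
  have hl0 : 0 < Real.log T := by linarith
  have hY0 : 0 < Y := by linarith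
  have hb0 := abs_nonneg b
  obtain ⟨X, hX⟩ : ∃ X, X = Real.exp ((2 * b + b ^ 2) * ∑ j ∈ Finset.range J, VV (sc (Y / 4) p0 j)) :=
    ⟨_, rfl⟩
  have hX0 : 0 < X := by rw [hX]; exact Real.exp_pos _
  obtain ⟨g1, g2, g3⟩ := hF (2 * m) (by omega) p0 hp0 b hb (Y / 4) (by linarith) 0 J
  rw [← DD_eq_NN, VI_zero] at g1 g2 g3
  rw [pow_zero, div_one, ← hX] at g3
  rw [Real.exp_add, ← hX] at g2
  have hCb : Cf * |b| ≤ Cf := by
    calc Cf * |b| ≤ Cf * 1 := by gcongr; linarith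
      _ = Cf := mul_one _
  have f1 : BK K2 (DD (2 * m) p0 b (Y / 4) J) (DD (2 * m) p0 b (Y / 4) J) ≤ X * Real.exp Cf :=
    g2.trans (by gcongr)
  have f3 : |BK KL (DD (2 * m) p0 b (Y / 4) J) (DD (2 * m) p0 b (Y / 4) J)|
      ≤ Cf * (1 + Y / 4) * X := by
    refine g3.trans ?_
    calc Cf * |b| * (Y / 4 + 1) * X ≤ Cf * (Y / 4 + 1) * X := by gcongr
      _ = _ := by ring
  obtain ⟨b1, b2, b3, b4⟩ := forms_cs hb hY (by omega) hCf hX0 ((Real.exp_pos _).le.trans g1) f1 f3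
  have hm0 : (0 : ℝ) ≤ m := Nat.cast_nonneg m
  have hH1 : 1 ≤ Real.exp (2 * m * Y) := Real.one_le_exp (by positivity)
  have key := htsm T hT0' _ _ hH1 b3
  rw [integral_Icc_eq_integral_Ioc, ← intervalIntegral.integral_of_le hT00.le]
  obtain ⟨D, hD⟩ : ∃ D, D = DD (2 * m) p0 b (Y / 4) J * Psc p0 Y 0 ^ m := ⟨_, rfl⟩
  obtain ⟨W, hW⟩ : ∃ W : ℝ, W = (24 * m : ℝ) ^ m := ⟨_, rfl⟩
  rw [← hD] at b1 b2 b3 b4 key ⊢
  rw [← hW, ← hE] at b1 b2
  rw [← hX]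
  have hW0 : 0 ≤ W := by rw [hW]; positivity
  -- error
  have her : (nrm D * Real.exp (2 * m * Y)) ^ 2 / T ^ (1 / 16 : ℝ) ≤ 1 := by
    rw [div_le_one (by positivity)]
    calc (nrm D * Real.exp (2 * m * Y)) ^ 2
        ≤ (Real.exp (J + 2 * m * Y) * Real.exp (2 * m * Y)) ^ 2 := by
          have := nrm_nonneg D
          gcongr
      _ = Real.exp (2 * (J + 4 * m * Y)) := by
          rw [← Real.exp_add, ← Real.exp_nat_mul]; congr 1; push_cast; ring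
      _ ≤ Real.exp (Real.log T * (1 / 16)) := by
          apply Real.exp_le_exp.mpr
          linarith
      _ = T ^ (1 / 16 : ℝ) := by rw [Real.rpow_def_of_pos hT00]
  have k2 : |BK K2 D D| ≤ E * (X * W) := by
    refine b1.trans (le_of_eq ?_)
    ring
  have kl : |BK KL D D| ≤ (Cf + E) * Real.log T * (X * W) := by
    refine b2.trans ?_
    have h1 : Cf * (1 + Y / 4) * X ≤ Cf * Real.log T * X := by
      gcongr
      linarith
    have h2 : 2 * m * Y * (X * E) ≤ Real.log T * (X * E) := by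
      have : 2 * m * Y ≤ Real.log T := by
        have : 0 ≤ m * Y := by positivity
        linarith
      gcongr
    calc (Cf * (1 + Y / 4) * X + 2 * m * Y * (X * E)) * W
        ≤ (Cf * Real.log T * X + Real.log T * (X * E)) * W := by gcongr
      _ = _ := by ring
  obtain ⟨L, hL⟩ : ∃ L, L = Real.log T * X := ⟨_, rfl⟩
  have hLp : 1 ≤ L := by
    have hJ' : Y / 4 / 4 ^ J < Real.log 2 := by
      rwa [div_div, ← pow_succ']
    have hV := sum_VV_eq_VS (by linarith : 0 < Y / 4) p0 hJ'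
    have h1 : VS p0 (Y / 4) ≤ Real.log (Real.log T) := by
      refine (VS_le_loglog (A := 43) le_rfl (by linarith) p0).trans ?_
      exact Real.log_le_log (by linarith) (by linarith)
    have h0 := VS_nonneg p0 (Y / 4)
    have hk := kappa_abs hb
    have hk' := (abs_le.1 hk).1
    have h2 : -(17 / 64 : ℝ) ≤ 2 * b + b ^ 2 := by linarith
    have h3 : -(17 / 64) * VS p0 (Y / 4) ≤ (2 * b + b ^ 2) * VS p0 (Y / 4) :=
      mul_le_mul_of_nonneg_right h2 h0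
    rw [hL, hX, hV]
    nth_rw 1 [← Real.exp_log hl0]
    rw [← Real.exp_add]
    apply Real.one_le_exp
    linarith
  have main : (1 + 1) * (Real.log T * |BK K2 D D| + |BK KL D D|) + C * |BK K2 D D|
        + C * (nrm D * Real.exp (2 * m * Y)) ^ 2 / T ^ (1 / 16 : ℝ)
      ≤ (2 * (E + Cf + E) + C * E) * (L * W) + C := by
    have h1 : Real.log T * |BK K2 D D| ≤ E * (L * W) := by
      calc Real.log T * |BK K2 D D| ≤ Real.log T * (E * (X * W)) := by gcongr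
        _ = _ := by rw [hL]; ring
    have h2 : |BK KL D D| ≤ (Cf + E) * (L * W) := by
      refine kl.trans (le_of_eq ?_)
      rw [hL]; ring
    have h3 : C * |BK K2 D D| ≤ C * E * (L * W) := by
      calc C * |BK K2 D D| ≤ C * (E * (X * W)) := by gcongr
        _ = C * E * (1 * (X * W)) := by ring
        _ ≤ C * E * (Real.log T * (X * W)) := by gcongr
        _ = _ := by rw [hL]; ring
    have h4 : C * (nrm D * Real.exp (2 * m * Y)) ^ 2 / T ^ (1 / 16 : ℝ) ≤ C := by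
      rw [mul_div_assoc]
      calc C * ((nrm D * Real.exp (2 * m * Y)) ^ 2 / T ^ (1 / 16 : ℝ)) ≤ C * 1 := by gcongr
        _ = C := mul_one _
    calc _ ≤ (1 + 1) * (E * (L * W) + (Cf + E) * (L * W)) + C * E * (L * W) + C := by gcongr
      _ = _ := by ring
  have hR := pow_ratio (m := m) (by omega)
  have hR2 := R_inv_le (m := m) (by omega)
  rw [← hW] at hR
  have hRi : 0 ≤ (Rsc m 0 ^ (2 * m))⁻¹ := by
    have := Rsc_pos (m := m) (by omega) 0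
    positivity
  have hTm : ∫ t in (0 : ℝ)..T, ‖riemannZeta (1 / 2 + I * t) * ev t D‖ ^ 2
      ≤ T * ((2 * (E + Cf + E) + C * E) * (L * W) + C) :=
    key.trans (mul_le_mul_of_nonneg_left main hT00.le)
  have hLT : T * Real.log T * X = T * L := by rw [hL]; ring
  rw [hLT]
  calc (Rsc m 0 ^ (2 * m))⁻¹ * ∫ t in (0 : ℝ)..T, ‖riemannZeta (1 / 2 + I * t) * ev t D‖ ^ 2
      ≤ (Rsc m 0 ^ (2 * m))⁻¹ * (T * ((2 * (E + Cf + E) + C * E) * (L * W) + C)) := by gcongr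
    _ = T * ((2 * (E + Cf + E) + C * E) * L * ((Rsc m 0 ^ (2 * m))⁻¹ * W)
        + C * (Rsc m 0 ^ (2 * m))⁻¹) := by ring
    _ ≤ T * ((2 * (E + Cf + E) + C * E) * L * ((2 : ℝ) ^ m)⁻¹ + C * ((2 : ℝ) ^ m)⁻¹) := by
        gcongr
    _ ≤ T * ((2 * (E + Cf + E) + C * E) * L * ((2 : ℝ) ^ m)⁻¹ + C * L * ((2 : ℝ) ^ m)⁻¹) := by
        gcongr
        exact le_mul_of_one_le_right hC hLp
    _ = _ := by ring

end Pool.Agent.Lib.MP_f9aece_nt_r3
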