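import Mathlib
import Pool.Agent.Lib.MP_f9aece_nt_r3.Defs

/-!
The forms at two consecutive levels for exponents of both signs.
-/

set_option autoImplicit false

namespace Pool.Agent.Lib.MP_f9aece_nt_r3

open MeasureTheory Set Filter Topology Complex
open Pool.Agent.Lib.MP_f9aece_nt
open Pool.Agent.Lib.MP_f9aece_nt_h97
open Pool.Agent.Lib.MP_f9aece_nt_h40
open scoped ArithmeticFunction.Omega

/-- domination on the support of the dominating polynomial -/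
lemma abs_pair_le_cone {A : Set ℕ} {f g : DP} (h : Dom f g) (hg : Cone A g) {φ ψ : ℕ → ℝ}
    (hφ : ∀ a ∈ A, |φ a| ≤ ψ a) : |pair φ f| ≤ pair ψ g := by
  classical
  have e1 : pair φ f = pair (fun a => if a ∈ A then φ a else 0) f := by
    refine pair_congr f fun a ha => ?_
    have h1 : g.coeff a ≠ 0 := by
      intro h0
      have := h a
      rw [h0] at this
      exact ha (abs_nonpos_iff.mp this)
    rw [if_pos ((hg a).2 h1)]
  have e2 : pair ψ g = pair (fun a => if a ∈ A then ψ a else 0) g := by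
    refine pair_congr g fun a ha => ?_
    rw [if_pos ((hg a).2 ha)]
  rw [e1, e2]
  refine abs_pair_le h fun a => ?_
  by_cases ha : a ∈ A
  · rw [if_pos ha, if_pos ha]; exact hφ a ha
  · rw [if_neg ha, if_neg ha, abs_zero]

section block

variable {I : Finset ℕ} (hI : ∀ p ∈ I, p.Prime) {M : ℕ} {n N : DP}

lemma abs_uu_le (h : Dom n N) (B : ℕ) : |uu n B| ≤ uu N B := by
  unfold uu
  refine abs_pair_le h fun a => ?_
  split_ifs <;> simp

include hI

lemma coeff_eq_uu_sup (hn : Sup (Smo (I : Set ℕ)) n) {B : ℕ} (hB : B ∈ indS M I) :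
    (ind M I * n).coeff B = uu n B := by
  rw [coeff_mul_ind hn]
  refine pair_congr n fun a ha => ?_
  by_cases h : a ∣ B
  · rw [if_pos h, if_pos]
    refine ⟨h, ?_⟩
    obtain ⟨c, rfl⟩ := h
    rw [mem_indS hI] at hB ⊢
    have ha0 : a ≠ 0 := left_ne_zero_of_mul hB.1.1
    have hc0 : c ≠ 0 := right_ne_zero_of_mul hB.1.1
    rw [Nat.mul_div_cancel_left c (Nat.pos_of_ne_zero ha0)]
    refine ⟨⟨hc0, fun q hq hqc => hB.1.2 q hq (hqc.mul_left a)⟩, ?_⟩
    have h2 := hB.2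
    rw [ArithmeticFunction.cardFactors_mul ha0 hc0] at h2
    omega
  · rw [if_neg h, if_neg (fun h' => h h'.1)]

/-- the error of the comparison -/
lemma KS_signed (hp : ∀ p ∈ I, (4 : ℝ) ≤ (p : ℝ)) (hN : Cone (Smo (I : Set ℕ)) N)
    (hd : Dom n N) :
    |BK (KS (indS M I)) n n - WW 1 I * BK K2 n n|
      ≤ WW 2 I / 2 ^ M * BK (fun a b => (2 : ℝ) ^ (Ω a) * (2 : ℝ) ^ (Ω b) * K2 a b) N N := by
  have h3 : BK (KS (indS M I)) n n - WW 1 I * BK K2 n n
      = BK (fun a b => KS (indS M I) a b + (-(WW 1 I)) * K2 a b) n n := by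
    unfold BK
    simp only [pair_add_fun, pair_const_mul]
    ring
  have h4 : WW 2 I / 2 ^ M * BK (fun a b => (2 : ℝ) ^ (Ω a) * (2 : ℝ) ^ (Ω b) * K2 a b) N N
      = BK (fun a b => WW 2 I / 2 ^ M * ((2 : ℝ) ^ (Ω a) * (2 : ℝ) ^ (Ω b) * K2 a b)) N N := by
    unfold BK
    simp only [pair_const_mul]
  rw [h3, h4]
  unfold BK
  refine abs_pair_le_cone hd hN fun a ha => ?_
  refine abs_pair_le_cone hd hN fun b hb => ?_
  have h1 := KS_ge (M := M) hI hp ha hb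
  have h2 := KS_le (M := M) hI hp ha hb
  have hW2 := one_le_WW (t := 2) zero_le_two hI (fun q hq => by linarith [hp q hq])
  have h5 : 0 ≤ WW 2 I / 2 ^ M * ((2 : ℝ) ^ (Ω a) * (2 : ℝ) ^ (Ω b) * K2 a b) := by
    have := K2_nonneg a b
    have h0 : 0 ≤ WW 2 I := zero_le_one.trans hW2
    positivity
  rw [abs_le]
  constructor <;> linarith

/-- comparison of a form with the truncated divisor sums -/
lemma form_signed (hp : ∀ p ∈ I, (4 : ℝ) ≤ (p : ℝ)) (hN : Cone (Smo (I : Set ℕ)) N)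
    (hd : Dom n N) {g : ℕ → ℝ} (hg : ∀ B, |g B| ≤ uu N B) (hg' : ∀ B ∈ indS M I, g B = uu n B) :
    |pair (fun B => g B * (B : ℝ)⁻¹) (ind M I * n) - WW 1 I * BK K2 n n|
      ≤ 2 * (WW 2 I / 2 ^ M
        * BK (fun a b => (2 : ℝ) ^ (Ω a) * (2 : ℝ) ^ (Ω b) * K2 a b) N N) := by
  classical
  set R := WW 2 I / 2 ^ M * BK (fun a b => (2 : ℝ) ^ (Ω a) * (2 : ℝ) ^ (Ω b) * K2 a b) N N with hR
  have hn : Sup (Smo (I : Set ℕ)) n := hd.sup hN
  set f := ind M I * n with hf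
  set F := ind M I * N with hF
  have hFc := cone_ind_mul (M := M) hI hN
  rw [← hF] at hFc
  have hfF : Dom f F := (dom_self (cone_ind hI M)).mul hd
  set T := F.coeff.support with hT
  set K := max M (T.sup (fun B => Ω B)) with hK
  have hTK : T ⊆ indS K I := by
    intro B hB
    rw [mem_indS hI]
    refine ⟨(hFc B).2 (Finsupp.mem_support_iff.mp hB), ?_⟩
    exact (Finset.le_sup (f := fun B => Ω B) hB).trans (le_max_right _ _)
  have hMK : indS M I ⊆ indS K I := by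
    intro B hB
    rw [mem_indS hI] at hB ⊢
    exact ⟨hB.1, hB.2.trans (le_max_left _ _)⟩
  have hfT : f.coeff.support ⊆ T := by
    intro B hB
    rw [Finsupp.mem_support_iff] at hB ⊢
    intro h0
    have := hfF B
    rw [h0] at this
    exact hB (abs_nonpos_iff.mp this)
  have e1 : pair (fun B => g B * (B : ℝ)⁻¹) f = ∑ B ∈ indS K I, f.coeff B * (g B * (B : ℝ)⁻¹) := by
    rw [pair_def]
    refine Finset.sum_subset (hfT.trans hTK) fun B _ hB => ?_
    rw [Finsupp.notMem_support_iff] at hB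
    rw [hB, zero_mul]
  have e2 : ∑ B ∈ indS M I, f.coeff B * (g B * (B : ℝ)⁻¹) = BK (KS (indS M I)) n n := by
    rw [← sum_uu_sq]
    refine Finset.sum_congr rfl fun B hB => ?_
    rw [hg' B hB, coeff_eq_uu_sup hI hn hB]
  have e3 : ∑ B ∈ indS K I, f.coeff B * (g B * (B : ℝ)⁻¹)
      = ∑ B ∈ indS K I \ indS M I, f.coeff B * (g B * (B : ℝ)⁻¹) + BK (KS (indS M I)) n n := by
    rw [← e2, Finset.sum_sdiff hMK]
  have e4 : ∑ B ∈ indS K I, uu N B * (uu N B * (B : ℝ)⁻¹)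
      = ∑ B ∈ indS K I \ indS M I, uu N B * (uu N B * (B : ℝ)⁻¹)
        + ∑ B ∈ indS M I, uu N B * (uu N B * (B : ℝ)⁻¹) := by
    rw [Finset.sum_sdiff hMK]
  rw [sum_uu_sq N (indS K I), sum_uu_sq N (indS M I)] at e4
  have hU : BK (KS (indS K I)) N N ≤ WW 1 I * BK K2 N N := by
    unfold BK
    rw [← pair_const_mul]
    refine pair_mono hN fun a ha => ?_
    rw [← pair_const_mul]
    exact pair_mono hN fun b hb => KS_le hI hp ha hb
  have hdN : Dom N N := dom_self hN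
  have hL := KS_signed (M := M) hI hp hN hdN
  have hLn := KS_signed (M := M) hI hp hN hd
  rw [← hR] at hL hLn
  have hsum : |∑ B ∈ indS K I \ indS M I, f.coeff B * (g B * (B : ℝ)⁻¹)|
      ≤ ∑ B ∈ indS K I \ indS M I, uu N B * (uu N B * (B : ℝ)⁻¹) := by
    refine (Finset.abs_sum_le_sum_abs _ _).trans (Finset.sum_le_sum fun B _ => ?_)
    have h1 : |f.coeff B| ≤ uu N B := (hfF B).trans (coeff_le_uu hN B)
    have h2 := hg B
    have h3 : (0 : ℝ) ≤ (B : ℝ)⁻¹ := by positivity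
    rw [abs_mul, abs_mul, abs_of_nonneg h3]
    have h4 := uu_nonneg hN B
    gcongr
  rw [e1, e3]
  rw [abs_le] at hL hLn hsum ⊢
  constructor
  · linarith [hsum.1, hLn.1, hL.1]
  · linarith [hsum.2, hLn.2, hL.1]

omit hI in
/-- the block constants -/
lemma twist_bound (hI : ∀ p ∈ I, p.Prime) (hp : ∀ p ∈ I, (4 : ℝ) ≤ (p : ℝ)) (hV : VV I ≤ 12) {b : ℝ}
    (hb0 : 0 ≤ b) (hb : b ≤ 1 / 2) (M : ℕ) :
    WW 2 I / 2 ^ M * BK (fun a b => (2 : ℝ) ^ (Ω a) * (2 : ℝ) ^ (Ω b) * K2 a b) (expo b M I)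
      (expo b M I) ≤ C7 / 2 ^ M := by
  rw [BK_twist_expo hI]
  have hW2' : WW 2 I ≤ Real.exp 48 := by
    refine (WW_le_exp (t := 2) zero_le_two hI (fun q hq => by linarith [hp q hq])).trans ?_
    apply Real.exp_le_exp.mpr
    linarith
  have hF : BK K2 (expo (2 * b) M I) (expo (2 * b) M I) ≤ 4 * Real.exp 648 := by
    have hd := dom_expo2 hI (c := 2 * b) (by rw [abs_of_nonneg (by linarith)]; linarith) M
    have h1 := abs_BK_le_of_dom K2_nonneg hd hd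
    rw [BK_smul_left, BK_smul_right] at h1
    have h2 := (FF_bounds_two hI M).1
    have h3 : Real.exp (54 * VV I) ≤ Real.exp 648 := Real.exp_le_exp.mpr (by linarith)
    have h4 := le_abs_self (BK K2 (expo (2 * b) M I) (expo (2 * b) M I))
    have h5 := le_abs_self (BK K2 (FF 2 M I) (FF 2 M I))
    linarith
  have hF0 : 0 ≤ BK K2 (expo (2 * b) M I) (expo (2 * b) M I) := by
    have hc2 : Cone (Smo (I : Set ℕ)) (expo (2 * b) M I) :=
      (cone_expo hI (by linarith) M).mono fun _ h => h.1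
    exact BK_nonneg hc2 hc2 K2_nonneg
  calc WW 2 I / 2 ^ M * BK K2 (expo (2 * b) M I) (expo (2 * b) M I)
      ≤ Real.exp 48 / 2 ^ M * (4 * Real.exp 648) := by gcongr
    _ = C7 / 2 ^ M := by
        unfold C7
        have : Real.exp 696 = Real.exp 48 * Real.exp 648 := by rw [← Real.exp_add]; norm_num
        rw [this]; ring

omit hI in
/-- comparison of the three forms at a block, for exponents of both signs -/
theorem block_signed (hI : ∀ p ∈ I, p.Prime) (hp : ∀ p ∈ I, (4 : ℝ) ≤ (p : ℝ)) (hV : VV I ≤ 12)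
    {b : ℝ} (hb : |b| ≤ 1 / 2) (M : ℕ) :
    |BK K1 (ind M I * expo b M I) (ind M I * expo b M I)
        - WW 1 I * BK K2 (expo b M I) (expo b M I)| ≤ 2 * (C7 / 2 ^ M) ∧
    |BK (Kcs 1) (expo b M I) (ind M I * expo b M I)
        - WW 1 I * BK K2 (expo b M I) (expo b M I)| ≤ 2 * (C7 / 2 ^ M) := by
  have hN : Cone (Smo (I : Set ℕ)) (expo |b| M I) :=
    (cone_expo hI (abs_nonneg b) M).mono fun _ h => h.1
  have hd : Dom (expo b M I) (expo |b| M I) := dom_expo hI le_rfl M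
  have ht := twist_bound hI hp hV (abs_nonneg b) hb M
  have hn : Sup (Smo (I : Set ℕ)) (expo b M I) := hd.sup hN
  constructor
  · rw [BK_K1_eq]
    refine (form_signed (M := M) hI hp hN hd
      (g := fun B => (ind M I * expo b M I).coeff B) ?_ ?_).trans (by linarith)
    · intro B
      exact (((dom_self (cone_ind hI M)).mul hd) B).trans (coeff_le_uu hN B)
    · intro B hB
      exact coeff_eq_uu_sup hI hn hB
  · rw [cross_eq]
    refine (form_signed (M := M) hI hp hN hd (g := uu (expo b M I)) ?_ ?_).trans (by linarith)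
    · exact abs_uu_le hd
    · exact fun _ _ => rfl

/-- forms of a block of `EI * n * d`, for exponents of both signs -/
lemma blockG_signed {L : ℕ → ℕ → ℝ} (hL : LogKer L) (hp : ∀ p ∈ I, (144 : ℝ) ≤ (p : ℝ))
    (hM : 1 ≤ M) (hV : VV I ≤ 12) {b : ℝ} (hb : |b| ≤ 1 / 8) (ht : tg M ≤ 1) :
    |BK K2 (EG b M I) (EG b M I)|
      ≤ Real.exp ((2 * b + b ^ 2) * VV I + 5184 * V2 I + Real.exp 3 * tg M) ∧
    |BK L (EG b M I) (EG b M I)| ≤ 2880 * Real.exp 3 * LL I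
      * Real.exp ((2 * b + b ^ 2) * VV I + 5184 * V2 I + Real.exp 3 * tg M) := by
  have hbb : |b| ≤ 1 := hb.trans (by norm_num)
  have hQ : Cg 3 b (GE 1 M * TE b M * TE (-1) M) := by
    have h := ((cg_GE (t := 1) zero_le_one hM).mul (cf_TE b hM).cg).mul (cf_TE (-1) hM).cg
    have h1 : |(-1 : ℝ)| = 1 := by simp
    rw [h1] at h
    have h2 : 1 + b + -1 = b := by ring
    rw [h2] at h
    exact h.mono (by linarith)
  obtain ⟨f1, f2⟩ := FQ_K2LG hL hI hQ (by norm_num) (fun p hpI => by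
    have h := hp p hpI
    have e : (2 * (3 : ℝ)) ^ 2 = 36 := by norm_num
    rw [e]
    linarith)
  rw [← FG_eq] at f1 f2
  have e1 : (64 : ℝ) * 3 ^ 4 = 5184 := by norm_num
  have e2 : (64 : ℝ) * 3 ^ 2 = 576 := by norm_num
  rw [e1] at f1 f2
  rw [e2] at f2
  have t1 := truncG (M := M) hI K2_nonneg hbb
  have t2 := truncG (M := M) hI hL.nonneg hbb
  obtain ⟨g1, g2⟩ := GG_bounds hI hL hp hM hV
  have hVn := VV_nonneg I
  have hV2 := V2_nonneg I
  have hLL := LL_nonneg I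
  have hE8 := E8_pos
  have hE3 : 1 ≤ Real.exp 3 := Real.one_le_exp (by norm_num)
  have hb' := abs_le.mp hb
  set X := Real.exp ((2 * b + b ^ 2) * VV I + 5184 * V2 I) with hX
  have hX0 : 0 < X := Real.exp_pos _
  have hX1 : 1 ≤ Real.exp 3 * X := by
    rw [hX, ← Real.exp_add]
    apply Real.one_le_exp
    have h1 : -(1 / 4) ≤ 2 * b + b ^ 2 := by linarith [sq_nonneg b]
    have h2 : -(1 / 4) * 12 ≤ (2 * b + b ^ 2) * VV I := by
      linarith [mul_le_mul_of_nonneg_right h1 hVn]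
    have h3 : 0 ≤ 5184 * V2 I := by positivity
    linarith
  rw [Real.exp_add]
  have h4 := Real.add_one_le_exp (Real.exp 3 * tg M)
  have htg := tg_nonneg M
  have t3 := abs_sub_abs_le_abs_sub (BK K2 (EG b M I) (EG b M I)) (BK K2 (FG b M I) (FG b M I))
  have t4 := abs_sub_abs_le_abs_sub (BK L (EG b M I) (EG b M I)) (BK L (FG b M I) (FG b M I))
  have htX : tg M ≤ tg M * (Real.exp 3 * X) := le_mul_of_one_le_right htg hX1
  constructor
  · have t5 : 24 / 2 ^ M * |BK K2 (MP_f9aece_nt_h40.GG M I) (MP_f9aece_nt_h40.GG M I)| ≤ tg M := by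
      unfold tg
      calc 24 / 2 ^ M * |BK K2 (MP_f9aece_nt_h40.GG M I) (MP_f9aece_nt_h40.GG M I)| ≤ 24 / 2 ^ M * E8 := by gcongr
        _ = _ := by ring
    calc |BK K2 (EG b M I) (EG b M I)| ≤ X + tg M := by linarith
      _ ≤ X * (Real.exp 3 * tg M + 1) := by linarith
      _ ≤ _ := by gcongr
  · have t5 : 24 / 2 ^ M * |BK L (MP_f9aece_nt_h40.GG M I) (MP_f9aece_nt_h40.GG M I)| ≤ 2304 * LL I := by
      calc 24 / 2 ^ M * |BK L (MP_f9aece_nt_h40.GG M I) (MP_f9aece_nt_h40.GG M I)| ≤ 24 / 2 ^ M * (2304 * LL I * E8) := by gcongr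
        _ = 2304 * LL I * tg M := by unfold tg; ring
        _ ≤ 2304 * LL I * 1 := by gcongr
        _ = _ := mul_one _
    have hE : 1 ≤ Real.exp (Real.exp 3 * tg M) := Real.one_le_exp (by positivity)
    calc |BK L (EG b M I) (EG b M I)| ≤ 576 * LL I * X + 2304 * LL I * 1 := by linarith
      _ ≤ 576 * LL I * (Real.exp 3 * X) + 2304 * LL I * (Real.exp 3 * X) := by
          have : X ≤ Real.exp 3 * X := le_mul_of_one_le_left hX0.le hE3
          gcongr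
      _ = 2880 * Real.exp 3 * LL I * (X * 1) := by ring
      _ ≤ _ := by gcongr

end block

/-! ### products over the scales -/

/-- products of comparable quantities -/
lemma prod_compare (s : Finset ℕ) (X Z P x : ℕ → ℝ) (hP : ∀ i ∈ s, 0 ≤ P i) (h0 : ∀ i ∈ s, 0 ≤ x i)
    (hs : ∑ i ∈ s, x i ≤ 1 / 2) (hX : ∀ i ∈ s, |X i - P i| ≤ x i * P i)
    (hZ : ∀ i ∈ s, |Z i - P i| ≤ x i * P i) :
    (1 - 4 * ∑ i ∈ s, x i) * ∏ i ∈ s, P i ≤ 2 * ∏ i ∈ s, X i - ∏ i ∈ s, Z i := by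
  have h1 : ∀ i ∈ s, x i ≤ 1 / 2 := fun i hi =>
    (Finset.single_le_sum (f := x) h0 hi).trans hs
  have hPP : 0 ≤ ∏ i ∈ s, P i := Finset.prod_nonneg hP
  have h2 := prod_one_sub_ge s x h0 fun i hi => (h1 i hi).trans (by norm_num)
  set σ := ∑ i ∈ s, x i with hσ
  have hσ0 : 0 ≤ σ := Finset.sum_nonneg h0
  have e1 : ∏ i ∈ s, (P i * (1 - x i)) = (∏ i ∈ s, P i) * ∏ i ∈ s, (1 - x i) := Finset.prod_mul_distrib
  have e2 : ∏ i ∈ s, (P i * (1 + x i)) = (∏ i ∈ s, P i) * ∏ i ∈ s, (1 + x i) := Finset.prod_mul_distrib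
  have hXl : ∏ i ∈ s, (P i * (1 - x i)) ≤ ∏ i ∈ s, X i := by
    refine Finset.prod_le_prod (fun i hi => mul_nonneg (hP i hi) (by linarith [h1 i hi])) fun i hi => ?_
    have := (abs_le.mp (hX i hi)).1
    linarith
  have hZu : ∏ i ∈ s, Z i ≤ ∏ i ∈ s, (P i * (1 + x i)) := by
    refine Finset.prod_le_prod (fun i hi => ?_) fun i hi => ?_
    · have := (abs_le.mp (hZ i hi)).1
      have h3 : x i * P i ≤ 1 / 2 * P i := mul_le_mul_of_nonneg_right (h1 i hi) (hP i hi)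
      linarith [hP i hi]
    · have := (abs_le.mp (hZ i hi)).2
      linarith
  have h3 : (∏ i ∈ s, (1 + x i)) * ∏ i ∈ s, (1 - x i) ≤ 1 := by
    rw [← Finset.prod_mul_distrib]
    refine Finset.prod_le_one (fun i hi => ?_) fun i hi => ?_
    · nlinarith [h0 i hi, h1 i hi]
    · nlinarith [h0 i hi, h1 i hi]
  have h4 : 0 ≤ ∏ i ∈ s, (1 + x i) := Finset.prod_nonneg fun i hi => by linarith [h0 i hi]
  have h5 : (∏ i ∈ s, (1 + x i)) * (1 - σ) ≤ 1 := by
    refine le_trans ?_ h3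
    exact mul_le_mul_of_nonneg_left h2 h4
  have h6 : ∏ i ∈ s, (1 + x i) ≤ 1 + 2 * σ := by
    by_contra hcon
    rw [not_le] at hcon
    have : (1 + 2 * σ) * (1 - σ) < (∏ i ∈ s, (1 + x i)) * (1 - σ) :=
      mul_lt_mul_of_pos_right hcon (by linarith)
    nlinarith
  have a1 : (∏ i ∈ s, P i) * (1 - σ) ≤ ∏ i ∈ s, X i := by
    refine le_trans ?_ hXl
    rw [e1]
    exact mul_le_mul_of_nonneg_left h2 hPP
  have a2 : ∏ i ∈ s, Z i ≤ (∏ i ∈ s, P i) * (1 + 2 * σ) := by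
    refine hZu.trans ?_
    rw [e2]
    exact mul_le_mul_of_nonneg_left h6 hPP
  linarith

section var

variable {m p0 : ℕ} {Y : ℝ} {β : ℕ → ℝ}

/-- the energy inequality with exponents of both signs -/
theorem E1_signed {s0 : ℝ} (hs0 : 0 < s0) (hY : 0 < Y) (hm : 1 ≤ m)
    (hm2 : 2 * (2 * C7 / s0) / 2 ^ m ≤ 1 / 2) (hp0 : 144 ≤ p0) (hb : ∀ j, |β j| ≤ 1 / 2) (J : ℕ)
    (hS : ∀ j, s0 ≤ BK K2 (expo (β j) (Mm m j) (sc Y p0 j)) (expo (β j) (Mm m j) (sc Y p0 j))) :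
    (1 - 16 * (C7 / s0) / 2 ^ m) * (Wsc p0 Y J * BK K2 (DV β m p0 Y J) (DV β m p0 Y J))
      ≤ 2 * BK (Kcs 1) (DV β m p0 Y J) (EI m p0 Y J * DV β m p0 Y J)
        - BK K1 (EI m p0 Y J * DV β m p0 Y J) (EI m p0 Y J * DV β m p0 Y J) := by
  have hC7 := C7_pos
  have key := fun j : ℕ => block_signed (I := sc Y p0 j) (fun p hp => sc_prime hp)
    (fun p hp => by linarith [sc_ge hp0 j p hp]) (VV_sc_le hY p0 j) (hb j) (Mm m j)
  have hsn : ∀ j ∈ Finset.range J, Sup (Smo (sc Y p0 j)) (expo (β j) (Mm m j) (sc Y p0 j)) :=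
    fun j _ => sup_expo (fun p hp => sc_prime hp) _ _
  have hse : ∀ j ∈ Finset.range J,
      Sup (Smo (sc Y p0 j)) (ind (Mm m j) (sc Y p0 j) * expo (β j) (Mm m j) (sc Y p0 j)) :=
    fun j _ => (sup_of_cone ((cone_ind (fun p hp => sc_prime hp) _).mono fun _ h => h.1)).mul
      (sup_expo (fun p hp => sc_prime hp) _ _) fun _ ha _ hb => mul_mem_Smo ha hb
  have e1 : BK K1 (EI m p0 Y J * DV β m p0 Y J) (EI m p0 Y J * DV β m p0 Y J)
      = ∏ j ∈ Finset.range J, BK K1 (ind (Mm m j) (sc Y p0 j) * expo (β j) (Mm m j) (sc Y p0 j))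
        (ind (Mm m j) (sc Y p0 j) * expo (β j) (Mm m j) (sc Y p0 j)) := by
    rw [EI_mul_DV, ← K1s_one_eq', BK_prod_MK (mk_K1s le_rfl) (Finset.range J) (sc Y p0)
      (fun _ _ _ _ h => sc_disjoint hY h) _ _ hse hse]
  have e2 : BK (Kcs 1) (DV β m p0 Y J) (EI m p0 Y J * DV β m p0 Y J)
      = ∏ j ∈ Finset.range J, BK (Kcs 1) (expo (β j) (Mm m j) (sc Y p0 j))
        (ind (Mm m j) (sc Y p0 j) * expo (β j) (Mm m j) (sc Y p0 j)) := by
    rw [EI_mul_DV]
    unfold DV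
    rw [BK_prod_MK (mk_Kcs le_rfl) (Finset.range J) (sc Y p0)
      (fun _ _ _ _ h => sc_disjoint hY h) _ _ hsn hse]
  have e3 : BK K2 (DV β m p0 Y J) (DV β m p0 Y J)
      = ∏ j ∈ Finset.range J,
        BK K2 (expo (β j) (Mm m j) (sc Y p0 j)) (expo (β j) (Mm m j) (sc Y p0 j)) := by
    unfold DV
    rw [BK_prod_MK mk_K2 (Finset.range J) (sc Y p0)
      (fun _ _ _ _ h => sc_disjoint hY h) _ _ hsn hsn]
  rw [e1, e2, e3, Wsc_eq_prod hY, ← Finset.prod_mul_distrib]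
  have hW1 : ∀ j : ℕ, 1 ≤ WW 1 (sc Y p0 j) := fun j =>
    one_le_WW zero_le_one (fun p hp => sc_prime hp) fun p hp => by linarith [sc_ge hp0 j p hp]
  set P : ℕ → ℝ := fun j => WW 1 (sc Y p0 j)
    * BK K2 (expo (β j) (Mm m j) (sc Y p0 j)) (expo (β j) (Mm m j) (sc Y p0 j)) with hP
  have hPs : ∀ j, s0 ≤ P j := fun j => by
    have h1 := hW1 j
    have h2 := hS j
    calc s0 = 1 * s0 := (one_mul _).symm
      _ ≤ _ := mul_le_mul h1 h2 hs0.le (by linarith)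
  have hc : 0 ≤ 2 * C7 / s0 := by positivity
  have hx : ∀ j, 2 * (C7 / 2 ^ Mm m j) ≤ 2 * C7 / s0 / 2 ^ Mm m j * P j := fun j => by
    have h1 := hPs j
    calc 2 * (C7 / 2 ^ Mm m j) = 2 * C7 / s0 / 2 ^ Mm m j * s0 := by field_simp
      _ ≤ _ := by gcongr
  have hsum := sum_geo_Mm hc hm J
  have h := prod_compare (Finset.range J)
    (fun j => BK (Kcs 1) (expo (β j) (Mm m j) (sc Y p0 j))
        (ind (Mm m j) (sc Y p0 j) * expo (β j) (Mm m j) (sc Y p0 j)))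
    (fun j => BK K1 (ind (Mm m j) (sc Y p0 j) * expo (β j) (Mm m j) (sc Y p0 j))
        (ind (Mm m j) (sc Y p0 j) * expo (β j) (Mm m j) (sc Y p0 j)))
    P (fun j => 2 * C7 / s0 / 2 ^ Mm m j) (fun j _ => hs0.le.trans (hPs j))
    (fun j _ => by positivity) (hsum.trans hm2) (fun j _ => (key j).2.trans (hx j))
    (fun j _ => (key j).1.trans (hx j))
  refine le_trans ?_ h
  have hPP : 0 ≤ ∏ j ∈ Finset.range J, P j := Finset.prod_nonneg fun j _ => hs0.le.trans (hPs j)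
  refine mul_le_mul_of_nonneg_right ?_ hPP
  have e : 16 * (C7 / s0) / 2 ^ m = 4 * (2 * (2 * C7 / s0) / 2 ^ m) := by ring
  rw [e]
  linarith

/-- forms of `EI * n * d` with exponents of both signs -/
theorem q_bounds_signed {L : ℕ → ℕ → ℝ} (hL : LogKer L) (hY : 0 < Y) (hm : 1 ≤ m)
    (hm2 : 24 * E8 / 2 ^ m ≤ 1) (hp0 : 144 ≤ p0) (hb : ∀ j, |β j| ≤ 1 / 8) (J : ℕ) :
    |BK K2 (EI m p0 Y J * DV β m p0 Y J * DD m p0 (-1) Y J)
        (EI m p0 Y J * DV β m p0 Y J * DD m p0 (-1) Y J)|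
      ≤ Real.exp (∑ j ∈ Finset.range J, (2 * β j + β j ^ 2) * VV (sc Y p0 j)
        + (36 + 2 * Real.exp 3)) ∧
    |BK L (EI m p0 Y J * DV β m p0 Y J * DD m p0 (-1) Y J)
        (EI m p0 Y J * DV β m p0 Y J * DD m p0 (-1) Y J)|
      ≤ 2880 * Real.exp 3 * (Y + 2)
        * Real.exp (∑ j ∈ Finset.range J, (2 * β j + β j ^ 2) * VV (sc Y p0 j)
        + (36 + 2 * Real.exp 3)) := by
  have hE8 := E8_pos
  rw [DD_EGv]
  have hbk := fun j : ℕ => blockG_signed (I := sc Y p0 j) (fun p hp => sc_prime hp) hL (sc_ge hp0 j)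
    (Mm_pos' hm j) (VV_sc_le hY p0 j) (hb j)
    (show tg (Mm m j) ≤ 1 from (geo_Mm_le (by positivity) hm j).trans hm2)
  obtain ⟨a1, a2⟩ := prod_boundsL hL (Finset.range J) (sc Y p0)
    (fun _ _ _ _ h => sc_disjoint hY h) (fun j => EG (β j) (Mm m j) (sc Y p0 j))
    (fun j _ => sup_EG (fun p hp => sc_prime hp) _ _)
    (fun j => Real.exp ((2 * β j + β j ^ 2) * VV (sc Y p0 j) + 5184 * V2 (sc Y p0 j)
      + Real.exp 3 * tg (Mm m j)))
    (fun j => 2880 * Real.exp 3 * LL (sc Y p0 j)) (fun j _ => (Real.exp_pos _).le)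
    (fun j _ => mul_nonneg (by positivity) (LL_nonneg _))
    (fun j _ => (hbk j).1) (fun j _ => (hbk j).2)
  have hV2' : ∑ j ∈ Finset.range J, V2 (sc Y p0 j) ≤ 1 / p0 := sum_sq_sc_le hY (by omega) J
  have hta : ∑ j ∈ Finset.range J, tg (Mm m j) ≤ 2 * (24 * E8) / 2 ^ m :=
    sum_geo_Mm (by positivity) hm J
  have hP : ∏ j ∈ Finset.range J, Real.exp ((2 * β j + β j ^ 2) * VV (sc Y p0 j)
      + 5184 * V2 (sc Y p0 j) + Real.exp 3 * tg (Mm m j))
      ≤ Real.exp (∑ j ∈ Finset.range J, (2 * β j + β j ^ 2) * VV (sc Y p0 j)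
        + (36 + 2 * Real.exp 3)) := by
    rw [← Real.exp_sum, Finset.sum_add_distrib, Finset.sum_add_distrib, ← Finset.mul_sum,
      ← Finset.mul_sum]
    apply Real.exp_le_exp.mpr
    have hp0' : (144 : ℝ) ≤ p0 := by exact_mod_cast hp0
    have e1 : 5184 * ∑ j ∈ Finset.range J, V2 (sc Y p0 j) ≤ 36 := by
      calc 5184 * ∑ j ∈ Finset.range J, V2 (sc Y p0 j) ≤ 5184 * (1 / p0) := by gcongr
        _ ≤ 5184 * (1 / 144) := by gcongr
        _ = _ := by norm_num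
    have e2 : ∑ j ∈ Finset.range J, tg (Mm m j) ≤ 2 := by
      refine hta.trans ?_
      have : 2 * (24 * E8) / 2 ^ m = 2 * (24 * E8 / 2 ^ m) := by ring
      rw [this]
      linarith
    have e3 : Real.exp 3 * ∑ j ∈ Finset.range J, tg (Mm m j) ≤ Real.exp 3 * 2 := by gcongr
    linarith
  have hP0 : 0 ≤ ∏ j ∈ Finset.range J, Real.exp ((2 * β j + β j ^ 2) * VV (sc Y p0 j)
      + 5184 * V2 (sc Y p0 j) + Real.exp 3 * tg (Mm m j)) :=
    Finset.prod_nonneg fun j _ => (Real.exp_pos _).le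
  refine ⟨a1.trans hP, a2.trans ?_⟩
  have hs : ∑ j ∈ Finset.range J, 2880 * Real.exp 3 * LL (sc Y p0 j)
      ≤ 2880 * Real.exp 3 * (Y + 2) := by
    rw [← Finset.mul_sum]
    have := sum_LL_sc_le hY p0 J
    gcongr
  gcongr

end var

/-- the forms at two consecutive levels, from the forms of the polynomials `NN` -/
theorem forms_split_signed_of
    (hN : ∃ C : ℝ, 0 ≤ C ∧ ∃ m1 p1 : ℕ, ∀ m : ℕ, m1 ≤ m → ∀ p0 : ℕ, p1 ≤ p0 → ∀ a : ℝ,
      |a| ≤ 1 / 8 → ∀ Y : ℝ, 0 < Y → ∀ l J : ℕ,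
      Real.exp ((2 * a + a ^ 2) * VI p0 Y l J - C * |a|)
        ≤ BK K2 (NN a m p0 Y l J) (NN a m p0 Y l J) ∧
      BK K2 (NN a m p0 Y l J) (NN a m p0 Y l J)
        ≤ Real.exp ((2 * a + a ^ 2) * VI p0 Y l J + C * |a|) ∧
      |BK KL (NN a m p0 Y l J) (NN a m p0 Y l J)|
        ≤ C * |a| * (Y / 4 ^ l + 1) * Real.exp ((2 * a + a ^ 2) * VI p0 Y l J)) :
    ∃ C : ℝ, 0 ≤ C ∧ ∃ m1 p1 : ℕ, 4000 ≤ m1 ∧ 144 ≤ p1 ∧
    ∀ m : ℕ, m1 ≤ m → ∀ p0 : ℕ, p1 ≤ p0 → ∀ b : ℝ, |b| ≤ 1 / 8 → ∀ Y : ℝ, 1 ≤ Y → ∀ J : ℕ,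
    FSs C m p0 b Y J := by
  obtain ⟨C0, hC0, m0, p00, h4⟩ := hN
  have hC7 := C7_pos
  have hE8 := E8_pos
  set s0 : ℝ := Real.exp (-(3 + C0)) with hs0
  have hs0p : 0 < s0 := Real.exp_pos _
  set Q : ℝ := 8 * (C7 / s0) + 24 * E8 with hQ
  have hQ0 : 0 < Q := by positivity
  obtain ⟨n1, hn1⟩ := exists_pow_lt_of_lt_one (K := ℝ)
    (show 0 < 1 / Q by positivity) (show (1 / 2 : ℝ) < 1 by norm_num)
  set Cq : ℝ := Real.exp (36 + 2 * Real.exp 3) with hCq
  have hCq0 : 0 < Cq := Real.exp_pos _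
  have hE3 : 1 ≤ Real.exp 3 := Real.one_le_exp (by norm_num)
  refine ⟨C0 + 16 * (C7 / s0) + 2 * (2880 * Real.exp 3) * Cq, by positivity,
    max (max n1 4000) m0, max 144 p00, by omega, by omega, ?_⟩
  intro m hm p0 hp0 b hb Y hY J
  set C : ℝ := C0 + 16 * (C7 / s0) + 2 * (2880 * Real.exp 3) * Cq with hC
  have i1 : 0 ≤ 16 * (C7 / s0) := by positivity
  have i2 : 0 ≤ 2 * (2880 * Real.exp 3) * Cq := by positivity
  have hCC0 : C0 ≤ C := by linarith
  have hC1 : 16 * (C7 / s0) ≤ C := by linarith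
  have hC2 : 2 * (2880 * Real.exp 3) * Cq ≤ C := by linarith
  have hC3 : Cq ≤ C := by
    refine le_trans ?_ hC2
    have : 1 * Cq ≤ 2 * (2880 * Real.exp 3) * Cq := mul_le_mul_of_nonneg_right (by linarith) hCq0.le
    linarith
  have hCn : 0 ≤ C := hC0.trans hCC0
  have hm0 : m0 ≤ m := (le_max_right _ _).trans hm
  have hmn1 : n1 ≤ m := (le_max_left _ _).trans ((le_max_left _ _).trans hm)
  have hm1 : 1 ≤ m := by
    have := (le_max_right n1 4000).trans ((le_max_left _ _).trans hm)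
    omega
  have hp0a : 144 ≤ p0 := (le_max_left _ _).trans hp0
  have hp0b : p00 ≤ p0 := (le_max_right _ _).trans hp0
  have hpow : (1 / 2 : ℝ) ^ m ≤ 1 / Q :=
    (pow_le_pow_of_le_one (by norm_num) (by norm_num) hmn1).trans hn1.le
  rw [le_div_iff₀ hQ0] at hpow
  have hpm : (1 / 2 : ℝ) ^ m = 1 / 2 ^ m := by rw [one_div, one_div, inv_pow]
  rw [hpm] at hpow
  have j1 : 0 ≤ 1 / 2 ^ m * (8 * (C7 / s0)) := by positivity
  have j2 : 0 ≤ 1 / 2 ^ m * (24 * E8) := by positivity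
  have q1 : 2 * (2 * C7 / s0) / 2 ^ m ≤ 1 / 2 := by
    calc 2 * (2 * C7 / s0) / 2 ^ m = 1 / 2 * (1 / 2 ^ m * (8 * (C7 / s0))) := by ring
      _ ≤ 1 / 2 * 1 := by linarith
      _ = _ := mul_one _
  have q2 : 24 * E8 / 2 ^ m ≤ 1 := by
    calc 24 * E8 / 2 ^ m = 1 / 2 ^ m * (24 * E8) := by ring
      _ ≤ 1 := by linarith
  have hY0 : 0 < Y := by linarith only [hY]
  have hY4 : 0 < Y / 4 := by positivity
  have hβ : ∀ j, |bet b j| ≤ 1 / 8 := fun j => by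
    unfold bet; split_ifs
    · rw [abs_zero]; norm_num
    · exact hb
  have hβ2 : ∀ j, |bet b j| ≤ 1 / 2 := fun j => (hβ j).trans (by norm_num)
  -- the forms of `n`
  have hDN : DD (2 * m) p0 b (Y / 4) J = NN b (2 * m) p0 (Y / 4) 0 J := by
    unfold DD NN qb
    rw [Finset.range_eq_Ico]
  have hVI : VI p0 (Y / 4) 0 J = ∑ j ∈ Finset.range J, VV (sc (Y / 4) p0 j) := by
    unfold VI
    rw [Finset.range_eq_Ico]
  obtain ⟨n1', n2', n3'⟩ := h4 (2 * m) (by omega) p0 hp0b b hb (Y / 4) hY4 0 J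
  rw [← hDN, hVI] at n1' n2' n3'
  have hCb : C0 * |b| ≤ C := by
    have : C0 * |b| ≤ C0 * 1 := by
      have := abs_nonneg b
      gcongr
      linarith
    linarith
  -- the blocks
  have hS : ∀ j, s0 ≤ BK K2 (expo (bet b j) (Mm m j) (sc Y p0 j))
      (expo (bet b j) (Mm m j) (sc Y p0 j)) := fun j => by
    obtain ⟨k1, -, -⟩ := h4 m hm0 p0 hp0b (bet b j) (hβ j) Y hY0 j (j + 1)
    have e1 : NN (bet b j) m p0 Y j (j + 1) = expo (bet b j) (Mm m j) (sc Y p0 j) := by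
      unfold NN qb
      rw [Nat.Ico_succ_singleton, Finset.prod_singleton]
    have e2 : VI p0 Y j (j + 1) = VV (sc Y p0 j) := by
      unfold VI
      rw [Nat.Ico_succ_singleton, Finset.sum_singleton]
    rw [e1, e2] at k1
    refine le_trans ?_ k1
    rw [hs0]
    apply Real.exp_le_exp.mpr
    have hV1 := VV_nonneg (sc Y p0 j)
    have hV2 := VV_sc_le hY0 p0 j
    have hbj := hβ j
    have hb' := abs_le.mp hbj
    have h1 : -(1 / 4) ≤ 2 * bet b j + bet b j ^ 2 := by linarith [sq_nonneg (bet b j)]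
    have h2 : -(1 / 4) * 12 ≤ (2 * bet b j + bet b j ^ 2) * VV (sc Y p0 j) := by
      linarith [mul_le_mul_of_nonneg_right h1 hV1]
    have h3 : C0 * |bet b j| ≤ C0 * 1 := by
      have := abs_nonneg (bet b j)
      gcongr
      linarith
    linarith
  have r1 := E1_signed (m := m) (p0 := p0) (β := bet b) hs0p hY0 hm1 q1 hp0a hβ2 (J + 1) hS
  have r2 := q_bounds_signed (m := m) (p0 := p0) (β := bet b) logKer_KL hY0 hm1 q2 hp0a hβ (J + 1)
  rw [DV_bet hY0] at r1 r2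
  rw [sum_bet hY0, Real.exp_add, ← hCq] at r2
  have hsub : (⋃ j ∈ Finset.range J, (sc (Y / 4) p0 j : Set ℕ))
      ⊆ ⋃ j ∈ Finset.range (J + 1), (sc Y p0 j : Set ℕ) := by
    intro p hp
    rw [Set.mem_iUnion₂] at hp ⊢
    obtain ⟨j, hj, hp⟩ := hp
    rw [Finset.mem_range] at hj
    exact ⟨j + 1, Finset.mem_range.mpr (by omega), by rw [sc_succ hY0]; exact hp⟩
  have hW : 0 ≤ Wsc p0 Y (J + 1) := by
    rw [Wsc_eq_prod hY0]
    refine Finset.prod_nonneg fun j _ => ?_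
    exact zero_le_one.trans (one_le_WW zero_le_one (fun p hp => sc_prime hp)
      fun p hp => by linarith [sc_ge hp0a j p hp])
  refine ⟨?_, ?_, ?_, ?_, ?_, ?_, (sup_DD _ _ _ _ _).mono (Smo_mono hsub),
    sup_of_cone cone_EI_Smo, sup_DD _ _ _ _ _⟩
  · exact (Real.exp_le_exp.mpr (sub_le_sub_left hCb _)).trans n1'
  · exact n2'.trans (Real.exp_le_exp.mpr (add_le_add le_rfl hCb))
  · refine n3'.trans ?_
    have h1 : Y / 4 / 4 ^ 0 + 1 ≤ 1 + Y := by
      rw [pow_zero, div_one]; linarith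
    have h2 : 0 ≤ C0 * |b| := mul_nonneg hC0 (abs_nonneg _)
    have h3 : 0 ≤ Y / 4 / 4 ^ 0 + 1 := by positivity
    gcongr
  · refine le_trans ?_ r1
    refine mul_le_mul_of_nonneg_right ?_ (mul_nonneg hW ((Real.exp_pos _).le.trans n1'))
    have : 16 * (C7 / s0) / 2 ^ m ≤ C / 2 ^ m := by gcongr
    linarith
  · refine r2.1.trans ?_
    rw [mul_comm]
    gcongr
  · refine r2.2.trans ?_
    have h1 : 2880 * Real.exp 3 * (Y + 2) * Cq ≤ C * (1 + Y) := by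
      calc 2880 * Real.exp 3 * (Y + 2) * Cq ≤ 2880 * Real.exp 3 * (2 * (1 + Y)) * Cq := by
            gcongr
            linarith
        _ = (2 * (2880 * Real.exp 3) * Cq) * (1 + Y) := by ring
        _ ≤ _ := by gcongr
    calc 2880 * Real.exp 3 * (Y + 2)
          * (Real.exp ((2 * b + b ^ 2) * ∑ j ∈ Finset.range J, VV (sc (Y / 4) p0 j)) * Cq)
        = (2880 * Real.exp 3 * (Y + 2) * Cq)
          * Real.exp ((2 * b + b ^ 2) * ∑ j ∈ Finset.range J, VV (sc (Y / 4) p0 j)) := by ring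
      _ ≤ _ := by gcongr

end Pool.Agent.Lib.MP_f9aece_nt_r3
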