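import Mathlib
import Pool.Agent.Lib.MP_f9aece_nt_r3.SplitSignedOf
import Pool.Agent.Lib.MP_f9aece_nt_r3.NForms

/-!
S5: the forms at two consecutive levels for exponents of both signs.
-/

set_option autoImplicit false

namespace Pool.Agent.Lib.MP_f9aece_nt_r3

open Pool.Agent.Lib.MP_f9aece_nt
open Pool.Agent.Lib.MP_f9aece_nt_h97

/-- the forms at two consecutive levels, for exponents of both signs -/
theorem forms_split_signed : ∃ C : ℝ, 0 ≤ C ∧ ∃ m1 p1 : ℕ, 4000 ≤ m1 ∧ 144 ≤ p1 ∧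
    ∀ m : ℕ, m1 ≤ m → ∀ p0 : ℕ, p1 ≤ p0 → ∀ b : ℝ, |b| ≤ 1 / 8 → ∀ Y : ℝ, 1 ≤ Y → ∀ J : ℕ,
    FSs C m p0 b Y J :=
  forms_split_signed_of nforms

end Pool.Agent.Lib.MP_f9aece_nt_r3
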