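import Mathlib
import Pool.Agent.Lib.MP_f9aece_nt_h24.LevelPart
import Pool.Agent.Lib.MP_f9aece_nt_r3.Defs

/-!
S6: the contribution of one level, for exponents of both signs (from the forms `FSs`).
-/

set_option autoImplicit false

namespace Pool.Agent.Lib.MP_f9aece_nt_r3

open MeasureTheory Set Filter Topology Complex
open Pool.Agent.Lib.MP_f9aece_nt
open Pool.Agent.Lib.MP_f9aece_nt_h97
open Pool.Agent.Lib.MP_f9aece_nt_h40 (EI dlb_EI Wsc)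
open Pool.Agent.Lib.MP_f9aece_nt_h22 (VS sum_VV_eq_VS VS_le_loglog VS_nonneg)
open Pool.Agent.Lib.MP_f9aece_nt_h85 (Pst Rst rz SR SR_nonneg sup_rz decouple_K2 decouple_KL
  BK_K2_rz BK_K2_rz_nonneg BK_KL_rz BK_KL_rz_nonneg sc_subset_Pst DLB Bd bd_rz_mul wgt
  zeta_energy energy_full level_bound log_le_SR rset mem_rset SR_le Krz Krz_le)

/-- the energy of `zeta n c D` for one level -/
theorem c2_signed {K : Ker} {C1 R Cf T z b Y : ℝ} {m p0 J : ℕ} (hC1 : 0 ≤ C1)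
    (hCf : 0 ≤ Cf) (hFS : FSs Cf m p0 b Y J) (hT : 1 ≤ T) (hz : 1 ≤ z) (hzT : z ≤ T)
    (hY : Y ≤ Real.log T) (hU : ∫ x in Ioi (0 : ℝ), QQ (K.phi T) (rz p0 Y z * qq m p0 b Y J) x ^ 2
      ≤ 1 / T * (K.m2 * (Real.log T * BK K2 (rz p0 Y z * qq m p0 b Y J) (rz p0 Y z * qq m p0 b Y J)
          - BK KL (rz p0 Y z * qq m p0 b Y J) (rz p0 Y z * qq m p0 b Y J))
        + C1 * |BK K2 (rz p0 Y z * qq m p0 b Y J) (rz p0 Y z * qq m p0 b Y J)| + R)) :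
    Real.pi * ∫ x in Ioi (0 : ℝ), QQ (K.phi T) (DD (2 * m) p0 b (Y / 4) J
        * (rz p0 Y z * EI m p0 Y (J + 1)) * DD m p0 (-1) Y (J + 1)) x ^ 2
      ≤ 1 / T * (Real.pi * (K.m2 + C1) * (3 * Cf + Cf) * SR p0 Y z ^ 3
          * ((1 + Real.log T)
            * Real.exp ((2 * b + b ^ 2) * ∑ j ∈ Finset.range J, VV (sc (Y / 4) p0 j)))
        + Real.pi * R) := by
  have hm2 := K.m2_nonneg
  have hpi := Real.pi_pos
  have hlog : 0 ≤ Real.log T := Real.log_nonneg hT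
  have hT0 : 0 < T := by linarith
  rw [qq_eq]
  have hq2 : |BK K2 (qq m p0 b Y J) (qq m p0 b Y J)| ≤ _ := hFS.k2q
  have hqL : |BK KL (qq m p0 b Y J) (qq m p0 b Y J)| ≤ _ := hFS.klq
  obtain ⟨X, hX⟩ : ∃ X : ℝ, X = Real.exp ((2 * b + b ^ 2)
    * ∑ j ∈ Finset.range J, VV (sc (Y / 4) p0 j)) := ⟨_, rfl⟩
  rw [← hX] at hqL ⊢
  rw [← hX] at hq2
  have hX0 : 0 < X := by rw [hX]; exact Real.exp_pos _
  have hsup : Sup (Smo (Pst p0 Y : Set ℕ)) (qq m p0 b Y J) := by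
    have hsub := Smo_mono (sc_subset_Pst (p0 := p0) (Y := Y) (J + 1))
    exact ((hFS.supE.mono hsub).mul (hFS.supn.mono hsub) fun _ hx _ hy => mul_mem_Smo hx hy).mul
      (hFS.supD.mono hsub) fun _ hx _ hy => mul_mem_Smo hx hy
  obtain ⟨q, hq⟩ : ∃ q : DP, q = qq m p0 b Y J := ⟨_, rfl⟩
  rw [← hq] at hsup hq2 hqL hU ⊢
  obtain ⟨S3, hS3⟩ : ∃ S3 : ℝ, S3 = SR p0 Y z ^ 3 := ⟨_, rfl⟩
  have hS30 : 0 ≤ S3 := by rw [hS3]; exact pow_nonneg SR_nonneg 3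
  have r1 := BK_K2_rz (p0 := p0) (Y := Y) (z := z)
  have r2 := BK_K2_rz_nonneg (p0 := p0) (Y := Y) (z := z)
  have r3 := BK_KL_rz (p0 := p0) (Y := Y) (z := z)
  have r4 := BK_KL_rz_nonneg (p0 := p0) (Y := Y) (z := z)
  have hlz : Real.log z ≤ Real.log T := Real.log_le_log (by linarith) hzT
  have hlz0 : 0 ≤ Real.log z := Real.log_nonneg hz
  rw [← hS3] at r1 r3 ⊢
  have d2 := decouple_K2 (p0 := p0) (Y := Y) (sup_rz (z := z)) (sup_rz (z := z)) hsup hsup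
  have dL := decouple_KL (p0 := p0) (Y := Y) (sup_rz (z := z)) (sup_rz (z := z)) hsup hsup
  obtain ⟨f, hf⟩ : ∃ f : DP, f = rz p0 Y z * q := ⟨_, rfl⟩
  rw [← hf] at d2 dL hU ⊢
  have b2 : |BK K2 f f| ≤ S3 * (Cf * X) := by
    rw [d2, abs_mul, abs_of_nonneg r2]
    gcongr
  have b2' : 0 ≤ (1 + Real.log T) * X * S3 := by positivity
  have bL : |BK KL f f| ≤ (2 * Cf + Cf) * S3 * ((1 + Real.log T) * X) := by
    rw [dL]
    refine (abs_add_le _ _).trans ?_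
    rw [abs_mul, abs_mul, abs_of_nonneg r2, abs_of_nonneg r4]
    calc BK KL (rz p0 Y z) (rz p0 Y z) * |BK K2 q q| + BK K2 (rz p0 Y z) (rz p0 Y z) * |BK KL q q|
        ≤ (2 * Real.log z * S3) * (Cf * X) + S3 * (Cf * (1 + Y) * X) := by gcongr
      _ ≤ (2 * (1 + Real.log T) * S3) * (Cf * X) + S3 * (Cf * (1 + Real.log T) * X) := by
          gcongr
          linarith
      _ = _ := by ring
  have key : K.m2 * (Real.log T * BK K2 f f - BK KL f f) + C1 * |BK K2 f f|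
      ≤ (K.m2 + C1) * (3 * Cf + Cf) * S3 * ((1 + Real.log T) * X) := by
    have a1 : Real.log T * BK K2 f f ≤ Real.log T * |BK K2 f f| :=
      mul_le_mul_of_nonneg_left (le_abs_self _) hlog
    have a2 := neg_abs_le (BK KL f f)
    have a3 : Real.log T * BK K2 f f - BK KL f f ≤ (3 * Cf + Cf) * S3 * ((1 + Real.log T) * X) := by
      have : Real.log T * |BK K2 f f| ≤ (1 + Real.log T) * (S3 * (Cf * X)) := by
        gcongr
        linarith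
      calc Real.log T * BK K2 f f - BK KL f f ≤ Real.log T * |BK K2 f f| + |BK KL f f| := by linarith
        _ ≤ (1 + Real.log T) * (S3 * (Cf * X))
            + (2 * Cf + Cf) * S3 * ((1 + Real.log T) * X) := by linarith
        _ = _ := by ring
    have a4 : |BK K2 f f| ≤ (3 * Cf + Cf) * S3 * ((1 + Real.log T) * X) := by
      refine b2.trans ?_
      have e1 : 0 ≤ (2 * Cf + Cf) * ((1 + Real.log T) * X * S3) := by positivity
      have e2 : 0 ≤ Cf * (Real.log T * X * S3) := by positivity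
      linarith
    calc K.m2 * (Real.log T * BK K2 f f - BK KL f f) + C1 * |BK K2 f f|
        ≤ K.m2 * ((3 * Cf + Cf) * S3 * ((1 + Real.log T) * X))
          + C1 * ((3 * Cf + Cf) * S3 * ((1 + Real.log T) * X)) := by gcongr
      _ = _ := by ring
  calc Real.pi * ∫ x in Ioi (0 : ℝ), QQ (K.phi T) f x ^ 2
      ≤ Real.pi * (1 / T * (K.m2 * (Real.log T * BK K2 f f - BK KL f f)
        + C1 * |BK K2 f f| + R)) := mul_le_mul_of_nonneg_left hU hpi.le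
    _ ≤ Real.pi * (1 / T * ((K.m2 + C1) * (3 * Cf + Cf) * S3 * ((1 + Real.log T) * X)
        + R)) := by gcongr
    _ = _ := by ring

/-- the error term of the test function -/
lemma tiny_signed {T τ H F X : ℝ} (hT : 1 ≤ T) (hτ : 1 + Real.log T ≤ τ) (hH : 1 ≤ H)
    (hHT : H * τ ^ 24 ≤ T ^ (1 / 2 : ℝ)) (hF0 : 0 ≤ F) (hF : F ≤ τ) (hX : 1 ≤ (1 + Real.log T) * X) :
    F ^ 3 * H ^ 2 * (1 + Real.log H) ^ 2 / T ^ 2 ≤ X / T := by
  have hT0 : 0 < T := by linarith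
  have hlT : 0 ≤ Real.log T := Real.log_nonneg hT
  have hlH : 0 ≤ Real.log H := Real.log_nonneg hH
  have hτ1 : 1 ≤ τ := by linarith
  have hX0 : 0 < X := by
    by_contra hcon
    have : (1 + Real.log T) * X ≤ 0 := mul_nonpos_of_nonneg_of_nonpos (by linarith) (by linarith)
    linarith
  have hτX : 1 ≤ τ * X := hX.trans (by gcongr)
  have hsq : (T ^ (1 / 2 : ℝ)) ^ 2 = T := by
    rw [← Real.rpow_natCast, ← Real.rpow_mul hT0.le]
    norm_num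
  have hHτ : H ≤ H * τ ^ 24 := le_mul_of_one_le_right (by linarith) (one_le_pow₀ hτ1)
  have h12 : T ^ (1 / 2 : ℝ) ≤ T := by
    calc T ^ (1 / 2 : ℝ) ≤ T ^ (1 : ℝ) := Real.rpow_le_rpow_of_exponent_le hT (by norm_num)
      _ = T := Real.rpow_one T
  have hlog : Real.log H ≤ Real.log T := Real.log_le_log (by linarith) (by linarith)
  have h1 : (1 + Real.log H) ^ 2 ≤ τ ^ 2 := by
    have : 1 + Real.log H ≤ τ := by linarith
    gcongr
  have h2 : F ^ 3 ≤ τ ^ 3 := by gcongr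
  have h3 : (H * τ ^ 24) ^ 2 ≤ T := by
    calc (H * τ ^ 24) ^ 2 ≤ (T ^ (1 / 2 : ℝ)) ^ 2 := by gcongr
      _ = T := hsq
  rw [div_le_div_iff₀ (by positivity) hT0]
  have h4 : F ^ 3 * H ^ 2 * (1 + Real.log H) ^ 2 ≤ T * X := by
    calc F ^ 3 * H ^ 2 * (1 + Real.log H) ^ 2 ≤ τ ^ 3 * H ^ 2 * τ ^ 2 := by gcongr
      _ = H ^ 2 * τ ^ 5 := by ring
      _ ≤ H ^ 2 * τ ^ 5 * (τ * X) := le_mul_of_one_le_right (by positivity) hτX
      _ = H ^ 2 * τ ^ 6 * X := by ring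
      _ ≤ H ^ 2 * τ ^ 48 * X := by
          have : τ ^ 6 ≤ τ ^ 48 := pow_le_pow_right₀ hτ1 (by norm_num)
          gcongr
      _ = (H * τ ^ 24) ^ 2 * X := by ring
      _ ≤ T * X := by gcongr
  calc F ^ 3 * H ^ 2 * (1 + Real.log H) ^ 2 * T ≤ T * X * T := by gcongr
    _ = X * T ^ 2 := by ring

/-- the final computation -/
lemma level_arith_signed {π' m2 C1 C Cf A1 c1 c2 c3 c4 c5 T lT Lg X S Y ε' M R3 V Er G I1 I2 : ℝ}
    (hπ : 0 ≤ π') (hm2 : 0 ≤ m2) (hC1 : 0 ≤ C1) (hC : 0 ≤ C) (hCf : 0 ≤ Cf) (hA1 : 0 ≤ A1)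
    (hc1 : c1 = 4 * π' * m2 * Real.exp Cf) (hc2 : c2 = 2 * π' * m2 * Real.exp Cf * Cf)
    (hc3 : c3 = 2 * (π' * C1 * Real.exp Cf + π' * C1 + π' * m2 * Cf + C))
    (hc4 : c4 = 8 * (A1 + π' * C1)) (hc5 : c5 = 2 * (π' * m2 * Cf)) (hY : 0 ≤ Y)
    (hT : 0 < T) (hlT : 0 ≤ lT) (hLg : Lg = 1 + lT) (hX0 : 0 < X) (hε' : 0 ≤ ε')
    (hM : 0 < M) (hR3 : 0 ≤ R3) (hV : 0 < V) (hSX : S ≤ Real.exp Cf * X)
    (hEr : Er = π' * C1 * S + π' * C1 * X + π' * m2 * (Cf * (1 + Y) * X)) (hG : G ≤ X / T)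
    (hlev : I1 ≤ 2 * (π' * m2 / T * (S * lT * (2 * ε' + Cf / M)) + Er / T + C * G) + 8 * I2)
    (hI2 : I2 ≤ (V ^ 2)⁻¹ * (1 / T * ((A1 + π' * C1) * (R3 * (Lg * X))))) :
    I1 ≤ (c1 + c2 + c3 + c4 + c5) / T * (Lg * X) * (ε' + M⁻¹ + Y / Lg + Lg⁻¹ + R3 / V ^ 2) := by
  have he1 : (0 : ℝ) ≤ Real.exp Cf := (Real.exp_pos Cf).le
  have hc10 : 0 ≤ c1 := by rw [hc1]; positivity
  have hc20 : 0 ≤ c2 := by rw [hc2]; positivity
  have hc30 : 0 ≤ c3 := by rw [hc3]; positivity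
  have hc40 : 0 ≤ c4 := by rw [hc4]; positivity
  have hc50 : 0 ≤ c5 := by rw [hc5]; positivity
  have hLg1 : 1 ≤ Lg := by rw [hLg]; linarith only [hlT]
  have hLg0 : 0 < Lg := by linarith only [hLg1]
  have hTi : 0 < 1 / T := by positivity
  have t1 : S * lT ≤ Real.exp Cf * (Lg * X) := by
    have h1 : lT ≤ Lg := by rw [hLg]; linarith only
    calc S * lT ≤ (Real.exp Cf * X) * Lg := by gcongr
      _ = _ := by ring
  have t2 : Er ≤ (π' * C1 * Real.exp Cf + π' * C1 + π' * m2 * Cf + π' * m2 * Cf * Y) * X := by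
    rw [hEr]
    have h1 : π' * C1 * S ≤ π' * C1 * (Real.exp Cf * X) := by gcongr
    linarith only [h1]
  have p1 : 2 * (π' * m2 / T * (S * lT * (2 * ε' + Cf / M)))
      ≤ 1 / T * (Lg * X) * (c1 * ε' + c2 * M⁻¹) := by
    have h1 : S * lT * (2 * ε' + Cf / M)
        ≤ Real.exp Cf * (Lg * X) * (2 * ε' + Cf / M) := by gcongr
    calc 2 * (π' * m2 / T * (S * lT * (2 * ε' + Cf / M)))
        ≤ 2 * (π' * m2 / T * (Real.exp Cf * (Lg * X) * (2 * ε' + Cf / M))) := by gcongr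
      _ = _ := by rw [hc1, hc2]; ring
  have p2 : 2 * (Er / T + C * G) ≤ 1 / T * (Lg * X) * (c3 * Lg⁻¹ + c5 * (Y / Lg)) := by
    have h1 : C * G ≤ C * (X / T) := by gcongr
    have h3 : Er / T ≤ (π' * C1 * Real.exp Cf + π' * C1 + π' * m2 * Cf + π' * m2 * Cf * Y) * X / T := by
      gcongr
    have e : 1 / T * (Lg * X) * (c3 * Lg⁻¹ + c5 * (Y / Lg))
        = 2 * ((π' * C1 * Real.exp Cf + π' * C1 + π' * m2 * Cf + π' * m2 * Cf * Y) * X / T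
          + C * (X / T)) := by
      rw [hc3, hc5]
      field_simp
      ring
    rw [e]
    linarith only [h1, h3]
  have p3 : 8 * I2 ≤ 1 / T * (Lg * X) * (c4 * (R3 / V ^ 2)) := by
    have h2 := mul_le_mul_of_nonneg_left hI2 (by norm_num : (0 : ℝ) ≤ 8)
    refine h2.trans (le_of_eq ?_)
    rw [hc4]
    field_simp
  have hsum : I1 ≤ 1 / T * (Lg * X) * (c1 * ε' + c2 * M⁻¹ + c5 * (Y / Lg) + c3 * Lg⁻¹
      + c4 * (R3 / V ^ 2)) := by
    linarith only [p1, p2, p3, hlev]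
  refine hsum.trans ?_
  have hfin : c1 * ε' + c2 * M⁻¹ + c5 * (Y / Lg) + c3 * Lg⁻¹ + c4 * (R3 / V ^ 2)
      ≤ (c1 + c2 + c3 + c4 + c5) * (ε' + M⁻¹ + Y / Lg + Lg⁻¹ + R3 / V ^ 2) := by
    have a1 : 0 ≤ M⁻¹ := by positivity
    have a2 : 0 ≤ Lg⁻¹ := by positivity
    have a3 : 0 ≤ R3 / V ^ 2 := by positivity
    have a4 : 0 ≤ Y / Lg := by positivity
    have g1 : c1 * ε' ≤ (c1 + c2 + c3 + c4 + c5) * ε' :=
      mul_le_mul_of_nonneg_right (by linarith only [hc20, hc30, hc40, hc50]) hε'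
    have g2 : c2 * M⁻¹ ≤ (c1 + c2 + c3 + c4 + c5) * M⁻¹ :=
      mul_le_mul_of_nonneg_right (by linarith only [hc10, hc30, hc40, hc50]) a1
    have g3 : c3 * Lg⁻¹ ≤ (c1 + c2 + c3 + c4 + c5) * Lg⁻¹ :=
      mul_le_mul_of_nonneg_right (by linarith only [hc10, hc20, hc40, hc50]) a2
    have g4 : c4 * (R3 / V ^ 2) ≤ (c1 + c2 + c3 + c4 + c5) * (R3 / V ^ 2) :=
      mul_le_mul_of_nonneg_right (by linarith only [hc10, hc20, hc30, hc50]) a3
    have g5 : c5 * (Y / Lg) ≤ (c1 + c2 + c3 + c4 + c5) * (Y / Lg) :=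
      mul_le_mul_of_nonneg_right (by linarith only [hc10, hc20, hc30, hc40]) a4
    linarith only [g1, g2, g3, g4, g5]
  have hpos : 0 ≤ 1 / T * (Lg * X) := by positivity
  calc 1 / T * (Lg * X) * (c1 * ε' + c2 * M⁻¹ + c5 * (Y / Lg) + c3 * Lg⁻¹ + c4 * (R3 / V ^ 2))
      ≤ 1 / T * (Lg * X) * ((c1 + c2 + c3 + c4 + c5) * (ε' + M⁻¹ + Y / Lg + Lg⁻¹ + R3 / V ^ 2)) :=
        mul_le_mul_of_nonneg_left hfin hpos
    _ = _ := by ring

/-- **one level**: the energy of zeta times the polynomial of a level, on the set where the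
mollified value at the previous level is large -/
theorem level_tail_signed (K : Ker) {C1 T1 Cf : ℝ} (hC1 : 0 ≤ C1) (hCf : 0 ≤ Cf) (hLE : LE K C1 T1) :
    ∃ C3 T3 : ℝ, 0 ≤ C3 ∧ ∀ T : ℝ, T3 ≤ T → ∀ (m p0 J : ℕ) (b Y z τ V ε' : ℝ),
      |b| ≤ 1 → FSs Cf m p0 b Y J →
      1 ≤ (1 + Real.log T)
        * Real.exp ((2 * b + b ^ 2) * ∑ j ∈ Finset.range J, VV (sc (Y / 4) p0 j)) →
      0 < Y → Y / 4 ^ (J + 1) < Real.log 2 → Y ≤ Real.log T → Cf / 2 ^ m ≤ 1 → 0 ≤ ε' → 1 ≤ z →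
      z ≤ T → (1 / 2 - ε') * Real.log T ≤ Real.log z → Real.log T ^ 10 ≤ τ →
      z * Real.exp (6 * m * Y) * τ ^ 24 ≤ T ^ (1 / 2 : ℝ) → Real.exp (2 * J + 1 + 6 * m * Y) * (1 + Real.log T) ≤ τ →
      0 < V → ∀ B : Set ℝ, MeasurableSet B → B ⊆ Icc 0 T →
      (∀ t ∈ B, V ≤ ‖riemannZeta (1 / 2 + I * t) * ev t (DD m p0 (-1) Y (J + 1))‖) →
      ∫ t in B, (‖riemannZeta (1 / 2 + I * t) * ev t (DD (2 * m) p0 b (Y / 4) J)‖ * wgt K T t) ^ 2
        ≤ C3 / T * ((1 + Real.log T)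
            * Real.exp ((2 * b + b ^ 2) * ∑ j ∈ Finset.range J, VV (sc (Y / 4) p0 j)))
          * (ε' + (2 ^ m)⁻¹ + Y / (1 + Real.log T) + (1 + Real.log T)⁻¹ + SR p0 Y z ^ 3 / V ^ 2) := by
  obtain ⟨C, hC, hLB⟩ := level_bound K
  have hL := K.hL
  have hm2 := K.m2_nonneg
  have hpi := Real.pi_pos
  have he1 : (0 : ℝ) ≤ Real.exp Cf := (Real.exp_pos Cf).le
  obtain ⟨A1, hA1⟩ : ∃ A1, A1 = Real.pi * (K.m2 + C1) * (3 * Cf + Cf) := ⟨_, rfl⟩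
  have hA10 : 0 ≤ A1 := by rw [hA1]; positivity
  obtain ⟨c1, hc1⟩ : ∃ c1, c1 = 4 * Real.pi * K.m2 * Real.exp Cf := ⟨_, rfl⟩
  obtain ⟨c2, hc2⟩ : ∃ c2, c2 = 2 * Real.pi * K.m2 * Real.exp Cf * Cf := ⟨_, rfl⟩
  obtain ⟨c3, hc3⟩ : ∃ c3, c3 = 2 * (Real.pi * C1 * Real.exp Cf + Real.pi * C1
    + Real.pi * K.m2 * Cf + C) := ⟨_, rfl⟩
  obtain ⟨c4, hc4⟩ : ∃ c4, c4 = 8 * (A1 + Real.pi * C1) := ⟨_, rfl⟩
  obtain ⟨c5, hc5⟩ : ∃ c5, c5 = 2 * (Real.pi * K.m2 * Cf) := ⟨_, rfl⟩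
  have hc10 : 0 ≤ c1 := by rw [hc1]; positivity
  have hc20 : 0 ≤ c2 := by rw [hc2]; positivity
  have hc30 : 0 ≤ c3 := by rw [hc3]; positivity
  have hc40 : 0 ≤ c4 := by rw [hc4]; positivity
  have hc50 : 0 ≤ c5 := by rw [hc5]; positivity
  refine ⟨c1 + c2 + c3 + c4 + c5, max (max T1 (Real.exp 2)) (max (2 * K.L) (64 * K.L ^ 2)), by positivity, ?_⟩
  intro T hT m p0 J b Y z τ V ε' hb hFS hXl hY hJ hYT hη hε' hz hzT hzε hτ hHτ hFτ' hV B hB hBT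
    hBV
  have hT1 : T1 ≤ T := ((le_max_left _ _).trans (le_max_left _ _)).trans hT
  have hTe : Real.exp 2 ≤ T := ((le_max_right _ _).trans (le_max_left _ _)).trans hT
  have hTL : 2 * K.L ≤ T := ((le_max_left _ _).trans (le_max_right _ _)).trans hT
  have hTL2 : 64 * K.L ^ 2 ≤ T := ((le_max_right _ _).trans (le_max_right _ _)).trans hT
  have hT0 : 0 < T := (Real.exp_pos 2).trans_le hTe
  have hlog2 : 2 ≤ Real.log T := by rwa [Real.le_log_iff_exp_le hT0]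
  have hTone : 1 ≤ T := (Real.one_le_exp (by norm_num)).trans hTe
  have hlog0 : 0 ≤ Real.log T := by linarith only [hlog2]
  have hτlog : 1 + Real.log T ≤ τ := by
    refine le_trans ?_ hτ
    have h1 : Real.log T ^ 2 ≤ Real.log T ^ 10 := pow_le_pow_right₀ (by linarith) (by norm_num)
    nlinarith only [h1, hlog2]
  have hτ1 : 1 ≤ τ := by linarith only [hτlog, hlog0]
  obtain ⟨bn, bc, bnc, bq⟩ := level_bds (m := m) (p0 := p0) (J := J) hb hY hz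
  obtain ⟨n, hn⟩ : ∃ n : DP, n = DD (2 * m) p0 b (Y / 4) J := ⟨_, rfl⟩
  obtain ⟨E, hE⟩ : ∃ E : DP, E = EI m p0 Y (J + 1) := ⟨_, rfl⟩
  obtain ⟨D, hD⟩ : ∃ D : DP, D = DD m p0 (-1) Y (J + 1) := ⟨_, rfl⟩
  obtain ⟨V', hV'⟩ : ∃ V', V' = ∑ j ∈ Finset.range J, VV (sc (Y / 4) p0 j) := ⟨_, rfl⟩
  obtain ⟨S, hS⟩ : ∃ S, S = BK K2 n n := ⟨_, rfl⟩
  have hS0 : 0 ≤ S := by
    rw [hS, hn]
    exact (Real.exp_pos _).le.trans hFS.s_ge
  obtain ⟨X, hX⟩ : ∃ X, X = Real.exp ((2 * b + b ^ 2) * V') := ⟨_, rfl⟩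
  have hX0 : 0 < X := by rw [hX]; exact Real.exp_pos _
  rw [← hV', ← hX] at hXl
  have hSX : S ≤ Real.exp Cf * X := by
    rw [hS, hn, hX, ← Real.exp_add, hV']
    refine hFS.s_le.trans (Real.exp_le_exp.mpr ?_)
    linarith only
  have hmY : (0 : ℝ) ≤ m * Y := by positivity
  have hJ0 : (0 : ℝ) ≤ J := Nat.cast_nonneg J
  obtain ⟨H, hH⟩ : ∃ H, H = z * Real.exp (6 * m * Y) := ⟨_, rfl⟩
  obtain ⟨F, hF⟩ : ∃ F, F = Real.exp (2 * J + 1 + 6 * m * Y) := ⟨_, rfl⟩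
  have hexp6 : 1 ≤ Real.exp (6 * m * Y) := Real.one_le_exp (by linarith only [hmY])
  have hH1 : 1 ≤ H := by rw [hH]; nlinarith only [hexp6, hz]
  have hF1 : 1 ≤ F := by rw [hF]; exact Real.one_le_exp (by linarith only [hmY, hJ0])
  rw [← hn, ← hH, ← hF] at bn
  rw [← hE, ← hH, ← hF] at bc
  rw [← hn, ← hE, ← hH, ← hF] at bnc
  rw [← hH, ← hF] at bq
  rw [← hH] at hHτ
  rw [← hF] at hFτ'
  have hF0 : 0 ≤ F := by linarith only [hF1]
  have hFτ : F ≤ τ := by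
    refine le_trans ?_ hFτ'
    exact le_mul_of_one_le_right hF0 (by linarith only [hlog0])
  have hF2 : F ^ 2 / τ ^ 2 ≤ X := by
    rw [div_le_iff₀ (by positivity)]
    have h1 : (F * (1 + Real.log T)) ^ 2 ≤ τ ^ 2 := by gcongr
    have h2 : 1 ≤ (1 + Real.log T) ^ 2 * X := by
      calc (1 : ℝ) ≤ (1 + Real.log T) * X := hXl
        _ ≤ (1 + Real.log T) * ((1 + Real.log T) * X) :=
            le_mul_of_one_le_left (by positivity) (by linarith only [hlog0])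
        _ = _ := by ring
    calc F ^ 2 ≤ F ^ 2 * ((1 + Real.log T) ^ 2 * X) := le_mul_of_one_le_right (by positivity) h2
      _ = X * (F * (1 + Real.log T)) ^ 2 := by ring
      _ ≤ X * τ ^ 2 := by gcongr
  have hCF : C1 * (F ^ 2 / τ ^ 2) ≤ C1 * X := mul_le_mul_of_nonneg_left hF2 hC1
  -- the energy of `zeta n`
  have hQ : Real.pi * (∫ x in Ioi (0 : ℝ), QQ (K.phi T) n x ^ 2)
      ≤ 1 / T * (Real.pi * K.m2 * (Real.log T * S)
        + (Real.pi * C1 * S + Real.pi * C1 * X + Real.pi * K.m2 * (Cf * (1 + Y) * X))) := by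
    have h1 := hLE T hT1 τ H F hτ hH1 hHτ hF0 n bn.1 bn.2
    have h2 : -BK KL n n ≤ Cf * (1 + Y) * X := by
      refine (neg_le_abs _).trans ?_
      rw [hn, hX, hV']
      exact hFS.kln
    have h3 : ∫ x in Ioi (0 : ℝ), QQ (K.phi T) n x ^ 2
        ≤ 1 / T * (K.m2 * (Real.log T * S + Cf * (1 + Y) * X) + C1 * S + C1 * X) := by
      refine h1.trans (mul_le_mul_of_nonneg_left ?_ (by positivity))
      rw [← hS, abs_of_nonneg hS0]
      have h4 : K.m2 * (Real.log T * S - BK KL n n)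
          ≤ K.m2 * (Real.log T * S + Cf * (1 + Y) * X) :=
        mul_le_mul_of_nonneg_left (by linarith only [h2]) hm2
      linarith only [h4, hCF]
    have h4 := mul_le_mul_of_nonneg_left h3 hpi.le
    refine h4.trans (le_of_eq (by ring))
  -- the Euler product
  have hbU : (Finset.range (J + 1)).biUnion (sc Y p0) = Pst p0 Y :=
    Pool.Agent.Lib.MP_f9aece_nt_h40.biUnion_sc_eq hY hJ
  have hW : (1 / 2 - ε') * Real.log T ≤ SR p0 Y z * Wsc p0 Y (J + 1) := by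
    refine hzε.trans ?_
    unfold Wsc
    rw [hbU]
    exact log_le_SR hz
  have hE1 : Wsc p0 Y (J + 1) * S * (1 - Cf / 2 ^ m)
      ≤ 2 * BK (Kcs 1) n (E * n) - BK K1 (E * n) (E * n) := by
    have h1 := hFS.e1
    rw [← hn, ← hE, ← hS] at h1
    refine le_trans (le_of_eq (by ring)) h1
  have hsup : (⋃ j ∈ Finset.range (J + 1), (sc Y p0 j : Set ℕ)) ⊆ (Pst p0 Y : Set ℕ) :=
    sc_subset_Pst (J + 1)
  have sn : Sup (Smo (Pst p0 Y : Set ℕ)) n := by rw [hn]; exact hFS.supn.mono (Smo_mono hsup)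
  have sE : Sup (Smo (Pst p0 Y : Set ℕ)) E := by rw [hE]; exact hFS.supE.mono (Smo_mono hsup)
  have h4H : 4 * K.L * H < T := len_small (by linarith only [hL]) hTL2 hτ1 hH1 hHτ
  have hη0 : 0 ≤ Cf / 2 ^ m := by positivity
  have hlev := hLB T H F hTL hTone hH1 h4H hF1 p0 Y z n E sn sE bn.1 bc.1 bnc.1 bn.2 bc.2 bnc.2
    S (Wsc p0 Y (J + 1)) (Cf / 2 ^ m) ε'
    (Real.pi * C1 * S + Real.pi * C1 * X + Real.pi * K.m2 * (Cf * (1 + Y) * X)) hS0 hη0 hη hε' hQ hE1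
    hW (B ∩ Ioc 0 T) (hB.inter measurableSet_Ioc) inter_subset_right
  have hBB' : ∫ t in B, (‖riemannZeta (1 / 2 + I * t) * ev t n‖ * wgt K T t) ^ 2
      = ∫ t in B ∩ Ioc 0 T, (‖riemannZeta (1 / 2 + I * t) * ev t n‖ * wgt K T t) ^ 2 := by
    refine setIntegral_congr_set ?_
    have h0 : ∀ᵐ t : ℝ ∂volume, t ≠ 0 := by
      rw [ae_iff]
      simp
    filter_upwards [h0] with t ht
    refine propext ⟨fun h => ⟨h, lt_of_le_of_ne (hBT h).1 (Ne.symm ht), (hBT h).2⟩, fun h => h.1⟩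
  obtain ⟨f1, -⟩ := energy_full (K := K) hTL hH1 h4H bnc.1
  have hd1 : ∀ k, D.coeff k ≠ 0 → 1 ≤ k := by
    rw [hD]
    exact fun k hk => ((DLB.DD hY m p0 (c := -1) (by rw [abs_neg, abs_one]) (J + 1)).bd.1 k hk).1
  have hch := cheb (K := K) hTL (f := n * (rz p0 Y z * E)) (d := D) (fun k hk => (bnc.1 k hk).1) hd1 hV
    (B := B ∩ Ioc 0 T) (hB.inter measurableSet_Ioc) (fun t ht => hBT ht.1)
    (fun t ht => by rw [hD]; exact hBV t ht.1) (f1.mono_set fun t ht => ht.2.1)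
  -- the last energy
  have hc2' := c2_signed (K := K) (C1 := C1) (R := C1 * X) (Cf := Cf) hC1 hCf hFS hTone hz hzT hYT (by
    have h1 := hLE T hT1 τ H F hτ hH1 hHτ hF0 (rz p0 Y z * qq m p0 b Y J) bq.1 bq.2
    refine h1.trans (mul_le_mul_of_nonneg_left ?_ (by positivity))
    linarith only [hCF])
  rw [← hn, ← hE, ← hD, ← hV', ← hX] at hc2'
  have hSR1 : 1 ≤ SR p0 Y z := SR_one_le hz
  obtain ⟨R3, hR3⟩ : ∃ R3, R3 = SR p0 Y z ^ 3 := ⟨_, rfl⟩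
  have hR31 : 1 ≤ R3 := by rw [hR3]; exact one_le_pow₀ hSR1
  rw [← hR3] at hc2'
  obtain ⟨Lg, hLg⟩ : ∃ Lg, Lg = 1 + Real.log T := ⟨_, rfl⟩
  have hLg1 : 1 ≤ Lg := by rw [hLg]; linarith only [hlog0]
  have hUX : 1 ≤ Lg * X := by rw [hLg]; exact hXl
  have hq : Real.pi * ∫ x in Ioi (0 : ℝ), QQ (K.phi T) (n * (rz p0 Y z * E) * D) x ^ 2
      ≤ 1 / T * ((A1 + Real.pi * C1) * (R3 * (Lg * X))) := by
    refine hc2'.trans (mul_le_mul_of_nonneg_left ?_ (by positivity))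
    rw [← hLg]
    have h0 : 0 ≤ R3 * (Lg * X) := by positivity
    have h1 : Real.pi * (K.m2 + C1) * (3 * Cf + Cf) * R3 * (Lg * X) ≤ A1 * (R3 * (Lg * X)) := by
      rw [hA1]
      exact le_of_eq (by ring)
    have h2 : X ≤ R3 * (Lg * X) := by
      have h3 : X ≤ Lg * X := le_mul_of_one_le_left hX0.le hLg1
      exact h3.trans (le_mul_of_one_le_left (by positivity) hR31)
    have h3 : Real.pi * (C1 * X) ≤ Real.pi * C1 * (R3 * (Lg * X)) := by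
      rw [← mul_assoc]
      exact mul_le_mul_of_nonneg_left h2 (by positivity)
    linarith only [h1, h3]
  have htiny := tiny_signed hTone hτlog hH1 hHτ hF0 hFτ hXl
  rw [← hn, hBB', ← hV', ← hX, ← hR3, ← hLg]
  exact level_arith_signed hpi.le hm2 hC1 hC hCf hA10 hc1 hc2 hc3 hc4 hc5 hY.le hT0 hlog0 hLg hX0 hε'
    (by positivity) (by linarith only [hR31]) hV hSX rfl htiny hlev
    (hch.trans (mul_le_mul_of_nonneg_left hq (by positivity)))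

/-- **the contribution of one level** -/
theorem level_part_signed_of
    (hsplit : ∃ C : ℝ, 0 ≤ C ∧ ∃ m1 p1 : ℕ, 4000 ≤ m1 ∧ 144 ≤ p1 ∧
      ∀ m : ℕ, m1 ≤ m → ∀ p0 : ℕ, p1 ≤ p0 → ∀ b : ℝ, |b| ≤ 1 / 8 → ∀ Y : ℝ, 1 ≤ Y → ∀ J : ℕ,
      FSs C m p0 b Y J) :
    ∃ C4 : ℝ, 0 ≤ C4 ∧ ∃ m1 p1 : ℕ, 4000 ≤ m1 ∧ 144 ≤ p1 ∧ ∃ T4 : ℝ,
    ∀ T : ℝ, T4 ≤ T → ∀ m : ℕ, m1 ≤ m → ∀ p0 : ℕ, p1 ≤ p0 → ∀ b : ℝ, |b| ≤ 1 / 8 →
    ∀ (J μ : ℕ) (Y ε' V : ℝ), 4 ≤ Y → 43 * Y ≤ Real.log T → Y / 4 ^ (J + 1) < Real.log 2 →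
    0 < ε' → ε' ≤ 1 / 4 → 480 * Real.log (Real.log T) ≤ ε' * Real.log T →
    48 * (2 * J + 1 + 6 * m * Y) ≤ ε' * Real.log T → 1 ≤ μ → Real.log T ≤ 160 * μ * Y → 0 < V →
    ∫ t in {t | t ∈ Icc 0 T ∧ V ≤ ‖riemannZeta (1 / 2 + I * t) * ev t (DD m p0 (-1) Y (J + 1))‖},
        ‖riemannZeta (1 / 2 + I * t) * ev t (DD (2 * m) p0 b (Y / 4) J)‖ ^ 2
      ≤ C4 * (T * Real.log T
            * Real.exp ((2 * b + b ^ 2) * ∑ j ∈ Finset.range J, VV (sc (Y / 4) p0 j)))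
        * (ε' + ((2 : ℝ) ^ m)⁻¹ + Y / Real.log T + (Real.log T)⁻¹
          + (2 ^ p0 * (640 * (μ : ℝ)) ^ 24) ^ 3 / V ^ 2) := by
  obtain ⟨K, hK1, hK2⟩ := Ker.exists_good (ε := 1 / 4) (by norm_num) (by norm_num)
  obtain ⟨C1, T1, hC1, hLE⟩ := LE_exists K
  obtain ⟨Cf, hCf, ma, pa, hma, hpa, hFS⟩ := hsplit
  obtain ⟨C3, T3, hC3, htail⟩ := level_tail_signed K hC1 hCf hLE
  obtain ⟨mc, hmc⟩ := exists_nat_ge Cf
  have hL := K.hL
  have hml := K.ml_nonneg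
  refine ⟨8 * C3, by positivity, max ma mc, pa, le_max_of_le_left hma,
    hpa, max T3 (max (Real.exp 1) (16 * K.L ^ 2 * K.ml + 4 * K.L ^ 2)), ?_⟩
  intro T hT m hm p0 hp0 b hb J μ Y ε' V hY hYT hJ hε0 hε1 hll hlen hμ hμT hV
  have hT3 : T3 ≤ T := (le_max_left _ _).trans hT
  have hTe : Real.exp 1 ≤ T := ((le_max_left _ _).trans (le_max_right _ _)).trans hT
  have hTK : 16 * K.L ^ 2 * K.ml + 4 * K.L ^ 2 ≤ T :=
    ((le_max_right _ _).trans (le_max_right _ _)).trans hT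
  have hT0 : 0 < T := (Real.exp_pos 1).trans_le hTe
  obtain ⟨lT, hlT⟩ : ∃ lT, lT = Real.log T := ⟨_, rfl⟩
  have hl1 : 1 ≤ lT := by rw [hlT, Real.le_log_iff_exp_le hT0]; exact hTe
  have hl0 : 0 < lT := by linarith only [hl1]
  have hTexp : T = Real.exp lT := by rw [hlT, Real.exp_log hT0]
  have hT1 : 1 ≤ T := (Real.one_le_exp (by norm_num)).trans hTe
  rw [← hlT] at hYT hll hlen hμT ⊢
  have hma' : ma ≤ m := (le_max_left _ _).trans hm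
  have hmc' : mc ≤ m := (le_max_right _ _).trans hm
  have hpa' : pa ≤ p0 := hp0
  have hCfm : Cf / 2 ^ m ≤ 1 := by
    rw [div_le_one (by positivity)]
    have h1 : (mc : ℝ) ≤ m := by exact_mod_cast hmc'
    have h2 : (m : ℝ) ≤ 2 ^ m := by exact_mod_cast (Nat.lt_two_pow_self (n := m)).le
    linarith only [h1, h2, hmc]
  have hrp : ∀ x : ℝ, T ^ x = Real.exp (lT * x) := fun x => by
    rw [Real.rpow_def_of_pos hT0, ← hlT]
  have hmY : (0 : ℝ) ≤ m * Y := by positivity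
  have hJ0 : (0 : ℝ) ≤ J := Nat.cast_nonneg J
  obtain ⟨z, hz⟩ : ∃ z, z = Real.exp (lT * (1 / 2 - ε')) := ⟨_, rfl⟩
  obtain ⟨τ, hτ⟩ : ∃ τ, τ = Real.exp (lT * (ε' / 40)) := ⟨_, rfl⟩
  have hz1 : 1 ≤ z := by
    rw [hz]
    apply Real.one_le_exp
    have : 0 ≤ 1 / 2 - ε' := by linarith only [hε1]
    positivity
  have hzT : z ≤ T := by
    rw [hz, hTexp]
    apply Real.exp_le_exp.mpr
    nlinarith only [hl0, hε0]
  have hzl : (1 / 2 - ε') * Real.log T ≤ Real.log z := by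
    rw [hz, Real.log_exp, ← hlT, mul_comm]
  have hτ10 : Real.log T ^ 10 ≤ τ := by
    have e : Real.log T ^ 10 = Real.exp (10 * Real.log lT) := by
      rw [← hlT, show (10 : ℝ) * Real.log lT = ((10 : ℕ) : ℝ) * Real.log lT by norm_num,
        Real.exp_nat_mul, Real.exp_log hl0]
    rw [e, hτ]
    apply Real.exp_le_exp.mpr
    have h1 : 0 ≤ ε' * lT := by positivity
    linarith only [hll, h1]
  have hHτ : z * Real.exp (6 * m * Y) * τ ^ 24 ≤ T ^ (1 / 2 : ℝ) := by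
    rw [hz, hτ, hrp, ← Real.exp_nat_mul, ← Real.exp_add, ← Real.exp_add]
    apply Real.exp_le_exp.mpr
    push_cast
    have h1 : 0 ≤ ε' * lT := by positivity
    linarith only [hlen, hJ0, h1]
  have hFτ : Real.exp (2 * J + 1 + 6 * m * Y) * (1 + Real.log T) ≤ τ := by
    have h1 : 1 + Real.log T ≤ lT ^ 2 := by
      rw [← hlT]
      nlinarith only [hYT, hY, hl1]
    have h2 : lT ^ 2 = Real.exp (2 * Real.log lT) := by
      rw [show (2 : ℝ) * Real.log lT = ((2 : ℕ) : ℝ) * Real.log lT by norm_num,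
        Real.exp_nat_mul, Real.exp_log hl0]
    calc Real.exp (2 * J + 1 + 6 * m * Y) * (1 + Real.log T)
        ≤ Real.exp (2 * J + 1 + 6 * m * Y) * Real.exp (2 * Real.log lT) := by
          rw [← h2]; gcongr
      _ = Real.exp (2 * J + 1 + 6 * m * Y + 2 * Real.log lT) := by rw [Real.exp_add _ (2 * _)]
      _ ≤ τ := by
          rw [hτ]
          apply Real.exp_le_exp.mpr
          linarith only [hlen, hll]
  have hXl : 1 ≤ (1 + Real.log T)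
      * Real.exp ((2 * b + b ^ 2) * ∑ j ∈ Finset.range J, VV (sc (Y / 4) p0 j)) := by
    have hJ' : Y / 4 / 4 ^ J < Real.log 2 := by
      rwa [div_div, ← pow_succ']
    rw [sum_VV_eq_VS (by linarith only [hY]) p0 hJ']
    have h1 : VS p0 (Y / 4) ≤ Real.log lT := by
      refine (VS_le_loglog (A := 43) le_rfl (by linarith only [hY]) p0).trans ?_
      exact Real.log_le_log (by linarith only [hY]) (by linarith only [hY, hYT])
    have h0 := VS_nonneg p0 (Y / 4)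
    have hbb := abs_le.mp hb
    have h2 : -Real.log lT ≤ (2 * b + b ^ 2) * VS p0 (Y / 4) := by
      have h3 : -1 ≤ 2 * b + b ^ 2 := by linarith only [hbb.1, hbb.2, sq_nonneg b]
      nlinarith only [h3, h0, h1]
    have h4 : Real.exp (-Real.log lT) ≤ Real.exp ((2 * b + b ^ 2) * VS p0 (Y / 4)) :=
      Real.exp_le_exp.mpr h2
    rw [Real.exp_neg, Real.exp_log hl0] at h4
    rw [← hlT]
    calc (1 : ℝ) = lT * lT⁻¹ := by field_simp
      _ ≤ (1 + lT) * Real.exp ((2 * b + b ^ 2) * VS p0 (Y / 4)) := by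
          gcongr
          linarith only
  obtain ⟨n, hn⟩ : ∃ n : DP, n = DD (2 * m) p0 b (Y / 4) J := ⟨_, rfl⟩
  obtain ⟨B, hB⟩ : ∃ B : Set ℝ, B = {t | t ∈ Icc 0 T ∧
      V ≤ ‖riemannZeta (1 / 2 + I * t) * ev t (DD m p0 (-1) Y (J + 1))‖} := ⟨_, rfl⟩
  have mB : MeasurableSet B := by
    rw [hB]
    exact (isClosed_Icc.inter (isClosed_le continuous_const
      (continuous_zeta.mul (continuous_ev _)).norm)).measurableSet
  have sB : B ⊆ Icc 0 T := by rw [hB]; exact fun t ht => ht.1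
  have key := htail T hT3 m p0 J b Y z τ V ε' (hb.trans (by norm_num))
    (hFS m hma' p0 hpa' b hb Y (by linarith only [hY]) J) hXl
    (by linarith only [hY]) hJ (by rw [← hlT]; linarith only [hYT, hY]) hCfm hε0.le hz1 hzT hzl hτ10 hHτ hFτ hV
    B mB sB (fun t ht => by rw [hB] at ht; exact ht.2)
  -- remove the weight
  have hwt : ∀ t ∈ Icc (0 : ℝ) T, 1 / (2 * T) ≤ wgt K T t := by
    intro t ht
    have h1 := K.mellin_lower hK2 (T := T) (t := t) (by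
      have : 0 ≤ 16 * K.L ^ 2 * K.ml := by positivity
      linarith only [this, hTK]) ht.1 ht.2
    refine le_trans ?_ h1
    have h2 : 4 * K.L ^ 2 * K.ml / T ≤ 1 / 4 := by
      rw [div_le_iff₀ hT0]
      have : 0 ≤ 4 * K.L ^ 2 := by positivity
      linarith only [this, hTK]
    rw [div_le_div_iff₀ (by positivity) hT0]
    nlinarith only [h2, hT0]
  have hpt : ∫ t in B, ‖riemannZeta (1 / 2 + I * t) * ev t n‖ ^ 2
      ≤ 4 * T ^ 2 * ∫ t in B, (‖riemannZeta (1 / 2 + I * t) * ev t n‖ * wgt K T t) ^ 2 := by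
    rw [← integral_const_mul]
    have hn1 : ∀ k, n.coeff k ≠ 0 → 1 ≤ k := by
      rw [hn]
      intro k hk
      exact ((level_bds (m := m) (p0 := p0) (J := J) (hb.trans (by norm_num))
        (by linarith only [hY]) hz1).1.1 k hk).1
    have hTL : 2 * K.L ≤ T := by
      have : 0 ≤ 16 * K.L ^ 2 * K.ml := by positivity
      nlinarith only [this, hTK, hL]
    obtain ⟨z1, -⟩ := zeta_energy (K := K) hTL hn1
    refine setIntegral_mono_on ((cont_ze n).integrableOn_Icc.mono_set sB)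
      ((z1.mono_set sB).const_mul _) mB fun t ht => ?_
    have h1 := hwt t (sB ht)
    have h2 : 1 ≤ 2 * T * wgt K T t := by
      have := mul_le_mul_of_nonneg_left h1 (by positivity : 0 ≤ 2 * T)
      refine le_trans (le_of_eq ?_) this
      field_simp
    obtain ⟨w, hw⟩ : ∃ w, w = wgt K T t := ⟨_, rfl⟩
    rw [← hw] at h2 ⊢
    have h3 : 1 ≤ (2 * T * w) ^ 2 := one_le_pow₀ h2
    calc ‖riemannZeta (1 / 2 + I * t) * ev t n‖ ^ 2
        ≤ ‖riemannZeta (1 / 2 + I * t) * ev t n‖ ^ 2 * (2 * T * w) ^ 2 :=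
          le_mul_of_one_le_right (by positivity) h3
      _ = _ := by ring
  rw [← hn, ← hB]
  rw [← hn, ← hlT] at key
  refine hpt.trans ?_
  obtain ⟨X, hX⟩ : ∃ X, X = Real.exp ((2 * b + b ^ 2)
      * ∑ j ∈ Finset.range J, VV (sc (Y / 4) p0 j)) := ⟨_, rfl⟩
  rw [← hX] at key ⊢
  have hX0 : 0 < X := by rw [hX]; exact Real.exp_pos _
  have hSR : SR p0 Y z ≤ 2 ^ p0 * (640 * (μ : ℝ)) ^ 24 := by
    refine (SR_le (m := μ) (by linarith only [hY]) ?_).trans (Krz_le p0 hμ)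
    refine hzT.trans ?_
    rw [hTexp]
    exact Real.exp_le_exp.mpr hμT
  have hSR0 : 0 ≤ SR p0 Y z := SR_nonneg
  have hY0 : 0 ≤ Y := by linarith only [hY]
  have hbr : ε' + ((2 : ℝ) ^ m)⁻¹ + Y / (1 + lT) + (1 + lT)⁻¹ + SR p0 Y z ^ 3 / V ^ 2
      ≤ ε' + ((2 : ℝ) ^ m)⁻¹ + Y / lT + lT⁻¹ + (2 ^ p0 * (640 * (μ : ℝ)) ^ 24) ^ 3 / V ^ 2 := by
    have h1 : (1 + lT)⁻¹ ≤ lT⁻¹ := inv_anti₀ hl0 (by linarith only)
    have h2 : SR p0 Y z ^ 3 / V ^ 2 ≤ (2 ^ p0 * (640 * (μ : ℝ)) ^ 24) ^ 3 / V ^ 2 := by gcongr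
    have h3 : Y / (1 + lT) ≤ Y / lT := div_le_div_of_nonneg_left hY0 hl0 (by linarith only)
    linarith only [h1, h2, h3]
  have hbr0 : 0 ≤ ε' + ((2 : ℝ) ^ m)⁻¹ + Y / (1 + lT) + (1 + lT)⁻¹ + SR p0 Y z ^ 3 / V ^ 2 := by
    positivity
  calc 4 * T ^ 2 * ∫ t in B, (‖riemannZeta (1 / 2 + I * t) * ev t n‖ * wgt K T t) ^ 2
      ≤ 4 * T ^ 2 * (C3 / T * ((1 + lT) * X)
          * (ε' + ((2 : ℝ) ^ m)⁻¹ + Y / (1 + lT) + (1 + lT)⁻¹ + SR p0 Y z ^ 3 / V ^ 2)) :=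
        mul_le_mul_of_nonneg_left key (by positivity)
    _ = 4 * C3 * T * ((1 + lT) * X)
          * (ε' + ((2 : ℝ) ^ m)⁻¹ + Y / (1 + lT) + (1 + lT)⁻¹ + SR p0 Y z ^ 3 / V ^ 2) := by
        field_simp
    _ ≤ 4 * C3 * T * ((2 * lT) * X)
        * (ε' + ((2 : ℝ) ^ m)⁻¹ + Y / lT + lT⁻¹ + (2 ^ p0 * (640 * (μ : ℝ)) ^ 24) ^ 3 / V ^ 2) := by
        gcongr
        linarith only [hl1]
    _ = _ := by ring

end Pool.Agent.Lib.MP_f9aece_nt_r3
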