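import Mathlib
import Pool.Agent.Lib.MP_f9aece_nt_r3.TailSignedOf
import Pool.Agent.Lib.MP_f9aece_nt_r3.SplitSigned

/-!
S6: the contribution of one level, for exponents of both signs.
-/

set_option autoImplicit false

namespace Pool.Agent.Lib.MP_f9aece_nt_r3

open MeasureTheory Set Filter Topology Complex
open Pool.Agent.Lib.MP_f9aece_nt
open Pool.Agent.Lib.MP_f9aece_nt_h97

theorem level_part_signed : ∃ C4 : ℝ, 0 ≤ C4 ∧ ∃ m1 p1 : ℕ, 4000 ≤ m1 ∧ 144 ≤ p1 ∧ ∃ T4 : ℝ,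
    ∀ T : ℝ, T4 ≤ T → ∀ m : ℕ, m1 ≤ m → ∀ p0 : ℕ, p1 ≤ p0 → ∀ b : ℝ, |b| ≤ 1 / 8 →
    ∀ (J μ : ℕ) (Y ε' V : ℝ), 4 ≤ Y → 43 * Y ≤ Real.log T → Y / 4 ^ (J + 1) < Real.log 2 →
    0 < ε' → ε' ≤ 1 / 4 → 480 * Real.log (Real.log T) ≤ ε' * Real.log T →
    48 * (2 * J + 1 + 6 * m * Y) ≤ ε' * Real.log T → 1 ≤ μ → Real.log T ≤ 160 * μ * Y → 0 < V →
    ∫ t in {t | t ∈ Icc 0 T ∧ V ≤ ‖riemannZeta (1 / 2 + I * t) * ev t (DD m p0 (-1) Y (J + 1))‖},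
        ‖riemannZeta (1 / 2 + I * t) * ev t (DD (2 * m) p0 b (Y / 4) J)‖ ^ 2
      ≤ C4 * (T * Real.log T
            * Real.exp ((2 * b + b ^ 2) * ∑ j ∈ Finset.range J, VV (sc (Y / 4) p0 j)))
        * (ε' + ((2 : ℝ) ^ m)⁻¹ + Y / Real.log T + (Real.log T)⁻¹
          + (2 ^ p0 * (640 * (μ : ℝ)) ^ 24) ^ 3 / V ^ 2) :=
  level_part_signed_of forms_split_signed

end Pool.Agent.Lib.MP_f9aece_nt_r3
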