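import Mathlib
import Pool.Agent.Lib.MP_f9aece_nt_rt.Decomp
import Pool.Agent.Lib.MP_f9aece_nt_r3.TailSigned
import Pool.Agent.Lib.MP_f9aece_nt_r3.PowSigned
import Pool.Agent.Lib.MP_f9aece_nt_r3.LevelsOf
import Pool.Agent.Lib.MP_f9aece_nt_r3.Energies
import Pool.Agent.Lib.MP_f9aece_nt_r3.DiffSum
import Pool.Agent.Lib.MP_f9aece_nt_r3.EnergyUp

/-!
S12: the moments near the exponent `2`.
-/

set_option autoImplicit false

namespace Pool.Agent.Lib.MP_f9aece_nt_r3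

namespace Zero

open MeasureTheory Set Filter Topology Complex
open Pool.Agent.Lib.MP_f9aece_nt
open Pool.Agent.Lib.MP_f9aece_nt_h97
open Pool.Agent.Lib.MP_f9aece_nt_h22 (J1 J1_le J1_lt VS sum_VV_eq_VS exp_VS_le)
open Pool.Agent.Lib.MP_f9aece_nt_rt (XX Bad bad_meas bad_sub disjointed_sub disjointed_succ_sub
  disjointed_meas integral_decomp)

/-! ### pointwise inequalities -/

lemma pow_diff {w a b : ℝ} (hw : 0 ≤ w) (hb : 0 < b) (hb1 : b ≤ 1 / 2) (hab : |a| ≤ b) :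
    |w ^ (1 + a) - w| ≤ |a| * (1 + w ^ (1 + b) / b) := by
  have hab' := abs_le.mp hab
  rcases hw.eq_or_lt with h | h
  · rw [← h, Real.zero_rpow (by linarith [hab'.1]), Real.zero_rpow (by linarith)]
    simp
  have hp0 : 0 ≤ |a| / b := by positivity
  have hp1 : |a| / b ≤ 1 := by rw [div_le_one hb]; exact hab
  have hwb : 0 < w ^ b := Real.rpow_pos_of_pos h b
  have e1 : w ^ |a| = (1 + (w ^ b - 1)) ^ (|a| / b) := by
    have : 1 + (w ^ b - 1) = w ^ b := by ring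
    rw [this, ← Real.rpow_mul h.le]
    congr 1
    field_simp
  have k1 : w ^ |a| ≤ 1 + |a| / b * (w ^ b - 1) := by
    rw [e1]
    exact rpow_one_add_le_one_add_mul_self (by linarith) hp0 hp1
  have hwa : 0 < w ^ |a| := Real.rpow_pos_of_pos h _
  have ewb : w ^ (1 + b) = w * w ^ b := by rw [Real.rpow_add h, Real.rpow_one]
  have e2 : |a| * (1 + w ^ (1 + b) / b) = |a| + |a| / b * (w * w ^ b) := by
    rw [ewb]; ring
  rw [e2]
  have hpw : 0 ≤ |a| / b * (w * w ^ b) := by positivity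
  have hpw2 : 0 ≤ |a| / b * w := by positivity
  have ha0 : 0 ≤ |a| := abs_nonneg a
  rcases le_total 0 a with ha | ha
  · have haa : |a| = a := abs_of_nonneg ha
    rw [haa] at k1 hp0 hpw hpw2 ⊢
    have e3 : w ^ (1 + a) = w * w ^ a := by rw [Real.rpow_add h, Real.rpow_one]
    rw [abs_le]
    constructor
    · have k2 := one_add_mul_self_le_rpow_one_add (s := w - 1) (by linarith) (p := 1 + a)
        (by linarith)
      have : 1 + (w - 1) = w := by ring
      rw [this] at k2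
      have : 0 ≤ a * w := by positivity
      nlinarith
    · rw [e3]
      have : w * w ^ a ≤ w * (1 + a / b * (w ^ b - 1)) := by gcongr
      nlinarith
  · have haa : |a| = -a := abs_of_nonpos ha
    rw [haa] at k1 hp0 hpw hpw2 hwa ⊢
    have hna : 0 ≤ -a := by linarith
    rw [abs_le]
    constructor
    · have e3 : w ^ (1 + a) = w * (w ^ (-a))⁻¹ := by
        rw [← Real.rpow_neg h.le, neg_neg, Real.rpow_add h, Real.rpow_one]
      rw [e3]
      obtain ⟨s, hs⟩ : ∃ s, s = -a / b * (w ^ b - 1) := ⟨_, rfl⟩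
      rw [← hs] at k1
      have k3 : 1 - s ≤ (w ^ (-a))⁻¹ := by
        have k4 : (1 + s)⁻¹ ≤ (w ^ (-a))⁻¹ := inv_anti₀ hwa k1
        refine le_trans ?_ k4
        have hs1 : 0 < 1 + s := lt_of_lt_of_le hwa k1
        rw [← one_div, le_div_iff₀ hs1]
        nlinarith [sq_nonneg s]
      have k5 : w * (1 - s) ≤ w * (w ^ (-a))⁻¹ := by gcongr
      rw [hs] at k5
      nlinarith
    · have k2 := rpow_one_add_le_one_add_mul_self (s := w - 1) (by linarith) (p := 1 + a)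
        (by linarith [hab'.1]) (by linarith)
      have : 1 + (w - 1) = w := by ring
      rw [this] at k2
      nlinarith

/-- the constant of `point` -/
noncomputable def KP (C b : ℝ) : ℝ := Real.exp (2 * C) + Real.exp C / b + C * Real.exp C

lemma KP_nonneg {C b : ℝ} (hC : 0 ≤ C) (hb : 0 < b) : 0 ≤ KP C b := by unfold KP; positivity

lemma exp_sub_one_le {C a : ℝ} (hC : 0 ≤ C) (ha : |a| ≤ 1) :
    Real.exp (C * |a|) - 1 ≤ C * Real.exp C * |a| := by
  have h0 : 0 ≤ C * |a| := by positivity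
  have h1 : C * |a| ≤ C := mul_le_of_le_one_right hC ha
  have h2 := Real.add_one_le_exp (-(C * |a|))
  have h3 : Real.exp (C * |a|) * Real.exp (-(C * |a|)) = 1 := by
    rw [← Real.exp_add, add_neg_cancel, Real.exp_zero]
  have h4 : Real.exp (C * |a|) ≤ Real.exp C := Real.exp_le_exp.mpr h1
  have h5 : 0 < Real.exp (C * |a|) := Real.exp_pos _
  nlinarith

lemma close_exp {C a g N : ℝ} (hC : 0 ≤ C) (ha : |a| ≤ 1) (hN : 0 ≤ N)
    (h1 : g * Real.exp (-(C * |a|)) ≤ N) (h2 : N ≤ g * Real.exp (C * |a|)) :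
    |g - N| ≤ C * Real.exp C * |a| * N := by
  have e1 := exp_sub_one_le hC ha
  have e2 : 0 < Real.exp (C * |a|) := Real.exp_pos _
  have e3 : Real.exp (C * |a|) * Real.exp (-(C * |a|)) = 1 := by
    rw [← Real.exp_add, add_neg_cancel, Real.exp_zero]
  have e4 : 0 < Real.exp (-(C * |a|)) := Real.exp_pos _
  have e5 : g ≤ N * Real.exp (C * |a|) := by
    calc g = g * Real.exp (-(C * |a|)) * Real.exp (C * |a|) := by
          rw [mul_assoc, mul_comm (Real.exp (-(C * |a|))), e3, mul_one]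
      _ ≤ N * Real.exp (C * |a|) := by gcongr
  have e6 : N * Real.exp (-(C * |a|)) ≤ g := by
    calc N * Real.exp (-(C * |a|)) ≤ g * Real.exp (C * |a|) * Real.exp (-(C * |a|)) := by gcongr
      _ = g := by rw [mul_assoc, e3, mul_one]
  have e7 : N * (Real.exp (C * |a|) - 1) ≤ N * (C * Real.exp C * |a|) := by gcongr
  have e8 := Real.add_one_le_exp (-(C * |a|))
  have e9 := Real.add_one_le_exp (C * |a|)
  have e10 : N * (1 - Real.exp (-(C * |a|))) ≤ N * (Real.exp (C * |a|) - 1) := by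
    apply mul_le_mul_of_nonneg_left _ hN
    linarith only [e8, e9]
  rw [abs_le]
  constructor <;> linarith only [e5, e6, e7, e10]

lemma point {C a b X z N M : ℝ} {l : ℕ} (hC : 0 ≤ C) (hz : 0 ≤ z) (hb : 0 < b) (hb1 : b ≤ 1 / 2)
    (hab : |a| ≤ b) (h1 : z ≤ Real.exp (C * (l + 1) + X))
    (h2 : Real.exp (2 * a * X - C * |a|) ≤ N) (h3 : N ≤ Real.exp (2 * a * X + C * |a|))
    (h4 : Real.exp (2 * X - C) ≤ M) :
    |z ^ (2 * (1 + a)) - z ^ 2 * N|
      ≤ |a| * (KP C b * (M * N + Real.exp (2 * C * b * (l + 1)) * (z ^ 2 * N))) := by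
  have ha1 : |a| ≤ 1 := by linarith
  have ha0 : 0 ≤ |a| := abs_nonneg a
  obtain ⟨g, hg⟩ : ∃ g, g = Real.exp (2 * X) := ⟨_, rfl⟩
  obtain ⟨γ, hγ⟩ : ∃ γ, γ = Real.exp (2 * a * X) := ⟨_, rfl⟩
  have hg0 : 0 < g := by rw [hg]; exact Real.exp_pos _
  have hγ0 : 0 < γ := by rw [hγ]; exact Real.exp_pos _
  have hN0 : 0 < N := (Real.exp_pos _).trans_le h2
  have hM0 : 0 < M := (Real.exp_pos _).trans_le h4
  obtain ⟨w, hw⟩ : ∃ w, w = z ^ 2 / g := ⟨_, rfl⟩
  have hw0 : 0 ≤ w := by rw [hw]; positivity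
  have hgw : z ^ 2 = g * w := by rw [hw]; field_simp
  have hgg : g ^ (1 + a) = g * γ := by
    rw [Real.rpow_add hg0, Real.rpow_one, hγ, hg, ← Real.exp_mul]
    congr 2
    ring
  have e1 : z ^ (2 * (1 + a)) = g * γ * w ^ (1 + a) := by
    rw [Real.rpow_mul hz, Real.rpow_two, hgw, Real.mul_rpow hg0.le hw0, hgg]
  have p1 : |z ^ (2 * (1 + a)) - z ^ 2 * γ| ≤ g * γ * (|a| * (1 + w ^ (1 + b) / b)) := by
    have e2 : z ^ (2 * (1 + a)) - z ^ 2 * γ = g * γ * (w ^ (1 + a) - w) := by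
      rw [e1, hgw]; ring
    rw [e2, abs_mul, abs_of_pos (by positivity : 0 < g * γ)]
    exact mul_le_mul_of_nonneg_left (pow_diff hw0 hb hb1 hab) (by positivity)
  -- `w ^ (1 + b) ≤ w * exp (2 C b (l + 1))`
  have hwle : w ≤ Real.exp (2 * (C * (l + 1))) := by
    rw [hw, div_le_iff₀ hg0, hg, ← Real.exp_add]
    calc z ^ 2 ≤ Real.exp (C * (l + 1) + X) ^ 2 := by gcongr
      _ = _ := by
        rw [← Real.exp_nat_mul]
        congr 1
        push_cast
        ring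
  have hwb : w ^ (1 + b) ≤ w * Real.exp (2 * C * b * (l + 1)) := by
    rcases hw0.eq_or_lt with h | h
    · rw [← h, Real.zero_rpow (by linarith), zero_mul]
    · rw [Real.rpow_add h, Real.rpow_one]
      have : w ^ b ≤ Real.exp (2 * (C * (l + 1))) ^ b := Real.rpow_le_rpow hw0 hwle hb.le
      rw [← Real.exp_mul] at this
      have e3 : 2 * (C * (l + 1)) * b = 2 * C * b * (l + 1) := by ring
      rw [e3] at this
      gcongr
  obtain ⟨R, hR⟩ : ∃ R, R = Real.exp (2 * C * b * (l + 1)) := ⟨_, rfl⟩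
  rw [← hR] at hwb ⊢
  have hR1 : 1 ≤ R := by rw [hR]; exact Real.one_le_exp (by positivity)
  -- sizes
  have hCa : Real.exp (C * |a|) ≤ Real.exp C := Real.exp_le_exp.mpr (mul_le_of_le_one_right hC ha1)
  have hN1 : γ * Real.exp (-(C * |a|)) ≤ N := by
    rw [hγ, ← Real.exp_add]
    exact h2
  have hN2 : N ≤ γ * Real.exp (C * |a|) := by
    rw [hγ, ← Real.exp_add]
    exact h3
  have hcl := close_exp hC ha1 hN0.le hN1 hN2
  have hγN : γ ≤ Real.exp C * N := by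
    have e3 : Real.exp (C * |a|) * Real.exp (-(C * |a|)) = 1 := by
      rw [← Real.exp_add, add_neg_cancel, Real.exp_zero]
    calc γ = Real.exp (C * |a|) * (γ * Real.exp (-(C * |a|))) := by
          rw [mul_left_comm, e3, mul_one]
      _ ≤ Real.exp C * N := by gcongr
  have hgM : g ≤ Real.exp C * M := by
    rw [Real.exp_sub, ← hg, div_le_iff₀ (Real.exp_pos _)] at h4
    linarith
  have p2 : |z ^ 2 * γ - z ^ 2 * N| ≤ z ^ 2 * (C * Real.exp C * |a| * N) := by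
    rw [← mul_sub, abs_mul, abs_of_nonneg (by positivity)]
    gcongr
  have p3 := abs_sub_le (z ^ (2 * (1 + a))) (z ^ 2 * γ) (z ^ 2 * N)
  refine p3.trans ((add_le_add p1 p2).trans ?_)
  have q1 : g * γ ≤ Real.exp (2 * C) * (M * N) := by
    calc g * γ ≤ (Real.exp C * M) * (Real.exp C * N) := by gcongr
      _ = Real.exp C * Real.exp C * (M * N) := by ring
      _ = _ := by rw [← Real.exp_add]; congr 2; ring
  have q2 : g * γ * (w ^ (1 + b) / b) ≤ Real.exp C / b * (R * (z ^ 2 * N)) := by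
    calc g * γ * (w ^ (1 + b) / b) ≤ g * (Real.exp C * N) * (w * R / b) := by gcongr
      _ = Real.exp C / b * (R * (g * w * N)) := by ring
      _ = _ := by rw [← hgw]
  have q3 : z ^ 2 * N ≤ R * (z ^ 2 * N) := le_mul_of_one_le_left (by positivity) hR1
  have q4 : 0 ≤ R * (z ^ 2 * N) := by positivity
  have q5 : 0 ≤ M * N := by positivity
  calc g * γ * (|a| * (1 + w ^ (1 + b) / b)) + z ^ 2 * (C * Real.exp C * |a| * N)
      = |a| * (g * γ + g * γ * (w ^ (1 + b) / b) + C * Real.exp C * (z ^ 2 * N)) := by ring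
    _ ≤ |a| * (Real.exp (2 * C) * (M * N) + Real.exp C / b * (R * (z ^ 2 * N))
        + C * Real.exp C * (R * (z ^ 2 * N))) := by
        apply mul_le_mul_of_nonneg_left _ ha0
        have q6 : C * Real.exp C * (z ^ 2 * N) ≤ C * Real.exp C * (R * (z ^ 2 * N)) :=
          mul_le_mul_of_nonneg_left q3 (by positivity)
        linarith only [q1, q2, q6]
    _ ≤ _ := by
        apply mul_le_mul_of_nonneg_left _ ha0
        unfold KP
        have r1 : 0 ≤ (Real.exp C / b + C * Real.exp C) * (M * N) := by positivity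
        have r2 : 0 ≤ Real.exp (2 * C) * (R * (z ^ 2 * N)) := by positivity
        linarith only [r1, r2]

/-! ### continuity -/

lemma cont_z : Continuous fun t : ℝ => ‖riemannZeta (1 / 2 + I * t)‖ := continuous_zeta.norm

lemma cont_N (D : DP) : Continuous fun t : ℝ => ‖ev t D‖ ^ 2 := (continuous_ev D).norm.pow 2

lemma cont_F {a : ℝ} (ha : |a| ≤ 1 / 2) :
    Continuous fun t : ℝ => ‖riemannZeta (1 / 2 + I * t)‖ ^ (2 * (1 + a)) :=
  cont_z.rpow_const fun t => Or.inr (by linarith [(abs_le.mp ha).1])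

lemma int_on {f : ℝ → ℝ} (hf : Continuous f) {E : Set ℝ} {T : ℝ} (hE : E ⊆ Icc 0 T) :
    IntegrableOn f E := (hf.integrableOn_Icc).mono_set hE

lemma set_le_full {f : ℝ → ℝ} (hf : Continuous f) (h0 : ∀ t, 0 ≤ f t) {E : Set ℝ} {T : ℝ}
    (hT : 0 ≤ T) (hE : E ⊆ Icc 0 T) : ∫ t in E, f t ≤ ∫ t in (0 : ℝ)..T, f t := by
  rw [intervalIntegral.integral_of_le hT, ← integral_Icc_eq_integral_Ioc]
  exact setIntegral_mono_set hf.integrableOn_Icc (Eventually.of_forall h0) (ae_of_all _ hE)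

/-! ### geometric sums -/

lemma sum34 (L : ℕ) : ∑ l ∈ Finset.range L, (3 / 4 : ℝ) ^ l ≤ 4 := by
  have h : ∑ l ∈ Finset.range L, (3 / 4 : ℝ) ^ l = 4 * (1 - (3 / 4) ^ L) := by
    induction L with
    | zero => simp
    | succ n ih => rw [Finset.sum_range_succ, ih, pow_succ]; ring
  rw [h]
  have : (0 : ℝ) < (3 / 4) ^ L := by positivity
  linarith

lemma sum12 (L : ℕ) : ∑ l ∈ Finset.range L, (1 / 2 : ℝ) ^ l ≤ 2 := by
  have h : ∑ l ∈ Finset.range L, (1 / 2 : ℝ) ^ l = 2 * (1 - (1 / 2) ^ L) := by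
    induction L with
    | zero => simp
    | succ n ih => rw [Finset.sum_range_succ, ih, pow_succ]; ring
  rw [h]
  have : (0 : ℝ) < (1 / 2) ^ L := by positivity
  linarith

lemma sum_U1 {C b a U B : ℝ} (hC : 0 ≤ C) (hU : 0 ≤ U) (L : ℕ)
    {As : ℕ → ℝ} (h0 : As 0 ≤ B * U)
    (h1 : ∀ l < L, As (l + 1) ≤ C * (1 / 2) ^ l * Real.exp (C * |a| * l) * U)
    (hq : Real.exp (2 * C * b + C * |a|) ≤ 3 / 2) :
    ∑ l ∈ Finset.range (L + 1), Real.exp (2 * C * b * (l + 1)) * As l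
      ≤ (4 * C * Real.exp (4 * C * b) + Real.exp (2 * C * b) * B) * U := by
  rw [Finset.sum_range_succ']
  have e0 : Real.exp (2 * C * b * (((0 : ℕ) : ℝ) + 1)) * As 0 ≤ Real.exp (2 * C * b) * B * U := by
    have : 2 * C * b * (((0 : ℕ) : ℝ) + 1) = 2 * C * b := by push_cast; ring
    rw [this]
    calc Real.exp (2 * C * b) * As 0 ≤ Real.exp (2 * C * b) * (B * U) :=
          mul_le_mul_of_nonneg_left h0 (Real.exp_pos _).le
      _ = _ := by ring
  have e1 : ∑ l ∈ Finset.range L, Real.exp (2 * C * b * (((l + 1 : ℕ) : ℝ) + 1)) * As (l + 1)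
      ≤ ∑ l ∈ Finset.range L, C * Real.exp (4 * C * b) * U * (3 / 4) ^ l := by
    refine Finset.sum_le_sum fun l hl => ?_
    have k1 := h1 l (Finset.mem_range.mp hl)
    calc Real.exp (2 * C * b * (((l + 1 : ℕ) : ℝ) + 1)) * As (l + 1)
        ≤ Real.exp (2 * C * b * (((l + 1 : ℕ) : ℝ) + 1))
          * (C * (1 / 2) ^ l * Real.exp (C * |a| * l) * U) := by gcongr
      _ = C * Real.exp (4 * C * b) * U * (Real.exp (2 * C * b + C * |a|) * (1 / 2)) ^ l := by
          rw [mul_pow, ← Real.exp_nat_mul]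
          have e : Real.exp (2 * C * b * (((l + 1 : ℕ) : ℝ) + 1)) * Real.exp (C * |a| * l)
              = Real.exp (4 * C * b) * Real.exp (l * (2 * C * b + C * |a|)) := by
            rw [← Real.exp_add, ← Real.exp_add]
            congr 1
            push_cast
            ring
          linear_combination (C * (1 / 2) ^ l * U) * e
      _ ≤ C * Real.exp (4 * C * b) * U * (3 / 4) ^ l := by
          have : Real.exp (2 * C * b + C * |a|) * (1 / 2) ≤ 3 / 4 := by linarith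
          gcongr
  rw [← Finset.mul_sum] at e1
  have e2 : C * Real.exp (4 * C * b) * U * ∑ l ∈ Finset.range L, (3 / 4 : ℝ) ^ l
      ≤ C * Real.exp (4 * C * b) * U * 4 := by
    have := sum34 L
    gcongr
  linarith

/-! ### one level -/

lemma level_int {C A T b a : ℝ} {m p0 J L l : ℕ} {G : ℕ → Set ℝ} (h : LV C A m p0 T J L G)
    (hC : 0 ≤ C) (hb : 0 < b) (hb1 : b ≤ 1 / 2) (hab : |a| ≤ b) (hl : l ≤ L) {E : Set ℝ}
    (hEm : MeasurableSet E) (hE : E ⊆ G l) :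
    |(∫ t in E, ‖riemannZeta (1 / 2 + I * t)‖ ^ (2 * (1 + a)))
      - ∫ t in E, ‖riemannZeta (1 / 2 + I * t)‖ ^ 2
        * ‖ev t (NN a m p0 (Real.log T / A) l J)‖ ^ 2|
      ≤ |a| * (KP C b * ((∫ t in E, ‖ev t (NN 1 m p0 (Real.log T / A) l J)‖ ^ 2
          * ‖ev t (NN a m p0 (Real.log T / A) l J)‖ ^ 2)
        + Real.exp (2 * C * b * (l + 1)) * ∫ t in E, ‖riemannZeta (1 / 2 + I * t)‖ ^ 2
        * ‖ev t (NN a m p0 (Real.log T / A) l J)‖ ^ 2)) := by
  have hEI : E ⊆ Icc 0 T := hE.trans (h.sub l)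
  have ha1 : |a| ≤ 1 / 2 := hab.trans hb1
  have i1 := int_on (cont_F ha1) hEI
  have i2 : IntegrableOn (fun t : ℝ => ‖riemannZeta (1 / 2 + I * t)‖ ^ 2
      * ‖ev t (NN a m p0 (Real.log T / A) l J)‖ ^ 2) E :=
    int_on ((cont_z.pow 2).mul (cont_N (NN a m p0 (Real.log T / A) l J))) hEI
  have i3 : IntegrableOn (fun t : ℝ => ‖ev t (NN 1 m p0 (Real.log T / A) l J)‖ ^ 2
      * ‖ev t (NN a m p0 (Real.log T / A) l J)‖ ^ 2) E :=
    int_on ((cont_N (NN 1 m p0 (Real.log T / A) l J)).mul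
      (cont_N (NN a m p0 (Real.log T / A) l J))) hEI
  rw [← integral_sub i1 i2, ← integral_const_mul (Real.exp (2 * C * b * (l + 1))),
    ← integral_add i3 (i2.const_mul _), ← integral_const_mul, ← integral_const_mul]
  refine (abs_integral_le_integral_abs).trans ?_
  refine setIntegral_mono_on (i1.sub i2).abs ?_ hEm fun t ht => ?_
  · exact ((i3.add (i2.const_mul _)).const_mul _).const_mul _
  · have hG := hE ht
    have k4 := h.ge l hl t hG 1 (by simp)
    rw [abs_one, mul_one, mul_one] at k4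
    exact point hC (norm_nonneg _) hb hb1 hab (h.upper l hl t hG)
      (h.ge l hl t hG a (by linarith)) (h.le l hl t hG a (by linarith)) k4

/-! ### the bad set -/

lemma rpow_le_bad {z p : ℝ} (hz : 0 ≤ z) (hp0 : 0 ≤ p) (hp : p ≤ 5 / 2) :
    z ^ p ≤ 1 + z ^ (5 / 2 : ℝ) := by
  rcases le_total z 1 with h | h
  · have h1 : z ^ p ≤ 1 := Real.rpow_le_one hz h hp0
    have h2 : 0 ≤ z ^ (5 / 2 : ℝ) := by positivity
    linarith
  · have h1 : z ^ p ≤ z ^ (5 / 2 : ℝ) := Real.rpow_le_rpow_of_exponent_le h hp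
    linarith

lemma bad_F {C A T a : ℝ} {m p0 J L : ℕ} {G : ℕ → Set ℝ} (h : LV C A m p0 T J L G) (hT : 0 ≤ T)
    (ha : |a| ≤ 1 / 8) :
    ∫ t in Bad (Icc 0 T) G L, ‖riemannZeta (1 / 2 + I * t)‖ ^ (2 * (1 + a)) ≤ 2 * T := by
  have ha' := abs_le.mp ha
  have hB : Bad (Icc 0 T) G L ⊆ Icc 0 T \ G L := bad_sub L
  have hB2 : Icc 0 T \ G L ⊆ Icc 0 T := sdiff_subset
  have c5 : Continuous fun t : ℝ => ‖riemannZeta (1 / 2 + I * t)‖ ^ (5 / 2 : ℝ) :=
    cont_z.rpow_const fun t => Or.inr (by norm_num)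
  have i0 : IntegrableOn (fun _ : ℝ => (1 : ℝ)) (Icc 0 T \ G L) := int_on continuous_const hB2
  have i1 := int_on c5 hB2
  have i2 := int_on (cont_F (a := a) (by linarith)) hB2
  calc ∫ t in Bad (Icc 0 T) G L, ‖riemannZeta (1 / 2 + I * t)‖ ^ (2 * (1 + a))
      ≤ ∫ t in Icc 0 T \ G L, ‖riemannZeta (1 / 2 + I * t)‖ ^ (2 * (1 + a)) :=
        setIntegral_mono_set i2 (Eventually.of_forall fun t => by positivity) (ae_of_all _ hB)
    _ ≤ ∫ t in Icc 0 T \ G L, (1 + ‖riemannZeta (1 / 2 + I * t)‖ ^ (5 / 2 : ℝ)) := by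
        refine setIntegral_mono_on i2 (i0.add i1) (measurableSet_Icc.diff (h.meas L)) fun t _ => ?_
        exact rpow_le_bad (norm_nonneg _) (by linarith [ha'.1]) (by linarith [ha'.2])
    _ = (∫ t in Icc 0 T \ G L, (1 : ℝ))
        + ∫ t in Icc 0 T \ G L, ‖riemannZeta (1 / 2 + I * t)‖ ^ (5 / 2 : ℝ) := integral_add i0 i1
    _ ≤ T + T := by
        refine add_le_add ?_ h.last'
        calc ∫ t in Icc 0 T \ G L, (1 : ℝ) ≤ ∫ t in Icc 0 T, (1 : ℝ) :=
              setIntegral_mono_set (int_on continuous_const le_rfl)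
                (Eventually.of_forall fun t => zero_le_one) (ae_of_all _ hB2)
          _ = T := by simp [hT]
    _ = 2 * T := by ring

lemma bad_N {C A T s Q : ℝ} {m p0 J L : ℕ} {G : ℕ → Set ℝ} (h : LV C A m p0 T J L G)
    (hT : 0 ≤ T) (hs : 0 < s) (D : DP)
    (hQ : ∫ t in (0 : ℝ)..T, ‖riemannZeta (1 / 2 + I * t) * ev t (D * D)‖ ^ 2 ≤ Q) :
    ∫ t in Bad (Icc 0 T) G L, ‖riemannZeta (1 / 2 + I * t)‖ ^ 2 * ‖ev t D‖ ^ 2
      ≤ s * T + Q / s := by
  have hB : Bad (Icc 0 T) G L ⊆ Icc 0 T \ G L := bad_sub L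
  have hB2 : Icc 0 T \ G L ⊆ Icc 0 T := sdiff_subset
  have cz2 : Continuous fun t : ℝ => ‖riemannZeta (1 / 2 + I * t)‖ ^ 2 := cont_z.pow 2
  have cq : Continuous fun t : ℝ => ‖riemannZeta (1 / 2 + I * t) * ev t (D * D)‖ ^ 2 :=
    (continuous_zeta.mul (continuous_ev _)).norm.pow 2
  have i1 := int_on cz2 (hB.trans hB2)
  have i2 := int_on cq (hB.trans hB2)
  have i3 := int_on (cz2.mul (cont_N D)) (hB.trans hB2)
  calc ∫ t in Bad (Icc 0 T) G L, ‖riemannZeta (1 / 2 + I * t)‖ ^ 2 * ‖ev t D‖ ^ 2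
      ≤ ∫ t in Bad (Icc 0 T) G L, (s * ‖riemannZeta (1 / 2 + I * t)‖ ^ 2
        + s⁻¹ * ‖riemannZeta (1 / 2 + I * t) * ev t (D * D)‖ ^ 2) := by
        refine setIntegral_mono_on i3 ((i1.const_mul s).add (i2.const_mul s⁻¹))
          (bad_meas measurableSet_Icc h.meas L) fun t _ => ?_
        simp only [map_mul, norm_mul]
        obtain ⟨z, hz⟩ : ∃ z, z = ‖riemannZeta (1 / 2 + I * t)‖ := ⟨_, rfl⟩
        obtain ⟨n, hn⟩ : ∃ n, n = ‖ev t D‖ := ⟨_, rfl⟩
        rw [← hz, ← hn]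
        have e1 : s * z ^ 2 + s⁻¹ * (z * (n * n)) ^ 2 - z ^ 2 * n ^ 2
            = s⁻¹ * z ^ 2 * ((s - n ^ 2 / 2) ^ 2 + 3 / 4 * n ^ 4) := by
          field_simp
          ring
        have e2 : 0 ≤ s⁻¹ * z ^ 2 * ((s - n ^ 2 / 2) ^ 2 + 3 / 4 * n ^ 4) := by positivity
        linarith
    _ = s * (∫ t in Bad (Icc 0 T) G L, ‖riemannZeta (1 / 2 + I * t)‖ ^ 2)
        + s⁻¹ * ∫ t in Bad (Icc 0 T) G L, ‖riemannZeta (1 / 2 + I * t) * ev t (D * D)‖ ^ 2 := by
        rw [integral_add (i1.const_mul s) (i2.const_mul s⁻¹), integral_const_mul,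
          integral_const_mul]
    _ ≤ s * T + s⁻¹ * Q := by
        have k1 : ∫ t in Bad (Icc 0 T) G L, ‖riemannZeta (1 / 2 + I * t)‖ ^ 2 ≤ T :=
          (setIntegral_mono_set (int_on cz2 hB2) (Eventually.of_forall fun t => by positivity)
            (ae_of_all _ hB)).trans h.last
        have k2 : ∫ t in Bad (Icc 0 T) G L, ‖riemannZeta (1 / 2 + I * t) * ev t (D * D)‖ ^ 2 ≤ Q :=
          (set_le_full cq (fun t => by positivity) hT (hB.trans hB2)).trans hQ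
        have hs' : 0 < s⁻¹ := inv_pos.mpr hs
        gcongr
    _ = _ := by rw [div_eq_inv_mul]

/-! ### assembly for one `T` and one `a` -/

lemma assemble {C A T b a U B C2 C4 D3 D5 D6 : ℝ} {m p0 J L : ℕ} {G : ℕ → Set ℝ}
    (h : LV C A m p0 T J L G) (hC : 0 ≤ C) (hT : 0 ≤ T) (hb : 0 < b) (hb1 : b ≤ 1 / 8)
    (hab : |a| ≤ b) (hU : 0 ≤ U) (hUU : UU a p0 (Real.log T / A) J T = U)
    (hq : Real.exp (2 * C * b + C * |a|) ≤ 3 / 2)
    (hB : ∫ t in (0 : ℝ)..T, ‖riemannZeta (1 / 2 + I * t)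
      * ev t (NN a m p0 (Real.log T / A) 0 J)‖ ^ 2 ≤ B * U)
    (hmain : |(∫ t in (0 : ℝ)..T, ‖riemannZeta (1 / 2 + I * t)
      * ev t (NN a m p0 (Real.log T / A) 0 J)‖ ^ 2) - U| ≤ D3)
    (hM : ∀ l ≤ L, ∫ t in (0 : ℝ)..T, ‖ev t (NN 1 m p0 (Real.log T / A) l J)
      * ev t (NN a m p0 (Real.log T / A) l J)‖ ^ 2 ≤ C2 * (1 / 2) ^ l * U) (hC2 : 0 ≤ C2)
    (hdiff : ∑ l ∈ Finset.range (L + 1), ∫ t in disjointed G l, ‖riemannZeta (1 / 2 + I * t)‖ ^ 2
        * |‖ev t (NN a m p0 (Real.log T / A) 0 J)‖ ^ 2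
          - ‖ev t (NN a m p0 (Real.log T / A) l J)‖ ^ 2| ≤ C4 * |a| * U)
    (hbN : ∫ t in Bad (Icc 0 T) G L, ‖riemannZeta (1 / 2 + I * t)‖ ^ 2
      * ‖ev t (NN a m p0 (Real.log T / A) 0 J)‖ ^ 2 ≤ D5)
    (hbF : ∫ t in Bad (Icc 0 T) G L, ‖riemannZeta (1 / 2 + I * t)‖ ^ (2 * (1 + a)) ≤ D6) :
    |(∫ t in (0 : ℝ)..T, ‖riemannZeta (1 / 2 + I * t)‖ ^ (2 * (1 + a))) - U|
      ≤ |a| * (KP C b * (2 * C2 + 4 * C * Real.exp (4 * C * b) + Real.exp (2 * C * b) * B)) * U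
        + C4 * |a| * U + D3 + D5 + D6 := by
  have ha8 : |a| ≤ 1 / 8 := hab.trans hb1
  obtain ⟨N0, hN0⟩ : ∃ N0 : ℕ → ℝ → ℝ, N0 = fun l t => ‖ev t (NN a m p0 (Real.log T / A) l J)‖ ^ 2 :=
    ⟨_, rfl⟩
  have cN : ∀ l, Continuous (N0 l) := fun l => by rw [hN0]; exact cont_N _
  have cz2 : Continuous fun t : ℝ => ‖riemannZeta (1 / 2 + I * t)‖ ^ 2 := cont_z.pow 2
  have hEI : ∀ l, disjointed G l ⊆ Icc 0 T := fun l => (disjointed_sub G l).trans (h.sub l)
  have cfull : ∀ l, Continuous fun t : ℝ => ‖riemannZeta (1 / 2 + I * t)‖ ^ 2 * N0 l t :=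
    fun l => cz2.mul (cN l)
  -- decompositions
  have d1 := integral_decomp (F := fun t : ℝ => ‖riemannZeta (1 / 2 + I * t)‖ ^ (2 * (1 + a)))
    (int_on (cont_F (a := a) (by linarith)) le_rfl) measurableSet_Icc h.meas h.sub L
  have d2 := integral_decomp (F := fun t : ℝ => ‖riemannZeta (1 / 2 + I * t)‖ ^ 2 * N0 0 t)
    (int_on (cfull 0) le_rfl) measurableSet_Icc h.meas h.sub L
  have f1 : ∫ t in (0 : ℝ)..T, ‖riemannZeta (1 / 2 + I * t)‖ ^ (2 * (1 + a))
      = ∫ t in Icc 0 T, ‖riemannZeta (1 / 2 + I * t)‖ ^ (2 * (1 + a)) := by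
    rw [intervalIntegral.integral_of_le hT, ← integral_Icc_eq_integral_Ioc]
  have f2 : ∫ t in (0 : ℝ)..T, ‖riemannZeta (1 / 2 + I * t)
      * ev t (NN a m p0 (Real.log T / A) 0 J)‖ ^ 2
      = ∫ t in Icc 0 T, ‖riemannZeta (1 / 2 + I * t)‖ ^ 2 * N0 0 t := by
    rw [intervalIntegral.integral_of_le hT, ← integral_Icc_eq_integral_Ioc]
    refine setIntegral_congr_fun measurableSet_Icc fun t _ => ?_
    simp only [norm_mul, mul_pow, hN0]
  rw [f2] at hmain hB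
  rw [f1]
  obtain ⟨F, hF⟩ : ∃ F : ℕ → ℝ, F = fun l => ∫ t in disjointed G l,
    ‖riemannZeta (1 / 2 + I * t)‖ ^ (2 * (1 + a)) := ⟨_, rfl⟩
  obtain ⟨P, hP⟩ : ∃ P : ℕ → ℝ, P = fun l => ∫ t in disjointed G l,
    ‖riemannZeta (1 / 2 + I * t)‖ ^ 2 * N0 l t := ⟨_, rfl⟩
  obtain ⟨Z, hZ⟩ : ∃ Z : ℕ → ℝ, Z = fun l => ∫ t in disjointed G l,
    ‖riemannZeta (1 / 2 + I * t)‖ ^ 2 * N0 0 t := ⟨_, rfl⟩
  obtain ⟨Mi, hMi⟩ : ∃ Mi : ℕ → ℝ, Mi = fun l => ∫ t in disjointed G l,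
    ‖ev t (NN 1 m p0 (Real.log T / A) l J)‖ ^ 2 * N0 l t := ⟨_, rfl⟩
  have eF : ∑ l ∈ Finset.range (L + 1), ∫ t in disjointed G l,
      ‖riemannZeta (1 / 2 + I * t)‖ ^ (2 * (1 + a)) = ∑ l ∈ Finset.range (L + 1), F l := by rw [hF]
  have eZ : ∑ l ∈ Finset.range (L + 1), ∫ t in disjointed G l,
      ‖riemannZeta (1 / 2 + I * t)‖ ^ 2 * N0 0 t = ∑ l ∈ Finset.range (L + 1), Z l := by rw [hZ]
  rw [eF] at d1
  rw [eZ] at d2
  -- first comparison
  have s1 : ∀ l ∈ Finset.range (L + 1), |F l - P l|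
      ≤ |a| * (KP C b * (Mi l + Real.exp (2 * C * b * (l + 1)) * P l)) := by
    intro l hl
    have := level_int h hC hb (by linarith) hab (by have := Finset.mem_range.mp hl; omega)
      (disjointed_meas h.meas l) (disjointed_sub G l)
    rw [hF, hP, hMi, hN0]
    exact this
  -- second comparison
  have s2 : ∀ l ∈ Finset.range (L + 1), |P l - Z l| ≤ ∫ t in disjointed G l,
      ‖riemannZeta (1 / 2 + I * t)‖ ^ 2 * |N0 0 t - N0 l t| := by
    intro l _
    rw [hP, hZ]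
    simp only
    rw [← integral_sub (int_on (cfull l) (hEI l)) (int_on (cfull 0) (hEI l))]
    refine (abs_integral_le_integral_abs).trans (le_of_eq ?_)
    refine setIntegral_congr_fun (disjointed_meas h.meas l) fun t _ => ?_
    rw [← mul_sub, abs_mul, abs_of_nonneg (by positivity), abs_sub_comm]
  have hdiff' : ∑ l ∈ Finset.range (L + 1), |P l - Z l| ≤ C4 * |a| * U := by
    refine (Finset.sum_le_sum s2).trans ?_
    rw [hN0]
    exact hdiff
  -- the sum of the `Mi`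
  have m1 : ∑ l ∈ Finset.range (L + 1), Mi l ≤ 2 * C2 * U := by
    have k1 : ∀ l ∈ Finset.range (L + 1), Mi l ≤ C2 * U * (1 / 2) ^ l := by
      intro l hl
      have k2 := hM l (by have := Finset.mem_range.mp hl; omega)
      have cM : Continuous fun t : ℝ => ‖ev t (NN 1 m p0 (Real.log T / A) l J)
          * ev t (NN a m p0 (Real.log T / A) l J)‖ ^ 2 :=
        ((continuous_ev _).mul (continuous_ev _)).norm.pow 2
      have k3 : Mi l = ∫ t in disjointed G l, ‖ev t (NN 1 m p0 (Real.log T / A) l J)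
          * ev t (NN a m p0 (Real.log T / A) l J)‖ ^ 2 := by
        rw [hMi, hN0]
        refine setIntegral_congr_fun (disjointed_meas h.meas l) fun t _ => ?_
        simp only [norm_mul, mul_pow]
      rw [k3]
      refine (set_le_full cM (fun t => by positivity) hT (hEI l)).trans (k2.trans (le_of_eq ?_))
      ring
    refine (Finset.sum_le_sum k1).trans ?_
    rw [← Finset.mul_sum]
    have := sum12 (L + 1)
    calc C2 * U * ∑ l ∈ Finset.range (L + 1), (1 / 2 : ℝ) ^ l ≤ C2 * U * 2 := by gcongr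
      _ = _ := by ring
  -- the sum of the `P`
  have p1 : ∑ l ∈ Finset.range (L + 1), Real.exp (2 * C * b * (l + 1)) * P l
      ≤ (4 * C * Real.exp (4 * C * b) + Real.exp (2 * C * b) * B) * U := by
    refine sum_U1 hC hU L ?_ ?_ hq
    · rw [hP]
      simp only
      refine le_trans ?_ hB
      exact setIntegral_mono_set (int_on (cfull 0) le_rfl)
        (Eventually.of_forall fun t => by rw [hN0]; positivity) (ae_of_all _ (hEI 0))
    · intro l hl
      have k1 := h.piece a ha8 l hl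
      rw [hUU] at k1
      refine le_trans ?_ k1
      have cP : Continuous fun t : ℝ => ‖riemannZeta (1 / 2 + I * t)
          * ev t (NN a m p0 (Real.log T / A) (l + 1) J)‖ ^ 2 :=
        (continuous_zeta.mul (continuous_ev _)).norm.pow 2
      have k3 : P (l + 1) = ∫ t in disjointed G (l + 1), ‖riemannZeta (1 / 2 + I * t)
          * ev t (NN a m p0 (Real.log T / A) (l + 1) J)‖ ^ 2 := by
        rw [hP, hN0]
        refine setIntegral_congr_fun (disjointed_meas h.meas (l + 1)) fun t _ => ?_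
        simp only [norm_mul, mul_pow]
      rw [k3]
      exact setIntegral_mono_set (int_on cP (sdiff_subset.trans (h.sub (l + 1))))
        (Eventually.of_forall fun t => by positivity) (ae_of_all _ (disjointed_succ_sub G l))
  have t1 : |∑ l ∈ Finset.range (L + 1), F l - ∑ l ∈ Finset.range (L + 1), P l|
      ≤ |a| * (KP C b * (2 * C2 + 4 * C * Real.exp (4 * C * b) + Real.exp (2 * C * b) * B)) * U := by
    rw [← Finset.sum_sub_distrib]
    refine (Finset.abs_sum_le_sum_abs _ _).trans ((Finset.sum_le_sum s1).trans ?_)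
    rw [← Finset.mul_sum, ← Finset.mul_sum, Finset.sum_add_distrib]
    have hK := KP_nonneg hC hb
    calc |a| * (KP C b * (∑ l ∈ Finset.range (L + 1), Mi l
          + ∑ l ∈ Finset.range (L + 1), Real.exp (2 * C * b * (l + 1)) * P l))
        ≤ |a| * (KP C b * (2 * C2 * U
          + (4 * C * Real.exp (4 * C * b) + Real.exp (2 * C * b) * B) * U)) := by gcongr
      _ = _ := by ring
  have t2 : |∑ l ∈ Finset.range (L + 1), P l - ∑ l ∈ Finset.range (L + 1), Z l| ≤ C4 * |a| * U := by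
    rw [← Finset.sum_sub_distrib]
    exact (Finset.abs_sum_le_sum_abs _ _).trans hdiff'
  have b1 : 0 ≤ ∫ t in Bad (Icc 0 T) G L, ‖riemannZeta (1 / 2 + I * t)‖ ^ (2 * (1 + a)) :=
    integral_nonneg fun t => by positivity
  have b2 : 0 ≤ ∫ t in Bad (Icc 0 T) G L, ‖riemannZeta (1 / 2 + I * t)‖ ^ 2 * N0 0 t :=
    integral_nonneg fun t => by rw [hN0]; positivity
  have b3 : ∫ t in Bad (Icc 0 T) G L, ‖riemannZeta (1 / 2 + I * t)‖ ^ 2 * N0 0 t ≤ D5 := by
    rw [hN0]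
    exact hbN
  rw [abs_le] at t1 t2 hmain ⊢
  rw [d1]
  rw [d2] at hmain
  constructor <;> linarith [t1.1, t1.2, t2.1, t2.2, hmain.1, hmain.2, b1, b2, b3, hbF]

/-- the parameters in a fixed order -/
lemma nat_max5 (a b c d e : ℕ) : ∃ m : ℕ, a ≤ m ∧ b ≤ m ∧ c ≤ m ∧ d ≤ m ∧ e ≤ m :=
  ⟨max a (max b (max c (max d e))), by omega, by omega, by omega, by omega, by omega⟩

/-- the numbers at the bad set: `x = log T`, `V` the sum of the reciprocals -/
lemma bad_numbers {x V a T C5 Q U : ℝ} (hx : 1 ≤ x) (hV0 : 0 ≤ V) (hV : Real.exp V ≤ x)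
    (ha : |a| ≤ 1 / 8) (hT : 0 < T) (hU : U = T * x * Real.exp ((2 * a + a ^ 2) * V))
    (hQ : Q = C5 * (T * x * Real.exp ((4 * a + 4 * a ^ 2) * V))) (hC5 : 0 ≤ C5) :
    ∃ s : ℝ, 0 < s ∧ s * T + Q / s ≤ (1 + C5) * x ^ (-(1 / 4) : ℝ) * U ∧
      2 * T ≤ 2 * x ^ (-(1 / 4) : ℝ) * U := by
  have hx0 : 0 < x := by linarith
  have ha' := abs_le.mp ha
  have hVx : V ≤ Real.log x := by rwa [Real.le_log_iff_exp_le hx0]
  have hlx : 0 ≤ Real.log x := Real.log_nonneg hx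
  have ha2 : a ^ 2 ≤ 1 / 64 := by nlinarith
  have ha20 : 0 ≤ a ^ 2 := sq_nonneg a
  have ex : x = Real.exp (Real.log x) := (Real.exp_log hx0).symm
  have e4 : x ^ (-(1 / 4) : ℝ) = Real.exp (-(1 / 4) * Real.log x) := by
    rw [Real.rpow_def_of_pos hx0, mul_comm]
  obtain ⟨y, hy⟩ : ∃ y, y = Real.log x := ⟨_, rfl⟩
  rw [← hy] at hVx hlx ex e4
  refine ⟨Real.exp (3 / 4 * y + (2 * a + a ^ 2) * V), Real.exp_pos _, ?_, ?_⟩
  · have c1 : Real.exp (3 / 4 * y + (2 * a + a ^ 2) * V) * T = x ^ (-(1 / 4) : ℝ) * U := by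
      rw [e4, hU]
      nth_rewrite 1 [ex]
      have : Real.exp (3 / 4 * y + (2 * a + a ^ 2) * V)
          = Real.exp (-(1 / 4) * y) * (Real.exp y * Real.exp ((2 * a + a ^ 2) * V)) := by
        rw [← Real.exp_add, ← Real.exp_add]
        congr 1
        ring
      rw [this]
      ring
    have c2 : Q / Real.exp (3 / 4 * y + (2 * a + a ^ 2) * V) ≤ C5 * (x ^ (-(1 / 4) : ℝ) * U) := by
      rw [div_le_iff₀ (Real.exp_pos _), e4, hU, hQ]
      nth_rewrite 1 [ex]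
      nth_rewrite 1 [ex]
      have c3 : Real.exp y * Real.exp ((4 * a + 4 * a ^ 2) * V)
          ≤ Real.exp (-(1 / 4) * y) * (Real.exp y * Real.exp ((2 * a + a ^ 2) * V))
            * Real.exp (3 / 4 * y + (2 * a + a ^ 2) * V) := by
        rw [← Real.exp_add, ← Real.exp_add, ← Real.exp_add, ← Real.exp_add]
        apply Real.exp_le_exp.mpr
        have h1 : a ^ 2 * V ≤ 1 / 64 * y := by
          calc a ^ 2 * V ≤ 1 / 64 * V := by gcongr
            _ ≤ 1 / 64 * y := by gcongr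
        nlinarith
      calc C5 * (T * Real.exp y * Real.exp ((4 * a + 4 * a ^ 2) * V))
          = C5 * T * (Real.exp y * Real.exp ((4 * a + 4 * a ^ 2) * V)) := by ring
        _ ≤ C5 * T * (Real.exp (-(1 / 4) * y) * (Real.exp y * Real.exp ((2 * a + a ^ 2) * V))
            * Real.exp (3 / 4 * y + (2 * a + a ^ 2) * V)) := by gcongr
        _ = _ := by ring
    rw [c1]
    linarith
  · rw [e4, hU]
    nth_rewrite 1 [ex]
    have c3 : (1 : ℝ) ≤ Real.exp (-(1 / 4) * y) * (Real.exp y * Real.exp ((2 * a + a ^ 2) * V)) := by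
      rw [← Real.exp_add, ← Real.exp_add]
      apply Real.one_le_exp
      have h1 : -(1 / 4) * V ≤ 2 * a * V := by nlinarith
      nlinarith
    calc 2 * T = 2 * T * 1 := by ring
      _ ≤ 2 * T * (Real.exp (-(1 / 4) * y) * (Real.exp y * Real.exp ((2 * a + a ^ 2) * V))) := by
          gcongr
      _ = _ := by ring

theorem lipschitz_zero : ∃ C c η T0 : ℝ, 0 ≤ C ∧ 0 < c ∧ 0 < η ∧ 16 ≤ T0 ∧ ∀ T : ℝ, T0 ≤ T →
    ∀ a : ℝ, |a| ≤ η →
    |(∫ t in (0 : ℝ)..T, ‖riemannZeta (1 / 2 + I * t)‖ ^ (2 * (1 + a)))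
        - T * Real.log T ^ ((1 + a) ^ 2)|
      ≤ C * (|a| + Real.log T ^ (-c)) * (T * Real.log T ^ ((1 + a) ^ 2)) := by
  obtain ⟨ma, pa, hlev⟩ := levels3_of level_part_signed pow_part_signed
  obtain ⟨mb, pb, hmain⟩ := Energies.main_energy
  obtain ⟨mc, pc, hquad⟩ := Energies.quad_energy
  obtain ⟨md, pd, hdiff⟩ := diff_sum_of Energies.diff_energy
  obtain ⟨me, pe, hup⟩ := energy_up
  obtain ⟨m, hma, hmb, hmc, hmd, hme⟩ := nat_max5 ma mb mc md me
  obtain ⟨p0, hpa, hpb, hpc, hpd, hpe1⟩ := nat_max5 pa pb pc pd (max pe 1)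
  have hpe : pe ≤ p0 := (le_max_left _ _).trans hpe1
  have hp1 : 1 ≤ p0 := (le_max_right _ _).trans hpe1
  obtain ⟨A1, hlev⟩ := hlev m hma p0 hpa
  obtain ⟨A, hA1, hAm, hA43⟩ : ∃ A : ℝ, A1 ≤ A ∧ 2000 * m ≤ A ∧ 43 ≤ A :=
    ⟨max A1 (max (2000 * m) 43), le_max_left _ _, (le_max_left _ _).trans (le_max_right _ _),
      (le_max_right _ _).trans (le_max_right _ _)⟩
  obtain ⟨C1, T1, hC1, hT1, hlev⟩ := hlev A hA1
  obtain ⟨C3, c3, T3, hC3, hc3, hT3, hmain⟩ := hmain m hmb p0 hpb A hAm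
  obtain ⟨C5, T5, hC5, hT5, hquad⟩ := hquad m hmc p0 hpc A hAm
  obtain ⟨C4, η4, T4, hC4, hη4, hT4, hdiff⟩ := hdiff m hmd p0 hpd A hAm C1 hC1
  obtain ⟨C2, T2, hC2, hT2, hup⟩ := hup m hme p0 hpe A hAm
  obtain ⟨C6, T6, hC6, hT6, hunit⟩ := unit_size p0 hp1 A hA43
  obtain ⟨b, hb⟩ : ∃ b : ℝ, b = 1 / (16 * (C1 + 1)) := ⟨_, rfl⟩
  have hb0 : 0 < b := by rw [hb]; positivity
  have hb16 : b ≤ 1 / 16 := by
    rw [hb]
    apply one_div_le_one_div_of_le (by norm_num)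
    linarith
  have hCb : C1 * b ≤ 1 / 16 := by
    rw [hb, mul_one_div, div_le_div_iff₀ (by positivity) (by norm_num)]
    linarith
  obtain ⟨B, hB⟩ : ∃ B, B = 1 + 2 * C3 := ⟨_, rfl⟩
  obtain ⟨K, hK⟩ : ∃ K, K = KP C1 b * (2 * C2 + 4 * C1 * Real.exp (4 * C1 * b)
    + Real.exp (2 * C1 * b) * B) + C4 + C3 + (1 + C5 + 2) := ⟨_, rfl⟩
  have hKP := KP_nonneg hC1 hb0
  have hB0 : 0 ≤ B := by rw [hB]; positivity
  have hK0 : 0 ≤ K := by rw [hK]; positivity
  obtain ⟨c, hc⟩ : ∃ c, c = min c3 (1 / 4) := ⟨_, rfl⟩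
  have hc0 : 0 < c := by rw [hc]; positivity
  have hcc3 : c ≤ c3 := by rw [hc]; exact min_le_left _ _
  have hc4 : c ≤ 1 / 4 := by rw [hc]; exact min_le_right _ _
  refine ⟨K * Real.exp C6 + C6 * Real.exp C6, c, min b η4,
    max (max (max T1 T2) (max T3 T4)) (max (max T5 T6) (Real.exp A)), by positivity, hc0,
    lt_min hb0 hη4, hT1.trans ((le_max_left _ _).trans ((le_max_left _ _).trans
      (le_max_left _ _))), ?_⟩
  intro T hT a ha
  have hab : |a| ≤ b := ha.trans (min_le_left _ _)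
  have haη : |a| ≤ η4 := ha.trans (min_le_right _ _)
  have g1 : T1 ≤ T := ((le_max_left _ _).trans ((le_max_left _ _).trans (le_max_left _ _))).trans hT
  have g2 : T2 ≤ T := ((le_max_right _ _).trans ((le_max_left _ _).trans (le_max_left _ _))).trans hT
  have g3 : T3 ≤ T := ((le_max_left _ _).trans ((le_max_right _ _).trans (le_max_left _ _))).trans hT
  have g4 : T4 ≤ T := ((le_max_right _ _).trans ((le_max_right _ _).trans (le_max_left _ _))).trans hT
  have g5 : T5 ≤ T := ((le_max_left _ _).trans ((le_max_left _ _).trans (le_max_right _ _))).trans hT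
  have g6 : T6 ≤ T := ((le_max_right _ _).trans ((le_max_left _ _).trans (le_max_right _ _))).trans hT
  have g7 : Real.exp A ≤ T := ((le_max_right _ _).trans (le_max_right _ _)).trans hT
  have hT0 : 0 < T := (Real.exp_pos _).trans_le g7
  have hxA : A ≤ Real.log T := by rwa [Real.le_log_iff_exp_le hT0]
  have ha8 : |a| ≤ 1 / 8 := by linarith
  have ha1 : |a| ≤ 1 := by linarith
  have ha0 : 0 ≤ |a| := abs_nonneg a
  obtain ⟨L, G, hLV⟩ := hlev T g1
  have k3 := hmain T g3 a ha8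
  have k5 := hquad T g5 a ha8
  have k4 := hdiff T g4 L G hLV a haη
  have k6 := hunit T g6 a ha1
  have k2 : ∀ l ≤ J1 (Real.log T / A), _ := fun l hl => hup T g2 a ha8 l hl
  obtain ⟨x, hx⟩ : ∃ x, x = Real.log T := ⟨_, rfl⟩
  obtain ⟨J, hJ⟩ : ∃ J, J = J1 (Real.log T / A) := ⟨_, rfl⟩
  rw [← hJ] at k3 k5 k4 k6 hLV
  simp only [← hJ] at k2
  have hx1 : 1 ≤ x := by rw [hx]; linarith
  have hx0 : 0 < x := by linarith
  have hA0 : 0 < A := by linarith
  have hY1 : 1 ≤ Real.log T / A := by rwa [one_le_div hA0]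
  obtain ⟨V, hV⟩ : ∃ V, V = VI p0 (Real.log T / A) 0 J := ⟨_, rfl⟩
  have hVS : V = VS p0 (Real.log T / A) := by
    rw [hV, hJ]
    unfold VI
    rw [← Finset.range_eq_Ico]
    exact sum_VV_eq_VS (by linarith) p0 (J1_lt (by linarith))
  have hV0 : 0 ≤ V := by
    rw [hV]
    exact Finset.sum_nonneg fun _ _ => Finset.sum_nonneg fun p _ => by positivity
  have hVx : Real.exp V ≤ x := by
    rw [hVS]
    refine (exp_VS_le (A := 43) le_rfl hY1 p0).trans ?_
    rw [← hx, mul_div_assoc', div_le_iff₀ hA0, mul_comm x A]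
    exact mul_le_mul_of_nonneg_right hA43 hx0.le
  obtain ⟨U, hU⟩ : ∃ U, U = UU a p0 (Real.log T / A) J T := ⟨_, rfl⟩
  have hUe : U = T * x * Real.exp ((2 * a + a ^ 2) * V) := by
    rw [hU, hV, hx]; rfl
  have hU0 : 0 < U := by rw [hUe]; positivity
  rw [← hU] at k3 k4 k6
  rw [← hV] at k5
  rw [← hx] at k5
  obtain ⟨Q, hQ⟩ : ∃ Q, Q = C5 * (T * x * Real.exp ((4 * a + 4 * a ^ 2) * V)) := ⟨_, rfl⟩
  rw [← hQ, hx] at k5
  obtain ⟨s, hs, hs1, hs2⟩ := bad_numbers hx1 hV0 hVx ha8 hT0 hUe hQ hC5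
  have hq : Real.exp (2 * C1 * b + C1 * |a|) ≤ 3 / 2 := by
    have e1 : C1 * |a| ≤ C1 * b := by gcongr
    have e2 : Real.exp (2 * C1 * b + C1 * |a|) ≤ Real.exp (1 / 4) := by
      apply Real.exp_le_exp.mpr
      linarith
    refine e2.trans ?_
    have e3 := Real.exp_bound_div_one_sub_of_interval (x := 1 / 4) (by norm_num) (by norm_num)
    refine e3.trans (by norm_num)
  -- powers of `x`
  obtain ⟨q, hqd⟩ : ∃ q, q = x ^ (-c) := ⟨_, rfl⟩
  have hq0 : 0 < q := by rw [hqd]; positivity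
  have hq3 : x ^ (-c3) ≤ q := by
    rw [hqd]; exact Real.rpow_le_rpow_of_exponent_le hx1 (by linarith)
  have hq4 : x ^ (-(1 / 4) : ℝ) ≤ q := by
    rw [hqd]; exact Real.rpow_le_rpow_of_exponent_le hx1 (by linarith)
  have hq1 : x ^ (-c3) ≤ 1 := Real.rpow_le_one_of_one_le_of_nonpos hx1 (by linarith)
  rw [← hx] at k3
  have hBU : ∫ t in (0 : ℝ)..T, ‖riemannZeta (1 / 2 + I * t)
      * ev t (NN a m p0 (Real.log T / A) 0 J)‖ ^ 2 ≤ B * U := by
    rw [hx] at k3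
    have e1 := (abs_le.mp k3).2
    rw [← hx] at e1
    have e2 : C3 * (|a| + x ^ (-c3)) * U ≤ C3 * (1 + 1) * U := by gcongr
    rw [hB]
    rw [← hx]
    linarith
  have key := assemble (B := B) (C2 := C2) (C4 := C4) (D3 := C3 * (|a| + x ^ (-c3)) * U)
    (D5 := s * T + Q / s) (D6 := 2 * T) hLV hC1 hT0.le hb0 (by linarith) hab hU0.le hU.symm hq hBU
    (by rw [hx] at k3 ⊢; exact k3) (fun l hl => ?_) hC2 k4
    (bad_N hLV hT0.le hs _ (by rw [hx] at *; exact k5)) (bad_F hLV hT0.le ha8)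
  swap
  · have e1 := k2 l (hl.trans hLV.LJ)
    rw [← hU] at e1
    exact e1
  -- collect
  have hD3 : C3 * (|a| + x ^ (-c3)) * U ≤ C3 * (|a| + q) * U := by gcongr
  have hD5 : s * T + Q / s ≤ (1 + C5) * (|a| + q) * U := by
    refine hs1.trans ?_
    have : x ^ (-(1 / 4) : ℝ) ≤ |a| + q := by linarith
    gcongr
  have hD6 : 2 * T ≤ 2 * (|a| + q) * U := by
    refine hs2.trans ?_
    have : x ^ (-(1 / 4) : ℝ) ≤ |a| + q := by linarith
    gcongr
  have key2 : |(∫ t in (0 : ℝ)..T, ‖riemannZeta (1 / 2 + I * t)‖ ^ (2 * (1 + a))) - U|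
      ≤ K * (|a| + q) * U := by
    refine key.trans ?_
    obtain ⟨R, hR⟩ : ∃ R, R = KP C1 b * (2 * C2 + 4 * C1 * Real.exp (4 * C1 * b)
      + Real.exp (2 * C1 * b) * B) := ⟨_, rfl⟩
    rw [← hR] at hK ⊢
    have hR0 : 0 ≤ R := by rw [hR]; positivity
    have r1 : 0 ≤ R * q * U := by positivity
    have r2 : 0 ≤ C4 * q * U := by positivity
    rw [hK]
    nlinarith only [hD3, hD5, hD6, r1, r2]
  obtain ⟨W, hW⟩ : ∃ W, W = T * Real.log T ^ ((1 + a) ^ 2) := ⟨_, rfl⟩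
  rw [← hW] at k6 ⊢
  have hW0 : 0 < W := by
    rw [hW, ← hx]; positivity
  have w1 : U * Real.exp (-(C6 * |a|)) ≤ W := by rw [mul_comm]; exact k6.1
  have w2 : W ≤ U * Real.exp (C6 * |a|) := by rw [mul_comm]; exact k6.2
  have w3 := close_exp hC6 ha1 hW0.le w1 w2
  have w4 : U ≤ Real.exp C6 * W := by
    have e3 : Real.exp (C6 * |a|) * Real.exp (-(C6 * |a|)) = 1 := by
      rw [← Real.exp_add, add_neg_cancel, Real.exp_zero]
    have e4 : Real.exp (C6 * |a|) ≤ Real.exp C6 :=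
      Real.exp_le_exp.mpr (mul_le_of_le_one_right hC6 ha1)
    calc U = Real.exp (C6 * |a|) * (U * Real.exp (-(C6 * |a|))) := by
          rw [mul_left_comm, e3, mul_one]
      _ ≤ Real.exp C6 * W := by gcongr
  have w5 := abs_sub_le (∫ t in (0 : ℝ)..T, ‖riemannZeta (1 / 2 + I * t)‖ ^ (2 * (1 + a))) U W
  refine w5.trans ((add_le_add key2 w3).trans ?_)
  rw [← hx, ← hqd]
  calc K * (|a| + q) * U + C6 * Real.exp C6 * |a| * W
      ≤ K * (|a| + q) * (Real.exp C6 * W) + C6 * Real.exp C6 * (|a| + q) * W := by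
        have : |a| ≤ |a| + q := by linarith
        gcongr
    _ = _ := by ring

end Zero

end Pool.Agent.Lib.MP_f9aece_nt_r3
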