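import Mathlib
import Pool.Agent.Lib.MP_f9aece_nt_r3.FinalOf
import Pool.Agent.Lib.MP_f9aece_nt_r3.Zero

/-!
S13: the moments of zeta near the exponent `2`, with a Lipschitz error.
-/

set_option autoImplicit false

namespace Pool.Agent.Lib.MP_f9aece_nt_r3

open MeasureTheory Set Filter Topology Complex
open Pool.Agent.Lib.MP_f9aece_nt

/-- **the moments near the exponent `2`** -/
theorem lipschitz : ∃ C c η : ℝ, 0 ≤ C ∧ 0 < c ∧ 0 < η ∧ ∀ x : ℝ, ∃ T0 : ℝ,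
    16 ≤ T0 ∧ ∀ T : ℝ, T0 ≤ T → ∀ β : ℝ, |β - 2| ≤ η →
    |Real.log (mom β x T / Real.log T ^ (β ^ 2 / 4))| ≤ C * (|β - 2| + Real.log T ^ (-c)) :=
  lipschitz_of Zero.lipschitz_zero

end Pool.Agent.Lib.MP_f9aece_nt_r3
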